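import Pool.Agent.Helper52.Tao.Defs

/-!
Block A1 (helper19): elementary bounds for the number of non-zero digits.
-/

set_option autoImplicit false

namespace Pool.Agent.Helper52.Tao

open Pool.Agent.Helper68.Moeller

theorem sum_range_nz {d : ℕ} (hd : 1 ≤ d) (f : ℕ → ℝ) :
    ∑ a ∈ Finset.range d, f (nz a) = f 0 + ((d : ℝ) - 1) * f 1 := by
  obtain ⟨e, rfl⟩ := Nat.exists_eq_add_of_le' hd
  rw [Finset.sum_range_succ']
  simp [nz]
  ring

theorem sum_pow_sg (d t : ℕ) (x : ℝ) (hd : 1 ≤ d) :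
    ∑ w ∈ W d t, x ^ sg w = (1 + ((d : ℝ) - 1) * x) ^ t := by
  induction t with
  | zero => rw [sum_W_zero]; simp
  | succ t ih =>
    rw [sum_W_succ]
    simp only [sg_cons, pow_add]
    simp_rw [← Finset.mul_sum, ih]
    rw [← Finset.sum_mul, pow_one, mul_comm]
    congr 1
    rw [sum_range_nz hd (fun i => x ^ i)]
    simp

/-- Markov. -/
theorem cW_le_sum {d t : ℕ} {P : List ℕ → Prop} {f : List ℕ → ℝ} (hf : ∀ w ∈ W d t, 0 ≤ f w)
    (h : ∀ w ∈ W d t, P w → 1 ≤ f w) : cW d t P ≤ ∑ w ∈ W d t, f w := by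
  classical
  rw [cW_eq_sum]
  refine Finset.sum_le_sum fun w hw => ?_
  by_cases h1 : P w
  · simpa [h1] using h w hw h1
  · simpa [h1] using hf w hw

/-- Chernoff, upper tail. -/
theorem chernoff {d : ℕ} (hd : 2 ≤ d) {θ a : ℝ} (hθ : 0 < θ) (ha : (1 - 1 / (d : ℝ)) * θ < a) :
    ∃ c : ℝ, 0 < c ∧ ∀ N t : ℕ, (t : ℝ) ≤ θ * N →
      cW d t (fun w => a * N ≤ (sg w : ℝ)) ≤ (d : ℝ) ^ t * Real.exp (-(c * N)) := by
  have hd' : (2 : ℝ) ≤ d := by exact_mod_cast hd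
  have hd0 : (0 : ℝ) < d := by linarith
  set q : ℝ := 1 - 1 / (d : ℝ) with hq
  have hq0 : 0 < q := by
    have : 1 / (d : ℝ) ≤ 1 / 2 := one_div_le_one_div_of_le (by norm_num) hd'
    linarith
  have hqd : (d : ℝ) * q = d - 1 := by rw [hq]; field_simp
  set p : ℝ := q * θ with hp
  have hp0 : 0 < p := mul_pos hq0 hθ
  obtain ⟨s, hs0, hs1, hs2⟩ : ∃ s : ℝ, 0 < s ∧ s ≤ 1 ∧ s * p ≤ (a - p) / 2 := by
    refine ⟨min 1 ((a - p) / (2 * p)), lt_min one_pos (div_pos (by linarith) (by linarith)),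
      min_le_left _ _, ?_⟩
    calc min 1 ((a - p) / (2 * p)) * p ≤ ((a - p) / (2 * p)) * p :=
          mul_le_mul_of_nonneg_right (min_le_right _ _) hp0.le
      _ = (a - p) / 2 := by field_simp
  have hexp : Real.exp s - 1 ≤ s + s ^ 2 := by
    have h := Real.abs_exp_sub_one_sub_id_le (x := s) (by rw [abs_of_pos hs0]; exact hs1)
    have := (abs_le.1 h).2
    linarith
  have hexp0 : 0 < Real.exp s - 1 := by
    have := Real.add_one_lt_exp hs0.ne'
    linarith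
  refine ⟨s * a - p * (Real.exp s - 1), ?_, ?_⟩
  · have h1 : p * (Real.exp s - 1) ≤ p * (s + s ^ 2) := mul_le_mul_of_nonneg_left hexp hp0.le
    have h2 : p * (s + s ^ 2) = s * (p + s * p) := by ring
    have h3 : s * (p + s * p) ≤ s * (p + (a - p) / 2) :=
      mul_le_mul_of_nonneg_left (by linarith) hs0.le
    have h4 : s * (p + (a - p) / 2) < s * a := mul_lt_mul_of_pos_left (by linarith) hs0
    linarith
  · intro N t ht
    have h1 : cW d t (fun w => a * N ≤ (sg w : ℝ)) ≤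
        ∑ w ∈ W d t, Real.exp (-(s * (a * N))) * (Real.exp s) ^ sg w := by
      refine cW_le_sum (fun w _ => by positivity) fun w _ hw => ?_
      rw [← Real.exp_nat_mul, ← Real.exp_add]
      rw [Real.one_le_exp_iff]
      have := mul_le_mul_of_nonneg_left hw hs0.le
      linarith
    refine h1.trans ?_
    rw [← Finset.mul_sum, sum_pow_sg d t _ (by omega)]
    have h2 : 1 + ((d : ℝ) - 1) * Real.exp s = d * (1 + q * (Real.exp s - 1)) := by
      rw [← hqd, mul_add, mul_one, ← mul_assoc, hqd]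
      ring
    have h3 : 1 + q * (Real.exp s - 1) ≤ Real.exp (q * (Real.exp s - 1)) := by
      have := Real.add_one_le_exp (q * (Real.exp s - 1))
      linarith
    have h3' : 0 ≤ 1 + q * (Real.exp s - 1) := by positivity
    have h4 : (1 + q * (Real.exp s - 1)) ^ t ≤ Real.exp (p * (Real.exp s - 1) * N) := by
      refine (pow_le_pow_left₀ h3' h3 t).trans ?_
      rw [← Real.exp_nat_mul, Real.exp_le_exp]
      have := mul_le_mul_of_nonneg_right ht (mul_pos hq0 hexp0).le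
      calc (t : ℝ) * (q * (Real.exp s - 1)) ≤ θ * N * (q * (Real.exp s - 1)) := this
        _ = p * (Real.exp s - 1) * N := by rw [hp]; ring
    rw [h2, mul_pow]
    calc Real.exp (-(s * (a * N))) * ((d : ℝ) ^ t * (1 + q * (Real.exp s - 1)) ^ t)
        ≤ Real.exp (-(s * (a * N))) * ((d : ℝ) ^ t * Real.exp (p * (Real.exp s - 1) * N)) := by
          gcongr
      _ = (d : ℝ) ^ t * (Real.exp (-(s * (a * N))) * Real.exp (p * (Real.exp s - 1) * N)) := by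
          ring
      _ = (d : ℝ) ^ t * Real.exp (-((s * a - p * (Real.exp s - 1)) * N)) := by
          rw [← Real.exp_add]
          congr 2
          ring

/-- Lower tail. -/
theorem few_nonzero {d : ℕ} (hd : 2 ≤ d) {t k : ℕ} (hk : 5 * k ≤ t) :
    cW d t (fun w => sg w < k) ≤ (d : ℝ) ^ t * (9 / 10) ^ t := by
  have hd' : (2 : ℝ) ≤ d := by exact_mod_cast hd
  have h1 : cW d t (fun w => sg w < k) ≤ ∑ w ∈ W d t, (2 : ℝ) ^ k * (1 / 2) ^ sg w := by
    refine cW_le_sum (fun w _ => by positivity) fun w _ hw => ?_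
    rw [one_div, inv_pow, ← div_eq_mul_inv, one_le_div (by positivity)]
    exact pow_le_pow_right₀ (by norm_num) hw.le
  refine h1.trans ?_
  rw [← Finset.mul_sum, sum_pow_sg d t _ (by omega)]
  have h2 : (1 + ((d : ℝ) - 1) * (1 / 2)) ^ t ≤ ((d : ℝ) * (3 / 4)) ^ t :=
    pow_le_pow_left₀ (by nlinarith) (by linarith) t
  have h3 : (2 : ℝ) ^ k ≤ (6 / 5) ^ t := by
    calc (2 : ℝ) ^ k ≤ ((6 / 5) ^ 5) ^ k := pow_le_pow_left₀ (by norm_num) (by norm_num) k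
      _ = (6 / 5) ^ (5 * k) := by rw [pow_mul]
      _ ≤ (6 / 5) ^ t := pow_le_pow_right₀ (by norm_num) hk
  calc (2 : ℝ) ^ k * (1 + ((d : ℝ) - 1) * (1 / 2)) ^ t
      ≤ (6 / 5) ^ t * ((d : ℝ) * (3 / 4)) ^ t :=
        mul_le_mul h3 h2 (pow_nonneg (by nlinarith) _) (by positivity)
    _ = (d : ℝ) ^ t * (9 / 10) ^ t := by
        rw [← mul_pow, ← mul_pow]
        congr 1
        ring

theorem sum_centered {d : ℕ} (hd : 1 ≤ d) (t : ℕ) :
    ∑ w ∈ W d t, ((sg w : ℝ) - (1 - 1 / (d : ℝ)) * t) = 0 := by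
  have hd0 : (d : ℝ) ≠ 0 := by positivity
  induction t with
  | zero => rw [sum_W_zero]; simp
  | succ t ih =>
    rw [sum_W_succ]
    have h1 : ∀ a ∈ Finset.range d, ∑ w ∈ W d t, (((sg (a :: w) : ℕ) : ℝ) -
        (1 - 1 / (d : ℝ)) * ((t + 1 : ℕ) : ℝ)) = (d : ℝ) ^ t * ((nz a : ℝ) - (1 - 1 / (d : ℝ))) := by
      intro a _
      have h2 : ∀ w ∈ W d t, (((sg (a :: w) : ℕ) : ℝ) - (1 - 1 / (d : ℝ)) * ((t + 1 : ℕ) : ℝ)) =
          ((nz a : ℝ) - (1 - 1 / (d : ℝ))) + ((sg w : ℝ) - (1 - 1 / (d : ℝ)) * t) := by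
        intro w _
        rw [sg_cons]
        push_cast
        ring
      rw [Finset.sum_congr rfl h2, Finset.sum_add_distrib, ih, add_zero, Finset.sum_const, card_W,
        nsmul_eq_mul]
      push_cast
      ring
    rw [Finset.sum_congr rfl h1, ← Finset.mul_sum,
      sum_range_nz hd (fun i => (i : ℝ) - (1 - 1 / (d : ℝ)))]
    have h3 : ((0 : ℕ) : ℝ) - (1 - 1 / (d : ℝ)) + ((d : ℝ) - 1) * (((1 : ℕ) : ℝ) - (1 - 1 / (d : ℝ))) = 0 := by
      push_cast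
      field_simp
      ring
    rw [h3, mul_zero]

theorem sum_sq_centered {d : ℕ} (hd : 1 ≤ d) (t : ℕ) :
    ∑ w ∈ W d t, ((sg w : ℝ) - (1 - 1 / (d : ℝ)) * t) ^ 2 =
      (t : ℝ) * ((1 - 1 / (d : ℝ)) * (1 / d)) * (d : ℝ) ^ t := by
  have hd0 : (d : ℝ) ≠ 0 := by positivity
  induction t with
  | zero => rw [sum_W_zero]; simp
  | succ t ih =>
    rw [sum_W_succ]
    have h1 : ∀ a ∈ Finset.range d, ∑ w ∈ W d t, (((sg (a :: w) : ℕ) : ℝ) -
        (1 - 1 / (d : ℝ)) * ((t + 1 : ℕ) : ℝ)) ^ 2 =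
        (d : ℝ) ^ t * ((nz a : ℝ) - (1 - 1 / (d : ℝ))) ^ 2 +
          (t : ℝ) * ((1 - 1 / (d : ℝ)) * (1 / d)) * (d : ℝ) ^ t := by
      intro a _
      have h2 : ∀ w ∈ W d t, (((sg (a :: w) : ℕ) : ℝ) - (1 - 1 / (d : ℝ)) * ((t + 1 : ℕ) : ℝ)) ^ 2 =
          ((nz a : ℝ) - (1 - 1 / (d : ℝ))) ^ 2 +
          2 * ((nz a : ℝ) - (1 - 1 / (d : ℝ))) * ((sg w : ℝ) - (1 - 1 / (d : ℝ)) * t) +
          ((sg w : ℝ) - (1 - 1 / (d : ℝ)) * t) ^ 2 := by
        intro w _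
        rw [sg_cons]
        push_cast
        ring
      rw [Finset.sum_congr rfl h2, Finset.sum_add_distrib, Finset.sum_add_distrib, ih,
        ← Finset.mul_sum, sum_centered hd, mul_zero, add_zero, Finset.sum_const, card_W,
        nsmul_eq_mul]
      push_cast
      ring
    rw [Finset.sum_congr rfl h1, Finset.sum_add_distrib, ← Finset.mul_sum,
      sum_range_nz hd (fun i => ((i : ℝ) - (1 - 1 / (d : ℝ))) ^ 2), Finset.sum_const,
      Finset.card_range, nsmul_eq_mul]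
    push_cast
    rw [pow_succ]
    field_simp
    ring

/-- Chebyshev. -/
theorem chebyshev {d : ℕ} (hd : 2 ≤ d) (t : ℕ) {R : ℝ} (hR : 0 < R) :
    cW d t (fun w => R < |(sg w : ℝ) - (1 - 1 / (d : ℝ)) * t|) ≤ (d : ℝ) ^ t * (t / R ^ 2) := by
  have hd' : (2 : ℝ) ≤ d := by exact_mod_cast hd
  have hd0 : (0 : ℝ) < d := by linarith
  have h1 : cW d t (fun w => R < |(sg w : ℝ) - (1 - 1 / (d : ℝ)) * t|) ≤
      ∑ w ∈ W d t, (1 / R ^ 2) * ((sg w : ℝ) - (1 - 1 / (d : ℝ)) * t) ^ 2 := by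
    refine cW_le_sum (fun w _ => by positivity) fun w _ hw => ?_
    rw [one_div, inv_mul_eq_div, one_le_div (by positivity), ← sq_abs ((sg w : ℝ) - _)]
    exact pow_le_pow_left₀ hR.le (le_of_lt hw) 2
  refine h1.trans ?_
  rw [← Finset.mul_sum, sum_sq_centered (by omega)]
  have h2 : (1 - 1 / (d : ℝ)) * (1 / d) ≤ 1 := by
    have h3 : 1 / (d : ℝ) ≤ 1 := by rw [div_le_one hd0]; linarith
    have h4 : 0 ≤ 1 / (d : ℝ) := by positivity
    nlinarith
  calc 1 / R ^ 2 * ((t : ℝ) * ((1 - 1 / (d : ℝ)) * (1 / d)) * (d : ℝ) ^ t)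
      ≤ 1 / R ^ 2 * ((t : ℝ) * 1 * (d : ℝ) ^ t) := by gcongr
    _ = (d : ℝ) ^ t * (t / R ^ 2) := by ring

end Pool.Agent.Helper52.Tao
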