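import Pool.Agent.Helper52.Tao.Defs

/-!
MP_fd8838_nt, log-free theorem, block C1: finite Fourier analysis on `ℤ / M` by hand.
-/

set_option autoImplicit false

namespace Pool.Agent.Helper52.Tao

open Pool.Agent.Helper68.Moeller ComplexConjugate

theorem ex_neg (x : ℝ) : ex (-x) = conj (ex x) := by
  unfold ex
  rw [← Complex.exp_conj]
  congr 1
  simp only [map_mul, Complex.conj_I, Complex.conj_ofReal, map_ofNat]
  push_cast
  ring

theorem ex_nat_mul (n : ℕ) (x : ℝ) : ex (n * x) = ex x ^ n := by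
  unfold ex
  rw [← Complex.exp_nat_mul]
  congr 1
  push_cast
  ring

theorem ex_eq_one_iff {M : ℕ} (hM : 0 < M) (k : ℤ) : ex ((k : ℝ) / M) = 1 ↔ (M : ℤ) ∣ k := by
  unfold ex
  have hM' : (M : ℂ) ≠ 0 := by exact_mod_cast hM.ne'
  have hpi : (Real.pi : ℂ) ≠ 0 := by exact_mod_cast Real.pi_ne_zero
  rw [Complex.exp_eq_one_iff]
  constructor
  · rintro ⟨n, hn⟩
    refine ⟨n, ?_⟩
    have h1 : (2 * (Real.pi : ℂ) * Complex.I) ≠ 0 := by
      simp [hpi, Complex.I_ne_zero]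
    have h2 : (2 * (Real.pi : ℂ) * Complex.I) * ((k : ℂ) / M) =
        (2 * (Real.pi : ℂ) * Complex.I) * n := by
      rw [mul_comm _ (n : ℂ), ← hn]
      push_cast
      ring
    have h3 := mul_left_cancel₀ h1 h2
    have h4 : (k : ℂ) = M * n := by
      rw [div_eq_iff hM'] at h3
      rw [h3]; ring
    exact_mod_cast h4
  · rintro ⟨n, rfl⟩
    refine ⟨n, ?_⟩
    push_cast
    field_simp

theorem sum_ex (M : ℕ) (hM : 0 < M) (k : ℤ) :
    ∑ ξ ∈ Finset.range M, ex ((ξ : ℝ) * k / M) = if (M : ℤ) ∣ k then (M : ℂ) else 0 := by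
  have h0 : ∀ ξ : ℕ, ex ((ξ : ℝ) * k / M) = ex ((k : ℝ) / M) ^ ξ := by
    intro ξ
    rw [← ex_nat_mul, mul_div_assoc]
  simp only [h0]
  have hM' : (M : ℝ) ≠ 0 := by exact_mod_cast hM.ne'
  split_ifs with h
  · rw [(ex_eq_one_iff hM k).2 h]
    simp
  · have h1 : ex ((k : ℝ) / M) ≠ 1 := fun h2 => h ((ex_eq_one_iff hM k).1 h2)
    rw [geom_sum_eq h1, ← ex_nat_mul, mul_div_cancel₀ _ hM', ex_int, sub_self, zero_div]

/-- Parseval on `ℤ / M`. -/
theorem parseval {ι : Type*} (M : ℕ) (hM : 0 < M) (s : Finset ι) (φ : ι → ℤ) (a : ι → ℂ)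
    (hφ : ∀ i ∈ s, ∀ j ∈ s, (M : ℤ) ∣ φ i - φ j → i = j) :
    ∑ ξ ∈ Finset.range M, ‖∑ i ∈ s, a i * ex (-((ξ : ℝ) * φ i / M))‖ ^ 2 =
      (M : ℝ) * ∑ i ∈ s, ‖a i‖ ^ 2 := by
  classical
  have key : ((∑ ξ ∈ Finset.range M, ‖∑ i ∈ s, a i * ex (-((ξ : ℝ) * φ i / M))‖ ^ 2 : ℝ) : ℂ) =
      (((M : ℝ) * ∑ i ∈ s, ‖a i‖ ^ 2 : ℝ) : ℂ) := by
    push_cast
    have h1 : ∀ z : ℂ, ((‖z‖ : ℂ)) ^ 2 = z * conj z := by
      intro z
      rw [Complex.mul_conj, Complex.normSq_eq_norm_sq]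
      push_cast; rfl
    simp only [h1, map_sum, map_mul, ex_neg, Complex.conj_conj]
    have h2 : ∀ ξ : ℕ, (∑ i ∈ s, a i * conj (ex ((ξ : ℝ) * φ i / M))) *
        (∑ j ∈ s, conj (a j) * ex ((ξ : ℝ) * φ j / M)) =
        ∑ i ∈ s, ∑ j ∈ s, a i * conj (a j) * ex ((ξ : ℝ) * ((φ j - φ i : ℤ) : ℝ) / M) := by
      intro ξ
      rw [Finset.sum_mul_sum]
      refine Finset.sum_congr rfl fun i _ => Finset.sum_congr rfl fun j _ => ?_
      have h3 : ex ((ξ : ℝ) * ((φ j - φ i : ℤ) : ℝ) / M) =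
          conj (ex ((ξ : ℝ) * φ i / M)) * ex ((ξ : ℝ) * φ j / M) := by
        rw [← ex_neg, ← ex_add]
        congr 1
        push_cast
        ring
      rw [h3]
      ring
    simp only [h2]
    rw [Finset.sum_comm, Finset.mul_sum]
    refine Finset.sum_congr rfl fun i hi => ?_
    rw [Finset.sum_comm]
    have h4 : ∀ j ∈ s, ∑ ξ ∈ Finset.range M,
        a i * conj (a j) * ex ((ξ : ℝ) * ((φ j - φ i : ℤ) : ℝ) / M) =
        if j = i then (M : ℂ) * (a i * conj (a i)) else 0 := by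
      intro j hj
      rw [← Finset.mul_sum, sum_ex M hM]
      by_cases h : j = i
      · subst h
        simp [mul_comm]
      · rw [if_neg h, if_neg fun h5 => h (hφ j hj i hi h5), mul_zero]
    rw [Finset.sum_congr rfl h4, Finset.sum_ite_eq' s i, if_pos hi]
  exact_mod_cast key

/-- `L¹` norms and Fourier coefficients on `ℤ / M`. -/
theorem sq_l1_le (M : ℕ) (hM : 0 < M) (h : ℕ → ℝ) :
    (∑ X ∈ Finset.range M, |h X|) ^ 2 ≤
      ∑ ξ ∈ Finset.range M, ‖∑ X ∈ Finset.range M, (h X : ℂ) * ex (-((ξ : ℝ) * X / M))‖ ^ 2 := by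
  have h1 := parseval M hM (Finset.range M) (fun X => (X : ℤ)) (fun X => (h X : ℂ))
    (by
      intro i hi j hj hd
      have hi' := Finset.mem_range.1 hi
      have hj' := Finset.mem_range.1 hj
      obtain ⟨c, hc⟩ := hd
      have hc0 : c = 0 := by
        by_contra hne
        have h3 : (M : ℤ) ≤ |(i : ℤ) - j| := by
          rw [hc, abs_mul, Nat.abs_cast]
          exact le_mul_of_one_le_right (by positivity) (Int.one_le_abs hne)
        have h4 : |(i : ℤ) - j| < M := by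
          rw [abs_lt]; constructor <;> omega
        omega
      rw [hc0, mul_zero] at hc
      omega)
  simp only [Int.cast_natCast] at h1
  rw [h1]
  have h2 := sq_sum_le_card_mul_sum_sq (s := Finset.range M) (f := fun X => |h X|)
  rw [Finset.card_range] at h2
  refine h2.trans (le_of_eq ?_)
  congr 1
  refine Finset.sum_congr rfl fun X _ => ?_
  simp

/-- The mean square of an exponential sum over a finite set whose frequencies are distinct modulo
`M`. -/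
theorem sum_norm_sq_le {ι : Type*} (M : ℕ) (hM : 0 < M) (s : Finset ι) (φ : ι → ℤ)
    (hφ : ∀ i ∈ s, ∀ j ∈ s, (M : ℤ) ∣ φ i - φ j → i = j) :
    ∑ ξ ∈ Finset.range M, ‖∑ i ∈ s, ex (-((ξ : ℝ) * φ i / M))‖ ^ 2 ≤ (M : ℝ) * s.card := by
  have h1 := parseval M hM s φ (fun _ => 1) hφ
  simp only [one_mul, norm_one, one_pow, Finset.sum_const, nsmul_eq_mul, mul_one] at h1
  exact h1.le

end Pool.Agent.Helper52.Tao
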