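import Pool.Agent.Helper52.Tao.A1

/-!
Block C2 (helper19): large offsets are rare; words are determined by their offset.
-/

set_option autoImplicit false

namespace Pool.Agent.Helper52.Tao

open Pool.Agent.Helper68.Moeller

/-- The exponent of the fractional moment. -/
theorem exists_kappa {d m : ℕ} (hd : 2 ≤ d) (hdm : d < m) (hco : Nat.Coprime m d)
    (hm : (m : ℝ) ≤ (d : ℝ) ^ ((d : ℝ) / ((d : ℝ) - 1))) :
    ∃ κ : ℝ, 0 < κ ∧ κ ≤ 1 ∧ 1 + ((d : ℝ) - 1) * (m : ℝ) ^ κ < d * (d : ℝ) ^ κ := by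
  have h1 := log_d_pos hd
  have h2 := log_m_gt hd hdm
  have h3 := log_m_lt hd hdm hco hm
  have hd' : (2 : ℝ) ≤ d := by exact_mod_cast hd
  have hd0 : (0 : ℝ) < d := by linarith
  have hm0 : (0 : ℝ) < m := by
    have : 0 < m := by omega
    exact_mod_cast this
  set x := Real.log m with hx
  set y := Real.log d with hy
  have hx0 : 0 < x := h1.trans h2
  set δ := (d : ℝ) * y - ((d : ℝ) - 1) * x with hδ
  have hδ0 : 0 < δ := by linarith
  have hz0 : 0 < ((d : ℝ) - 1) * x ^ 2 := mul_pos (by linarith) (by positivity)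
  obtain ⟨κ, hk0, hk1, hk2, hk3⟩ : ∃ κ : ℝ, 0 < κ ∧ κ ≤ 1 ∧ κ * x ≤ 1 ∧
      κ * (((d : ℝ) - 1) * x ^ 2) ≤ δ / 2 := by
    refine ⟨min 1 (min (1 / x) (δ / 2 / (((d : ℝ) - 1) * x ^ 2))),
      lt_min one_pos (lt_min (by positivity) (by positivity)), min_le_left _ _, ?_, ?_⟩
    · have h4 : min 1 (min (1 / x) (δ / 2 / (((d : ℝ) - 1) * x ^ 2))) ≤ 1 / x :=
        (min_le_right _ _).trans (min_le_left _ _)
      calc _ ≤ 1 / x * x := mul_le_mul_of_nonneg_right h4 hx0.le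
        _ = 1 := by field_simp
    · have h4 : min 1 (min (1 / x) (δ / 2 / (((d : ℝ) - 1) * x ^ 2))) ≤
          δ / 2 / (((d : ℝ) - 1) * x ^ 2) := (min_le_right _ _).trans (min_le_right _ _)
      calc _ ≤ δ / 2 / (((d : ℝ) - 1) * x ^ 2) * (((d : ℝ) - 1) * x ^ 2) :=
            mul_le_mul_of_nonneg_right h4 hz0.le
        _ = δ / 2 := div_mul_cancel₀ _ hz0.ne'
  refine ⟨κ, hk0, hk1, ?_⟩
  have hkx : 0 < κ * x := mul_pos hk0 hx0
  have e1 : (m : ℝ) ^ κ ≤ 1 + κ * x + (κ * x) ^ 2 := by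
    rw [Real.rpow_def_of_pos hm0, mul_comm (Real.log m) κ, ← hx]
    have h := Real.abs_exp_sub_one_sub_id_le (x := κ * x) (by rw [abs_of_pos hkx]; exact hk2)
    have := (abs_le.1 h).2
    linarith
  have e2 : 1 + κ * y ≤ (d : ℝ) ^ κ := by
    rw [Real.rpow_def_of_pos hd0, mul_comm (Real.log d) κ, ← hy]
    have := Real.add_one_le_exp (κ * y)
    linarith
  have e3 : ((d : ℝ) - 1) * (m : ℝ) ^ κ ≤ ((d : ℝ) - 1) * (1 + κ * x + (κ * x) ^ 2) :=
    mul_le_mul_of_nonneg_left e1 (by linarith)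
  have e4 : (d : ℝ) * (1 + κ * y) ≤ d * (d : ℝ) ^ κ := mul_le_mul_of_nonneg_left e2 hd0.le
  have e5 : κ * (κ * (((d : ℝ) - 1) * x ^ 2)) ≤ κ * (δ / 2) := mul_le_mul_of_nonneg_left hk3 hk0.le
  have e6 : 0 < κ * δ := mul_pos hk0 hδ0
  have e7 : ((d : ℝ) - 1) * (1 + κ * x + (κ * x) ^ 2) =
      d - 1 + κ * (((d : ℝ) - 1) * x) + κ * (κ * (((d : ℝ) - 1) * x ^ 2)) := by ring
  have e8 : κ * δ = κ * (d * y) - κ * (((d : ℝ) - 1) * x) := by rw [hδ]; ring
  nlinarith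

/-- The moment of order `κ` of the offset. -/
theorem moment_le {d m : ℕ} (hd : 2 ≤ d) (hdm : d < m) {r : ℤ → ℤ} {B : ℕ} (hB1 : 1 ≤ B)
    (hB : ∀ j : ℤ, 0 < j → j < (d : ℤ) → |r j| ≤ B) {κ : ℝ} (hk0 : 0 < κ) (hk1 : κ ≤ 1)
    {C : ℝ} (hC0 : 0 < C)
    (hC : C * ((1 + ((d : ℝ) - 1) * (m : ℝ) ^ κ) / (d * (d : ℝ) ^ κ)) + 1 ≤ C) (t : ℕ) :
    ∑ w ∈ W d t, (|(Off d m r w : ℝ)| / (B * (d : ℝ) ^ t)) ^ κ ≤ C * (d : ℝ) ^ t := by
  have hd' : (2 : ℝ) ≤ d := by exact_mod_cast hd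
  have hd0 : (0 : ℝ) < d := by linarith
  have hm0 : (0 : ℝ) < m := by
    have : 0 < m := by omega
    exact_mod_cast this
  have hB0 : (0 : ℝ) < B := by exact_mod_cast hB1
  induction t with
  | zero =>
    rw [sum_W_zero]
    simp only [Off, Int.cast_zero, abs_zero, zero_div, pow_zero, mul_one]
    rw [Real.zero_rpow hk0.ne']
    exact hC0.le
  | succ t ih =>
    rw [sum_W_succ]
    have h1 : ∀ a ∈ Finset.range d, ∀ w ∈ W d t,
        (|(Off d m r (a :: w) : ℝ)| / (B * (d : ℝ) ^ (t + 1))) ^ κ ≤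
          ((m : ℝ) ^ κ) ^ nz a / (d : ℝ) ^ κ * (|(Off d m r w : ℝ)| / (B * (d : ℝ) ^ t)) ^ κ + 1 := by
      intro a ha w hw
      have ha' : a < d := Finset.mem_range.1 ha
      have h2 : |(Off d m r (a :: w) : ℝ)| ≤ (m : ℝ) ^ nz a * |(Off d m r w : ℝ)| + d ^ t * B := by
        rw [Off, length_of_mem_W hw]
        push_cast
        refine (abs_add_le _ _).trans ?_
        rw [abs_mul, abs_mul, abs_of_nonneg (by positivity : (0 : ℝ) ≤ (m : ℝ) ^ nz a),
          abs_of_nonneg (by positivity : (0 : ℝ) ≤ (d : ℝ) ^ t)]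
        have h3 : |(rr r a : ℝ)| ≤ B := by exact_mod_cast abs_rr_le hB ha'
        gcongr
      set x := |(Off d m r w : ℝ)| / (B * (d : ℝ) ^ t) with hx
      have hx0 : 0 ≤ x := by positivity
      have h4 : |(Off d m r (a :: w) : ℝ)| / (B * (d : ℝ) ^ (t + 1)) ≤
          (m : ℝ) ^ nz a / d * x + 1 / d := by
        rw [div_le_iff₀ (by positivity)]
        refine h2.trans (le_of_eq ?_)
        rw [hx, pow_succ]
        field_simp
      have h5 : (|(Off d m r (a :: w) : ℝ)| / (B * (d : ℝ) ^ (t + 1))) ^ κ ≤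
          ((m : ℝ) ^ nz a / d * x + 1 / d) ^ κ :=
        Real.rpow_le_rpow (by positivity) h4 hk0.le
      have h6 := Real.rpow_add_le_add_rpow (a := (m : ℝ) ^ nz a / d * x) (b := 1 / d)
        (by positivity) (by positivity) hk0.le hk1
      have h7 : ((m : ℝ) ^ nz a / d * x) ^ κ = ((m : ℝ) ^ κ) ^ nz a / (d : ℝ) ^ κ * x ^ κ := by
        rw [Real.mul_rpow (by positivity) hx0, Real.div_rpow (by positivity) hd0.le]
        congr 2
        rw [← Real.rpow_natCast, ← Real.rpow_mul hm0.le, ← Real.rpow_natCast, ← Real.rpow_mul hm0.le,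
          mul_comm]
      have h8 : (1 / (d : ℝ)) ^ κ ≤ 1 :=
        Real.rpow_le_one (by positivity) (by rw [div_le_one hd0]; linarith) hk0.le
      rw [h7] at h6
      linarith
    have h2 : ∑ a ∈ Finset.range d, ∑ w ∈ W d t,
        (|(Off d m r (a :: w) : ℝ)| / (B * (d : ℝ) ^ (t + 1))) ^ κ ≤
        ∑ a ∈ Finset.range d, (((m : ℝ) ^ κ) ^ nz a / (d : ℝ) ^ κ * (C * (d : ℝ) ^ t) + d ^ t) := by
      refine Finset.sum_le_sum fun a ha => ?_
      refine (Finset.sum_le_sum (h1 a ha)).trans ?_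
      rw [Finset.sum_add_distrib, ← Finset.mul_sum, Finset.sum_const, card_W, nsmul_eq_mul, mul_one]
      push_cast
      gcongr
    refine h2.trans ?_
    rw [Finset.sum_add_distrib, Finset.sum_const, Finset.card_range, nsmul_eq_mul,
      sum_range_nz (by omega) (fun i => ((m : ℝ) ^ κ) ^ i / (d : ℝ) ^ κ * (C * (d : ℝ) ^ t))]
    have hdk : (0 : ℝ) < (d : ℝ) ^ κ := by positivity
    have h3 : ((m : ℝ) ^ κ) ^ 0 / (d : ℝ) ^ κ * (C * (d : ℝ) ^ t) +
        ((d : ℝ) - 1) * (((m : ℝ) ^ κ) ^ 1 / (d : ℝ) ^ κ * (C * (d : ℝ) ^ t)) + d * (d : ℝ) ^ t =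
        (C * ((1 + ((d : ℝ) - 1) * (m : ℝ) ^ κ) / (d * (d : ℝ) ^ κ)) + 1) * (d : ℝ) ^ (t + 1) := by
      rw [pow_zero, pow_one, pow_succ]
      field_simp
    rw [h3]
    exact mul_le_mul_of_nonneg_right hC (by positivity)

/-- Large offsets are rare. -/
theorem off_tail {d m : ℕ} (hd : 2 ≤ d) (hdm : d < m) (hco : Nat.Coprime m d)
    (hm : (m : ℝ) ≤ (d : ℝ) ^ ((d : ℝ) / ((d : ℝ) - 1))) {r : ℤ → ℤ} {B : ℕ} (hB1 : 1 ≤ B)
    (hB : ∀ j : ℤ, 0 < j → j < (d : ℤ) → |r j| ≤ B) :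
    ∃ κ C : ℝ, 0 < κ ∧ 0 < C ∧ ∀ (t : ℕ) (Λ : ℝ), 1 ≤ Λ →
      cW d t (fun w => B * Λ * (d : ℝ) ^ t < |(Off d m r w : ℝ)|) ≤ C * (d : ℝ) ^ t * Λ ^ (-κ) := by
  obtain ⟨κ, hk0, hk1, hk⟩ := exists_kappa hd hdm hco hm
  have hd' : (2 : ℝ) ≤ d := by exact_mod_cast hd
  have hd0 : (0 : ℝ) < d := by linarith
  have hm0 : (0 : ℝ) < m := by
    have : 0 < m := by omega
    exact_mod_cast this
  have hB0 : (0 : ℝ) < B := by exact_mod_cast hB1
  set ρ : ℝ := (1 + ((d : ℝ) - 1) * (m : ℝ) ^ κ) / (d * (d : ℝ) ^ κ) with hρ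
  have hρ1 : ρ < 1 := by
    rw [hρ, div_lt_one (by positivity)]
    exact hk
  refine ⟨κ, 1 / (1 - ρ), hk0, div_pos one_pos (by linarith), fun t Λ hΛ => ?_⟩
  have hΛ0 : 0 < Λ := by linarith
  have hC : 1 / (1 - ρ) * ρ + 1 ≤ 1 / (1 - ρ) := by
    have h1 : (1 - ρ) ≠ 0 := by linarith
    apply le_of_eq
    field_simp
    ring
  have hmom := moment_le hd hdm hB1 hB hk0 hk1 (C := 1 / (1 - ρ)) (div_pos one_pos (by linarith)) hC t
  have h1 : cW d t (fun w => B * Λ * (d : ℝ) ^ t < |(Off d m r w : ℝ)|) ≤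
      ∑ w ∈ W d t, Λ ^ (-κ) * (|(Off d m r w : ℝ)| / (B * (d : ℝ) ^ t)) ^ κ := by
    refine cW_le_sum (fun w _ => by positivity) fun w _ hw => ?_
    have h2 : Λ ≤ |(Off d m r w : ℝ)| / (B * (d : ℝ) ^ t) := by
      rw [le_div_iff₀ (by positivity)]
      refine le_of_lt ?_
      calc Λ * (B * (d : ℝ) ^ t) = B * Λ * (d : ℝ) ^ t := by ring
        _ < _ := hw
    have h3 : Λ ^ κ ≤ (|(Off d m r w : ℝ)| / (B * (d : ℝ) ^ t)) ^ κ :=
      Real.rpow_le_rpow hΛ0.le h2 hk0.le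
    calc (1 : ℝ) = Λ ^ (-κ) * Λ ^ κ := by
          rw [← Real.rpow_add hΛ0]; simp
      _ ≤ _ := mul_le_mul_of_nonneg_left h3 (by positivity)
  refine h1.trans ?_
  rw [← Finset.mul_sum]
  calc Λ ^ (-κ) * _ ≤ Λ ^ (-κ) * (1 / (1 - ρ) * (d : ℝ) ^ t) :=
        mul_le_mul_of_nonneg_left hmom (by positivity)
    _ = _ := by ring

/-- Words of the same length with the same number of non-zero digits are determined by their
offset. -/
theorem Off_inj {d m : ℕ} (hd : 2 ≤ d) (hco : Nat.Coprime m d) {r : ℤ → ℤ}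
    (hr : Admissible d m r) {t : ℕ} {u v : List ℕ} (hu : u ∈ W d t) (hv : v ∈ W d t)
    (hs : sg u = sg v) (h : Off d m r u = Off d m r v) : u = v := by
  induction t generalizing u v with
  | zero =>
    have h1 := length_of_mem_W hu
    have h2 := length_of_mem_W hv
    rw [List.length_eq_zero_iff] at h1 h2
    rw [h1, h2]
  | succ t ih =>
    have hrr : ∀ a : ℕ, a < d → ∀ n : ℕ,
        (m : ℤ) ^ n * rr r a ≡ (m : ℤ) ^ (n + nz a) * a [ZMOD (d : ℤ)] := by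
      intro a ha n
      by_cases h0 : a = 0
      · subst h0
        simp
      · rw [rr_of_ne h0, nz_of_ne h0, pow_succ, mul_assoc]
        exact Int.ModEq.mul_left _ (hr a (by omega) (by exact_mod_cast ha))
    obtain ⟨u', a, rfl⟩ : ∃ u' a, u = u' ++ [a] := by
      have h1 : u ≠ [] := by
        intro h1
        have := length_of_mem_W hu
        rw [h1] at this
        simp at this
      exact ⟨u.dropLast, u.getLast h1, (List.dropLast_append_getLast h1).symm⟩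
    obtain ⟨v', b, rfl⟩ : ∃ v' b, v = v' ++ [b] := by
      have h1 : v ≠ [] := by
        intro h1
        have := length_of_mem_W hv
        rw [h1] at this
        simp at this
      exact ⟨v.dropLast, v.getLast h1, (List.dropLast_append_getLast h1).symm⟩
    obtain ⟨hu1, hu2⟩ := mem_W.1 hu
    obtain ⟨hv1, hv2⟩ := mem_W.1 hv
    have ha : a < d := hu2 a (by simp)
    have hb : b < d := hv2 b (by simp)
    have hu' : u' ∈ W d t := mem_W.2 ⟨by simpa using hu1, fun x hx => hu2 x (by simp [hx])⟩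
    have hv' : v' ∈ W d t := mem_W.2 ⟨by simpa using hv1, fun x hx => hv2 x (by simp [hx])⟩
    rw [Off_append, Off_append] at h
    simp only [Off, List.length_cons, List.length_nil, pow_one, mul_zero, zero_add, pow_zero,
      one_mul] at h
    have hd0 : (d : ℤ) ≠ 0 := by
      have : 0 < d := by omega
      exact_mod_cast this.ne'
    have hs' : sg u' + nz a = sg v' + nz b := by simpa using hs
    have hmod : (m : ℤ) ^ (sg u' + nz a) * a ≡ (m : ℤ) ^ (sg u' + nz a) * b [ZMOD (d : ℤ)] := by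
      have h1 := hrr a ha (sg u')
      have h2 := hrr b hb (sg v')
      rw [← hs'] at h2
      refine h1.symm.trans (Int.ModEq.trans ?_ h2)
      have h3 : (m : ℤ) ^ sg u' * rr r a =
          (m : ℤ) ^ sg v' * rr r b + d * (Off d m r v' - Off d m r u') := by linarith
      rw [h3]
      exact Int.modEq_iff_dvd.2 ⟨-(Off d m r v' - Off d m r u'), by ring⟩
    have hab : a = b := by
      have h1 : (d : ℤ) ∣ (m : ℤ) ^ (sg u' + nz a) * ((b : ℤ) - a) := by
        rw [mul_sub]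
        exact hmod.dvd
      have h2 : IsCoprime (d : ℤ) ((m : ℤ) ^ (sg u' + nz a)) :=
        (Nat.isCoprime_iff_coprime.2 hco.symm).pow_right
      have h3 : (d : ℤ) ∣ (b : ℤ) - a := h2.dvd_of_dvd_mul_left h1
      have h4 : ((b : ℤ) - a) = 0 := by
        refine Int.eq_zero_of_abs_lt_dvd h3 ?_
        rw [abs_lt]
        constructor <;> omega
      omega
    subst hab
    have hs2 : sg u' = sg v' := by omega
    rw [hs2] at h
    have h5 : (d : ℤ) * Off d m r u' = d * Off d m r v' := by linarith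
    have h6 := mul_left_cancel₀ hd0 h5
    rw [ih hu' hv' hs2 h6]

end Pool.Agent.Helper52.Tao
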