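import Pool.Agent.Helper52.Tao.Defs

/-!
Block R1 (helper17) for the log-free theorem on Möller maps (MP_fd8838_nt): the gain at a white
point, and the bound of the exponential sums by weighted path counts.
-/

set_option autoImplicit false

namespace Pool.Agent.Helper52.Tao

open Pool.Agent.Helper68.Moeller

theorem norm_one_add_ex (θ : ℝ) : ‖1 + ex θ‖ = 2 * |Real.cos (Real.pi * θ)| := by
  have h1 : (1 : ℂ) + ex θ = Complex.exp ((Real.pi * θ : ℝ) * Complex.I) *
      ((2 * Real.cos (Real.pi * θ) : ℝ) : ℂ) := by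
    have h2 : ((2 * Real.cos (Real.pi * θ) : ℝ) : ℂ) =
        Complex.exp ((Real.pi * θ : ℝ) * Complex.I) + Complex.exp (-(Real.pi * θ : ℝ) * Complex.I) := by
      rw [← Complex.two_cos]
      push_cast
      ring
    rw [h2, mul_add, ← Complex.exp_add, ← Complex.exp_add, add_comm]
    congr 1
    · unfold ex
      congr 1
      push_cast
      ring
    · rw [show ((Real.pi * θ : ℝ) : ℂ) * Complex.I + -((Real.pi * θ : ℝ) : ℂ) * Complex.I = 0 by ring,
        Complex.exp_zero]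
  rw [h1, norm_mul, Complex.norm_exp_ofReal_mul_I, one_mul, Complex.norm_real, Real.norm_eq_abs,
    abs_mul, abs_two]

/-- The gain at a white point. -/
theorem white_gain {d m N K₀ : ℕ} (hd : 2 ≤ d) (hm : 2 ≤ m) (hK : 2 ≤ K₀) {r1 e ζ : ℤ}
    (he : (m : ℤ) ^ N ∣ (d : ℤ) * e - 1) {s k : ℕ}
    (hW : White (d ^ 2) m N K₀ (ζ * (r1 * ((d : ℤ) - 1))) s k) {x : ℝ}
    (hx : x = (ζ : ℝ) * (e : ℝ) ^ (2 * k) * (m : ℝ) ^ s / (m : ℝ) ^ N) :
    ‖ex (x * (e : ℝ) ^ 2 * r1) + ex (x * e * r1)‖ ≤ 2 * Real.cos (Real.pi / K₀) := by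
  have hsN : s < N := by
    by_contra hcon
    push Not at hcon
    apply hW
    refine ⟨0, ?_, ?_⟩
    · rw [Nat.sub_eq_zero_of_le hcon, pow_zero]
      exact one_dvd _
    · rw [abs_zero, mul_zero]
      positivity
  have hm0 : (0 : ℝ) < m := by positivity
  set M : ℕ := m ^ (N - s) with hM
  have hMpos : 0 < M := by positivity
  have hMr : (0 : ℝ) < M := by exact_mod_cast hMpos
  have hMM : (m : ℝ) ^ N = (M : ℝ) * (m : ℝ) ^ s := by
    rw [hM]
    push_cast
    rw [← pow_add, Nat.sub_add_cancel hsN.le]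
  have hx' : x = (ζ : ℝ) * (e : ℝ) ^ (2 * k) / M := by
    rw [hx, hMM]
    field_simp
  set a : ℤ := ζ * e ^ (2 * k) * (e ^ 2 - e) * r1 with ha
  have h1 : x * (e : ℝ) ^ 2 * r1 = x * e * r1 + (a : ℝ) / M := by
    rw [ha, hx']
    push_cast
    field_simp
    ring
  rw [h1, ex_add]
  rw [show ex (x * e * r1) * ex ((a : ℝ) / M) + ex (x * e * r1) =
    ex (x * e * r1) * (1 + ex ((a : ℝ) / M)) by ring, norm_mul, norm_ex, one_mul]
  -- the centred residue
  set z : ℤ := a - M * round ((a : ℝ) / M) with hz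
  have hz1 : (M : ℤ) ∣ a - z := ⟨round ((a : ℝ) / M), by rw [hz]; ring⟩
  rw [ex_congr hMpos hz1, norm_one_add_ex]
  have hz2 : |(z : ℝ)| ≤ M / 2 := by
    have h2 := abs_sub_round ((a : ℝ) / M)
    have h3 : (z : ℝ) = M * ((a : ℝ) / M - round ((a : ℝ) / M)) := by
      rw [hz]
      push_cast
      field_simp
    rw [h3, abs_mul, abs_of_pos hMr]
    calc (M : ℝ) * |(a : ℝ) / M - round ((a : ℝ) / M)| ≤ M * (1 / 2) :=
          mul_le_mul_of_nonneg_left h2 hMr.le
      _ = M / 2 := by ring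
  have hbig : (M : ℝ) < K₀ * |(z : ℝ)| := by
    by_contra hcon
    push Not at hcon
    apply hW
    refine ⟨-z, ?_, ?_⟩
    · have hMe : (M : ℤ) ∣ (d : ℤ) * e - 1 := by
        refine dvd_trans ?_ he
        rw [hM]
        push_cast
        exact pow_dvd_pow _ (Nat.sub_le _ _)
      have h4 : (m : ℤ) ^ (N - s) = (M : ℤ) := by rw [hM]; push_cast; rfl
      rw [h4]
      -- compare with a
      have h5 : (M : ℤ) ∣ (((d ^ 2 : ℕ) : ℤ) ^ (k + 1 + 0)) * (a - z) := Dvd.dvd.mul_left hz1 _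
      have h6 : (M : ℤ) ∣ (((d ^ 2 : ℕ) : ℤ) ^ (k + 1 + 0)) * (-a) - ζ * (r1 * ((d : ℤ) - 1)) := by
        have h7 : (M : ℤ) ∣ ((d : ℤ) * e) ^ (2 * k) - 1 := by
          refine hMe.trans ?_
          simpa using sub_dvd_pow_sub_pow ((d : ℤ) * e) 1 (2 * k)
        have h8 : (((d ^ 2 : ℕ) : ℤ) ^ (k + 1 + 0)) * (-a) - ζ * (r1 * ((d : ℤ) - 1)) =
            ζ * r1 * ((d : ℤ) * e * ((d : ℤ) - (d : ℤ) * e)) * (((d : ℤ) * e) ^ (2 * k) - 1) +
            ζ * r1 * ((d : ℤ) - (d : ℤ) * e - 1) * ((d : ℤ) * e - 1) := by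
          rw [ha]
          push_cast
          rw [add_zero, mul_pow]
          ring
        rw [h8]
        exact dvd_add (Dvd.dvd.mul_left h7 _) (Dvd.dvd.mul_left hMe _)
      have h9 := dvd_add h5 h6
      have h10 : (((d ^ 2 : ℕ) : ℤ) ^ (k + 1 + 0)) * (a - z) +
          ((((d ^ 2 : ℕ) : ℤ) ^ (k + 1 + 0)) * (-a) - ζ * (r1 * ((d : ℤ) - 1))) =
          (((d ^ 2 : ℕ) : ℤ) ^ (k + 1 + 0)) * (-z) - ζ * (r1 * ((d : ℤ) - 1)) := by ring
      rwa [h10] at h9
    · rw [abs_neg, pow_zero, mul_one]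
      have h4 : (m : ℤ) ^ (N - s) = (M : ℤ) := by rw [hM]; push_cast; rfl
      rw [h4]
      have h5 : ((K₀ : ℝ)) * |(z : ℝ)| = (((K₀ : ℤ) * |z| : ℤ) : ℝ) := by push_cast; rfl
      rw [h5] at hcon
      exact_mod_cast hcon
  have hK' : (0 : ℝ) < K₀ := by positivity
  have hθ : |Real.cos (Real.pi * ((z : ℝ) / M))| = Real.cos (Real.pi * (|(z : ℝ)| / M)) := by
    have h1 : Real.cos (Real.pi * ((z : ℝ) / M)) = Real.cos (Real.pi * (|(z : ℝ)| / M)) := by
      rw [← Real.cos_abs (Real.pi * ((z : ℝ) / M)), abs_mul, abs_div, abs_of_pos Real.pi_pos,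
        abs_of_pos hMr]
    rw [h1]
    apply abs_of_nonneg
    apply Real.cos_nonneg_of_neg_pi_div_two_le_of_le
    · have : 0 ≤ Real.pi * (|(z : ℝ)| / M) := by positivity
      linarith [Real.pi_pos]
    · have h2 : |(z : ℝ)| / M ≤ 1 / 2 := by
        rw [div_le_iff₀ hMr]
        linarith
      nlinarith [Real.pi_pos]
  rw [hθ]
  have h3 : 1 / (K₀ : ℝ) ≤ |(z : ℝ)| / M := by
    rw [div_le_div_iff₀ hK' hMr]
    linarith
  have h4 : |(z : ℝ)| / M ≤ 1 / 2 := by
    rw [div_le_iff₀ hMr]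
    linarith
  have h5 : Real.cos (Real.pi * (|(z : ℝ)| / M)) ≤ Real.cos (Real.pi / K₀) := by
    apply Real.cos_le_cos_of_nonneg_of_le_pi
    · positivity
    · nlinarith [Real.pi_pos]
    · calc Real.pi / K₀ = Real.pi * (1 / K₀) := by ring
        _ ≤ _ := mul_le_mul_of_nonneg_left h3 Real.pi_pos.le
  linarith

theorem Gs_eq_ite (d m : ℕ) (r : ℤ → ℤ) (e : ℤ) (t s S : ℕ) (x : ℝ) :
    Gs d m r e t s S x = ∑ w ∈ W d t, if s + sg w = S then ex (-(x * F m r e w)) else 0 := by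
  rw [Gs, Finset.sum_filter]

/-- One digit. -/
theorem Gs_succ (d m : ℕ) (r : ℤ → ℤ) (e : ℤ) (t s S : ℕ) (x : ℝ) :
    Gs d m r e (t + 1) s S x = ∑ a ∈ Finset.range d,
      ex (x * e * rr r a) * Gs d m r e t (s + nz a) S (x * e * (m : ℝ) ^ nz a) := by
  rw [Gs_eq_ite, sum_W_succ]
  refine Finset.sum_congr rfl fun a _ => ?_
  rw [Gs_eq_ite, Finset.mul_sum]
  refine Finset.sum_congr rfl fun w _ => ?_
  rw [sg_cons, ← add_assoc]
  split_ifs with h
  · rw [← ex_add]
    congr 1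
    rw [F]
    push_cast
    ring
  · rw [mul_zero]

theorem ite_range {M : Type*} [AddCommMonoid M] (d : ℕ) (hd : 1 ≤ d) (f : ℕ → M) :
    ∑ a ∈ Finset.range d, f a = f 0 + ∑ a ∈ Finset.Ico 1 d, f a := by
  rw [Finset.range_eq_Ico, Finset.sum_eq_sum_Ico_succ_bot (by omega)]

/-- The exponential sums are bounded by the weighted path counts. -/
theorem Gs_le_Mj {d m N K₀ : ℕ} (hd : 2 ≤ d) (hm : 2 ≤ m) (hK : 2 ≤ K₀) {r : ℤ → ℤ} {e ζ : ℤ}
    (he : (m : ℤ) ^ N ∣ (d : ℤ) * e - 1) (S t : ℕ) (f : ℕ → ℝ) (L : ℕ) :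
    ∀ s k : ℕ, (∀ s' : ℕ, ‖Gs d m r e t s' S
        ((ζ : ℝ) * (e : ℝ) ^ (2 * (k + L)) * (m : ℝ) ^ s' / (m : ℝ) ^ N)‖ ≤ f s') →
      ‖Gs d m r e (2 * L + t) s S ((ζ : ℝ) * (e : ℝ) ^ (2 * k) * (m : ℝ) ^ s / (m : ℝ) ^ N)‖ ≤
        Mj d (White (d ^ 2) m N K₀ (ζ * (r 1 * ((d : ℤ) - 1))))
          (2 - 2 * Real.cos (Real.pi / K₀)) f L s k := by
  induction L with
  | zero =>
    intro s k h
    have := h s
    simpa [Mj] using this
  | succ L ih =>
    intro s k h
    have hIH := fun s' => ih s' (k + 1) (by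
      intro s''
      have h1 := h s''
      rwa [show k + (L + 1) = k + 1 + L by ring] at h1)
    set X : ℕ → ℝ := fun j => (ζ : ℝ) * (e : ℝ) ^ (2 * (k + 1)) * (m : ℝ) ^ (s + j) / (m : ℝ) ^ N
      with hX
    set x : ℝ := (ζ : ℝ) * (e : ℝ) ^ (2 * k) * (m : ℝ) ^ s / (m : ℝ) ^ N with hx
    set G : ℕ → ℂ := fun j => Gs d m r e (2 * L + t) (s + j) S (X j) with hG
    set Wh := White (d ^ 2) m N K₀ (ζ * (r 1 * ((d : ℤ) - 1))) with hWh
    have hGle : ∀ j, ‖G j‖ ≤ Mj d Wh (2 - 2 * Real.cos (Real.pi / K₀)) f L (s + j) (k + 1) :=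
      fun j => hIH (s + j)
    have hxX : ∀ i j : ℕ, x * e * (m : ℝ) ^ i * e * (m : ℝ) ^ j = X (i + j) := by
      intro i j
      rw [hx, hX]
      simp only
      rw [show 2 * (k + 1) = 2 * k + 2 by ring, pow_add _ (2 * k) 2, pow_add _ s (i + j),
        pow_add _ i j]
      ring
    -- expansion with two digits
    have hexp : Gs d m r e (2 * (L + 1) + t) s S x =
        ∑ a ∈ Finset.range d, ∑ b ∈ Finset.range d,
          ex (x * e * rr r a) * ex (x * e * (m : ℝ) ^ nz a * e * rr r b) * G (nz a + nz b) := by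
      rw [show 2 * (L + 1) + t = (2 * L + t) + 1 + 1 by ring, Gs_succ]
      refine Finset.sum_congr rfl fun a _ => ?_
      rw [Gs_succ, Finset.mul_sum]
      refine Finset.sum_congr rfl fun b _ => ?_
      rw [hxX, add_assoc s (nz a) (nz b), ← mul_assoc]
    have hd1 : 1 ≤ d := by omega
    have hsplit : Gs d m r e (2 * (L + 1) + t) s S x =
        G 0 + (∑ a ∈ Finset.Ico 1 d, (ex (x * (e : ℝ) ^ 2 * r a) + ex (x * e * r a))) * G 1 +
        (∑ a ∈ Finset.Ico 1 d, ∑ b ∈ Finset.Ico 1 d,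
          ex (x * e * r a) * ex (x * e * m * e * r b)) * G 2 := by
      rw [hexp, ite_range d hd1, ite_range d hd1]
      have hne : ∀ a ∈ Finset.Ico 1 d, a ≠ 0 := fun a ha => by
        rw [Finset.mem_Ico] at ha; omega
      have h0 : ∑ a ∈ Finset.Ico 1 d, ∑ b ∈ Finset.range d,
          ex (x * e * rr r a) * ex (x * e * (m : ℝ) ^ nz a * e * rr r b) * G (nz a + nz b) =
          (∑ a ∈ Finset.Ico 1 d, ex (x * e * r a)) * G 1 +
          (∑ a ∈ Finset.Ico 1 d, ∑ b ∈ Finset.Ico 1 d,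
            ex (x * e * r a) * ex (x * e * m * e * r b)) * G 2 := by
        rw [Finset.sum_mul, Finset.sum_mul, ← Finset.sum_add_distrib]
        refine Finset.sum_congr rfl fun a ha => ?_
        rw [ite_range d hd1, rr_of_ne (hne a ha), nz_of_ne (hne a ha), Finset.sum_mul]
        congr 1
        · simp
        · refine Finset.sum_congr rfl fun b hb => ?_
          rw [rr_of_ne (hne b hb), nz_of_ne (hne b hb), pow_one]
      rw [h0]
      have h1 : ∑ b ∈ Finset.Ico 1 d,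
          ex (x * e * rr r 0) * ex (x * e * (m : ℝ) ^ nz 0 * e * rr r b) * G (nz 0 + nz b) =
          (∑ a ∈ Finset.Ico 1 d, ex (x * (e : ℝ) ^ 2 * r a)) * G 1 := by
        rw [Finset.sum_mul]
        refine Finset.sum_congr rfl fun b hb => ?_
        rw [rr_of_ne (hne b hb), nz_of_ne (hne b hb), nz_zero, rr_zero, pow_zero, zero_add,
          Int.cast_zero, mul_zero, ex_zero, one_mul, mul_one]
        congr 2
        ring
      rw [h1, Finset.sum_add_distrib]
      simp only [nz_zero, rr_zero, Int.cast_zero, mul_zero, ex_zero, one_mul, add_zero]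
      ring
    have hcos0 : 0 ≤ Real.cos (Real.pi / K₀) := by
      apply Real.cos_nonneg_of_neg_pi_div_two_le_of_le
      · have : 0 ≤ Real.pi / K₀ := by positivity
        linarith [Real.pi_pos]
      · have h2 : (2 : ℝ) ≤ K₀ := by exact_mod_cast hK
        rw [div_le_div_iff₀ (by positivity) (by norm_num)]
        nlinarith [Real.pi_pos]
    have hdr : (2 : ℝ) ≤ d := by exact_mod_cast hd
    -- the middle coefficient
    have hmid : ‖∑ a ∈ Finset.Ico 1 d, (ex (x * (e : ℝ) ^ 2 * r a) + ex (x * e * r a))‖ ≤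
        2 * ((d : ℝ) - 1) - (open Classical in if Wh s k then (2 - 2 * Real.cos (Real.pi / K₀))
          else 0) := by
      rw [Finset.sum_eq_sum_Ico_succ_bot (by omega : 1 < d)]
      have h2 : ‖∑ a ∈ Finset.Ico (1 + 1) d, (ex (x * (e : ℝ) ^ 2 * r a) + ex (x * e * r a))‖ ≤
          2 * ((d : ℝ) - 2) := by
        refine (norm_sum_le _ _).trans ?_
        refine (Finset.sum_le_card_nsmul _ _ 2 fun a _ => ?_).trans ?_
        · refine (norm_add_le _ _).trans ?_
          rw [norm_ex, norm_ex]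
          norm_num
        · rw [Nat.card_Ico, nsmul_eq_mul, Nat.cast_sub (by omega)]
          push_cast
          linarith
      have h1 : ‖ex (x * (e : ℝ) ^ 2 * r (1 : ℕ)) + ex (x * e * r (1 : ℕ))‖ ≤
          2 - (open Classical in if Wh s k then (2 - 2 * Real.cos (Real.pi / K₀)) else 0) := by
        split_ifs with hw
        · have h3 := white_gain hd hm hK (r1 := r 1) he (s := s) (k := k) hw hx
          have h4 : r ((1 : ℕ) : ℤ) = r 1 := by norm_num
          rw [h4]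
          linarith
        · refine (norm_add_le _ _).trans ?_
          rw [norm_ex, norm_ex]
          norm_num
      refine (norm_add_le _ _).trans ?_
      linarith
    have hlast : ‖∑ a ∈ Finset.Ico 1 d, ∑ b ∈ Finset.Ico 1 d,
        ex (x * e * r a) * ex (x * e * m * e * r b)‖ ≤ ((d : ℝ) - 1) ^ 2 := by
      refine (norm_sum_le _ _).trans ?_
      refine (Finset.sum_le_card_nsmul _ _ ((d : ℝ) - 1) fun a _ => ?_).trans ?_
      · refine (norm_sum_le _ _).trans ?_
        refine (Finset.sum_le_card_nsmul _ _ 1 fun b _ => ?_).trans ?_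
        · rw [norm_mul, norm_ex, norm_ex, mul_one]
        · rw [Nat.card_Ico, nsmul_eq_mul, Nat.cast_sub (by omega)]
          push_cast
          linarith
      · rw [Nat.card_Ico, nsmul_eq_mul, Nat.cast_sub (by omega)]
        push_cast
        nlinarith
    rw [hsplit, Mj]
    refine (norm_add_le _ _).trans (add_le_add ((norm_add_le _ _).trans (add_le_add ?_ ?_)) ?_)
    · exact hGle 0
    · rw [norm_mul]
      exact mul_le_mul hmid (hGle 1) (norm_nonneg _) ((norm_nonneg _).trans hmid)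
    · rw [norm_mul]
      exact mul_le_mul hlast (hGle 2) (norm_nonneg _) (by positivity)

end Pool.Agent.Helper52.Tao
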