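import Pool.Agent.Helper52.Tao.Defs

/-!
Block R2 (helper76): recursion bounds for the weighted path counts `Mj`.
-/

set_option autoImplicit false

namespace Pool.Agent.Helper52.Tao

open Pool.Agent.Helper68.Moeller

/-- Summing a function of `nz b` over the digits. -/
theorem R2_sum_nz {d : ℕ} (hd : 1 ≤ d) (h : ℕ → ℝ) :
    ∑ b ∈ Finset.range d, h (nz b) = h 0 + ((d : ℝ) - 1) * h 1 := by
  obtain ⟨e, rfl⟩ : ∃ e, d = e + 1 := ⟨d - 1, by omega⟩
  rw [Finset.sum_range_succ', nz_zero, add_comm]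
  congr 1
  rw [Finset.sum_congr rfl (fun b _ => by rw [nz_of_ne (Nat.succ_ne_zero b)]),
    Finset.sum_const, Finset.card_range, nsmul_eq_mul]
  push_cast
  ring

/-- Splitting off the first two digits when only the number of non-zero digits among them
matters. -/
theorem R2_cW_two {d : ℕ} (hd : 1 ≤ d) (t : ℕ) (P : List ℕ → Prop) (R : ℕ → List ℕ → Prop)
    (h : ∀ (a b : ℕ) (w : List ℕ), P (a :: b :: w) ↔ R (nz a + nz b) w) :
    cW d (t + 2) P = cW d t (R 0) + 2 * ((d : ℝ) - 1) * cW d t (R 1) +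
      ((d : ℝ) - 1) ^ 2 * cW d t (R 2) := by
  classical
  have h1 : cW d (t + 2) P = ∑ a ∈ Finset.range d, ∑ b ∈ Finset.range d,
      cW d t (R (nz a + nz b)) := by
    rw [cW_eq_sum, show t + 2 = (t + 1) + 1 from rfl, sum_W_succ]
    refine Finset.sum_congr rfl fun a _ => ?_
    rw [sum_W_succ]
    refine Finset.sum_congr rfl fun b _ => ?_
    rw [cW_eq_sum]
    refine Finset.sum_congr rfl fun w _ => ?_
    by_cases h2 : R (nz a + nz b) w
    · simp only [h2, (h a b w).2 h2, if_true]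
    · simp only [h2, mt (h a b w).1 h2, if_false]
  rw [h1, Finset.sum_congr rfl (fun a _ => R2_sum_nz hd (fun j => cW d t (R (nz a + j)))),
    R2_sum_nz hd (fun j => cW d t (R (j + 0)) + ((d : ℝ) - 1) * cW d t (R (j + 1)))]
  ring

theorem R2_nwh_cons_cons (Wh : ℕ → ℕ → Prop) (L a b : ℕ) (w : List ℕ) (s k : ℕ) [Decidable (Wh s k)] :
    nwh Wh (L + 1) (a :: b :: w) s k =
      (if Wh s k then 1 else 0) + nwh Wh L w (s + (nz a + nz b)) (k + 1) := by
  classical
  unfold nwh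
  rw [Finset.card_filter, Finset.card_filter, Finset.sum_range_succ', add_comm]
  congr 1
  · simp
  · refine Finset.sum_congr rfl fun i _ => ?_
    have h1 : s + sg ((a :: b :: w).take (2 * (i + 1))) =
        s + (nz a + nz b) + sg (w.take (2 * i)) := by
      rw [show 2 * (i + 1) = 2 * i + 1 + 1 by ring, List.take_succ_cons, List.take_succ_cons,
        sg_cons, sg_cons]
      ring
    rw [h1, show k + (i + 1) = k + 1 + i by ring]

/-- The weighted path count is small unless there are few white points. -/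
theorem Mj_one_le {d : ℕ} (hd : 2 ≤ d) (Wh : ℕ → ℕ → Prop) {ε : ℝ} (hε0 : 0 ≤ ε) (hε2 : ε ≤ 2)
    (L c s k : ℕ) :
    Mj d Wh ε (fun _ => 1) L s k ≤
      cW d (2 * L) (fun w => nwh Wh L w s k < c) + (1 - ε / (d : ℝ) ^ 2) ^ c * (d : ℝ) ^ (2 * L) := by
  classical
  have hd' : (2 : ℝ) ≤ d := by exact_mod_cast hd
  have hd2 : (0 : ℝ) < (d : ℝ) ^ 2 := by positivity
  have hq0 : 0 ≤ 1 - ε / (d : ℝ) ^ 2 := by
    rw [sub_nonneg, div_le_one hd2]
    nlinarith
  induction L generalizing c s k with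
  | zero =>
    simp only [Mj, Nat.mul_zero, pow_zero, mul_one]
    rcases Nat.eq_zero_or_pos c with rfl | hc
    · have := cW_nonneg d 0 (fun w => nwh Wh 0 w s k < 0)
      rw [pow_zero]; linarith
    · have h1 : cW d 0 (fun w => nwh Wh 0 w s k < c) = 1 := by
        have h2 : cW d 0 (fun w => nwh Wh 0 w s k < c) = cW d 0 (fun _ => True) :=
          cW_congr fun w _ => by simp [nwh, hc]
        rw [h2, cW_true, pow_zero]
      rw [h1]
      have := pow_nonneg hq0 c
      linarith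
  | succ L ih =>
    have key : ∀ c' : ℕ, (∀ (j : ℕ) (w : List ℕ), nwh Wh L w (s + j) (k + 1) < c' →
        (if Wh s k then 1 else 0) + nwh Wh L w (s + j) (k + 1) < c) →
        (1 - ε / (d : ℝ) ^ 2) ^ c' * ((d : ℝ) ^ 2 - if Wh s k then ε else 0) ≤
          (1 - ε / (d : ℝ) ^ 2) ^ c * (d : ℝ) ^ 2 →
        Mj d Wh ε (fun _ => 1) (L + 1) s k ≤
          cW d (2 * (L + 1)) (fun w => nwh Wh (L + 1) w s k < c) +
            (1 - ε / (d : ℝ) ^ 2) ^ c * (d : ℝ) ^ (2 * (L + 1)) := by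
      intro c' h1 h2
      have e0 := ih c' s (k + 1)
      have e1 := ih c' (s + 1) (k + 1)
      have e2 := ih c' (s + 2) (k + 1)
      rw [show 2 * (L + 1) = 2 * L + 2 by ring,
        R2_cW_two (by omega : 1 ≤ d) (2 * L) (fun w => nwh Wh (L + 1) w s k < c)
        (fun j w => (if Wh s k then 1 else 0) + nwh Wh L w (s + j) (k + 1) < c)
        (fun a b w => by rw [R2_nwh_cons_cons]), Mj]
      have g0 : cW d (2 * L) (fun w => nwh Wh L w s (k + 1) < c') ≤
          cW d (2 * L) (fun w => (if Wh s k then 1 else 0) + nwh Wh L w (s + 0) (k + 1) < c) :=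
        cW_mono fun w _ hw => h1 0 w hw
      have g1 : cW d (2 * L) (fun w => nwh Wh L w (s + 1) (k + 1) < c') ≤
          cW d (2 * L) (fun w => (if Wh s k then 1 else 0) + nwh Wh L w (s + 1) (k + 1) < c) :=
        cW_mono fun w _ hw => h1 1 w hw
      have g2 : cW d (2 * L) (fun w => nwh Wh L w (s + 2) (k + 1) < c') ≤
          cW d (2 * L) (fun w => (if Wh s k then 1 else 0) + nwh Wh L w (s + 2) (k + 1) < c) :=
        cW_mono fun w _ hw => h1 2 w hw
      have n1 := cW_nonneg d (2 * L)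
        (fun w => (if Wh s k then 1 else 0) + nwh Wh L w (s + 1) (k + 1) < c)
      set A0 := cW d (2 * L) (fun w => (if Wh s k then 1 else 0) + nwh Wh L w (s + 0) (k + 1) < c)
      set A1 := cW d (2 * L) (fun w => (if Wh s k then 1 else 0) + nwh Wh L w (s + 1) (k + 1) < c)
      set A2 := cW d (2 * L) (fun w => (if Wh s k then 1 else 0) + nwh Wh L w (s + 2) (k + 1) < c)
      set M0 := Mj d Wh ε (fun _ => 1) L s (k + 1)
      set M1 := Mj d Wh ε (fun _ => 1) L (s + 1) (k + 1)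
      set M2 := Mj d Wh ε (fun _ => 1) L (s + 2) (k + 1)
      set e : ℝ := if Wh s k then ε else 0 with he
      have he0 : 0 ≤ e := by rw [he]; split_ifs <;> linarith
      have he2 : e ≤ 2 := by rw [he]; split_ifs <;> linarith
      set q := 1 - ε / (d : ℝ) ^ 2
      set X := (d : ℝ) ^ (2 * L) with hX
      have hX0 : 0 < X := by rw [hX]; positivity
      have hc1 : 0 ≤ 2 * ((d : ℝ) - 1) - e := by linarith
      have f0 : M0 ≤ A0 + q ^ c' * X := by linarith
      have f1 : (2 * ((d : ℝ) - 1) - e) * M1 ≤ (2 * ((d : ℝ) - 1) - e) * (A1 + q ^ c' * X) :=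
        mul_le_mul_of_nonneg_left (by linarith) hc1
      have f2 : ((d : ℝ) - 1) ^ 2 * M2 ≤ ((d : ℝ) - 1) ^ 2 * (A2 + q ^ c' * X) :=
        mul_le_mul_of_nonneg_left (by linarith) (by positivity)
      have f3 : X * (q ^ c' * ((d : ℝ) ^ 2 - e)) ≤ X * (q ^ c * (d : ℝ) ^ 2) :=
        mul_le_mul_of_nonneg_left h2 hX0.le
      have f4 : 0 ≤ e * A1 := mul_nonneg he0 n1
      rw [show (d : ℝ) ^ (2 * L + 2) = X * (d : ℝ) ^ 2 by rw [hX, pow_add]]
      nlinarith [f0, f1, f2, f3, f4]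
    rcases Nat.eq_zero_or_pos c with rfl | hc
    · refine key 0 (fun j w hw => absurd hw (Nat.not_lt_zero _)) ?_
      rw [pow_zero, one_mul, one_mul]
      split_ifs <;> linarith
    · by_cases hW : Wh s k
      · refine key (c - 1) (fun j w hw => by rw [if_pos hW]; omega) ?_
        rw [if_pos hW]
        obtain ⟨c', rfl⟩ : ∃ c', c = c' + 1 := ⟨c - 1, by omega⟩
        rw [Nat.add_sub_cancel, pow_succ (1 - ε / (d : ℝ) ^ 2) c', mul_assoc]
        refine le_of_eq ?_
        congr 1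
        field_simp
      · refine key c (fun j w hw => by rw [if_neg hW]; omega) ?_
        rw [if_neg hW, sub_zero]

/-- Dependence on the weight of the end points. -/
theorem Mj_le_add {d : ℕ} (hd : 2 ≤ d) (Wh : ℕ → ℕ → Prop) {ε : ℝ} (hε0 : 0 ≤ ε) (hε2 : ε ≤ 2)
    {φ a : ℝ} {f : ℕ → ℝ} (hφ : 0 ≤ φ) (hf : ∀ s : ℕ, f s ≤ φ + if a ≤ (s : ℝ) then 1 else 0)
    (L s k : ℕ) :
    Mj d Wh ε f L s k ≤ φ * Mj d Wh ε (fun _ => 1) L s k +
      cW d (2 * L) (fun w => a ≤ ((s + sg w : ℕ) : ℝ)) := by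
  classical
  have hd' : (2 : ℝ) ≤ d := by exact_mod_cast hd
  induction L generalizing s k with
  | zero =>
    simp only [Mj, Nat.mul_zero, mul_one]
    refine (hf s).trans ?_
    rw [cW_eq_sum, sum_W_zero]
    simp
  | succ L ih =>
    have e0 := ih s (k + 1)
    have e1 := ih (s + 1) (k + 1)
    have e2 := ih (s + 2) (k + 1)
    rw [show 2 * (L + 1) = 2 * L + 2 by ring,
      R2_cW_two (by omega : 1 ≤ d) (2 * L) (fun w => a ≤ ((s + sg w : ℕ) : ℝ))
      (fun j w => a ≤ ((s + j + sg w : ℕ) : ℝ))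
      (fun x y w => by rw [sg_cons, sg_cons, show s + (nz x + (nz y + sg w)) =
        s + (nz x + nz y) + sg w by ring]), Mj, Mj]
    simp only [Nat.add_zero]
    have n1 := cW_nonneg d (2 * L) (fun w => a ≤ ((s + 1 + sg w : ℕ) : ℝ))
    set A0 := cW d (2 * L) (fun w => a ≤ ((s + sg w : ℕ) : ℝ))
    set A1 := cW d (2 * L) (fun w => a ≤ ((s + 1 + sg w : ℕ) : ℝ))
    set A2 := cW d (2 * L) (fun w => a ≤ ((s + 2 + sg w : ℕ) : ℝ))
    set M0 := Mj d Wh ε (fun _ => 1) L s (k + 1)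
    set M1 := Mj d Wh ε (fun _ => 1) L (s + 1) (k + 1)
    set M2 := Mj d Wh ε (fun _ => 1) L (s + 2) (k + 1)
    set F0 := Mj d Wh ε f L s (k + 1)
    set F1 := Mj d Wh ε f L (s + 1) (k + 1)
    set F2 := Mj d Wh ε f L (s + 2) (k + 1)
    set e : ℝ := if Wh s k then ε else 0 with he
    have he0 : 0 ≤ e := by rw [he]; split_ifs <;> linarith
    have he2 : e ≤ 2 := by rw [he]; split_ifs <;> linarith
    have hc1 : 0 ≤ 2 * ((d : ℝ) - 1) - e := by linarith
    have f1 : (2 * ((d : ℝ) - 1) - e) * F1 ≤ (2 * ((d : ℝ) - 1) - e) * (φ * M1 + A1) :=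
      mul_le_mul_of_nonneg_left e1 hc1
    have f2 : ((d : ℝ) - 1) ^ 2 * F2 ≤ ((d : ℝ) - 1) ^ 2 * (φ * M2 + A2) :=
      mul_le_mul_of_nonneg_left e2 (by positivity)
    have f4 : 0 ≤ e * A1 := mul_nonneg he0 n1
    nlinarith [e0, f1, f2, f4]

end Pool.Agent.Helper52.Tao
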