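import Pool.Agent.Helper52.Tao.Props
import Pool.Agent.Helper52.Tao.A1
import Pool.Agent.Helper52.Tao.R1
import Pool.Agent.Helper52.Tao.R2

/-!
Block FD (helper72) for the log-free theorem on Möller maps (MP_fd8838_nt): from one block to the
decay of the exponential sums faster than any power (iteration of the exponent).
-/

set_option autoImplicit false

namespace Pool.Agent.Helper52.Tao

open Pool.Agent.Helper68.Moeller

/-- If `m ^ n₀` divides `ζ ρ` with `n₀ > |ρ|`, then `m` divides `ζ`. -/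
theorem FD_dvd_of_pow_dvd {m : ℕ} (hm : m ≠ 0) {ρ ζ : ℤ} (hρ : ρ ≠ 0)
    (h : (m : ℤ) ^ (ρ.natAbs + 1) ∣ ζ * ρ) : (m : ℤ) ∣ ζ := by
  set n := ρ.natAbs with hn
  have hn0 : 0 < n := Int.natAbs_pos.2 hρ
  have h1 : m ^ (n + 1) ∣ ζ.natAbs * n := by
    have := Int.natAbs_dvd_natAbs.2 h
    rwa [Int.natAbs_mul, Int.natAbs_pow, Int.natAbs_natCast] at this
  set g := Nat.gcd (m ^ (n + 1)) n with hg
  have hg0 : 0 < g := Nat.gcd_pos_of_pos_right _ hn0
  have hgn : g ≤ n := Nat.le_of_dvd hn0 (Nat.gcd_dvd_right _ _)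
  have hgm : g ∣ m ^ n := by
    rw [← Nat.factorization_le_iff_dvd hg0.ne' (pow_ne_zero _ hm)]
    intro p
    rw [Nat.factorization_pow]
    by_cases hp : p.Prime
    · by_cases hpg : p ∣ g
      · have hpm : p ∣ m := hp.dvd_of_dvd_pow (hpg.trans (Nat.gcd_dvd_left _ _))
        have h2 : 1 ≤ m.factorization p := by
          rwa [← hp.dvd_iff_one_le_factorization hm]
        have h3 : g.factorization p < g := Nat.factorization_lt p hg0.ne'
        simp only [Finsupp.coe_smul, Pi.smul_apply, smul_eq_mul]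
        calc g.factorization p ≤ n * 1 := by omega
          _ ≤ n * m.factorization p := Nat.mul_le_mul_left _ h2
      · rw [Nat.factorization_eq_zero_of_not_dvd hpg]
        exact Nat.zero_le _
    · rw [Nat.factorization_eq_zero_of_not_prime _ hp]
      exact Nat.zero_le _
  -- `m ^ (n+1) / g` divides `ζ`
  obtain ⟨u, hu⟩ := hgm
  obtain ⟨v, hv⟩ := Nat.gcd_dvd_right (m ^ (n + 1)) n
  rw [← hg] at hv
  have hmu : m ^ (n + 1) = g * (m * u) := by rw [pow_succ, hu]; ring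
  have h4 : m * u ∣ ζ.natAbs * v := by
    have h5 : g * (m * u) ∣ g * (ζ.natAbs * v) := by
      rw [← hmu]
      refine h1.trans (dvd_of_eq ?_)
      rw [hv]
      ring
    exact Nat.dvd_of_mul_dvd_mul_left hg0 h5
  have hcop : Nat.Coprime (m * u) v := by
    have h6 := Nat.coprime_div_gcd_div_gcd (m := m ^ (n + 1)) (n := n) (by rw [← hg]; exact hg0)
    rw [← hg] at h6
    have h7 : m ^ (n + 1) / g = m * u := by
      rw [hmu]; exact Nat.mul_div_cancel_left _ hg0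
    have h8 : n / g = v := by
      rw [Nat.div_eq_of_eq_mul_right hg0 hv]
    rwa [h7, h8] at h6
  have h9 : m * u ∣ ζ.natAbs := hcop.dvd_of_dvd_mul_right h4
  have h10 : m ∣ ζ.natAbs := (Dvd.intro _ rfl).trans h9
  exact Int.natCast_dvd.2 h10

theorem FD_Mj_smul (d : ℕ) (Wh : ℕ → ℕ → Prop) (ε b : ℝ) (f : ℕ → ℝ) (L s k : ℕ) :
    Mj d Wh ε (fun x => b * f x) L s k = b * Mj d Wh ε f L s k := by
  classical
  induction L generalizing s k with
  | zero => simp [Mj]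
  | succ L ih =>
    simp only [Mj]
    rw [ih, ih, ih]
    ring

/-- The trivial bound. -/
theorem FD_norm_Gs_le (d m : ℕ) (r : ℤ → ℤ) (e : ℤ) (t s S : ℕ) (x : ℝ) :
    ‖Gs d m r e t s S x‖ ≤ cW d t (fun w => s + sg w = S) := by
  classical
  rw [Gs_eq_ite, cW_eq_sum]
  refine (norm_sum_le _ _).trans (Finset.sum_le_sum fun w _ => ?_)
  split_ifs with h
  · rw [norm_ex]
  · rw [norm_zero]

/-- Exponential decay beats every power. -/
theorem FD_exp_le {c : ℝ} (hc : 0 < c) (b : ℝ) :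
    ∃ C : ℝ, 0 < C ∧ ∀ N : ℕ, 1 ≤ N → Real.exp (-(c * N)) ≤ C * (N : ℝ) ^ (-b) := by
  have h := (tendsto_rpow_mul_exp_neg_mul_atTop_nhds_zero b c hc).comp
    (tendsto_natCast_atTop_atTop (R := ℝ))
  obtain ⟨C, hC⟩ := h.bddAbove_range
  refine ⟨max C 1, lt_max_of_lt_right one_pos, fun N hN => ?_⟩
  have hN0 : (0 : ℝ) < N := by exact_mod_cast hN
  have h1 : (N : ℝ) ^ b * Real.exp (-c * N) ≤ C := hC ⟨N, rfl⟩
  rw [Real.rpow_neg hN0.le, ← div_eq_mul_inv, le_div_iff₀ (Real.rpow_pos_of_pos hN0 _)]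
  calc Real.exp (-(c * N)) * (N : ℝ) ^ b = (N : ℝ) ^ b * Real.exp (-c * N) := by
        rw [mul_comm, neg_mul]
    _ ≤ C := h1
    _ ≤ max C 1 := le_max_left _ _

/-- The statement of `FourierDecay` for one exponent. -/
def FDP (d m : ℕ) (r : ℤ → ℤ) (A : ℝ) : Prop :=
  ∃ C : ℝ, 0 < C ∧ ∀ N : ℕ, 1 ≤ N → ∀ e : ℤ, (m : ℤ) ^ N ∣ (d : ℤ) * e - 1 →
    ∀ ζ : ℤ, ¬ (m : ℤ) ∣ ζ → ∀ t S : ℕ, N ≤ S →
      ‖Gs d m r e t 0 S ((ζ : ℝ) / (m : ℝ) ^ N)‖ ≤ C * (d : ℝ) ^ t * (N : ℝ) ^ (-A)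

theorem FDP_zero (d m : ℕ) (r : ℤ → ℤ) : FDP d m r 0 := by
  refine ⟨1, one_pos, fun N _ e _ ζ _ t S _ => ?_⟩
  rw [neg_zero, Real.rpow_zero, one_mul, mul_one]
  exact (FD_norm_Gs_le _ _ _ _ _ _ _ _).trans (cW_le_pow _ _ _)

theorem FDP_mono {d m : ℕ} {r : ℤ → ℤ} {A B : ℝ} (hAB : A ≤ B) (h : FDP d m r B) :
    FDP d m r A := by
  obtain ⟨C, hC, h⟩ := h
  refine ⟨C, hC, fun N hN e he ζ hζ t S hS => (h N hN e he ζ hζ t S hS).trans ?_⟩
  have hN1 : (1 : ℝ) ≤ N := by exact_mod_cast hN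
  gcongr

/-- The parameter `θ`. -/
theorem FD_exists_theta {d m : ℕ} (hd : 2 ≤ d) (hdm : d < m) (hco : Nat.Coprime m d)
    (hm : (m : ℝ) ≤ (d : ℝ) ^ ((d : ℝ) / ((d : ℝ) - 1))) :
    ∃ θ : ℝ, 0 < θ ∧ Real.log m / (2 * Real.log d) < θ ∧ 2 * (1 - 1 / (d : ℝ)) * θ < 1 := by
  have h1 := log_d_pos hd
  have h2 := log_m_gt hd hdm
  have h3 := log_m_lt hd hdm hco hm
  have hd' : (2 : ℝ) ≤ d := by exact_mod_cast hd
  have hq : 0 < 1 - 1 / (d : ℝ) := by
    have : 1 / (d : ℝ) ≤ 1 / 2 := one_div_le_one_div_of_le (by norm_num) hd'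
    linarith
  have h4 : Real.log m / (2 * Real.log d) < 1 / (2 * (1 - 1 / (d : ℝ))) := by
    rw [div_lt_div_iff₀ (by positivity) (by positivity)]
    have : Real.log m * (2 * (1 - 1 / (d : ℝ))) = 2 * (((d : ℝ) - 1) * Real.log m) / d := by
      field_simp
    rw [this, div_lt_iff₀ (by linarith)]
    linarith
  obtain ⟨θ, hθ1, hθ2⟩ := exists_between h4
  refine ⟨θ, lt_of_le_of_lt (by have := h1.trans h2; positivity) hθ1, hθ1, ?_⟩
  rw [lt_div_iff₀ (by positivity)] at hθ2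
  linarith

theorem FD_step {d m : ℕ} (hd : 2 ≤ d) (hdm : d < m) {r : ℤ → ℤ}
    {K₀ n₀ : ℕ} {θ c C₁ : ℝ} (hK : 2 ≤ K₀) (hθ : 0 < θ) (hθ2 : 2 * (1 - 1 / (d : ℝ)) * θ < 1)
    (hn₀ : ∀ ζ : ℤ, ¬ (m : ℤ) ∣ ζ → ¬ (m : ℤ) ^ n₀ ∣ ζ * (r 1 * ((d : ℤ) - 1)))
    (hC₁ : 0 < C₁)
    (h1 : ∀ N : ℕ, 1 ≤ N → ∀ g : ℤ, ¬ (m : ℤ) ^ n₀ ∣ g →
      Mj d (White (d ^ 2) m N K₀ g) (2 - 2 * Real.cos (Real.pi / K₀)) (fun _ => 1) ⌊θ * N⌋₊ 0 0 ≤
        C₁ * (d : ℝ) ^ (2 * ⌊θ * N⌋₊) * (N : ℝ) ^ (-c)) {a : ℝ} (ha : 0 ≤ a)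
    (hP : FDP d m r a) : FDP d m r (a + c) := by
  have hd' : (2 : ℝ) ≤ d := by exact_mod_cast hd
  have hm2 : 2 ≤ m := by omega
  have hm0 : (0 : ℝ) < m := by positivity
  obtain ⟨Ca, hCa, hP⟩ := hP
  have hε0 : 0 ≤ 2 - 2 * Real.cos (Real.pi / K₀) := by
    linarith [Real.cos_le_one (Real.pi / K₀)]
  have hε2 : 2 - 2 * Real.cos (Real.pi / K₀) ≤ 2 := by
    have : 0 ≤ Real.cos (Real.pi / K₀) := by
      have hK' : (2 : ℝ) ≤ K₀ := by exact_mod_cast hK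
      refine Real.cos_nonneg_of_neg_pi_div_two_le_of_le ?_ ?_
      · have : 0 ≤ Real.pi / K₀ := by positivity
        linarith [Real.pi_pos]
      · exact div_le_div_of_nonneg_left Real.pi_pos.le (by norm_num) hK'
    linarith
  set vt : ℝ := (1 - 2 * (1 - 1 / (d : ℝ)) * θ) / 2 with hvt
  have hvt0 : 0 < vt := by rw [hvt]; linarith
  set a₁ : ℝ := 1 - vt with ha₁
  obtain ⟨c₁, hc₁, hch⟩ := chernoff hd (θ := 2 * θ) (a := a₁) (by positivity)
    (by rw [ha₁, hvt]; linarith)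
  obtain ⟨C', hC', hexp⟩ := FD_exp_le hc₁ (a + c)
  refine ⟨Ca * vt ^ (-a) * C₁ + C', by positivity, fun N hN e he ζ hζ t S hS => ?_⟩
  have hN0 : (0 : ℝ) < N := by exact_mod_cast hN
  set L := ⌊θ * N⌋₊ with hL
  have hLle : (L : ℝ) ≤ θ * N := Nat.floor_le (by positivity)
  have hSN : a₁ * N ≤ (S : ℝ) := by
    have h2 : (N : ℝ) ≤ S := by exact_mod_cast hS
    have h3 : a₁ * N ≤ 1 * N := mul_le_mul_of_nonneg_right (by rw [ha₁]; linarith) hN0.le
    linarith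
  rcases lt_or_ge t (2 * L) with ht | ht
  · -- short words
    have h2 : ‖Gs d m r e t 0 S ((ζ : ℝ) / (m : ℝ) ^ N)‖ ≤ (d : ℝ) ^ t * Real.exp (-(c₁ * N)) := by
      refine (FD_norm_Gs_le _ _ _ _ _ _ _ _).trans ((cW_mono fun w _ hw => ?_).trans
        (hch N t ?_))
      · have : sg w = S := by omega
        rw [this]
        exact hSN
      · have : (t : ℝ) ≤ 2 * L := by exact_mod_cast ht.le
        linarith
    refine h2.trans ?_
    calc (d : ℝ) ^ t * Real.exp (-(c₁ * N)) ≤ (d : ℝ) ^ t * (C' * (N : ℝ) ^ (-(a + c))) := by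
          gcongr; exact hexp N hN
      _ = C' * (d : ℝ) ^ t * (N : ℝ) ^ (-(a + c)) := by ring
      _ ≤ (Ca * vt ^ (-a) * C₁ + C') * (d : ℝ) ^ t * (N : ℝ) ^ (-(a + c)) := by
          gcongr
          have : 0 ≤ Ca * vt ^ (-a) * C₁ := by positivity
          linarith
  · obtain ⟨t', rfl⟩ := Nat.exists_eq_add_of_le ht
    set φ : ℝ := Ca * (vt * N) ^ (-a) with hφ
    have hφ0 : 0 ≤ φ := by positivity
    set f₁ : ℕ → ℝ := fun s' => φ + if a₁ * N ≤ (s' : ℝ) then 1 else 0 with hf₁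
    have hbase : ∀ s' : ℕ, ‖Gs d m r e t' s' S
        ((ζ : ℝ) * (e : ℝ) ^ (2 * (0 + L)) * (m : ℝ) ^ s' / (m : ℝ) ^ N)‖ ≤
          (d : ℝ) ^ t' * f₁ s' := by
      intro s'
      by_cases hs' : a₁ * N ≤ (s' : ℝ)
      · refine ((FD_norm_Gs_le _ _ _ _ _ _ _ _).trans (cW_le_pow _ _ _)).trans ?_
        have : 1 ≤ f₁ s' := by simp only [hf₁, if_pos hs']; linarith
        exact le_mul_of_one_le_right (by positivity) this
      · have hs1 : (s' : ℝ) < a₁ * N := not_le.1 hs'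
        have hs2 : s' < N := by
          have : (s' : ℝ) < N := by
            refine hs1.trans_le ?_
            have : a₁ * N ≤ 1 * N := mul_le_mul_of_nonneg_right (by rw [ha₁]; linarith) hN0.le
            linarith
          exact_mod_cast this
        have hcast : ((N - s' : ℕ) : ℝ) = N - s' := by push_cast [hs2.le]; ring
        have hmain := hP (N - s') (by omega) e ((pow_dvd_pow _ (Nat.sub_le _ _)).trans he)
          (ζ * e ^ (2 * L)) (by
            intro hdvd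
            have hcop : IsCoprime (m : ℤ) e := by
              have h5 : (m : ℤ) ∣ (d : ℤ) * e - 1 := (dvd_pow_self _ (by omega)).trans he
              obtain ⟨q, hq⟩ := h5
              exact ⟨-q, d, by linarith⟩
            exact hζ ((hcop.pow_right (n := 2 * L)).dvd_of_dvd_mul_right hdvd)) t' (S - s')
          (by omega)
        have hx : ((ζ : ℝ) * (e : ℝ) ^ (2 * (0 + L)) * (m : ℝ) ^ s' / (m : ℝ) ^ N) =
            (((ζ * e ^ (2 * L) : ℤ) : ℝ) / (m : ℝ) ^ (N - s')) := by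
          have hpow : (m : ℝ) ^ N = (m : ℝ) ^ (N - s') * (m : ℝ) ^ s' := by
            rw [← pow_add]; congr 1; omega
          rw [hpow, zero_add]
          push_cast
          have : (m : ℝ) ^ s' ≠ 0 := by positivity
          field_simp
        have hG : Gs d m r e t' s' S
            ((ζ : ℝ) * (e : ℝ) ^ (2 * (0 + L)) * (m : ℝ) ^ s' / (m : ℝ) ^ N) =
            Gs d m r e t' 0 (S - s') (((ζ * e ^ (2 * L) : ℤ) : ℝ) / (m : ℝ) ^ (N - s')) := by
          rw [hx, Gs, Gs]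
          refine Finset.sum_congr (Finset.filter_congr fun w _ => ?_) fun _ _ => rfl
          omega
        rw [hG]
        refine hmain.trans ?_
        have h6 : ((N - s' : ℕ) : ℝ) ^ (-a) ≤ (vt * N) ^ (-a) := by
          rw [hcast]
          refine Real.rpow_le_rpow_of_nonpos (by positivity) ?_ (by linarith)
          rw [ha₁] at hs1
          linarith
        calc Ca * (d : ℝ) ^ t' * ((N - s' : ℕ) : ℝ) ^ (-a)
            ≤ Ca * (d : ℝ) ^ t' * (vt * N) ^ (-a) := by gcongr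
          _ = (d : ℝ) ^ t' * φ := by rw [hφ]; ring
          _ ≤ (d : ℝ) ^ t' * f₁ s' := by
              gcongr
              simp only [hf₁, if_neg hs']
              linarith
    have hG := Gs_le_Mj hd hm2 hK (r := r) he S t' (fun s' => (d : ℝ) ^ t' * f₁ s') L 0 0 hbase
    have hx0 : ((ζ : ℝ) * (e : ℝ) ^ (2 * 0) * (m : ℝ) ^ 0 / (m : ℝ) ^ N) =
        (ζ : ℝ) / (m : ℝ) ^ N := by simp
    rw [hx0, FD_Mj_smul] at hG
    have hM := Mj_le_add hd (White (d ^ 2) m N K₀ (ζ * (r 1 * ((d : ℤ) - 1)))) hε0 hε2 hφ0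
      (f := f₁) (a := a₁ * N) (fun s => le_rfl) L 0 0
    have hO := h1 N hN (ζ * (r 1 * ((d : ℤ) - 1))) (hn₀ ζ hζ)
    have hch2 : cW d (2 * L) (fun w => a₁ * N ≤ ((0 + sg w : ℕ) : ℝ)) ≤
        (d : ℝ) ^ (2 * L) * Real.exp (-(c₁ * N)) := by
      simp only [Nat.zero_add]
      refine hch N (2 * L) ?_
      push_cast
      linarith
    calc ‖Gs d m r e (2 * L + t') 0 S ((ζ : ℝ) / (m : ℝ) ^ N)‖
        ≤ (d : ℝ) ^ t' * Mj d (White (d ^ 2) m N K₀ (ζ * (r 1 * ((d : ℤ) - 1))))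
          (2 - 2 * Real.cos (Real.pi / K₀)) f₁ L 0 0 := hG
      _ ≤ (d : ℝ) ^ t' * (φ * (C₁ * (d : ℝ) ^ (2 * L) * (N : ℝ) ^ (-c)) +
            (d : ℝ) ^ (2 * L) * (C' * (N : ℝ) ^ (-(a + c)))) := by
          gcongr
          refine hM.trans (add_le_add (mul_le_mul_of_nonneg_left hO hφ0) (hch2.trans ?_))
          gcongr
          exact hexp N hN
      _ = (Ca * vt ^ (-a) * C₁ + C') * (d : ℝ) ^ (2 * L + t') * (N : ℝ) ^ (-(a + c)) := by
          rw [hφ, Real.mul_rpow hvt0.le hN0.le, neg_add, Real.rpow_add hN0, pow_add]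
          ring

/-- Block FD: decay of the exponential sums, faster than any power. -/
theorem fourier_decay {d m : ℕ} (hd : 2 ≤ d) (hdm : d < m) (hco : Nat.Coprime m d)
    (hm : (m : ℝ) ≤ (d : ℝ) ^ ((d : ℝ) / ((d : ℝ) - 1))) {r : ℤ → ℤ} (hr : Admissible d m r)
    (h1 : OneBlock d m) : FourierDecay d m r := by
  have hm0 : m ≠ 0 := by omega
  have hr1 : r 1 ≠ 0 := by
    intro h0
    have h2 := hr 1 one_pos (by omega)
    rw [h0, mul_one] at h2
    have h3 : (d : ℤ) ∣ (m : ℤ) := by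
      have := h2.dvd
      rwa [sub_zero] at this
    have h4 : d ∣ m := by exact_mod_cast h3
    have h5 : d ∣ 1 := by
      rw [← hco.gcd_eq_one]
      exact Nat.dvd_gcd h4 dvd_rfl
    have := Nat.le_of_dvd one_pos h5
    omega
  have hρ : r 1 * ((d : ℤ) - 1) ≠ 0 := mul_ne_zero hr1 (by omega)
  obtain ⟨θ, hθ0, hθ1, hθ2⟩ := FD_exists_theta hd hdm hco hm
  obtain ⟨c, C₁, hc, hC₁, h2⟩ := h1 (m ^ 2 + d ^ 2 + 1) ((r 1 * ((d : ℤ) - 1)).natAbs + 1) θ
    (by omega) hθ1 hθ2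
  have hK : 2 ≤ m ^ 2 + d ^ 2 + 1 := by
    have : 1 ≤ d ^ 2 := Nat.one_le_pow _ _ (by omega)
    omega
  have hstep : ∀ a : ℝ, 0 ≤ a → FDP d m r a → FDP d m r (a + c) := fun a ha hP =>
    FD_step hd hdm hK hθ0 hθ2
      (fun ζ hζ hdvd => hζ (FD_dvd_of_pow_dvd hm0 hρ hdvd)) hC₁ h2 ha hP
  have hall : ∀ n : ℕ, FDP d m r (n * c) := by
    intro n
    induction n with
    | zero => rw [Nat.cast_zero, zero_mul]; exact FDP_zero d m r
    | succ n ih =>
      have := hstep (n * c) (by positivity) ih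
      push_cast
      rwa [add_mul, one_mul]
  intro A
  obtain ⟨n, hn⟩ := exists_nat_ge (A / c)
  exact FDP_mono ((div_le_iff₀ hc).1 hn) (hall n)

end Pool.Agent.Helper52.Tao
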