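import Pool.Agent.Helper52.Tao.Defs

/-!
The main intermediate statements (as propositions) for the log-free theorem on Möller maps.
-/

set_option autoImplicit false

namespace Pool.Agent.Helper52.Tao

open Pool.Agent.Helper68.Moeller

/-- One block: the weighted path count is smaller than the number of words by a power of `N`. -/
def OneBlock (d m : ℕ) : Prop :=
  ∀ (K₀ n₀ : ℕ) (θ : ℝ), m ^ 2 + d ^ 2 < K₀ → Real.log m / (2 * Real.log d) < θ →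
    2 * (1 - 1 / (d : ℝ)) * θ < 1 → ∃ c C : ℝ, 0 < c ∧ 0 < C ∧ ∀ N : ℕ, 1 ≤ N → ∀ g : ℤ,
      ¬ (m : ℤ) ^ n₀ ∣ g →
      Mj d (White (d ^ 2) m N K₀ g) (2 - 2 * Real.cos (Real.pi / K₀)) (fun _ => 1) ⌊θ * N⌋₊ 0 0 ≤
        C * (d : ℝ) ^ (2 * ⌊θ * N⌋₊) * (N : ℝ) ^ (-c)

/-- Decay of the exponential sums, faster than any power. -/
def FourierDecay (d m : ℕ) (r : ℤ → ℤ) : Prop :=
  ∀ A : ℝ, ∃ C : ℝ, 0 < C ∧ ∀ N : ℕ, 1 ≤ N → ∀ e : ℤ, (m : ℤ) ^ N ∣ (d : ℤ) * e - 1 →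
    ∀ ζ : ℤ, ¬ (m : ℤ) ∣ ζ → ∀ t S : ℕ, N ≤ S →
      ‖Gs d m r e t 0 S ((ζ : ℝ) / (m : ℝ) ^ N)‖ ≤ C * (d : ℝ) ^ t * (N : ℝ) ^ (-A)

/-- The `L¹` distance between the distribution modulo `m ^ N` of the end points (for the words of
length `t` with `S` non-zero digits) and the lift of the distribution modulo `m ^ k`. -/
noncomputable def Osc (d m : ℕ) (r : ℤ → ℤ) (e : ℤ) (t S N k : ℕ) : ℝ :=
  ∑ X ∈ Finset.range (m ^ N),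
    |cW d t (fun w => sg w = S ∧ (m : ℤ) ^ N ∣ (X : ℤ) - F m r e w) -
      cW d t (fun w => sg w = S ∧ (m : ℤ) ^ k ∣ (X : ℤ) - F m r e w) / (m : ℝ) ^ (N - k)|

/-- Fine-scale mixing, one step. -/
def MixStep (d m : ℕ) (r : ℤ → ℤ) : Prop :=
  ∀ A : ℝ, ∃ C c : ℝ, 0 < C ∧ 0 < c ∧ c < 1 ∧ ∀ N k : ℕ, 1 ≤ N → (1 - c) * N ≤ k → k ≤ N →
    ∀ e : ℤ, (m : ℤ) ^ N ∣ (d : ℤ) * e - 1 → ∀ t S : ℕ, N ≤ S →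
      Osc d m r e t S N k ≤ C * (d : ℝ) ^ t * (N : ℝ) ^ (-A)

/-- Fine-scale mixing. -/
def Mixing (d m : ℕ) (r : ℤ → ℤ) : Prop :=
  ∀ A : ℝ, ∃ C : ℝ, 0 < C ∧ ∀ N k : ℕ, 1 ≤ k → k ≤ N →
    ∀ e : ℤ, (m : ℤ) ^ N ∣ (d : ℤ) * e - 1 → ∀ t S : ℕ, N ≤ S →
      Osc d m r e t S N k ≤ C * (d : ℝ) ^ t * (k : ℝ) ^ (-A)

/-- The relative number of `n ∈ [a, 2a)` whose orbit stays above `z`. -/
noncomputable def gd (d m : ℕ) (r : ℤ → ℤ) (z a : ℝ) : ℝ :=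
  ({n : ℤ | a ≤ n ∧ (n : ℝ) < 2 * a ∧ ∀ k : ℕ, z < ((T d m r)^[k] n : ℝ)}.ncard : ℝ) / a

/-- The flow inequality. -/
def Flow (d m : ℕ) (r : ℤ → ℤ) : Prop :=
  ∀ A : ℝ, ∃ C : ℝ, 0 < C ∧ ∀ t : ℕ, 1 ≤ t → ∀ z a : ℝ, 1 ≤ z →
    C * z ^ 2 * ((d : ℝ) * m) ^ (8 * t) ≤ a →
      gd d m r z a ≤ (∑ v ∈ W d t, gd d m r z (a * (m : ℝ) ^ sg v / (d : ℝ) ^ t)) / (d : ℝ) ^ t +
        C * (t : ℝ) ^ (-A)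

/-- The final statement for `T`. -/
def Final (d m : ℕ) (r : ℤ → ℤ) : Prop :=
  ∀ η : ℝ, eta d m < η → η < 1 → ∃ C : ℝ, 0 < C ∧ ∀ x z : ℝ, 1 ≤ x → 1 ≤ z →
    ({n : ℤ | 0 < n ∧ (n : ℝ) ≤ x ∧ ∀ k : ℕ, z < ((T d m r)^[k] n : ℝ)}.ncard : ℝ) ≤
      C * x * z ^ (η - 1)

end Pool.Agent.Helper52.Tao
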