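import Pool.Agent.Helper52.Tao.A1
import Pool.Agent.Helper52.Tao.Props
import Pool.Agent.Helper52.Moeller.Descent

/-!
Block FIN: from the flow inequality to the final statement for `T` (recursion over scales).
-/

set_option autoImplicit false

namespace Pool.Agent.Helper52.Tao

open Pool.Agent.Helper68.Moeller

variable {d m : ℕ} {r : ℤ → ℤ}

theorem gset_finite (P : ℤ → Prop) (a b : ℝ) : {n : ℤ | a ≤ n ∧ (n : ℝ) ≤ b ∧ P n}.Finite := by
  refine (Set.finite_Icc ⌈a⌉ ⌊b⌋).subset ?_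
  rintro n ⟨h1, h2, _⟩
  exact ⟨Int.ceil_le.2 h1, Int.le_floor.2 h2⟩

theorem gd_nonneg {z a : ℝ} (ha : 0 ≤ a) : 0 ≤ gd d m r z a := by
  unfold gd; positivity

theorem gd_le_two {z a : ℝ} (ha : 1 ≤ a) : gd d m r z a ≤ 2 := by
  unfold gd
  rw [div_le_iff₀ (by linarith)]
  have h1 : {n : ℤ | a ≤ n ∧ (n : ℝ) < 2 * a ∧ ∀ k : ℕ, z < ((T d m r)^[k] n : ℝ)}.ncard ≤
      (Finset.Ico ⌈a⌉ ⌈2 * a⌉).card := by
    rw [← Set.ncard_coe_finset]
    refine Set.ncard_le_ncard ?_ (Finset.finite_toSet _)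
    rintro n ⟨h1, h2, _⟩
    rw [Finset.coe_Ico]
    exact ⟨Int.ceil_le.2 h1, Int.lt_ceil.2 h2⟩
  have h2 : (({n : ℤ | a ≤ n ∧ (n : ℝ) < 2 * a ∧
      ∀ k : ℕ, z < ((T d m r)^[k] n : ℝ)}.ncard : ℕ) : ℝ) ≤ ((Finset.Ico ⌈a⌉ ⌈2 * a⌉).card : ℝ) := by
    exact_mod_cast h1
  refine h2.trans ?_
  rw [Int.card_Ico]
  have h3 : (0 : ℤ) ≤ ⌈2 * a⌉ - ⌈a⌉ := by
    have : ⌈a⌉ ≤ ⌈2 * a⌉ := Int.ceil_mono (by linarith)
    omega
  have h4 : (((⌈2 * a⌉ - ⌈a⌉).toNat : ℕ) : ℝ) = ((⌈2 * a⌉ - ⌈a⌉ : ℤ) : ℝ) := by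
    have := Int.toNat_of_nonneg h3
    exact_mod_cast this
  rw [h4]
  push_cast
  have h5 := Int.ceil_lt_add_one (2 * a)
  have h6 := Int.le_ceil a
  linarith

/-- The recursion over scales. -/
theorem recursion (h : ℝ → ℝ) {u₀ G₀ c₁ C₂ : ℝ} {n : ℕ} (hn : 1 ≤ n) (hu₀ : 0 < u₀)
    (hG₀ : 0 ≤ G₀) (hc₁ : 0 < c₁) (hc₁' : c₁ ≤ 1 / 2) (hC₂ : 0 ≤ C₂)
    (hbase : ∀ u, u₀ / 2 ≤ u → u ≤ u₀ → h u ≤ G₀)
    (hstep : ∀ u, u₀ ≤ u → ∀ G, 0 ≤ G → (∀ u', u / 2 ≤ u' → u' ≤ (1 - c₁) * u → h u' ≤ G) →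
      h u ≤ G + C₂ * (u ^ n)⁻¹) :
    ∀ u, u₀ / 2 ≤ u → h u ≤ G₀ + C₂ / (((1 - c₁) ^ n)⁻¹ - 1) * (2 ^ n * (u₀ ^ n)⁻¹) := by
  have h1c : 0 < 1 - c₁ := by linarith
  have hpow : (1 - c₁) ^ n < 1 := pow_lt_one₀ h1c.le (by linarith) (by omega)
  have hden : 0 < ((1 - c₁) ^ n)⁻¹ - 1 := by
    have := (one_lt_inv₀ (pow_pos h1c n)).2 hpow
    linarith
  set C₃ := C₂ / (((1 - c₁) ^ n)⁻¹ - 1) with hC₃
  have hC₃0 : 0 ≤ C₃ := div_nonneg hC₂ hden.le
  have hrel : C₃ * ((1 - c₁) ^ n)⁻¹ = C₃ + C₂ := by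
    have : C₃ * (((1 - c₁) ^ n)⁻¹ - 1) = C₂ := div_mul_cancel₀ _ hden.ne'
    linarith
  have hcmp : ∀ u, u₀ / 2 ≤ u → (u ^ n)⁻¹ ≤ 2 ^ n * (u₀ ^ n)⁻¹ := by
    intro u hu
    have h1 : (u₀ / 2) ^ n ≤ u ^ n := pow_le_pow_left₀ (by linarith) hu n
    have h2 : (2 : ℝ) ^ n * (u₀ ^ n)⁻¹ = ((u₀ / 2) ^ n)⁻¹ := by
      rw [div_pow, inv_div, div_eq_mul_inv]
    rw [h2]
    exact inv_anti₀ (by positivity) h1
  have key : ∀ k : ℕ, ∀ u, u₀ / 2 ≤ u → u ≤ u₀ + k * (c₁ * u₀) →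
      h u ≤ G₀ + C₃ * (2 ^ n * (u₀ ^ n)⁻¹ - (u ^ n)⁻¹) := by
    intro k
    induction k with
    | zero =>
      intro u hu hu'
      have h1 := hbase u hu (by simpa using hu')
      have h2 := hcmp u hu
      have h3 : 0 ≤ C₃ * (2 ^ n * (u₀ ^ n)⁻¹ - (u ^ n)⁻¹) := mul_nonneg hC₃0 (by linarith)
      linarith
    | succ k ih =>
      intro u hu hu'
      rcases le_total u u₀ with hle | hle
      · have h1 := hbase u hu hle
        have h2 := hcmp u hu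
        have h3 : 0 ≤ C₃ * (2 ^ n * (u₀ ^ n)⁻¹ - (u ^ n)⁻¹) := mul_nonneg hC₃0 (by linarith)
        linarith
      · have hu0 : 0 < u := by linarith
        have hc : u₀ / 2 ≤ (1 - c₁) * u := by nlinarith
        have hval : (((1 - c₁) * u) ^ n)⁻¹ = ((1 - c₁) ^ n)⁻¹ * (u ^ n)⁻¹ := by
          rw [mul_pow, mul_inv]
        have h2 := hcmp _ hc
        have h3 := hstep u hle (G₀ + C₃ * (2 ^ n * (u₀ ^ n)⁻¹ - (((1 - c₁) * u) ^ n)⁻¹))
          (add_nonneg hG₀ (mul_nonneg hC₃0 (by linarith))) (by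
            intro u' h4 h5
            have h6 : 0 < u' := by linarith
            refine (ih u' (by linarith) ?_).trans ?_
            · push_cast at hu'
              nlinarith
            · have h7 : (((1 - c₁) * u) ^ n)⁻¹ ≤ (u' ^ n)⁻¹ :=
                inv_anti₀ (by positivity) (pow_le_pow_left₀ h6.le h5 n)
              have h8 : C₃ * (2 ^ n * (u₀ ^ n)⁻¹ - (u' ^ n)⁻¹) ≤
                  C₃ * (2 ^ n * (u₀ ^ n)⁻¹ - (((1 - c₁) * u) ^ n)⁻¹) :=
                mul_le_mul_of_nonneg_left (by linarith) hC₃0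
              linarith)
        rw [hval] at h3
        have h9 : C₃ * (((1 - c₁) ^ n)⁻¹ * (u ^ n)⁻¹) = (C₃ + C₂) * (u ^ n)⁻¹ := by
          rw [← mul_assoc, hrel]
        nlinarith
  intro u hu
  obtain ⟨k, hk⟩ := exists_nat_gt ((u - u₀) / (c₁ * u₀))
  have h1 : u ≤ u₀ + k * (c₁ * u₀) := by
    rw [div_lt_iff₀ (by positivity)] at hk
    linarith
  have h2 := key k u hu h1
  have h3 : 0 ≤ C₃ * (u ^ n)⁻¹ := mul_nonneg hC₃0 (by
    have : 0 < u := by linarith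
    positivity)
  nlinarith

/-- `exp (- κ u) ≤ C u ^ (-n)`. -/
theorem exp_neg_le {κ : ℝ} (hκ : 0 < κ) (n : ℕ) {u : ℝ} (hu : 0 < u) :
    Real.exp (-(κ * u)) ≤ (n.factorial / κ ^ n) * (u ^ n)⁻¹ := by
  have h1 : (κ * u) ^ n / n.factorial ≤ Real.exp (κ * u) :=
    Real.pow_div_factorial_le_exp (κ * u) (by positivity) n
  have h2 : (0 : ℝ) < (κ * u) ^ n / n.factorial := by positivity
  rw [Real.exp_neg]
  refine (inv_anti₀ h2 h1).trans (le_of_eq ?_)
  rw [mul_pow]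
  field_simp

/-- One step of the recursion. -/
theorem one_step (hd : 2 ≤ d) (hdm : d < m) (hco : Nat.Coprime m d)
    (hm : (m : ℝ) ≤ (d : ℝ) ^ ((d : ℝ) / ((d : ℝ) - 1))) (h1 : Flow d m r) (n : ℕ) :
    ∃ c₁ C₂ C U₀ : ℝ, 0 < c₁ ∧ c₁ ≤ 1 / 2 ∧ 0 < C₂ ∧ 0 < C ∧ 0 < U₀ ∧ ∀ z : ℝ, 1 ≤ z → ∀ u, U₀ ≤ u →
      C * z ^ 2 ≤ Real.exp (u / 2) → ∀ G, 0 ≤ G →
        (∀ u', u / 2 ≤ u' → u' ≤ (1 - c₁) * u → gd d m r z (Real.exp u') ≤ G) →
          gd d m r z (Real.exp u) ≤ G + C₂ * (u ^ n)⁻¹ := by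
  classical
  have hd' : (2 : ℝ) ≤ d := by exact_mod_cast hd
  have hd0 : (0 : ℝ) < d := by linarith
  have hm0 : (0 : ℝ) < m := by
    have : 0 < m := by omega
    exact_mod_cast this
  have hD := log_d_pos hd
  have hM := log_m_gt hd hdm
  have hM0 : 0 < Real.log m := hD.trans hM
  obtain ⟨hp1, hp2⟩ := p_bounds hd hdm hco hm
  set al : ℝ := (1 - 1 / (d : ℝ) + Real.log d / Real.log m) / 2 with hal
  have hal1 : (1 - 1 / (d : ℝ)) * 1 < al := by rw [hal]; linarith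
  have hal2 : al < Real.log d / Real.log m := by rw [hal]; linarith
  have hδ : 0 < Real.log d - al * Real.log m := by
    rw [lt_div_iff₀ hM0] at hal2
    linarith
  set δ := Real.log d - al * Real.log m with hδ_def
  obtain ⟨c, hc0, hc⟩ := chernoff hd one_pos hal1
  obtain ⟨C, hC0, hC⟩ := h1 n
  set L := Real.log d + Real.log m with hL
  have hL0 : 0 < L := by positivity
  set c₀ := 1 / (16 * L) with hc₀
  have hc₀0 : 0 < c₀ := by positivity
  have hc₀L : c₀ * L = 1 / 16 := by rw [hc₀]; field_simp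
  have hδL : δ ≤ L := by
    have : 0 ≤ al * Real.log m := by
      have : 0 ≤ al := by
        have : (0 : ℝ) ≤ 1 - 1 / (d : ℝ) := by
          rw [sub_nonneg, div_le_one hd0]; linarith
        linarith
      positivity
    rw [hδ_def, hL]; linarith
  refine ⟨c₀ * δ / 2, 2 * (n.factorial / (c * c₀ / 2) ^ n) + C * ((c₀ / 2) ^ n)⁻¹, C, 2 / c₀,
    by positivity, ?_, by positivity, hC0, by positivity, ?_⟩
  · have : c₀ * δ ≤ c₀ * L := mul_le_mul_of_nonneg_left hδL hc₀0.le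
    linarith
  intro z hz u hu hCz G hG hG'
  have hu0 : 0 < u := lt_of_lt_of_le (by positivity) hu
  have hcu : 2 ≤ c₀ * u := by
    rw [div_le_iff₀ hc₀0] at hu
    linarith
  set t := ⌊c₀ * u⌋₊ with ht
  have ht1 : (t : ℝ) ≤ c₀ * u := Nat.floor_le (by positivity)
  have ht2 : c₀ * u < t + 1 := Nat.lt_floor_add_one _
  have ht3 : c₀ / 2 * u ≤ t := by linarith
  have ht4 : 1 ≤ t := by
    rw [ht]; exact Nat.le_floor (by push_cast; linarith)
  have ht0 : (0 : ℝ) < t := by exact_mod_cast ht4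
  have htL : (t : ℝ) * L ≤ u / 16 := by
    have := mul_le_mul_of_nonneg_right ht1 hL0.le
    have h2 : c₀ * u * L = u / 16 := by
      rw [mul_right_comm, hc₀L]; ring
    linarith
  -- the condition of the flow inequality
  have hcond : C * z ^ 2 * ((d : ℝ) * m) ^ (8 * t) ≤ Real.exp u := by
    have h2 : ((d : ℝ) * m) ^ (8 * t) ≤ Real.exp (u / 2) := by
      have h3 : ((d : ℝ) * m) ^ (8 * t) = Real.exp (8 * t * L) := by
        rw [hL, ← Real.log_mul hd0.ne' hm0.ne', ← Real.exp_log (show (0 : ℝ) < ((d : ℝ) * m) ^ (8 * t) by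
          positivity), Real.log_pow]
        push_cast
        rfl
      rw [h3]
      exact Real.exp_le_exp.2 (by nlinarith)
    calc C * z ^ 2 * ((d : ℝ) * m) ^ (8 * t) ≤ Real.exp (u / 2) * Real.exp (u / 2) :=
          mul_le_mul hCz h2 (by positivity) (Real.exp_pos _).le
      _ = Real.exp u := by rw [← Real.exp_add]; congr 1; ring
  have hflow := hC t ht4 z (Real.exp u) hz hcond
  -- the sum over the words
  have hsum : ∑ v ∈ W d t, gd d m r z (Real.exp u * (m : ℝ) ^ sg v / (d : ℝ) ^ t) ≤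
      (d : ℝ) ^ t * G + 2 * cW d t (fun w => al * t ≤ (sg w : ℝ)) := by
    rw [cW_eq_sum, Finset.mul_sum]
    have hcard : (d : ℝ) ^ t * G = ∑ _v ∈ W d t, G := by
      rw [Finset.sum_const, card_W, nsmul_eq_mul]
      push_cast; rfl
    rw [hcard, ← Finset.sum_add_distrib]
    refine Finset.sum_le_sum fun v hv => ?_
    have hsgv : (sg v : ℝ) ≤ t := by
      have := sg_le_length v
      rw [length_of_mem_W hv] at this
      exact_mod_cast this
    have hval : Real.exp u * (m : ℝ) ^ sg v / (d : ℝ) ^ t =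
        Real.exp (u + sg v * Real.log m - t * Real.log d) := by
      rw [Real.exp_sub, Real.exp_add, ← Real.log_pow, ← Real.log_pow, Real.exp_log (by positivity),
        Real.exp_log (by positivity)]
    rw [hval]
    have htD : (t : ℝ) * Real.log d ≤ u / 16 := by
      refine le_trans (mul_le_mul_of_nonneg_left ?_ ht0.le) htL
      rw [hL]; linarith
    have hsM : 0 ≤ (sg v : ℝ) * Real.log m := by positivity
    split_ifs with hsv
    · have h2 : gd d m r z (Real.exp (u + sg v * Real.log m - t * Real.log d)) ≤ 2 :=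
        gd_le_two (Real.one_le_exp (by linarith))
      linarith
    · rw [not_le] at hsv
      have h2 : (sg v : ℝ) * Real.log m ≤ al * t * Real.log m :=
        mul_le_mul_of_nonneg_right hsv.le hM0.le
      have h3 : (c₀ / 2 * u) * δ ≤ t * δ := mul_le_mul_of_nonneg_right ht3 hδ.le
      have h4 := hG' (u + sg v * Real.log m - t * Real.log d) (by linarith) (by
        rw [hδ_def] at h3 ⊢
        nlinarith)
      linarith
  have hdt : (0 : ℝ) < (d : ℝ) ^ t := by positivity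
  have hch := hc t t (by linarith)
  have h5 : (∑ v ∈ W d t, gd d m r z (Real.exp u * (m : ℝ) ^ sg v / (d : ℝ) ^ t)) / (d : ℝ) ^ t ≤
      G + 2 * Real.exp (-(c * t)) := by
    rw [div_le_iff₀ hdt]
    refine hsum.trans ?_
    have h9 := mul_le_mul_of_nonneg_left hch (by norm_num : (0 : ℝ) ≤ 2)
    have h10 : (G + 2 * Real.exp (-(c * t))) * (d : ℝ) ^ t =
        (d : ℝ) ^ t * G + 2 * ((d : ℝ) ^ t * Real.exp (-(c * t))) := by ring
    rw [h10]
    linarith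
  have h6 : Real.exp (-(c * t)) ≤ n.factorial / (c * c₀ / 2) ^ n * (u ^ n)⁻¹ := by
    refine le_trans (Real.exp_le_exp.2 ?_) (exp_neg_le (by positivity) n hu0)
    have h9 := mul_le_mul_of_nonneg_left ht3 hc0.le
    have h10 : c * c₀ / 2 * u = c * (c₀ / 2 * u) := by ring
    rw [h10]
    linarith
  have h7 : (t : ℝ) ^ (-(n : ℝ)) ≤ ((c₀ / 2) ^ n)⁻¹ * (u ^ n)⁻¹ := by
    rw [Real.rpow_neg ht0.le, Real.rpow_natCast, ← mul_inv, ← mul_pow]
    exact inv_anti₀ (by positivity) (pow_le_pow_left₀ (by positivity) ht3 n)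
  have h8 : C * (t : ℝ) ^ (-(n : ℝ)) ≤ C * (((c₀ / 2) ^ n)⁻¹ * (u ^ n)⁻¹) :=
    mul_le_mul_of_nonneg_left h7 hC0.le
  calc gd d m r z (Real.exp u) ≤ _ := hflow
    _ ≤ (G + 2 * Real.exp (-(c * t))) + C * (t : ℝ) ^ (-(n : ℝ)) := by linarith
    _ ≤ G + 2 * (n.factorial / (c * c₀ / 2) ^ n * (u ^ n)⁻¹) + C * (((c₀ / 2) ^ n)⁻¹ * (u ^ n)⁻¹) := by
        linarith
    _ = _ := by ring

/-- The polylogarithmic version, for `ncard`. -/
theorem main_ncard (hd : 2 ≤ d) (hdm : d < m) (hco : Nat.Coprime m d)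
    (hm : (m : ℝ) ≤ (d : ℝ) ^ ((d : ℝ) / ((d : ℝ) - 1))) (hr : Admissible d m r) {η : ℝ}
    (hη : eta d m < η) (hη1 : η < 1) :
    ∃ C : ℝ, 0 < C ∧ ∀ x z : ℝ, 2 ≤ x → 1 ≤ z →
      ({n : ℤ | 0 < n ∧ (n : ℝ) ≤ x ∧ ∀ k : ℕ, z < ((T d m r)^[k] n : ℝ)}.ncard : ℝ) ≤
        C * Real.log x ^ 4 * x * z ^ (η - 1) := by
  classical
  obtain ⟨C, hC0, hC⟩ := Moeller.main_T hd hdm hco hm hη hη1
  set B : ℕ := 1 + ∑ j ∈ Finset.range d, (r j).natAbs with hB
  have hBr : ∀ j : ℤ, 0 < j → j < (d : ℤ) → |r j| ≤ B := by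
    intro j hj hjd
    have h1 : j.toNat ∈ Finset.range d := by
      rw [Finset.mem_range]; omega
    have h2 := Finset.single_le_sum (f := fun j : ℕ => (r j).natAbs) (fun i _ => Nat.zero_le _) h1
    have h3 : ((j.toNat : ℕ) : ℤ) = j := Int.toNat_of_nonneg hj.le
    simp only [h3] at h2
    rw [Int.abs_eq_natAbs]
    have h4 : (r j).natAbs ≤ B := by omega
    exact_mod_cast h4
  refine ⟨C * B, by positivity, ?_⟩
  intro x z hx hz
  have hfin : {n : ℤ | 0 < n ∧ (n : ℝ) ≤ x ∧ ∀ k : ℕ, z < ((T d m r)^[k] n : ℝ)}.Finite := by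
    refine (Set.finite_Icc 0 ⌊x⌋).subset ?_
    rintro n ⟨h1, h2, _⟩
    exact ⟨h1.le, Int.le_floor.2 h2⟩
  rw [Set.ncard_eq_toFinset_card _ hfin]
  refine hC r hr B (by omega) hBr x z hx hz _ ?_
  intro n hn
  rw [Set.Finite.mem_toFinset] at hn
  exact hn

/-- The bound for `gd` at large scales. -/
theorem gd_bound (hd : 2 ≤ d) (hdm : d < m) (hco : Nat.Coprime m d)
    (hm : (m : ℝ) ≤ (d : ℝ) ^ ((d : ℝ) / ((d : ℝ) - 1))) (h1 : Flow d m r) {η η₁ κ CT : ℝ}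
    (hη : 0 < η) (hκ : 0 < κ) (hκη : 4 * κ + (η₁ - 1) = η - 1) (hCT : 0 < CT)
    (hT : ∀ x z : ℝ, 2 ≤ x → 1 ≤ z →
      ({n : ℤ | 0 < n ∧ (n : ℝ) ≤ x ∧ ∀ k : ℕ, z < ((T d m r)^[k] n : ℝ)}.ncard : ℝ) ≤
        CT * Real.log x ^ 4 * x * z ^ (η₁ - 1)) :
    ∃ C Z : ℝ, 0 < C ∧ 1 ≤ Z ∧ ∀ z : ℝ, Z ≤ z → Real.log 2 ≤ z ^ κ / 2 ∧ ∀ u : ℝ, z ^ κ / 2 ≤ u →
      gd d m r z (Real.exp u) ≤ C * z ^ (η - 1) := by
  set n : ℕ := ⌈1 / κ⌉₊ with hn
  have hn1 : 1 ≤ n := Nat.one_le_iff_ne_zero.2 (Nat.ceil_pos.2 (by positivity)).ne'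
  have hnκ : 1 ≤ κ * n := by
    have := Nat.le_ceil (1 / κ)
    rw [div_le_iff₀ hκ] at this
    linarith
  obtain ⟨c₁, C₂, C, U₀, hc1, hc1', hC20, hC0, hU0, hstep⟩ := one_step (r := r) hd hdm hco hm h1 n
  set k : ℕ := ⌈3 / κ⌉₊ with hk
  have hkκ : 3 ≤ κ * k := by
    have := Nat.le_ceil (3 / κ)
    rw [div_le_iff₀ hκ] at this
    linarith
  obtain ⟨Z₁, hZ₁⟩ := Filter.eventually_atTop.1
    ((tendsto_rpow_atTop hκ).eventually_ge_atTop (max U₀ (2 * Real.log 2)))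
  have h1c : 0 < 1 - c₁ := by linarith
  have hpow : (1 - c₁) ^ n < 1 := pow_lt_one₀ h1c.le (by linarith) (by omega)
  have hden : 0 < ((1 - c₁) ^ n)⁻¹ - 1 := by
    have := (one_lt_inv₀ (pow_pos h1c n)).2 hpow
    linarith
  refine ⟨32 * CT + C₂ / (((1 - c₁) ^ n)⁻¹ - 1) * 2 ^ n, max (max 1 Z₁) (C * (2 ^ k * k.factorial)),
    by positivity, (le_max_left _ _).trans (le_max_left _ _), ?_⟩
  intro z hz
  have hz1 : 1 ≤ z := ((le_max_left _ _).trans (le_max_left _ _)).trans hz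
  have hz2 : Z₁ ≤ z := ((le_max_right _ _).trans (le_max_left _ _)).trans hz
  have hz3 : C * (2 ^ k * k.factorial) ≤ z := (le_max_right _ _).trans hz
  have hz0 : 0 < z := by linarith
  have hu₀ := hZ₁ z hz2
  have hu₀1 : U₀ ≤ z ^ κ := (le_max_left _ _).trans hu₀
  have hu₀2 : Real.log 2 ≤ z ^ κ / 2 := by
    have := (le_max_right U₀ (2 * Real.log 2)).trans hu₀
    linarith
  have hu₀0 : 0 < z ^ κ := Real.rpow_pos_of_pos hz0 _
  refine ⟨hu₀2, ?_⟩
  have hCz : C * z ^ 2 ≤ Real.exp (z ^ κ / 2) := by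
    have h2 : (z ^ κ / 2) ^ k / k.factorial ≤ Real.exp (z ^ κ / 2) :=
      Real.pow_div_factorial_le_exp _ (by positivity) k
    refine le_trans ?_ h2
    have h3 : z ^ 3 ≤ (z ^ κ) ^ k := by
      rw [← Real.rpow_natCast (z ^ κ) k, ← Real.rpow_mul hz0.le, ← Real.rpow_natCast z 3]
      exact Real.rpow_le_rpow_of_exponent_le hz1 (by push_cast; linarith)
    rw [div_pow, div_div, le_div_iff₀ (by positivity)]
    calc C * z ^ 2 * (2 ^ k * k.factorial) = C * (2 ^ k * k.factorial) * z ^ 2 := by ring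
      _ ≤ z * z ^ 2 := mul_le_mul_of_nonneg_right hz3 (by positivity)
      _ = z ^ 3 := by ring
      _ ≤ _ := h3
  have hrec := recursion (fun u => gd d m r z (Real.exp u)) (u₀ := z ^ κ)
    (G₀ := 32 * CT * z ^ (η - 1)) hn1 hu₀0 (by positivity) hc1 hc1' hC20.le (by
      intro u hu hu'
      have hu0 : 0 < u := by linarith
      have he : 0 < Real.exp u := Real.exp_pos u
      have he1 : 1 ≤ Real.exp u := Real.one_le_exp hu0.le
      have h2 := hT (2 * Real.exp u) z (by linarith) hz1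
      have hsub : ({n : ℤ | Real.exp u ≤ n ∧ (n : ℝ) < 2 * Real.exp u ∧
          ∀ k : ℕ, z < ((T d m r)^[k] n : ℝ)}.ncard : ℝ) ≤
          ({n : ℤ | 0 < n ∧ (n : ℝ) ≤ 2 * Real.exp u ∧
            ∀ k : ℕ, z < ((T d m r)^[k] n : ℝ)}.ncard : ℝ) := by
        norm_cast
        refine Set.ncard_le_ncard ?_ ?_
        · rintro n ⟨a1, a2, a3⟩
          refine ⟨?_, a2.le, a3⟩
          have : (0 : ℝ) < n := by linarith
          exact_mod_cast this
        · refine (Set.finite_Icc 0 ⌊2 * Real.exp u⌋).subset ?_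
          rintro n ⟨a1, a2, _⟩
          exact ⟨a1.le, Int.le_floor.2 a2⟩
      have hlog : Real.log (2 * Real.exp u) = Real.log 2 + u := by
        rw [Real.log_mul (by norm_num) he.ne', Real.log_exp]
      have hlog4 : Real.log (2 * Real.exp u) ^ 4 ≤ 16 * z ^ (4 * κ) := by
        have h3 : Real.log (2 * Real.exp u) ≤ 2 * z ^ κ := by rw [hlog]; linarith
        have h4 : 0 ≤ Real.log (2 * Real.exp u) := Real.log_nonneg (by linarith)
        refine (pow_le_pow_left₀ h4 h3 4).trans (le_of_eq ?_)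
        rw [mul_pow, ← Real.rpow_natCast (z ^ κ) 4, ← Real.rpow_mul hz0.le]
        norm_num
        rw [mul_comm κ 4]
      have h5 : gd d m r z (Real.exp u) ≤
          CT * Real.log (2 * Real.exp u) ^ 4 * (2 * Real.exp u) * z ^ (η₁ - 1) / Real.exp u := by
        unfold gd
        exact div_le_div_of_nonneg_right (hsub.trans h2) he.le
      have h6 : CT * Real.log (2 * Real.exp u) ^ 4 * (2 * Real.exp u) * z ^ (η₁ - 1) / Real.exp u =
          2 * CT * Real.log (2 * Real.exp u) ^ 4 * z ^ (η₁ - 1) := by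
        field_simp
      rw [h6] at h5
      have hzη : 0 < z ^ (η₁ - 1) := Real.rpow_pos_of_pos hz0 _
      calc gd d m r z (Real.exp u) ≤ _ := h5
        _ ≤ 2 * CT * (16 * z ^ (4 * κ)) * z ^ (η₁ - 1) := by gcongr
        _ = 32 * CT * (z ^ (4 * κ) * z ^ (η₁ - 1)) := by ring
        _ = 32 * CT * z ^ (η - 1) := by rw [← Real.rpow_add hz0, hκη])
    (by
      intro u hu G hG hG'
      exact hstep z hz1 u (hu₀1.trans hu)
        (hCz.trans (Real.exp_le_exp.2 (by linarith))) G hG hG')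
  intro u hu
  refine (hrec u hu).trans ?_
  have h2 : ((z ^ κ) ^ n)⁻¹ ≤ z ^ (η - 1) := by
    rw [← Real.rpow_natCast (z ^ κ) n, ← Real.rpow_mul hz0.le, ← Real.rpow_neg hz0.le]
    exact Real.rpow_le_rpow_of_exponent_le hz1 (by linarith)
  have h3 : C₂ / (((1 - c₁) ^ n)⁻¹ - 1) * (2 ^ n * ((z ^ κ) ^ n)⁻¹) ≤
      C₂ / (((1 - c₁) ^ n)⁻¹ - 1) * (2 ^ n * z ^ (η - 1)) := by gcongr
  calc _ ≤ 32 * CT * z ^ (η - 1) + C₂ / (((1 - c₁) ^ n)⁻¹ - 1) * (2 ^ n * z ^ (η - 1)) := by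
        linarith
    _ = _ := by ring

/-- Block FIN. -/
theorem final (hd : 2 ≤ d) (hdm : d < m) (hco : Nat.Coprime m d)
    (hm : (m : ℝ) ≤ (d : ℝ) ^ ((d : ℝ) / ((d : ℝ) - 1))) (hr : Admissible d m r)
    (h1 : Flow d m r) : Final d m r := by
  intro η hη hη1
  have hη0 : 0 < eta d m := eta_pos hd hdm
  set η₁ : ℝ := (eta d m + η) / 2 with hη₁
  obtain ⟨CT, hCT, hT⟩ := main_ncard (r := r) hd hdm hco hm hr (η := η₁) (by rw [hη₁]; linarith)
    (by rw [hη₁]; linarith)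
  set κ : ℝ := (η - η₁) / 4 with hκ_def
  have hκ : 0 < κ := by rw [hκ_def, hη₁]; linarith
  have hκη : 4 * κ + (η₁ - 1) = η - 1 := by rw [hκ_def]; ring
  obtain ⟨C₅, Z, hC₅, hZ1, hZ⟩ := gd_bound hd hdm hco hm h1 (hη0.trans hη) hκ hκη hCT hT
  have hZ0 : 0 < Z := by linarith
  refine ⟨2 * (CT + C₅) + 2 * Z ^ (1 - η), by positivity, ?_⟩
  intro x z hx hz
  have hz0 : 0 < z := by linarith
  have hx0 : 0 < x := by linarith
  have hzη : 0 < z ^ (η - 1) := Real.rpow_pos_of_pos hz0 _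
  have hfinlt : ∀ y : ℝ, {n : ℤ | 0 < n ∧ (n : ℝ) < y ∧
      ∀ k : ℕ, z < ((T d m r)^[k] n : ℝ)}.Finite := by
    intro y
    refine (Set.finite_Icc 0 ⌊y⌋).subset ?_
    rintro n ⟨a1, a2, _⟩
    exact ⟨a1.le, Int.le_floor.2 a2.le⟩
  have hfinle : ∀ y : ℝ, {n : ℤ | 0 < n ∧ (n : ℝ) ≤ y ∧
      ∀ k : ℕ, z < ((T d m r)^[k] n : ℝ)}.Finite := by
    intro y
    refine (Set.finite_Icc 0 ⌊y⌋).subset ?_
    rintro n ⟨a1, a2, _⟩
    exact ⟨a1.le, Int.le_floor.2 a2⟩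
  rcases lt_or_ge z Z with hzZ | hzZ
  · -- small `z`
    have h2 : ({n : ℤ | 0 < n ∧ (n : ℝ) ≤ x ∧ ∀ k : ℕ, z < ((T d m r)^[k] n : ℝ)}.ncard : ℝ) ≤
        x := by
      have h3 : {n : ℤ | 0 < n ∧ (n : ℝ) ≤ x ∧ ∀ k : ℕ, z < ((T d m r)^[k] n : ℝ)}.ncard ≤
          (Finset.Ioc 0 ⌊x⌋).card := by
        rw [← Set.ncard_coe_finset]
        refine Set.ncard_le_ncard ?_ (Finset.finite_toSet _)
        rintro n ⟨a1, a2, _⟩
        rw [Finset.coe_Ioc]
        exact ⟨a1, Int.le_floor.2 a2⟩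
      rw [Int.card_Ioc] at h3
      have h4 : (0 : ℤ) ≤ ⌊x⌋ := Int.floor_nonneg.2 hx0.le
      have h5 : (((⌊x⌋ - 0).toNat : ℕ) : ℝ) = ((⌊x⌋ : ℤ) : ℝ) := by
        rw [sub_zero]
        have := Int.toNat_of_nonneg h4
        exact_mod_cast this
      have h6 : (({n : ℤ | 0 < n ∧ (n : ℝ) ≤ x ∧
          ∀ k : ℕ, z < ((T d m r)^[k] n : ℝ)}.ncard : ℕ) : ℝ) ≤ (((⌊x⌋ - 0).toNat : ℕ) : ℝ) := by
        exact_mod_cast h3
      exact h6.trans (h5.le.trans (Int.floor_le x))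
    have h3 : 1 ≤ Z ^ (1 - η) * z ^ (η - 1) := by
      have h4 : Z ^ (η - 1) ≤ z ^ (η - 1) :=
        Real.rpow_le_rpow_of_nonpos hz0 hzZ.le (by linarith)
      have h5 : Z ^ (1 - η) * Z ^ (η - 1) = 1 := by
        rw [← Real.rpow_add hZ0]; simp
      have h6 : 0 < Z ^ (1 - η) := Real.rpow_pos_of_pos hZ0 _
      nlinarith
    have h4 : x ≤ x * (Z ^ (1 - η) * z ^ (η - 1)) := by nlinarith
    have h5 : 0 ≤ (CT + C₅) * (x * z ^ (η - 1)) := by positivity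
    have h6 : 0 ≤ x * (Z ^ (1 - η) * z ^ (η - 1)) := by positivity
    refine h2.trans (h4.trans ?_)
    nlinarith
  · obtain ⟨hlog2, hgd⟩ := hZ z hzZ
    have hu₀0 : 0 < z ^ κ := Real.rpow_pos_of_pos hz0 _
    -- the base case
    have hbase : ∀ y : ℝ, y ≤ Real.exp (z ^ κ) → 0 < y →
        ({n : ℤ | 0 < n ∧ (n : ℝ) < y ∧ ∀ k : ℕ, z < ((T d m r)^[k] n : ℝ)}.ncard : ℝ) ≤
          (CT + C₅) * y * z ^ (η - 1) := by
      intro y hy hy0
      rcases lt_or_ge y 2 with hy2 | hy2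
      · have hemp : {n : ℤ | 0 < n ∧ (n : ℝ) < y ∧ ∀ k : ℕ, z < ((T d m r)^[k] n : ℝ)} = ∅ := by
          rw [Set.eq_empty_iff_forall_notMem]
          rintro n ⟨a1, a2, a3⟩
          have a4 : (n : ℝ) < 2 := a2.trans hy2
          have a5 : n < 2 := by exact_mod_cast a4
          have a6 : n = 1 := by omega
          have a7 := a3 0
          simp only [Function.iterate_zero, id_eq, a6, Int.cast_one] at a7
          linarith
        rw [hemp, Set.ncard_empty, Nat.cast_zero]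
        positivity
      · have h2 := hT y z hy2 hz
        have hsub : ({n : ℤ | 0 < n ∧ (n : ℝ) < y ∧
            ∀ k : ℕ, z < ((T d m r)^[k] n : ℝ)}.ncard : ℝ) ≤
            ({n : ℤ | 0 < n ∧ (n : ℝ) ≤ y ∧ ∀ k : ℕ, z < ((T d m r)^[k] n : ℝ)}.ncard : ℝ) := by
          norm_cast
          refine Set.ncard_le_ncard ?_ (hfinle y)
          rintro n ⟨a1, a2, a3⟩
          exact ⟨a1, a2.le, a3⟩
        have hlog : Real.log y ≤ z ^ κ := by
          rw [← Real.log_exp (z ^ κ)]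
          exact Real.log_le_log hy0 hy
        have hlog0 : 0 ≤ Real.log y := Real.log_nonneg (by linarith)
        have hlog4 : Real.log y ^ 4 ≤ z ^ (4 * κ) := by
          refine (pow_le_pow_left₀ hlog0 hlog 4).trans (le_of_eq ?_)
          rw [← Real.rpow_natCast (z ^ κ) 4, ← Real.rpow_mul hz0.le]
          congr 1
          push_cast; ring
        have hzη₁ : 0 < z ^ (η₁ - 1) := Real.rpow_pos_of_pos hz0 _
        calc _ ≤ _ := hsub
          _ ≤ _ := h2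
          _ ≤ CT * z ^ (4 * κ) * y * z ^ (η₁ - 1) := by gcongr
          _ = CT * y * (z ^ (4 * κ) * z ^ (η₁ - 1)) := by ring
          _ = CT * y * z ^ (η - 1) := by rw [← Real.rpow_add hz0, hκη]
          _ ≤ (CT + C₅) * y * z ^ (η - 1) := by
            have : CT * y ≤ (CT + C₅) * y := mul_le_mul_of_nonneg_right (by linarith) hy0.le
            exact mul_le_mul_of_nonneg_right this hzη.le
    have hind : ∀ k : ℕ, ∀ y : ℝ, y ≤ 2 ^ k * Real.exp (z ^ κ) → 0 < y →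
        ({n : ℤ | 0 < n ∧ (n : ℝ) < y ∧ ∀ k : ℕ, z < ((T d m r)^[k] n : ℝ)}.ncard : ℝ) ≤
          (CT + C₅) * y * z ^ (η - 1) := by
      intro k
      induction k with
      | zero => intro y hy hy0; exact hbase y (by simpa using hy) hy0
      | succ k ih =>
        intro y hy hy0
        rcases le_or_gt y (Real.exp (z ^ κ)) with hle | hgt
        · exact hbase y hle hy0
        set a : ℝ := y / 2 with ha
        have ha0 : 0 < a := by positivity
        have hya : y = 2 * a := by rw [ha]; ring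
        have h2 : Real.exp (z ^ κ / 2) ≤ a := by
          have h3 : 2 ≤ Real.exp (z ^ κ / 2) := by
            have h9 := Real.exp_le_exp.2 hlog2
            rwa [Real.exp_log (by norm_num)] at h9
          have h4 : Real.exp (z ^ κ) = Real.exp (z ^ κ / 2) * Real.exp (z ^ κ / 2) := by
            rw [← Real.exp_add]; congr 1; ring
          nlinarith [Real.exp_pos (z ^ κ / 2)]
        have h3 : z ^ κ / 2 ≤ Real.log a := (Real.le_log_iff_exp_le ha0).2 h2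
        have h4 := hgd _ h3
        rw [Real.exp_log ha0] at h4
        have h5 := ih a (by rw [ha]; rw [pow_succ] at hy; linarith) ha0
        have h6 : ({n : ℤ | a ≤ n ∧ (n : ℝ) < 2 * a ∧
            ∀ k : ℕ, z < ((T d m r)^[k] n : ℝ)}.ncard : ℝ) ≤ C₅ * z ^ (η - 1) * a := by
          unfold gd at h4
          rwa [div_le_iff₀ ha0] at h4
        have h7 : ({n : ℤ | 0 < n ∧ (n : ℝ) < y ∧
            ∀ k : ℕ, z < ((T d m r)^[k] n : ℝ)}.ncard : ℝ) ≤
            ({n : ℤ | 0 < n ∧ (n : ℝ) < a ∧ ∀ k : ℕ, z < ((T d m r)^[k] n : ℝ)}.ncard : ℝ) +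
            ({n : ℤ | a ≤ n ∧ (n : ℝ) < 2 * a ∧
              ∀ k : ℕ, z < ((T d m r)^[k] n : ℝ)}.ncard : ℝ) := by
          norm_cast
          refine le_trans (Set.ncard_le_ncard ?_ ((hfinlt a).union ?_)) (Set.ncard_union_le _ _)
          · rintro n ⟨a1, a2, a3⟩
            rcases lt_or_ge (n : ℝ) a with a4 | a4
            · exact Or.inl ⟨a1, a4, a3⟩
            · exact Or.inr ⟨a4, by rw [← hya]; exact a2, a3⟩
          · refine (Set.finite_Icc 0 ⌊2 * a⌋).subset ?_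
            rintro n ⟨a1, a2, _⟩
            refine ⟨?_, Int.le_floor.2 a2.le⟩
            have : (0 : ℝ) ≤ n := by linarith
            exact_mod_cast this
        have h8 : 0 ≤ CT * a * z ^ (η - 1) := by positivity
        rw [hya]
        rw [hya] at h7
        nlinarith
    obtain ⟨k, hk⟩ := exists_nat_gt (2 * x)
    have h2k : (k : ℝ) ≤ 2 ^ k := by
      have := (Nat.lt_two_pow_self (n := k)).le
      exact_mod_cast this
    have hexp1 : 1 ≤ Real.exp (z ^ κ) := Real.one_le_exp hu₀0.le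
    have h2 := hind k (2 * x) (by nlinarith) (by linarith)
    have hsub : ({n : ℤ | 0 < n ∧ (n : ℝ) ≤ x ∧
        ∀ k : ℕ, z < ((T d m r)^[k] n : ℝ)}.ncard : ℝ) ≤
        ({n : ℤ | 0 < n ∧ (n : ℝ) < 2 * x ∧
        ∀ k : ℕ, z < ((T d m r)^[k] n : ℝ)}.ncard : ℝ) := by
      norm_cast
      refine Set.ncard_le_ncard ?_ (hfinlt _)
      rintro n ⟨a1, a2, a3⟩
      exact ⟨a1, by linarith, a3⟩
    refine (hsub.trans h2).trans ?_
    have h3 : 0 ≤ Z ^ (1 - η) * x * z ^ (η - 1) := by positivity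
    nlinarith

end Pool.Agent.Helper52.Tao
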