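import Pool.Agent.Helper52.Tao.Defs

/-!
Words of integers under the Möller map, and the number of points of `[A, 2A)` whose `t`-th
iterate lies in a set `G`.
-/

set_option autoImplicit false

namespace Pool.Agent.Helper52.Tao

open Pool.Agent.Helper68.Moeller

/-- Deterministic bound of the offset, sharper form. -/
theorem abs_Off_le' {d m : ℕ} (hd : 2 ≤ d) (hdm : d < m) {r : ℤ → ℤ} {B : ℕ}
    (hB : ∀ j : ℤ, 0 < j → j < (d : ℤ) → |r j| ≤ B) (t : ℕ) : ∀ w ∈ W d t,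
    |Off d m r w| ≤ B * ((m : ℤ) ^ t - (d : ℤ) ^ t) := by
  induction t with
  | zero =>
    intro w hw
    rw [W, Finset.mem_singleton] at hw
    subst hw
    simp [Off]
  | succ t ih =>
    intro w hw
    obtain ⟨h1, h2⟩ := mem_W.1 hw
    rcases w with _ | ⟨a, u⟩
    · simp at h1
    have hu : u ∈ W d t := mem_W.2 ⟨by simpa using h1, fun b hb => h2 b (by simp [hb])⟩
    have ha : a < d := h2 a (by simp)
    have hk := ih u hu
    have hlen : u.length = t := length_of_mem_W hu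
    rw [Off, hlen]
    have h3 : |(m : ℤ) ^ nz a * Off d m r u + (d : ℤ) ^ t * rr r a| ≤
        (m : ℤ) ^ nz a * |Off d m r u| + (d : ℤ) ^ t * |rr r a| := by
      refine (abs_add_le _ _).trans (le_of_eq ?_)
      rw [abs_mul, abs_mul, abs_of_nonneg (by positivity : (0 : ℤ) ≤ (m : ℤ) ^ nz a),
        abs_of_nonneg (by positivity : (0 : ℤ) ≤ (d : ℤ) ^ t)]
    refine h3.trans ?_
    have hB0 : (0 : ℤ) ≤ B := by positivity
    have hmd : (d : ℤ) + 1 ≤ m := by omega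
    have hd2 : (2 : ℤ) ≤ d := by omega
    have hdt : (0 : ℤ) ≤ (d : ℤ) ^ t := by positivity
    have hmt : (0 : ℤ) ≤ (m : ℤ) ^ t := by positivity
    have hle : (d : ℤ) ^ t ≤ (m : ℤ) ^ t := pow_le_pow_left₀ (by omega) (by omega) t
    by_cases h0 : a = 0
    · subst h0
      rw [nz_zero, pow_zero, one_mul, rr_zero, abs_zero, mul_zero, add_zero]
      refine hk.trans (mul_le_mul_of_nonneg_left ?_ hB0)
      rw [pow_succ, pow_succ]
      nlinarith [mul_nonneg hmt (by omega : (0 : ℤ) ≤ (m : ℤ) - d - 1),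
        mul_nonneg (sub_nonneg.mpr hle) (by omega : (0 : ℤ) ≤ (d : ℤ))]
    · rw [nz_of_ne h0, pow_one]
      have hr := abs_rr_le hB ha
      have h4 : (m : ℤ) * |Off d m r u| ≤ m * (B * ((m : ℤ) ^ t - (d : ℤ) ^ t)) :=
        mul_le_mul_of_nonneg_left hk (by positivity)
      have h5 : (d : ℤ) ^ t * |rr r a| ≤ (d : ℤ) ^ t * B := mul_le_mul_of_nonneg_left hr hdt
      refine (add_le_add h4 h5).trans ?_
      have h6 : (m : ℤ) * (B * ((m : ℤ) ^ t - (d : ℤ) ^ t)) + (d : ℤ) ^ t * B =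
          B * ((m : ℤ) ^ (t + 1) - (d : ℤ) ^ t * (m - 1)) := by ring
      rw [h6]
      refine mul_le_mul_of_nonneg_left ?_ hB0
      have h7 : (d : ℤ) ^ (t + 1) ≤ (d : ℤ) ^ t * (m - 1) := by
        rw [pow_succ]
        exact mul_le_mul_of_nonneg_left (by omega) hdt
      linarith

/-- Deterministic bound of the offset. -/
theorem abs_Off_le {d m : ℕ} (hd : 2 ≤ d) (hdm : d < m) {r : ℤ → ℤ} {B : ℕ}
    (hB : ∀ j : ℤ, 0 < j → j < (d : ℤ) → |r j| ≤ B) {t : ℕ} {w : List ℕ} (hw : w ∈ W d t) :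
    |Off d m r w| ≤ B * (m : ℤ) ^ t := by
  refine (abs_Off_le' hd hdm hB t w hw).trans (mul_le_mul_of_nonneg_left ?_ (by positivity))
  have : (0 : ℤ) ≤ (d : ℤ) ^ t := by positivity
  linarith

theorem toNat_emod {d : ℕ} (hd : 2 ≤ d) (x : ℤ) :
    (((x % (d : ℤ)).toNat : ℕ) : ℤ) = x % (d : ℤ) ∧ (x % (d : ℤ)).toNat < d := by
  have h1 := Int.emod_nonneg x (by omega : (d : ℤ) ≠ 0)
  have h2 := Int.emod_lt_of_pos x (by omega : (0 : ℤ) < d)
  omega

theorem wd_mem {d m : ℕ} (hd : 2 ≤ d) (r : ℤ → ℤ) (t : ℕ) (n : ℤ) : wd d m r t n ∈ W d t := by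
  induction t with
  | zero => simp [wd, W]
  | succ t ih =>
    rw [wd, mem_W] at *
    obtain ⟨h1, h2⟩ := ih
    refine ⟨by rw [List.length_cons, h1], ?_⟩
    intro a ha
    rcases List.mem_cons.1 ha with rfl | ha
    · exact (toNat_emod hd _).2
    · exact h2 a ha

/-- One step of the map. -/
theorem d_mul_T {d m : ℕ} (hd : 2 ≤ d) {r : ℤ → ℤ} (hr : Admissible d m r) (x : ℤ) :
    (d : ℤ) * T d m r x = (m : ℤ) ^ nz (x % (d : ℤ)).toNat * x - rr r (x % (d : ℤ)).toNat := by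
  obtain ⟨h1, h2⟩ := toNat_emod hd x
  by_cases hx : (d : ℤ) ∣ x
  · have h0 : (x % (d : ℤ)).toNat = 0 := by
      have := Int.emod_eq_zero_of_dvd hx
      omega
    rw [h0, nz_zero, rr_zero, pow_zero, one_mul, sub_zero, d_mul_T_of_dvd hx]
  · have h0 : (x % (d : ℤ)).toNat ≠ 0 := by
      intro h
      apply hx
      apply Int.dvd_of_emod_eq_zero
      omega
    rw [nz_of_ne h0, rr_of_ne h0, pow_one, d_mul_T_of_not_dvd hr hd hx, h1]

theorem wd_spec {d m : ℕ} (hd : 2 ≤ d) {r : ℤ → ℤ} (hr : Admissible d m r) (t : ℕ) (n : ℤ) :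
    (d : ℤ) ^ t * (T d m r)^[t] n = (m : ℤ) ^ sg (wd d m r t n) * n - Off d m r (wd d m r t n) := by
  induction t with
  | zero => simp [wd, Off]
  | succ t ih =>
    rw [wd, sg_cons, Off, length_of_mem_W (wd_mem hd r t n), Function.iterate_succ_apply']
    have h1 := d_mul_T hd hr ((T d m r)^[t] n)
    rw [pow_succ, mul_assoc, h1, mul_sub, ← mul_assoc, mul_comm ((d : ℤ) ^ t) ((m : ℤ) ^ _),
      mul_assoc, ih]
    ring

theorem wd_unique_aux {d m : ℕ} (hd : 2 ≤ d) (hco : Nat.Coprime m d) {r : ℤ → ℤ}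
    (hr : Admissible d m r) (t : ℕ) : ∀ w ∈ W d t, ∀ n y : ℤ,
    (m : ℤ) ^ sg w * n = (d : ℤ) ^ t * y + Off d m r w →
    wd d m r t n = w ∧ (T d m r)^[t] n = y := by
  have hcop : ∀ k l : ℕ, IsCoprime ((d : ℤ) ^ k) ((m : ℤ) ^ l) := by
    intro k l
    apply IsCoprime.pow
    exact (Nat.isCoprime_iff_coprime.mpr hco).symm
  have hd0 : (d : ℤ) ≠ 0 := by omega
  induction t with
  | zero =>
    intro w hw n y h
    rw [W, Finset.mem_singleton] at hw
    subst hw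
    simpa [wd, Off] using h
  | succ t ih =>
    intro w hw n y h
    obtain ⟨h1, h2⟩ := mem_W.1 hw
    rcases w with _ | ⟨a, u⟩
    · simp at h1
    have hu : u ∈ W d t := mem_W.2 ⟨by simpa using h1, fun b hb => h2 b (by simp [hb])⟩
    have ha : a < d := h2 a (by simp)
    rw [sg_cons, Off, length_of_mem_W hu] at h
    have h3 : (m : ℤ) ^ nz a * ((m : ℤ) ^ sg u * n - Off d m r u) =
        (d : ℤ) ^ t * ((d : ℤ) * y + rr r a) := by
      rw [pow_add] at h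
      rw [pow_succ] at h
      linear_combination h
    have h4 : (d : ℤ) ^ t ∣ (m : ℤ) ^ sg u * n - Off d m r u :=
      (hcop t (nz a)).dvd_of_dvd_mul_left ⟨_, h3⟩
    obtain ⟨x, hx⟩ := h4
    have h5 : (m : ℤ) ^ nz a * x = (d : ℤ) * y + rr r a := by
      rw [hx] at h3
      have h6 : (d : ℤ) ^ t * ((m : ℤ) ^ nz a * x) = (d : ℤ) ^ t * ((d : ℤ) * y + rr r a) := by
        rw [← h3]; ring
      exact mul_left_cancel₀ (pow_ne_zero t hd0) h6
    obtain ⟨h7, h8⟩ := ih u hu n x (by linear_combination hx)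
    have h9 : x % (d : ℤ) = a := by
      have h10 : (d : ℤ) ∣ x - a := by
        by_cases h0 : a = 0
        · subst h0
          rw [nz_zero, pow_zero, one_mul, rr_zero, add_zero] at h5
          rw [h5]
          simp
        · rw [nz_of_ne h0, pow_one, rr_of_ne h0] at h5
          have h11 := (hr a (by omega) (by omega)).dvd
          have h12 : (d : ℤ) ∣ m * (x - a) := by
            have : (m : ℤ) * (x - a) = d * y - (m * a - r a) := by linear_combination h5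
            rw [this]
            exact _root_.dvd_sub (dvd_mul_right _ _) h11
          have h13 := hcop 1 1
          rw [pow_one, pow_one] at h13
          exact h13.dvd_of_dvd_mul_left h12
      have h11 : (x : ℤ) ≡ a [ZMOD d] := (Int.modEq_iff_dvd.mpr h10).symm
      rw [h11]
      exact Int.emod_eq_of_lt (by omega) (by omega)
    have h10 : (x % (d : ℤ)).toNat = a := by omega
    constructor
    · rw [wd, h8, h7, h10]
    · rw [Function.iterate_succ_apply', h8]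
      have h11 := d_mul_T hd hr x
      rw [h10, h5] at h11
      exact mul_left_cancel₀ hd0 (by linear_combination h11)

theorem wd_unique {d m : ℕ} (hd : 2 ≤ d) (hco : Nat.Coprime m d) {r : ℤ → ℤ}
    (hr : Admissible d m r) {t : ℕ} {w : List ℕ} (hw : w ∈ W d t) {n y : ℤ}
    (h : (m : ℤ) ^ sg w * n = (d : ℤ) ^ t * y + Off d m r w) :
    wd d m r t n = w ∧ (T d m r)^[t] n = y :=
  wd_unique_aux hd hco hr t w hw n y h

/-- The integers of a half open interval. -/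
theorem finite_Ico (x y : ℝ) : {k : ℤ | x ≤ k ∧ (k : ℝ) < y}.Finite := by
  have h : {k : ℤ | x ≤ k ∧ (k : ℝ) < y} ⊆ ((Finset.Ico ⌈x⌉ ⌈y⌉ : Finset ℤ) : Set ℤ) := by
    rintro k ⟨h1, h2⟩
    rw [Finset.mem_coe, Finset.mem_Ico]
    exact ⟨Int.ceil_le.mpr h1, Int.lt_ceil.mpr h2⟩
  exact (Finset.finite_toSet _).subset h

theorem ncard_Ico_le (x : ℝ) {δ : ℝ} (hδ : 0 ≤ δ) :
    ({k : ℤ | x ≤ k ∧ (k : ℝ) < x + δ}.ncard : ℝ) ≤ δ + 1 := by
  have h : {k : ℤ | x ≤ k ∧ (k : ℝ) < x + δ} = ((Finset.Ico ⌈x⌉ ⌈x + δ⌉ : Finset ℤ) : Set ℤ) := by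
    ext k
    rw [Finset.mem_coe, Finset.mem_Ico, Set.mem_ofPred_eq, Int.ceil_le, Int.lt_ceil]
  rw [h, Set.ncard_coe_finset, Int.card_Ico]
  have h1 := Int.ceil_lt_add_one (x + δ)
  have h2 := Int.le_ceil x
  have h3 : ⌈x⌉ ≤ ⌈x + δ⌉ := Int.ceil_mono (by linarith)
  have h4 : (((⌈x + δ⌉ - ⌈x⌉).toNat : ℕ) : ℝ) = (⌈x + δ⌉ : ℝ) - (⌈x⌉ : ℝ) := by
    have : (((⌈x + δ⌉ - ⌈x⌉).toNat : ℕ) : ℤ) = ⌈x + δ⌉ - ⌈x⌉ := Int.toNat_of_nonneg (by omega)
    exact_mod_cast this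
  rw [h4]
  linarith

/-- Shifting an interval. -/
theorem ncard_shift_aux (Z : Set ℤ) (u v : ℝ) {δ : ℝ} (hδ : 0 ≤ δ) :
    |(({k : ℤ | u - δ ≤ k ∧ (k : ℝ) < v - δ ∧ k ∈ Z}.ncard : ℕ) : ℝ) -
      (({k : ℤ | u ≤ k ∧ (k : ℝ) < v ∧ k ∈ Z}.ncard : ℕ) : ℝ)| ≤ δ + 1 := by
  set P := {k : ℤ | u - δ ≤ k ∧ (k : ℝ) < v - δ ∧ k ∈ Z} with hP
  set Q := {k : ℤ | u ≤ k ∧ (k : ℝ) < v ∧ k ∈ Z} with hQ
  have hPf : P.Finite := (finite_Ico (u - δ) (v - δ)).subset (fun k hk => ⟨hk.1, hk.2.1⟩)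
  have hQf : Q.Finite := (finite_Ico u v).subset (fun k hk => ⟨hk.1, hk.2.1⟩)
  have h1 : P ⊆ Q ∪ {k : ℤ | u - δ ≤ k ∧ (k : ℝ) < (u - δ) + δ} := by
    rintro k ⟨a1, a2, a3⟩
    by_cases h : u ≤ k
    · left; exact ⟨h, by linarith, a3⟩
    · right; exact ⟨a1, by push Not at h; linarith⟩
  have h2 : Q ⊆ P ∪ {k : ℤ | v - δ ≤ k ∧ (k : ℝ) < (v - δ) + δ} := by
    rintro k ⟨a1, a2, a3⟩
    by_cases h : (k : ℝ) < v - δ
    · left; exact ⟨by linarith, h, a3⟩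
    · right; exact ⟨by push Not at h; linarith, by linarith⟩
  have h3 : (P.ncard : ℝ) ≤ Q.ncard + (δ + 1) := by
    have a1 := Set.ncard_le_ncard h1 (hQf.union (finite_Ico _ _))
    have a2 := Set.ncard_union_le Q {k : ℤ | u - δ ≤ k ∧ (k : ℝ) < (u - δ) + δ}
    have a3 := ncard_Ico_le (u - δ) hδ
    have a4 : (P.ncard : ℝ) ≤ Q.ncard +
        ({k : ℤ | u - δ ≤ k ∧ (k : ℝ) < (u - δ) + δ}.ncard : ℝ) := by
      exact_mod_cast a1.trans a2
    linarith
  have h4 : (Q.ncard : ℝ) ≤ P.ncard + (δ + 1) := by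
    have a1 := Set.ncard_le_ncard h2 (hPf.union (finite_Ico _ _))
    have a2 := Set.ncard_union_le P {k : ℤ | v - δ ≤ k ∧ (k : ℝ) < (v - δ) + δ}
    have a3 := ncard_Ico_le (v - δ) hδ
    have a4 : (Q.ncard : ℝ) ≤ P.ncard +
        ({k : ℤ | v - δ ≤ k ∧ (k : ℝ) < (v - δ) + δ}.ncard : ℝ) := by
      exact_mod_cast a1.trans a2
    linarith
  rw [abs_le]
  constructor <;> linarith

theorem ncard_shift (Z : Set ℤ) (u v δ : ℝ) :
    |(({k : ℤ | u - δ ≤ k ∧ (k : ℝ) < v - δ ∧ k ∈ Z}.ncard : ℕ) : ℝ) -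
      (({k : ℤ | u ≤ k ∧ (k : ℝ) < v ∧ k ∈ Z}.ncard : ℕ) : ℝ)| ≤ |δ| + 1 := by
  rcases le_total 0 δ with h | h
  · rw [abs_of_nonneg h]
    exact ncard_shift_aux Z u v h
  · rw [abs_of_nonpos h, abs_sub_comm]
    have h1 := ncard_shift_aux Z (u - δ) (v - δ) (by linarith : 0 ≤ -δ)
    simpa using h1

/-- Counting the points of `[A, 2A)` whose `t`-th iterate is in `G`. -/
theorem card_image {d m : ℕ} (hd : 2 ≤ d) (hdm : d < m) (hco : Nat.Coprime m d) {r : ℤ → ℤ}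
    (hr : Admissible d m r) {B : ℕ} (hB : ∀ j : ℤ, 0 < j → j < (d : ℤ) → |r j| ≤ B)
    {e : ℤ} {t : ℕ} (he : (m : ℤ) ^ t ∣ (d : ℤ) * e - 1) (G : Set ℤ) {A : ℝ} (hA : 0 < A) :
    |(({n : ℤ | A ≤ n ∧ (n : ℝ) < 2 * A ∧ (T d m r)^[t] n ∈ G}.ncard : ℕ) : ℝ) -
      ∑ w ∈ W d t, (({y : ℤ | A * (m : ℝ) ^ sg w / (d : ℝ) ^ t ≤ y ∧
        (y : ℝ) < 2 * (A * (m : ℝ) ^ sg w / (d : ℝ) ^ t) ∧ y ∈ G ∧
        (m : ℤ) ^ sg w ∣ y - F m r e w}.ncard : ℕ) : ℝ)| ≤
      2 * (d : ℝ) ^ t * (B * (m : ℝ) ^ t + 1) := by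
  classical
  have hdR : (0 : ℝ) < (d : ℝ) ^ t := by positivity
  have hd1 : (1 : ℝ) ≤ (d : ℝ) ^ t := one_le_pow₀ (by exact_mod_cast (by omega : 1 ≤ d))
  -- the points with a given word
  let S : List ℕ → Set ℤ := fun w => {n : ℤ | (A ≤ n ∧ (n : ℝ) < 2 * A ∧ (T d m r)^[t] n ∈ G) ∧
    wd d m r t n = w}
  have hSf : ∀ w, (S w).Finite := fun w =>
    (finite_Ico A (2 * A)).subset (fun k hk => ⟨hk.1.1, hk.1.2.1⟩)
  have hunion : {n : ℤ | A ≤ n ∧ (n : ℝ) < 2 * A ∧ (T d m r)^[t] n ∈ G} =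
      ⋃ w ∈ W d t, S w := by
    ext n
    simp only [Set.mem_iUnion, S, Set.mem_ofPred_eq]
    constructor
    · intro h
      exact ⟨wd d m r t n, wd_mem hd r t n, h, rfl⟩
    · rintro ⟨w, _, h, _⟩
      exact h
  have hcard : (({n : ℤ | A ≤ n ∧ (n : ℝ) < 2 * A ∧ (T d m r)^[t] n ∈ G}.ncard : ℕ) : ℝ) =
      ∑ w ∈ W d t, ((S w).ncard : ℝ) := by
    have hf : {n : ℤ | A ≤ n ∧ (n : ℝ) < 2 * A ∧ (T d m r)^[t] n ∈ G}.Finite :=
      (finite_Ico A (2 * A)).subset (fun k hk => ⟨hk.1, hk.2.1⟩)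
    have h1 : {n : ℤ | A ≤ n ∧ (n : ℝ) < 2 * A ∧ (T d m r)^[t] n ∈ G}.ncard =
        ∑ w ∈ W d t, (S w).ncard := by
      rw [Set.ncard_eq_toFinset_card _ hf]
      rw [Finset.card_eq_sum_card_fiberwise (f := wd d m r t) (t := W d t)
        (fun n _ => wd_mem hd r t n)]
      refine Finset.sum_congr rfl fun w _ => ?_
      rw [Set.ncard_eq_toFinset_card _ (hSf w)]
      congr 1
      ext n
      simp only [Finset.mem_filter, Set.Finite.mem_toFinset, S, Set.mem_ofPred_eq]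
    rw [h1]
    push_cast
    rfl
  rw [hcard, ← Finset.sum_sub_distrib]
  refine (Finset.abs_sum_le_sum_abs _ _).trans ?_
  have hterm : ∀ w ∈ W d t, |((S w).ncard : ℝ) -
      (({y : ℤ | A * (m : ℝ) ^ sg w / (d : ℝ) ^ t ≤ y ∧
        (y : ℝ) < 2 * (A * (m : ℝ) ^ sg w / (d : ℝ) ^ t) ∧ y ∈ G ∧
        (m : ℤ) ^ sg w ∣ y - F m r e w}.ncard : ℕ) : ℝ)| ≤ 2 * (B * (m : ℝ) ^ t + 1) := by
    intro w hw
    have hm0 : (0 : ℝ) < (m : ℝ) ^ sg w := by
      have : 0 < m := by omega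
      positivity
    have hlen := length_of_mem_W hw
    -- congruences
    have hcong : ∀ y : ℤ, (m : ℤ) ^ sg w ∣ y - F m r e w ↔
        (m : ℤ) ^ sg w ∣ (d : ℤ) ^ t * y + Off d m r w := by
      intro y
      have hst : (m : ℤ) ^ sg w ∣ (m : ℤ) ^ t := pow_dvd_pow _ (hlen ▸ sg_le_length w)
      have h1 : (m : ℤ) ^ sg w ∣ F m r e w + e ^ t * Off d m r w := by
        have := F_modEq (m := m) (r := r) he w
        rw [hlen] at this
        exact hst.trans this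
      have h2 : (m : ℤ) ^ sg w ∣ (d : ℤ) ^ t * e ^ t - 1 := by
        rw [← mul_pow]
        exact hst.trans (he.trans (by simpa using sub_dvd_pow_sub_pow ((d : ℤ) * e) 1 t))
      constructor
      · intro h
        have h3 : (d : ℤ) ^ t * y + Off d m r w = (d : ℤ) ^ t * (y - F m r e w) +
            (d : ℤ) ^ t * (F m r e w + e ^ t * Off d m r w) -
              ((d : ℤ) ^ t * e ^ t - 1) * Off d m r w := by ring
        rw [h3]
        exact _root_.dvd_sub (dvd_add (h.mul_left _) (h1.mul_left _)) (h2.mul_right _)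
      · intro h
        have h3 : y - F m r e w = e ^ t * ((d : ℤ) ^ t * y + Off d m r w) -
            ((d : ℤ) ^ t * e ^ t - 1) * y - (F m r e w + e ^ t * Off d m r w) := by ring
        rw [h3]
        exact _root_.dvd_sub (_root_.dvd_sub (h.mul_left _) (h2.mul_right _)) h1
    -- the image of the points with word `w`
    have himage : (T d m r)^[t] '' S w =
        {y : ℤ | A * (m : ℝ) ^ sg w / (d : ℝ) ^ t - (Off d m r w : ℝ) / (d : ℝ) ^ t ≤ y ∧
          (y : ℝ) < 2 * (A * (m : ℝ) ^ sg w / (d : ℝ) ^ t) - (Off d m r w : ℝ) / (d : ℝ) ^ t ∧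
          y ∈ {y : ℤ | y ∈ G ∧ (m : ℤ) ^ sg w ∣ y - F m r e w}} := by
      have hkey : ∀ n y : ℤ, (m : ℤ) ^ sg w * n = (d : ℤ) ^ t * y + Off d m r w →
          ((A ≤ n ↔ A * (m : ℝ) ^ sg w / (d : ℝ) ^ t - (Off d m r w : ℝ) / (d : ℝ) ^ t ≤ y) ∧
          ((n : ℝ) < 2 * A ↔ (y : ℝ) < 2 * (A * (m : ℝ) ^ sg w / (d : ℝ) ^ t) -
            (Off d m r w : ℝ) / (d : ℝ) ^ t)) := by
        intro n y h
        have h' : (m : ℝ) ^ sg w * n = (d : ℝ) ^ t * y + Off d m r w := by exact_mod_cast h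
        have e1 : A * (m : ℝ) ^ sg w / (d : ℝ) ^ t - (Off d m r w : ℝ) / (d : ℝ) ^ t - y =
            (A - n) * ((m : ℝ) ^ sg w / (d : ℝ) ^ t) := by
          field_simp
          linear_combination h'
        have e2 : 2 * (A * (m : ℝ) ^ sg w / (d : ℝ) ^ t) - (Off d m r w : ℝ) / (d : ℝ) ^ t - y =
            (2 * A - n) * ((m : ℝ) ^ sg w / (d : ℝ) ^ t) := by
          field_simp
          linear_combination h'
        have h0 : 0 < (m : ℝ) ^ sg w / (d : ℝ) ^ t := div_pos hm0 hdR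
        constructor
        · rw [← sub_nonpos, ← sub_nonpos (b := (y : ℝ)), e1]
          constructor
          · intro h; exact mul_nonpos_of_nonpos_of_nonneg h h0.le
          · intro h; exact nonpos_of_mul_nonpos_left h h0
        · rw [← sub_pos, ← sub_pos (b := (y : ℝ)), e2]
          exact (mul_pos_iff_of_pos_right h0).symm
      ext y
      simp only [Set.mem_image, S, Set.mem_ofPred_eq]
      constructor
      · rintro ⟨n, ⟨⟨a1, a2, a3⟩, a4⟩, rfl⟩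
        have h1 := wd_spec hd hr t n
        rw [a4] at h1
        have h2 : (m : ℤ) ^ sg w * n = (d : ℤ) ^ t * (T d m r)^[t] n + Off d m r w := by
          rw [h1]; ring
        obtain ⟨h3, h4⟩ := hkey n _ h2
        exact ⟨h3.mp a1, h4.mp a2, a3, (hcong _).mpr ⟨n, h2.symm⟩⟩
      · rintro ⟨a1, a2, a3, a4⟩
        obtain ⟨n, hn⟩ := (hcong y).mp a4
        obtain ⟨h3, h4⟩ := hkey n y hn.symm
        obtain ⟨h5, h6⟩ := wd_unique hd hco hr hw hn.symm
        exact ⟨n, ⟨⟨h3.mpr a1, h4.mpr a2, by rw [h6]; exact a3⟩, h5⟩, h6⟩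
    have hinj : Set.InjOn (T d m r)^[t] (S w) := by
      intro n hn n' hn' h
      have h1 := wd_spec hd hr t n
      have h2 := wd_spec hd hr t n'
      rw [hn.2] at h1
      rw [hn'.2, ← h, h1] at h2
      have h3 : (m : ℤ) ^ sg w * n = (m : ℤ) ^ sg w * n' := by linear_combination h2
      have h4 : (m : ℤ) ^ sg w ≠ 0 := pow_ne_zero _ (by omega)
      exact mul_left_cancel₀ h4 h3
    have h1 : (S w).ncard = ((T d m r)^[t] '' S w).ncard := hinj.ncard_image.symm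
    rw [h1, himage]
    refine (ncard_shift {y : ℤ | y ∈ G ∧ (m : ℤ) ^ sg w ∣ y - F m r e w}
      (A * (m : ℝ) ^ sg w / (d : ℝ) ^ t) (2 * (A * (m : ℝ) ^ sg w / (d : ℝ) ^ t))
      ((Off d m r w : ℝ) / (d : ℝ) ^ t)).trans ?_
    have h2 : |(Off d m r w : ℝ)| ≤ B * (m : ℝ) ^ t := by
      have := abs_Off_le hd hdm hB hw
      exact_mod_cast this
    have h3 : |(Off d m r w : ℝ) / (d : ℝ) ^ t| ≤ B * (m : ℝ) ^ t := by
      rw [abs_div, abs_of_pos hdR, div_le_iff₀ hdR]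
      have h4 : (0 : ℝ) ≤ B * (m : ℝ) ^ t := by positivity
      nlinarith
    have h5 : (0 : ℝ) ≤ B * (m : ℝ) ^ t := by positivity
    linarith
  refine (Finset.sum_le_sum hterm).trans ?_
  rw [Finset.sum_const, card_W, nsmul_eq_mul]
  push_cast
  apply le_of_eq
  ring

end Pool.Agent.Helper52.Tao
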