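import Pool.Agent.Helper52.Tao.Props
import Pool.Agent.Helper52.Tao.D0
import Pool.Agent.Helper52.Tao.A1

/-!
The flow inequality from fine-scale mixing.
-/

set_option autoImplicit false

namespace Pool.Agent.Helper52.Tao

open Pool.Agent.Helper68.Moeller

/-- The points of `G` in `[α, 2 α)` which are congruent to `c` modulo `M`. -/
noncomputable def cG (G : Set ℤ) (α : ℝ) (M c : ℤ) : ℝ :=
  (({y : ℤ | α ≤ y ∧ (y : ℝ) < 2 * α ∧ y ∈ G ∧ M ∣ y - c}.ncard : ℕ) : ℝ)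

theorem finite_Y (G : Set ℤ) (α : ℝ) : {y : ℤ | α ≤ y ∧ (y : ℝ) < 2 * α ∧ y ∈ G}.Finite :=
  (finite_Ico α (2 * α)).subset (fun _ hk => ⟨hk.1, hk.2.1⟩)

theorem cG_nonneg (G : Set ℤ) (α : ℝ) (M c : ℤ) : 0 ≤ cG G α M c := by unfold cG; positivity

theorem cG_congr (G : Set ℤ) (α : ℝ) {M c c' : ℤ} (h : M ∣ c - c') : cG G α M c = cG G α M c' := by
  unfold cG
  congr 2
  ext y
  simp only [Set.mem_ofPred_eq]
  have h1 : M ∣ y - c ↔ M ∣ y - c' := by
    constructor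
    · intro h2
      have : y - c' = (y - c) + (c - c') := by ring
      rw [this]; exact dvd_add h2 h
    · intro h2
      have : y - c = (y - c') - (c - c') := by ring
      rw [this]; exact _root_.dvd_sub h2 h
  rw [h1]

/-- The number of integers of a residue class in an interval. -/
theorem ncard_class_le {α : ℝ} (hα : 0 ≤ α) {M : ℤ} (hM : 0 < M) (c : ℤ) :
    (({y : ℤ | α ≤ y ∧ (y : ℝ) < 2 * α ∧ M ∣ y - c}.ncard : ℕ) : ℝ) ≤ α / M + 1 := by
  have hMR : (0 : ℝ) < (M : ℝ) := by exact_mod_cast hM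
  have h1 : {y : ℤ | α ≤ y ∧ (y : ℝ) < 2 * α ∧ M ∣ y - c} ⊆
      (fun q : ℤ => M * q + c) '' {q : ℤ | (α - c) / M ≤ q ∧ (q : ℝ) < (α - c) / M + α / M} := by
    rintro y ⟨h1, h2, q, hq⟩
    refine ⟨q, ⟨?_, ?_⟩, by simp only; linarith⟩
    · rw [div_le_iff₀ hMR]
      have : (y : ℝ) - c = M * q := by exact_mod_cast hq
      linarith
    · rw [← add_div, lt_div_iff₀ hMR]
      have : (y : ℝ) - c = M * q := by exact_mod_cast hq
      linarith
  have hf := finite_Ico ((α - c) / M) ((α - c) / M + α / M)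
  have h2 := Set.ncard_le_ncard h1 (hf.image _)
  have h3 := Set.ncard_image_le (f := fun q : ℤ => M * q + c) hf
  have h4 := ncard_Ico_le ((α - c) / M) (δ := α / M) (by positivity)
  have h5 : (({y : ℤ | α ≤ y ∧ (y : ℝ) < 2 * α ∧ M ∣ y - c}.ncard : ℕ) : ℝ) ≤
      (({q : ℤ | (α - c) / M ≤ q ∧ (q : ℝ) < (α - c) / M + α / M}.ncard : ℕ) : ℝ) := by
    exact_mod_cast h2.trans h3
  linarith

theorem cG_le (G : Set ℤ) {α : ℝ} (hα : 0 ≤ α) {M : ℤ} (hM : 0 < M) (c : ℤ) :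
    cG G α M c ≤ α / M + 1 := by
  refine le_trans ?_ (ncard_class_le hα hM c)
  unfold cG
  have hf : {y : ℤ | α ≤ y ∧ (y : ℝ) < 2 * α ∧ M ∣ y - c}.Finite :=
    (finite_Ico α (2 * α)).subset (fun _ hk => ⟨hk.1, hk.2.1⟩)
  have h : {y : ℤ | α ≤ y ∧ (y : ℝ) < 2 * α ∧ y ∈ G ∧ M ∣ y - c} ⊆
      {y : ℤ | α ≤ y ∧ (y : ℝ) < 2 * α ∧ M ∣ y - c} :=
    fun _ hy => ⟨hy.1, hy.2.1, hy.2.2.2⟩
  exact_mod_cast Set.ncard_le_ncard h hf

theorem cG_eq_sum (G : Set ℤ) (α : ℝ) (M c : ℤ) [DecidablePred fun y : ℤ => M ∣ y - c] :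
    cG G α M c = ∑ y ∈ (finite_Y G α).toFinset, if M ∣ y - c then (1 : ℝ) else 0 := by
  classical
  unfold cG
  have hf : {y : ℤ | α ≤ y ∧ (y : ℝ) < 2 * α ∧ y ∈ G ∧ M ∣ y - c}.Finite :=
    (finite_Y G α).subset (fun _ hk => ⟨hk.1, hk.2.1, hk.2.2.1⟩)
  rw [Set.ncard_eq_toFinset_card _ hf, ← Finset.sum_filter]
  simp only [Finset.sum_const, nsmul_eq_mul, mul_one]
  congr 2
  ext y
  simp only [Set.Finite.mem_toFinset, Set.mem_ofPred_eq, Finset.mem_filter]
  tauto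

/-- Sums of periodic functions over sets of integers in `[α, 2 α)`. -/
theorem sum_periodic_le (G : Set ℤ) {α : ℝ} (hα : 0 ≤ α) (M : ℕ) (hM : 0 < M) (h : ℤ → ℝ)
    (hh : ∀ y, h y = h (y % (M : ℤ))) :
    ∑ y ∈ (finite_Y G α).toFinset, |h y| ≤ (α / M + 1) * ∑ X ∈ Finset.range M, |h X| := by
  classical
  have hM' : (0 : ℤ) < (M : ℤ) := by exact_mod_cast hM
  have hmaps : ∀ y ∈ (finite_Y G α).toFinset, (y % (M : ℤ)).toNat ∈ Finset.range M := by
    intro y _
    rw [Finset.mem_range]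
    have h1 := Int.emod_nonneg y hM'.ne'
    have h2 := Int.emod_lt_of_pos y hM'
    omega
  rw [← Finset.sum_fiberwise_of_maps_to hmaps, Finset.mul_sum]
  refine Finset.sum_le_sum fun X _ => ?_
  have h1 : ∀ y ∈ (finite_Y G α).toFinset.filter (fun y => (y % (M : ℤ)).toNat = X),
      |h y| = |h X| := by
    intro y hy
    have h2 := (Finset.mem_filter.mp hy).2
    have h3 := Int.emod_nonneg y hM'.ne'
    have h4 : y % (M : ℤ) = X := by omega
    rw [hh y, h4]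
  rw [Finset.sum_congr rfl h1, Finset.sum_const, nsmul_eq_mul]
  refine mul_le_mul_of_nonneg_right ?_ (abs_nonneg _)
  have h2 := ncard_class_le hα hM' (X : ℤ)
  have hf : {y : ℤ | α ≤ y ∧ (y : ℝ) < 2 * α ∧ (M : ℤ) ∣ y - (X : ℤ)}.Finite :=
    (finite_Ico α (2 * α)).subset (fun _ hk => ⟨hk.1, hk.2.1⟩)
  refine le_trans ?_ h2
  rw [Set.ncard_eq_toFinset_card _ hf]
  have h3 : (finite_Y G α).toFinset.filter (fun y => (y % (M : ℤ)).toNat = X) ⊆ hf.toFinset := by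
    intro y hy
    obtain ⟨h4, h5⟩ := Finset.mem_filter.mp hy
    rw [Set.Finite.mem_toFinset] at h4 ⊢
    refine ⟨h4.1, h4.2.1, ?_⟩
    have h6 := Int.emod_nonneg y hM'.ne'
    have h7 : y % (M : ℤ) = X := by omega
    rw [← h7]
    exact Int.dvd_self_sub_emod
  exact_mod_cast Finset.card_le_card h3

section mix

variable {d m : ℕ} {r : ℤ → ℤ} {e : ℤ} {G : Set ℤ}

/-- The number of pairs of a word with `s` non-zero digits and a point in the class of its end
point, modulo `m ^ j`. -/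
theorem sum_cG_eq (α : ℝ) (L s j : ℕ) :
    ∑ w ∈ (W d L).filter (fun w => sg w = s), cG G α ((m : ℤ) ^ j) (F m r e w) =
      ∑ y ∈ (finite_Y G α).toFinset,
        cW d L (fun w => sg w = s ∧ (m : ℤ) ^ j ∣ y - F m r e w) := by
  classical
  simp only [cG_eq_sum, cW_eq_sum]
  rw [Finset.sum_comm]
  refine Finset.sum_congr rfl fun y _ => ?_
  rw [Finset.sum_filter]
  refine Finset.sum_congr rfl fun w _ => ?_
  by_cases h1 : sg w = s <;> by_cases h2 : (m : ℤ) ^ j ∣ y - F m r e w <;> simp [h1, h2]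

theorem mix_one (hm : 0 < m) {a : ℝ} (ha : 0 ≤ a) {α : ℝ} (L s k : ℕ) (hks : k ≤ s)
    (hα : α = a * (m : ℝ) ^ s) :
    |∑ w ∈ (W d L).filter (fun w => sg w = s), (cG G α ((m : ℤ) ^ s) (F m r e w) -
      cG G α ((m : ℤ) ^ k) (F m r e w) / (m : ℝ) ^ (s - k))| ≤
      (a + 1) * Osc d m r e L s s k := by
  classical
  have hmR : (0 : ℝ) < (m : ℝ) ^ s := by positivity
  have hα0 : 0 ≤ α := by rw [hα]; positivity
  rw [Finset.sum_sub_distrib, ← Finset.sum_div, sum_cG_eq, sum_cG_eq, Finset.sum_div,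
    ← Finset.sum_sub_distrib]
  refine (Finset.abs_sum_le_sum_abs _ _).trans ?_
  have h1 := sum_periodic_le G hα0 (m ^ s) (by positivity)
    (fun y => cW d L (fun w => sg w = s ∧ (m : ℤ) ^ s ∣ y - F m r e w) -
      cW d L (fun w => sg w = s ∧ (m : ℤ) ^ k ∣ y - F m r e w) / (m : ℝ) ^ (s - k)) (by
    intro y
    have hdv : ∀ j ≤ s, ∀ w, ((m : ℤ) ^ j ∣ y - F m r e w ↔
        (m : ℤ) ^ j ∣ y % ((m ^ s : ℕ) : ℤ) - F m r e w) := by
      intro j hj w
      have h2 : (m : ℤ) ^ j ∣ y - y % ((m ^ s : ℕ) : ℤ) := by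
        have h3 : ((m ^ s : ℕ) : ℤ) ∣ y - y % ((m ^ s : ℕ) : ℤ) := Int.dvd_self_sub_emod
        refine dvd_trans ?_ h3
        push_cast
        exact pow_dvd_pow _ hj
      constructor
      · intro h
        have : y % ((m ^ s : ℕ) : ℤ) - F m r e w = (y - F m r e w) -
          (y - y % ((m ^ s : ℕ) : ℤ)) := by ring
        rw [this]; exact _root_.dvd_sub h h2
      · intro h
        have : y - F m r e w = (y % ((m ^ s : ℕ) : ℤ) - F m r e w) +
          (y - y % ((m ^ s : ℕ) : ℤ)) := by ring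
        rw [this]; exact dvd_add h h2
    congr 1
    · exact cW_congr fun w _ => and_congr_right fun _ => hdv s le_rfl w
    · congr 1
      exact cW_congr fun w _ => and_congr_right fun _ => hdv k hks w)
  refine h1.trans (le_of_eq ?_)
  unfold Osc
  congr 1
  rw [hα]
  push_cast
  rw [mul_div_assoc, div_self hmR.ne', mul_one]

/-- All words with at least `k` non-zero digits. -/
theorem mix_all (hd : 0 < d) (hm : 0 < m) {a : ℝ} (ha : 0 ≤ a) (L k : ℕ) {E : ℝ} (hE0 : 0 ≤ E)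
    (hE : ∀ s, k ≤ s → s ≤ L → Osc d m r e L s s k ≤ E) :
    |∑ w ∈ (W d L).filter (fun w => k ≤ sg w),
      (cG G (a * (m : ℝ) ^ sg w / (d : ℝ) ^ L) ((m : ℤ) ^ sg w) (F m r e w) -
      cG G (a * (m : ℝ) ^ sg w / (d : ℝ) ^ L) ((m : ℤ) ^ k) (F m r e w) /
        (m : ℝ) ^ (sg w - k))| ≤ (L + 1) * ((a / (d : ℝ) ^ L + 1) * E) := by
  classical
  have hdR : (0 : ℝ) < (d : ℝ) ^ L := by positivity
  have hmaps : ∀ w ∈ (W d L).filter (fun w => k ≤ sg w), sg w ∈ Finset.range (L + 1) := by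
    intro w hw
    rw [Finset.mem_range]
    have h1 := length_of_mem_W (Finset.mem_filter.mp hw).1
    have h2 := sg_le_length w
    omega
  rw [← Finset.sum_fiberwise_of_maps_to hmaps]
  refine (Finset.abs_sum_le_sum_abs _ _).trans ?_
  have h1 : ∀ s ∈ Finset.range (L + 1),
      |∑ w ∈ ((W d L).filter (fun w => k ≤ sg w)).filter (fun w => sg w = s),
      (cG G (a * (m : ℝ) ^ sg w / (d : ℝ) ^ L) ((m : ℤ) ^ sg w) (F m r e w) -
      cG G (a * (m : ℝ) ^ sg w / (d : ℝ) ^ L) ((m : ℤ) ^ k) (F m r e w) /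
        (m : ℝ) ^ (sg w - k))| ≤ (a / (d : ℝ) ^ L + 1) * E := by
    intro s hs
    rw [Finset.mem_range] at hs
    have h0 : 0 ≤ (a / (d : ℝ) ^ L + 1) * E := by positivity
    by_cases hks : k ≤ s
    · have h2 : ((W d L).filter (fun w => k ≤ sg w)).filter (fun w => sg w = s) =
          (W d L).filter (fun w => sg w = s) := by
        ext w
        simp only [Finset.mem_filter]
        constructor
        · rintro ⟨⟨h3, _⟩, h4⟩; exact ⟨h3, h4⟩
        · rintro ⟨h3, h4⟩; exact ⟨⟨h3, by omega⟩, h4⟩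
      rw [h2]
      have h3 := mix_one (d := d) (r := r) (e := e) (G := G) hm
        (a := a / (d : ℝ) ^ L) (by positivity) (α := a * (m : ℝ) ^ s / (d : ℝ) ^ L) L s k hks
        (by ring)
      have h4 : ∑ w ∈ (W d L).filter (fun w => sg w = s),
          (cG G (a * (m : ℝ) ^ sg w / (d : ℝ) ^ L) ((m : ℤ) ^ sg w) (F m r e w) -
          cG G (a * (m : ℝ) ^ sg w / (d : ℝ) ^ L) ((m : ℤ) ^ k) (F m r e w) /
            (m : ℝ) ^ (sg w - k)) =
          ∑ w ∈ (W d L).filter (fun w => sg w = s),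
          (cG G (a * (m : ℝ) ^ s / (d : ℝ) ^ L) ((m : ℤ) ^ s) (F m r e w) -
          cG G (a * (m : ℝ) ^ s / (d : ℝ) ^ L) ((m : ℤ) ^ k) (F m r e w) /
            (m : ℝ) ^ (s - k)) := by
        refine Finset.sum_congr rfl fun w hw => ?_
        rw [(Finset.mem_filter.mp hw).2]
      rw [h4]
      refine h3.trans ?_
      exact mul_le_mul_of_nonneg_left (hE s hks (by omega)) (by positivity)
    · have h2 : ((W d L).filter (fun w => k ≤ sg w)).filter (fun w => sg w = s) = ∅ := by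
        rw [Finset.filter_eq_empty_iff]
        intro w hw h3
        have h4 := (Finset.mem_filter.mp hw).2
        omega
      rw [h2, Finset.sum_empty, abs_zero]
      exact h0
  refine (Finset.sum_le_sum h1).trans ?_
  rw [Finset.sum_const, Finset.card_range, nsmul_eq_mul]
  push_cast
  exact le_rfl

/-- The sum of the counts modulo `m ^ sg w`. -/
noncomputable def SS (d m : ℕ) (r : ℤ → ℤ) (e : ℤ) (G : Set ℤ) (a : ℝ) (L : ℕ) : ℝ :=
  ∑ w ∈ W d L, cG G (a * (m : ℝ) ^ sg w / (d : ℝ) ^ L) ((m : ℤ) ^ sg w) (F m r e w)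

/-- The same sum over the words with at least `k` non-zero digits. -/
noncomputable def SSk (d m : ℕ) (r : ℤ → ℤ) (e : ℤ) (G : Set ℤ) (a : ℝ) (L k : ℕ) : ℝ :=
  ∑ w ∈ (W d L).filter (fun w => k ≤ sg w),
    cG G (a * (m : ℝ) ^ sg w / (d : ℝ) ^ L) ((m : ℤ) ^ sg w) (F m r e w)

/-- The sum of the counts modulo `m ^ k`, normalised. -/
noncomputable def RRk (d m : ℕ) (r : ℤ → ℤ) (e : ℤ) (G : Set ℤ) (a : ℝ) (L k : ℕ) : ℝ :=
  ∑ w ∈ (W d L).filter (fun w => k ≤ sg w),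
    cG G (a * (m : ℝ) ^ sg w / (d : ℝ) ^ L) ((m : ℤ) ^ k) (F m r e w) / (m : ℝ) ^ (sg w - k)

theorem SSk_sub_RRk (hd : 0 < d) (hm : 0 < m) {a : ℝ} (ha : 0 ≤ a) (L k : ℕ) {E : ℝ}
    (hE0 : 0 ≤ E) (hE : ∀ s, k ≤ s → s ≤ L → Osc d m r e L s s k ≤ E) :
    |SSk d m r e G a L k - RRk d m r e G a L k| ≤
      (L + 1) * ((a / (d : ℝ) ^ L + 1) * E) := by
  unfold SSk RRk
  rw [← Finset.sum_sub_distrib]
  exact mix_all hd hm ha L k hE0 hE

theorem SSk_le_SS (a : ℝ) (L k : ℕ) : SSk d m r e G a L k ≤ SS d m r e G a L := by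
  unfold SSk SS
  exact Finset.sum_le_sum_of_subset_of_nonneg (Finset.filter_subset _ _)
    (fun w _ _ => cG_nonneg _ _ _ _)

theorem cG_term_le (hd : 0 < d) (hm : 0 < m) {a : ℝ} (ha : 0 ≤ a) (L : ℕ) (s : ℕ) (c : ℤ) :
    cG G (a * (m : ℝ) ^ s / (d : ℝ) ^ L) ((m : ℤ) ^ s) c ≤ a / (d : ℝ) ^ L + 1 := by
  have hdR : (0 : ℝ) < (d : ℝ) ^ L := by positivity
  have hmR : (0 : ℝ) < (m : ℝ) ^ s := by positivity
  have h1 := cG_le G (α := a * (m : ℝ) ^ s / (d : ℝ) ^ L) (by positivity)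
    (M := (m : ℤ) ^ s) (by positivity) c
  refine h1.trans (le_of_eq ?_)
  push_cast
  field_simp

theorem SS_le (hd : 0 < d) (hm : 0 < m) {a : ℝ} (ha : 0 ≤ a) (L k : ℕ) :
    SS d m r e G a L ≤ SSk d m r e G a L k +
      cW d L (fun w => sg w < k) * (a / (d : ℝ) ^ L + 1) := by
  classical
  unfold SS SSk
  rw [← Finset.sum_filter_add_sum_filter_not (W d L) (fun w => k ≤ sg w)]
  refine add_le_add le_rfl ?_
  refine (Finset.sum_le_card_nsmul _ _ (a / (d : ℝ) ^ L + 1)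
    (fun w _ => cG_term_le hd hm ha L _ _)).trans (le_of_eq ?_)
  rw [nsmul_eq_mul]
  congr 1
  unfold cW
  congr 2
  ext w
  simp only [Finset.mem_filter, not_le]

theorem RR_le (hd : 0 < d) (hm : 0 < m) {a : ℝ} (ha : 0 ≤ a) (t k : ℕ) :
    RRk d m r e G a (t + t) k ≤
      ∑ v ∈ W d t, RRk d m r e G (a * (m : ℝ) ^ sg v / (d : ℝ) ^ t) t k / (m : ℝ) ^ sg v +
        cW d t (fun w => sg w < k) * (d : ℝ) ^ t * (a / (d : ℝ) ^ (t + t) + 1) := by
  classical
  have hdR : (0 : ℝ) < (d : ℝ) ^ t := by positivity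
  have hmR : ∀ s : ℕ, (0 : ℝ) < (m : ℝ) ^ s := fun s => by positivity
  have hX : RRk d m r e G a (t + t) k = ∑ u ∈ W d t, ∑ v ∈ W d t,
      if k ≤ sg (u ++ v) then cG G (a * (m : ℝ) ^ sg (u ++ v) / (d : ℝ) ^ (t + t))
        ((m : ℤ) ^ k) (F m r e (u ++ v)) / (m : ℝ) ^ (sg (u ++ v) - k) else 0 := by
    unfold RRk
    rw [Finset.sum_filter, sum_W_add]
  have hterm : ∀ u ∈ W d t, ∀ v ∈ W d t,
      (if k ≤ sg (u ++ v) then cG G (a * (m : ℝ) ^ sg (u ++ v) / (d : ℝ) ^ (t + t))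
        ((m : ℤ) ^ k) (F m r e (u ++ v)) / (m : ℝ) ^ (sg (u ++ v) - k) else 0) ≤
      (if k ≤ sg u then cG G (a * (m : ℝ) ^ sg v / (d : ℝ) ^ t * (m : ℝ) ^ sg u / (d : ℝ) ^ t)
        ((m : ℤ) ^ k) (F m r e u) / (m : ℝ) ^ (sg u - k) / (m : ℝ) ^ sg v else 0) +
      (if sg u < k then (1 : ℝ) else 0) * (a / (d : ℝ) ^ (t + t) + 1) := by
    intro u hu v hv
    rw [sg_append]
    by_cases h1 : k ≤ sg u
    · rw [if_pos h1, if_pos (by omega : k ≤ sg u + sg v), if_neg (by omega : ¬ sg u < k),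
        zero_mul, add_zero]
      apply le_of_eq
      have h2 : cG G (a * (m : ℝ) ^ (sg u + sg v) / (d : ℝ) ^ (t + t)) ((m : ℤ) ^ k)
          (F m r e (u ++ v)) =
          cG G (a * (m : ℝ) ^ (sg u + sg v) / (d : ℝ) ^ (t + t)) ((m : ℤ) ^ k) (F m r e u) := by
        apply cG_congr
        rw [F_append, add_sub_cancel_left]
        exact Dvd.dvd.mul_right (Dvd.dvd.mul_right (pow_dvd_pow _ h1) _) _
      rw [h2]
      have h3 : a * (m : ℝ) ^ (sg u + sg v) / (d : ℝ) ^ (t + t) =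
          a * (m : ℝ) ^ sg v / (d : ℝ) ^ t * (m : ℝ) ^ sg u / (d : ℝ) ^ t := by
        rw [pow_add, pow_add]
        field_simp
      have h4 : sg u + sg v - k = (sg u - k) + sg v := by omega
      rw [h3, h4, pow_add, div_div]
    · rw [if_neg h1, if_pos (by omega : sg u < k), one_mul, zero_add]
      by_cases h2 : k ≤ sg u + sg v
      · rw [if_pos h2]
        have h3 := cG_le G (α := a * (m : ℝ) ^ (sg u + sg v) / (d : ℝ) ^ (t + t)) (by positivity)
          (M := (m : ℤ) ^ k) (by positivity) (F m r e (u ++ v))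
        rw [div_le_iff₀ (hmR _)]
        refine h3.trans ?_
        have h4 : (1 : ℝ) ≤ (m : ℝ) ^ (sg u + sg v - k) :=
          one_le_pow₀ (by exact_mod_cast hm)
        have h5 : (m : ℝ) ^ (sg u + sg v) = (m : ℝ) ^ (sg u + sg v - k) * (m : ℝ) ^ k := by
          rw [← pow_add]; congr 1; omega
        have h6 : a * (m : ℝ) ^ (sg u + sg v) / (d : ℝ) ^ (t + t) / (((m : ℤ) ^ k : ℤ) : ℝ) =
            a / (d : ℝ) ^ (t + t) * (m : ℝ) ^ (sg u + sg v - k) := by
          rw [h5]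
          push_cast
          have := hmR k
          field_simp
        rw [h6, add_mul, one_mul]
        linarith
      · rw [if_neg h2]
        positivity
  rw [hX]
  refine (Finset.sum_le_sum fun u hu => Finset.sum_le_sum fun v hv => hterm u hu v hv).trans ?_
  have hsplit : ∑ u ∈ W d t, ∑ v ∈ W d t,
      ((if k ≤ sg u then cG G (a * (m : ℝ) ^ sg v / (d : ℝ) ^ t * (m : ℝ) ^ sg u / (d : ℝ) ^ t)
        ((m : ℤ) ^ k) (F m r e u) / (m : ℝ) ^ (sg u - k) / (m : ℝ) ^ sg v else 0) +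
      (if sg u < k then (1 : ℝ) else 0) * (a / (d : ℝ) ^ (t + t) + 1)) =
      ∑ v ∈ W d t, RRk d m r e G (a * (m : ℝ) ^ sg v / (d : ℝ) ^ t) t k / (m : ℝ) ^ sg v +
        cW d t (fun w => sg w < k) * (d : ℝ) ^ t * (a / (d : ℝ) ^ (t + t) + 1) := by
    simp only [Finset.sum_add_distrib]
    congr 1
    · rw [Finset.sum_comm]
      refine Finset.sum_congr rfl fun v _ => ?_
      unfold RRk
      rw [Finset.sum_div, Finset.sum_filter]
    · rw [cW_eq_sum]
      simp only [Finset.sum_const, card_W, nsmul_eq_mul]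
      rw [Finset.sum_mul, Finset.sum_mul]
      refine Finset.sum_congr rfl fun u _ => ?_
      push_cast
      ring
  exact hsplit.le

end mix

/-- Bounds for the residues. -/
theorem FL_exists_B (d : ℕ) (r : ℤ → ℤ) :
    ∃ B : ℕ, ∀ j : ℤ, 0 < j → j < (d : ℤ) → |r j| ≤ B := by
  refine ⟨∑ j ∈ Finset.range d, (r j).natAbs, ?_⟩
  intro j h1 h2
  have h3 : j.toNat ∈ Finset.range d := by rw [Finset.mem_range]; omega
  have h4 := Finset.single_le_sum (f := fun j : ℕ => (r (j : ℤ)).natAbs)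
    (fun _ _ => Nat.zero_le _) h3
  have h5 : ((j.toNat : ℕ) : ℤ) = j := Int.toNat_of_nonneg h1.le
  simp only [h5] at h4
  have h6 : |r j| = ((r j).natAbs : ℤ) := Int.abs_eq_natAbs _
  rw [h6]
  exact_mod_cast h4

/-- An inverse of `d`. -/
theorem exists_e {d m : ℕ} (hco : Nat.Coprime m d) (L : ℕ) :
    ∃ e : ℤ, (m : ℤ) ^ L ∣ (d : ℤ) * e - 1 := by
  have h1 : IsCoprime ((m : ℤ) ^ L) (d : ℤ) :=
    IsCoprime.pow_left (Nat.isCoprime_iff_coprime.mpr hco)
  obtain ⟨u, v, huv⟩ := h1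
  refine ⟨v, -u, ?_⟩
  linear_combination huv

theorem exists_C3 (b : ℝ) : ∃ C : ℝ, 0 < C ∧ ∀ t : ℕ, 1 ≤ t →
    ((9 : ℝ) / 10) ^ t ≤ C * (t : ℝ) ^ (-b) := by
  obtain ⟨n, hn⟩ := exists_nat_ge b
  have h1 := tendsto_pow_const_mul_const_pow_of_abs_lt_one n
    (r := (9 : ℝ) / 10) (by rw [abs_of_pos (by norm_num)]; norm_num)
  obtain ⟨C, hC⟩ := h1.bddAbove_range
  refine ⟨max C 1, by positivity, fun t ht => ?_⟩
  have ht1 : (1 : ℝ) ≤ t := by exact_mod_cast ht
  have ht0 : (0 : ℝ) < t := by linarith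
  have h2 : (t : ℝ) ^ n * (9 / 10) ^ t ≤ C := hC ⟨t, rfl⟩
  have h3 : (t : ℝ) ^ b ≤ (t : ℝ) ^ n := by
    rw [← Real.rpow_natCast]
    exact Real.rpow_le_rpow_of_exponent_le ht1 hn
  have h4 : (0 : ℝ) < (9 / 10) ^ t := by positivity
  rw [Real.rpow_neg ht0.le, ← div_eq_mul_inv, le_div_iff₀ (Real.rpow_pos_of_pos ht0 _)]
  calc (9 / 10 : ℝ) ^ t * (t : ℝ) ^ b ≤ (9 / 10 : ℝ) ^ t * (t : ℝ) ^ n :=
        mul_le_mul_of_nonneg_left h3 h4.le
    _ = (t : ℝ) ^ n * (9 / 10) ^ t := mul_comm _ _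
    _ ≤ C := h2
    _ ≤ max C 1 := le_max_left _ _

theorem FL_gd_nonneg (d m : ℕ) (r : ℤ → ℤ) (z : ℝ) {a : ℝ} (ha : 0 ≤ a) : 0 ≤ gd d m r z a := by
  unfold gd; positivity

theorem FL_gd_le_two (d m : ℕ) (r : ℤ → ℤ) (z : ℝ) {a : ℝ} (ha : 1 ≤ a) : gd d m r z a ≤ 2 := by
  have ha0 : 0 < a := by linarith
  unfold gd
  rw [div_le_iff₀ ha0]
  have h1 : {n : ℤ | a ≤ n ∧ (n : ℝ) < 2 * a ∧ ∀ k : ℕ, z < ((T d m r)^[k] n : ℝ)} ⊆
      {n : ℤ | a ≤ n ∧ (n : ℝ) < a + a} := by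
    intro n hn
    exact ⟨hn.1, by linarith [hn.2.1]⟩
  have h2 := Set.ncard_le_ncard h1 (finite_Ico a (a + a))
  have h3 := ncard_Ico_le a ha0.le
  have h4 : ({n : ℤ | a ≤ n ∧ (n : ℝ) < 2 * a ∧ ∀ k : ℕ, z < ((T d m r)^[k] n : ℝ)}.ncard : ℝ) ≤
      ({n : ℤ | a ≤ n ∧ (n : ℝ) < a + a}.ncard : ℝ) := by exact_mod_cast h2
  linarith

theorem one_le_nine_tenths {x y : ℝ} (hx : 2 ≤ x) (hy : 2 ≤ y) : 1 ≤ 9 / 10 * (x * y) := by
  nlinarith

/-- The flow inequality. -/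
theorem flow {d m : ℕ} (hd : 2 ≤ d) (hdm : d < m) (hco : Nat.Coprime m d) {r : ℤ → ℤ}
    (hr : Admissible d m r) (h1 : Mixing d m r) : Flow d m r := by
  intro A
  obtain ⟨C0, hC0, hmix⟩ := h1 (|A| + 1)
  obtain ⟨B, hB⟩ := FL_exists_B d r
  obtain ⟨C3, hC3, hexp⟩ := exists_C3 |A|
  have h10 : (0 : ℝ) < (10 : ℝ) ^ (|A| + 1) := by positivity
  have h5 : (0 : ℝ) < (5 : ℝ) ^ |A| := by positivity
  refine ⟨5 * C3 + 10 * C0 * (10 : ℝ) ^ (|A| + 1) + 4 * (B + 1) + 2 * (5 : ℝ) ^ |A|,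
    by positivity, ?_⟩
  set C : ℝ := 5 * C3 + 10 * C0 * (10 : ℝ) ^ (|A| + 1) + 4 * (B + 1) + 2 * (5 : ℝ) ^ |A| with hCdef
  have hCB : 4 * ((B : ℝ) + 1) ≤ C := by
    have : (0 : ℝ) < 10 * C0 * (10 : ℝ) ^ (|A| + 1) := by positivity
    rw [hCdef]; linarith
  have hC4 : 4 ≤ C := by
    have : (0 : ℝ) ≤ (B : ℝ) := by positivity
    linarith
  intro t ht z a hz ha
  have ht1 : (1 : ℝ) ≤ t := by exact_mod_cast ht
  have ht0 : (0 : ℝ) < t := by linarith
  have hd0 : 0 < d := by omega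
  have hm0 : 0 < m := by omega
  have hd1R : (1 : ℝ) ≤ d := by exact_mod_cast (by omega : 1 ≤ d)
  have hm1R : (1 : ℝ) ≤ m := by exact_mod_cast (by omega : 1 ≤ m)
  have hd2R : (2 : ℝ) ≤ d := by exact_mod_cast hd
  have hm2R : (2 : ℝ) ≤ m := by exact_mod_cast (by omega : 2 ≤ m)
  obtain ⟨D, hD⟩ : ∃ D : ℝ, D = (d : ℝ) ^ t := ⟨_, rfl⟩
  obtain ⟨M, hM⟩ : ∃ M : ℝ, M = (m : ℝ) ^ t := ⟨_, rfl⟩
  have hD1 : 1 ≤ D := hD ▸ one_le_pow₀ hd1R
  have hM1 : 1 ≤ M := hM ▸ one_le_pow₀ hm1R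
  have hD0 : 0 < D := by linarith
  have hM0 : 0 < M := by linarith
  have hB0 : (0 : ℝ) ≤ (B : ℝ) := by positivity
  have hz0 : 0 < z := by linarith
  have hDM1 : 1 ≤ D * M := one_le_mul_of_one_le_of_one_le hD1 hM1
  have hP8 : ((d : ℝ) * m) ^ (8 * t) = (D * M) ^ 8 := by
    rw [hD, hM, ← mul_pow, ← pow_mul, mul_comm 8 t]
  rw [hP8] at ha
  have hz2 : 1 ≤ z ^ 2 := one_le_pow₀ hz
  have hC0' : 0 < C := by linarith
  have hP1 : ∀ n : ℕ, 1 ≤ (D * M) ^ n := fun n => one_le_pow₀ hDM1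
  have ha1 : C * z ^ 2 * (D * M) ^ 2 ≤ a := by
    refine le_trans ?_ ha
    exact mul_le_mul_of_nonneg_left (pow_le_pow_right₀ hDM1 (by norm_num)) (by positivity)
  have haDM2 : (D * M) ^ 2 ≤ a := by
    refine le_trans ?_ ha1
    have h2 : 1 ≤ C * z ^ 2 := one_le_mul_of_one_le_of_one_le (by linarith) hz2
    exact le_mul_of_one_le_left (by positivity) h2
  have haone : 1 ≤ a := (hP1 2).trans haDM2
  have ha0 : 0 < a := by linarith
  have hDDa : D * D ≤ a := by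
    refine le_trans ?_ haDM2
    rw [mul_pow, sq D]
    exact le_mul_of_one_le_right (by positivity) (one_le_pow₀ hM1)
  have hTA : (t : ℝ) ^ (-|A|) ≤ (t : ℝ) ^ (-A) :=
    Real.rpow_le_rpow_of_exponent_le ht1 (neg_le_neg (le_abs_self A))
  have hav : ∀ v : List ℕ, 0 < a * (m : ℝ) ^ sg v / (d : ℝ) ^ t := fun v => by positivity
  have hsum0 : 0 ≤ (∑ v ∈ W d t, gd d m r z (a * (m : ℝ) ^ sg v / (d : ℝ) ^ t)) /
      (d : ℝ) ^ t := by
    apply div_nonneg _ (by positivity)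
    exact Finset.sum_nonneg fun v _ => FL_gd_nonneg _ _ _ _ (hav v).le
  by_cases ht5 : t < 5
  · -- small `t`
    have h2 := FL_gd_le_two d m r z haone
    have h3 : ((5 : ℝ) ^ |A|)⁻¹ ≤ (t : ℝ) ^ (-|A|) := by
      rw [← Real.rpow_neg (by norm_num)]
      apply Real.rpow_le_rpow_of_nonpos ht0
      · exact_mod_cast ht5.le
      · exact neg_nonpos.mpr (abs_nonneg A)
    have h4 : 2 ≤ C * (t : ℝ) ^ (-A) := by
      have h6 : 2 * (5 : ℝ) ^ |A| ≤ C := by
        have : (0 : ℝ) < 10 * C0 * (10 : ℝ) ^ (|A| + 1) := by positivity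
        rw [hCdef]; linarith
      calc (2 : ℝ) = 2 * (5 : ℝ) ^ |A| * ((5 : ℝ) ^ |A|)⁻¹ := by field_simp
        _ ≤ C * (t : ℝ) ^ (-A) := by
            apply mul_le_mul h6 (h3.trans hTA) (by positivity) hC0'.le
    linarith
  push Not at ht5
  -- large `t`
  set k := t / 5 with hk
  have hk1 : 1 ≤ k := by omega
  have hk5 : 5 * k ≤ t := by omega
  have hk10 : t ≤ 10 * k := by omega
  obtain ⟨e, he⟩ := exists_e hco (t + t)
  set q : ℝ := (k : ℝ) ^ (-(|A| + 1)) with hq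
  have hk0 : (0 : ℝ) < k := by exact_mod_cast hk1
  have hq0 : 0 < q := Real.rpow_pos_of_pos hk0 _
  let G : Set ℤ := {n : ℤ | ∀ k : ℕ, z < ((T d m r)^[k] n : ℝ)}
  have hosc : ∀ L ≤ t + t, ∀ s, k ≤ s → s ≤ L → Osc d m r e L s s k ≤ C0 * (d : ℝ) ^ L * q := by
    intro L hL s h2 h3
    exact hmix s k hk1 h2 e ((pow_dvd_pow _ (h3.trans hL)).trans he) L s le_rfl
  -- (1)
  have e1 : a * gd d m r z a ≤ SS d m r e G a (t + t) +
      2 * (d : ℝ) ^ (t + t) * (B * (m : ℝ) ^ (t + t) + 1) := by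
    have h2 := card_image hd hdm hco hr hB he G ha0
    have h3 := (abs_le.mp h2).2
    have h4 : a * gd d m r z a ≤
        (({n : ℤ | a ≤ n ∧ (n : ℝ) < 2 * a ∧ (T d m r)^[t + t] n ∈ G}.ncard : ℕ) : ℝ) := by
      unfold gd
      rw [mul_div_cancel₀ _ ha0.ne']
      have hf : {n : ℤ | a ≤ n ∧ (n : ℝ) < 2 * a ∧ (T d m r)^[t + t] n ∈ G}.Finite :=
        (finite_Ico a (2 * a)).subset (fun _ hk => ⟨hk.1, hk.2.1⟩)
      have hsub : {n : ℤ | a ≤ n ∧ (n : ℝ) < 2 * a ∧ ∀ k : ℕ, z < ((T d m r)^[k] n : ℝ)} ⊆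
          {n : ℤ | a ≤ n ∧ (n : ℝ) < 2 * a ∧ (T d m r)^[t + t] n ∈ G} := by
        intro n hn
        refine ⟨hn.1, hn.2.1, fun i => ?_⟩
        rw [← Function.iterate_add_apply]
        exact hn.2.2 _
      exact_mod_cast Set.ncard_le_ncard hsub hf
    have h5 : ∑ w ∈ W d (t + t), (({y : ℤ | a * (m : ℝ) ^ sg w / (d : ℝ) ^ (t + t) ≤ y ∧
        (y : ℝ) < 2 * (a * (m : ℝ) ^ sg w / (d : ℝ) ^ (t + t)) ∧ y ∈ G ∧
        (m : ℤ) ^ sg w ∣ y - F m r e w}.ncard : ℕ) : ℝ) = SS d m r e G a (t + t) := rfl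
    rw [h5] at h3
    linarith
  -- (5)
  have e5 : ∀ v : List ℕ, SS d m r e G (a * (m : ℝ) ^ sg v / (d : ℝ) ^ t) t ≤
      (a * (m : ℝ) ^ sg v / (d : ℝ) ^ t) * gd d m r z (a * (m : ℝ) ^ sg v / (d : ℝ) ^ t) +
      2 * (d : ℝ) ^ t * (B * (m : ℝ) ^ t + 1) := by
    intro v
    have hav0 := hav v
    have hav1 : a / D ≤ a * (m : ℝ) ^ sg v / (d : ℝ) ^ t := by
      rw [← hD]
      apply div_le_div_of_nonneg_right _ hD0.le
      exact le_mul_of_one_le_right ha0.le (one_le_pow₀ hm1R)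
    set α := a * (m : ℝ) ^ sg v / (d : ℝ) ^ t with hα
    have h2 := card_image hd hdm hco hr hB ((pow_dvd_pow (m : ℤ) (by omega : t ≤ t + t)).trans he)
      G hav0
    have h3 := (abs_le.mp h2).1
    have h5 : ∑ w ∈ W d t, (({y : ℤ | α * (m : ℝ) ^ sg w / (d : ℝ) ^ t ≤ y ∧
        (y : ℝ) < 2 * (α * (m : ℝ) ^ sg w / (d : ℝ) ^ t) ∧ y ∈ G ∧
        (m : ℤ) ^ sg w ∣ y - F m r e w}.ncard : ℕ) : ℝ) = SS d m r e G α t := rfl
    rw [h5] at h3
    have h4 : (({n : ℤ | α ≤ n ∧ (n : ℝ) < 2 * α ∧ (T d m r)^[t] n ∈ G}.ncard : ℕ) : ℝ) ≤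
        α * gd d m r z α := by
      unfold gd
      rw [mul_div_cancel₀ _ hav0.ne']
      have hf : {n : ℤ | α ≤ n ∧ (n : ℝ) < 2 * α ∧ ∀ k : ℕ, z < ((T d m r)^[k] n : ℝ)}.Finite :=
        (finite_Ico α (2 * α)).subset (fun _ hk => ⟨hk.1, hk.2.1⟩)
      have hsub : {n : ℤ | α ≤ n ∧ (n : ℝ) < 2 * α ∧ (T d m r)^[t] n ∈ G} ⊆
          {n : ℤ | α ≤ n ∧ (n : ℝ) < 2 * α ∧ ∀ k : ℕ, z < ((T d m r)^[k] n : ℝ)} := by
        rintro n ⟨h6, h7, h8⟩
        refine ⟨h6, h7, fun i => ?_⟩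
        by_cases hi : t ≤ i
        · have h9 := h8 (i - t)
          rw [← Function.iterate_add_apply] at h9
          rwa [show i - t + t = i by omega] at h9
        · push Not at hi
          have h9 := wd_spec hd hr i n
          have h10' := abs_Off_le hd hdm hB (wd_mem (m := m) hd r i n)
          have h11 : (d : ℝ) ^ i * ((T d m r)^[i] n : ℝ) =
              (m : ℝ) ^ sg (wd d m r i n) * n - (Off d m r (wd d m r i n) : ℝ) := by
            exact_mod_cast h9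
          have h12 : |(Off d m r (wd d m r i n) : ℝ)| ≤ B * (m : ℝ) ^ i := by
            exact_mod_cast h10'
          have h13 := (abs_le.mp h12).2
          have hn0 : 0 < (n : ℝ) := by linarith
          have h14 : (n : ℝ) ≤ (m : ℝ) ^ sg (wd d m r i n) * n := by
            exact le_mul_of_one_le_left hn0.le (one_le_pow₀ hm1R)
          have hdi : (d : ℝ) ^ i ≤ D := by
            rw [hD]; exact pow_le_pow_right₀ hd1R hi.le
          have hmi : (m : ℝ) ^ i ≤ M := by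
            rw [hM]; exact pow_le_pow_right₀ hm1R hi.le
          have hdi0 : (0 : ℝ) < (d : ℝ) ^ i := by positivity
          -- the lower bound for `n`
          have h15 : C * z * (D * M) ≤ a / D := by
            rw [le_div_iff₀ hD0]
            refine le_trans ?_ ha1
            have h16 : z * D ≤ z ^ 2 * (D * M) := by
              have h17 : z ≤ z ^ 2 := by
                rw [sq]; exact le_mul_of_one_le_left hz0.le hz
              have h18 : D ≤ D * M := le_mul_of_one_le_right hD0.le hM1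
              exact mul_le_mul h17 h18 hD0.le (by positivity)
            calc C * z * (D * M) * D = C * (D * M) * (z * D) := by ring
              _ ≤ C * (D * M) * (z ^ 2 * (D * M)) :=
                  mul_le_mul_of_nonneg_left h16 (by positivity)
              _ = C * z ^ 2 * (D * M) ^ 2 := by ring
          have h16 : (d : ℝ) ^ i * z + B * (m : ℝ) ^ i < C * z * (D * M) := by
            have h17 : (d : ℝ) ^ i * z ≤ D * M * z := by
              have : D ≤ D * M := le_mul_of_one_le_right hD0.le hM1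
              exact mul_le_mul_of_nonneg_right (hdi.trans this) (by linarith)
            have h18 : (B : ℝ) * (m : ℝ) ^ i ≤ B * (D * M * z) := by
              refine mul_le_mul_of_nonneg_left (hmi.trans ?_) hB0
              have h19 : M ≤ D * M := le_mul_of_one_le_left hM0.le hD1
              exact h19.trans (le_mul_of_one_le_right (by positivity) hz)
            have h19 : 0 < D * M * z := by positivity
            have h20 : (1 + B) * (D * M * z) < C * (D * M * z) := by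
              apply mul_lt_mul_of_pos_right _ h19
              linarith
            have h21 : C * z * (D * M) = C * (D * M * z) := by ring
            have h22 : (1 + B) * (D * M * z) = D * M * z + B * (D * M * z) := by ring
            rw [h21]
            linarith
          have h17 : (d : ℝ) ^ i * z < (d : ℝ) ^ i * ((T d m r)^[i] n : ℝ) := by
            rw [h11]
            linarith
          exact lt_of_mul_lt_mul_left h17 hdi0.le
      exact_mod_cast Set.ncard_le_ncard hsub hf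
    linarith
  -- (2)
  have hDD : (d : ℝ) ^ (t + t) = D * D := by rw [hD, pow_add]
  have hMM : (m : ℝ) ^ (t + t) = M * M := by rw [hM, pow_add]
  have ha2 : a / (D * D) + 1 ≤ 2 * a / (D * D) := by
    have : 1 ≤ a / (D * D) := (one_le_div (mul_pos hD0 hD0)).mpr hDDa
    have h2 : 2 * a / (D * D) = 2 * (a / (D * D)) := by ring
    linarith
  have e2 : SS d m r e G a (t + t) ≤ SSk d m r e G a (t + t) k + 2 * a * (9 / 10) ^ t := by
    have h2 := SS_le (r := r) (e := e) (G := G) hd0 hm0 ha0.le (t + t) k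
    have h3 := few_nonzero hd (t := t + t) (k := k) (by omega)
    rw [hDD] at h2 h3
    refine h2.trans (add_le_add le_rfl ?_)
    have h4 : (0 : ℝ) ≤ 2 * a / (D * D) := by positivity
    calc cW d (t + t) (fun w => sg w < k) * (a / (D * D) + 1)
        ≤ D * D * (9 / 10) ^ (t + t) * (2 * a / (D * D)) :=
          mul_le_mul h3 ha2 (by positivity) (by positivity)
      _ = 2 * a * (9 / 10) ^ (t + t) := by field_simp
      _ ≤ 2 * a * (9 / 10) ^ t := by
          apply mul_le_mul_of_nonneg_left _ (by positivity)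
          exact pow_le_pow_of_le_one (by norm_num) (by norm_num) (by omega)
  -- (2')
  have e2' : SSk d m r e G a (t + t) k ≤ RRk d m r e G a (t + t) k +
      (2 * t + 1) * (2 * a * C0 * q) := by
    have h2 := SSk_sub_RRk (r := r) (e := e) (G := G) hd0 hm0 ha0.le (t + t) k
      (E := C0 * (d : ℝ) ^ (t + t) * q) (by positivity) (hosc (t + t) le_rfl)
    have h3 := (abs_le.mp h2).2
    rw [hDD] at h3
    have h4 : (((t + t : ℕ) : ℝ) + 1) * ((a / (D * D) + 1) * (C0 * (D * D) * q)) ≤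
        (2 * t + 1) * (2 * a * C0 * q) := by
      have h5 : (a / (D * D) + 1) * (C0 * (D * D) * q) ≤ 2 * a * C0 * q := by
        calc (a / (D * D) + 1) * (C0 * (D * D) * q)
            ≤ 2 * a / (D * D) * (C0 * (D * D) * q) :=
              mul_le_mul_of_nonneg_right ha2 (by positivity)
          _ = 2 * a * C0 * q := by field_simp
      push_cast
      rw [show (t : ℝ) + t + 1 = 2 * t + 1 by ring]
      exact mul_le_mul_of_nonneg_left h5 (by positivity)
    linarith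
  -- (3)
  have hfew := few_nonzero hd (t := t) (k := k) hk5
  have e3 : RRk d m r e G a (t + t) k ≤
      ∑ v ∈ W d t, RRk d m r e G (a * (m : ℝ) ^ sg v / (d : ℝ) ^ t) t k / (m : ℝ) ^ sg v +
        2 * a * (9 / 10) ^ t := by
    have h2 := RR_le (r := r) (e := e) (G := G) hd0 hm0 ha0.le t k
    refine h2.trans (add_le_add le_rfl ?_)
    rw [hDD, ← hD]
    rw [← hD] at hfew
    calc cW d t (fun w => sg w < k) * D * (a / (D * D) + 1)
        ≤ D * (9 / 10) ^ t * D * (2 * a / (D * D)) := by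
          apply mul_le_mul _ ha2 (by positivity) (by positivity)
          exact mul_le_mul_of_nonneg_right hfew hD0.le
      _ = 2 * a * (9 / 10) ^ t := by field_simp
  -- (4)
  have e4 : ∀ v : List ℕ, RRk d m r e G (a * (m : ℝ) ^ sg v / (d : ℝ) ^ t) t k /
      (m : ℝ) ^ sg v ≤ (a / D) * gd d m r z (a * (m : ℝ) ^ sg v / (d : ℝ) ^ t) +
        2 * D * (B * M + 1) + (t + 1) * (2 * (a / D) * C0 * q) := by
    intro v
    have hav0 := hav v
    have h5v := e5 v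
    have hmv : (1 : ℝ) ≤ (m : ℝ) ^ sg v := one_le_pow₀ hm1R
    have hmv0 : (0 : ℝ) < (m : ℝ) ^ sg v := by linarith
    have hαeq : a * (m : ℝ) ^ sg v / (d : ℝ) ^ t = (a / D) * (m : ℝ) ^ sg v := by
      rw [hD]; ring
    have hg0 := FL_gd_nonneg d m r z hav0.le
    set α := a * (m : ℝ) ^ sg v / (d : ℝ) ^ t with hα
    have h2 := SSk_sub_RRk (r := r) (e := e) (G := G) hd0 hm0 hav0.le t k
      (E := C0 * (d : ℝ) ^ t * q) (by positivity) (hosc t (by omega))
    have h3 := (abs_le.mp h2).1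
    have h4 := SSk_le_SS (d := d) (m := m) (r := r) (e := e) (G := G) α t k
    rw [← hD] at h3 h5v
    rw [← hM] at h5v
    have hαD : 1 ≤ α / D := by
      rw [one_le_div hD0, hαeq]
      have h6 : D ≤ a / D := by rw [le_div_iff₀ hD0]; exact hDDa
      exact h6.trans (le_mul_of_one_le_right (by positivity) hmv)
    have h6 : (α / D + 1) * (C0 * D * q) ≤ 2 * α * C0 * q := by
      calc (α / D + 1) * (C0 * D * q) ≤ 2 * (α / D) * (C0 * D * q) :=
            mul_le_mul_of_nonneg_right (by linarith) (by positivity)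
        _ = 2 * α * C0 * q := by field_simp
    have h7 : ((t : ℝ) + 1) * ((α / D + 1) * (C0 * D * q)) ≤ (t + 1) * (2 * α * C0 * q) :=
      mul_le_mul_of_nonneg_left h6 (by positivity)
    have h8 : RRk d m r e G α t k ≤ α * gd d m r z α + 2 * D * (B * M + 1) +
        (t + 1) * (2 * α * C0 * q) := by linarith
    rw [div_le_iff₀ hmv0]
    refine h8.trans ?_
    have h9 : 2 * D * (B * M + 1) ≤ 2 * D * (B * M + 1) * (m : ℝ) ^ sg v := by
      exact le_mul_of_one_le_right (by positivity) hmv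
    have h10' : α * gd d m r z α + (t + 1) * (2 * α * C0 * q) =
        (a / D * gd d m r z α + (t + 1) * (2 * (a / D) * C0 * q)) * (m : ℝ) ^ sg v := by
      nth_rewrite 1 [hαeq]
      nth_rewrite 2 [hαeq]
      ring
    have h11 : (a / D * gd d m r z α + 2 * D * (B * M + 1) +
        (t + 1) * (2 * (a / D) * C0 * q)) * (m : ℝ) ^ sg v =
        (a / D * gd d m r z α + (t + 1) * (2 * (a / D) * C0 * q)) * (m : ℝ) ^ sg v +
          2 * D * (B * M + 1) * (m : ℝ) ^ sg v := by ring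
    rw [h11, ← h10']
    linarith
  -- summation
  have e6 : ∑ v ∈ W d t, RRk d m r e G (a * (m : ℝ) ^ sg v / (d : ℝ) ^ t) t k /
      (m : ℝ) ^ sg v ≤
      (a / D) * ∑ v ∈ W d t, gd d m r z (a * (m : ℝ) ^ sg v / (d : ℝ) ^ t) +
        D * (2 * D * (B * M + 1)) + (t + 1) * (2 * a * C0 * q) := by
    refine (Finset.sum_le_sum fun v _ => e4 v).trans (le_of_eq ?_)
    rw [Finset.sum_add_distrib, Finset.sum_add_distrib, ← Finset.mul_sum, Finset.sum_const,
      Finset.sum_const, card_W, nsmul_eq_mul, nsmul_eq_mul]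
    push_cast
    rw [← hD]
    field_simp
  -- the error terms
  have hexpt := hexp t ht
  have hqt : q ≤ (10 : ℝ) ^ (|A| + 1) * ((t : ℝ) ^ (-|A|) / t) := by
    have h2 : (t : ℝ) / 10 ≤ k := by
      rw [div_le_iff₀ (by norm_num)]
      exact_mod_cast (by omega : t ≤ k * 10)
    have h3 : q ≤ ((t : ℝ) / 10) ^ (-(|A| + 1)) := by
      apply Real.rpow_le_rpow_of_nonpos (by positivity) h2
      have := abs_nonneg A
      linarith
    refine h3.trans (le_of_eq ?_)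
    rw [Real.div_rpow ht0.le (by norm_num), neg_add, Real.rpow_add ht0, Real.rpow_neg_one,
      ← neg_add, Real.rpow_neg (by norm_num : (0 : ℝ) ≤ 10)]
    rw [div_inv_eq_mul]
    ring
  have htq : (3 * t + 2) * (2 * a * C0 * q) ≤
      a * (10 * C0 * (10 : ℝ) ^ (|A| + 1) * (t : ℝ) ^ (-|A|)) := by
    have h2 : (3 * (t : ℝ) + 2) ≤ 5 * t := by linarith
    have h3 : 0 < 2 * a * C0 := by positivity
    calc (3 * t + 2) * (2 * a * C0 * q) ≤ 5 * t * (2 * a * C0 * q) :=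
          mul_le_mul_of_nonneg_right h2 (by positivity)
      _ = 5 * t * (2 * a * C0) * q := by ring
      _ ≤ 5 * t * (2 * a * C0) * ((10 : ℝ) ^ (|A| + 1) * ((t : ℝ) ^ (-|A|) / t)) :=
          mul_le_mul_of_nonneg_left hqt (by positivity)
      _ = a * (10 * C0 * (10 : ℝ) ^ (|A| + 1) * (t : ℝ) ^ (-|A|)) := by
          field_simp
          ring
  have hrem : D * (2 * D * (B * M + 1)) + 2 * (D * D) * (B * (M * M) + 1) ≤
      a * (9 / 10) ^ t := by
    have h2 : D * (2 * D * (B * M + 1)) + 2 * (D * D) * (B * (M * M) + 1) ≤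
        4 * (B + 1) * (D * M) ^ 2 := by
      have hMM1 : 1 ≤ M * M := one_le_mul_of_one_le_of_one_le hM1 hM1
      have hMle : M ≤ M * M := le_mul_of_one_le_left hM0.le hM1
      have h3' : (B : ℝ) * M ≤ B * (M * M) := mul_le_mul_of_nonneg_left hMle hB0
      have h3 : (B : ℝ) * M + 1 ≤ (B + 1) * (M * M) := by rw [add_mul, one_mul]; linarith
      have h4 : (B : ℝ) * (M * M) + 1 ≤ (B + 1) * (M * M) := by
        rw [add_mul, one_mul]; linarith
      have h5 : 0 < D * D := mul_pos hD0 hD0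
      calc D * (2 * D * (B * M + 1)) + 2 * (D * D) * (B * (M * M) + 1)
          = 2 * (D * D) * ((B * M + 1) + (B * (M * M) + 1)) := by ring
        _ ≤ 2 * (D * D) * ((B + 1) * (M * M) + (B + 1) * (M * M)) :=
            mul_le_mul_of_nonneg_left (add_le_add h3 h4) (by positivity)
        _ = 4 * (B + 1) * (D * M) ^ 2 := by ring
    -- `(9 / 10) ^ t ≥ 1 / (D M)`
    have h3 : 1 ≤ (9 / 10 : ℝ) ^ t * (D * M) := by
      rw [hD, hM, ← mul_pow, ← mul_pow]
      apply one_le_pow₀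
      exact one_le_nine_tenths hd2R hm2R
    have h4 : C * (D * M) ^ 3 ≤ a := by
      refine le_trans ?_ ha
      have h6 : (D * M) ^ 3 ≤ (D * M) ^ 8 := pow_le_pow_right₀ hDM1 (by norm_num)
      have h7 : C ≤ C * z ^ 2 := le_mul_of_one_le_right hC0'.le hz2
      exact mul_le_mul h7 h6 (by positivity) (by positivity)
    have hDM0 : 0 < D * M := by positivity
    have h9 : (0 : ℝ) < (9 / 10) ^ t := by positivity
    calc D * (2 * D * (B * M + 1)) + 2 * (D * D) * (B * (M * M) + 1)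
        ≤ 4 * (B + 1) * (D * M) ^ 2 := h2
      _ ≤ C * (D * M) ^ 2 := mul_le_mul_of_nonneg_right hCB (by positivity)
      _ ≤ C * (D * M) ^ 2 * ((9 / 10 : ℝ) ^ t * (D * M)) := by
          exact le_mul_of_one_le_right (by positivity) h3
      _ = C * (D * M) ^ 3 * (9 / 10) ^ t := by ring
      _ ≤ a * (9 / 10) ^ t := mul_le_mul_of_nonneg_right h4 h9.le
  -- conclusion
  have hfin : a * gd d m r z a ≤
      a * ((∑ v ∈ W d t, gd d m r z (a * (m : ℝ) ^ sg v / (d : ℝ) ^ t)) / (d : ℝ) ^ t +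
        C * (t : ℝ) ^ (-A)) := by
    rw [hDD, hMM] at e1
    have h2 : (a / D) * ∑ v ∈ W d t, gd d m r z (a * (m : ℝ) ^ sg v / (d : ℝ) ^ t) =
        a * ((∑ v ∈ W d t, gd d m r z (a * (m : ℝ) ^ sg v / (d : ℝ) ^ t)) / (d : ℝ) ^ t) := by
      rw [← hD]; ring
    have h3 : a * (9 / 10) ^ t ≤ a * (C3 * (t : ℝ) ^ (-|A|)) :=
      mul_le_mul_of_nonneg_left hexpt ha0.le
    have h4 : (5 * C3 + 10 * C0 * (10 : ℝ) ^ (|A| + 1)) * (t : ℝ) ^ (-|A|) ≤
        C * (t : ℝ) ^ (-A) := by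
      apply mul_le_mul _ hTA (by positivity) hC0'.le
      rw [hCdef]
      have : 0 < 2 * (5 : ℝ) ^ |A| := by positivity
      linarith
    have h6 : a * ((5 * C3 + 10 * C0 * (10 : ℝ) ^ (|A| + 1)) * (t : ℝ) ^ (-|A|)) ≤
        a * (C * (t : ℝ) ^ (-A)) := mul_le_mul_of_nonneg_left h4 ha0.le
    have h7 : a * ((5 * C3 + 10 * C0 * (10 : ℝ) ^ (|A| + 1)) * (t : ℝ) ^ (-|A|)) =
        5 * (a * (C3 * (t : ℝ) ^ (-|A|))) +
          a * (10 * C0 * (10 : ℝ) ^ (|A| + 1) * (t : ℝ) ^ (-|A|)) := by ring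
    rw [mul_add]
    linarith
  exact le_of_mul_le_mul_left hfin ha0

end Pool.Agent.Helper52.Tao
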