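import Pool.Agent.Helper52.Tao.Props
import Pool.Agent.Helper52.Tao.A1
import Pool.Agent.Helper52.Tao.C1
import Pool.Agent.Helper52.Tao.C2

/-!
Block MX1 (helper14): Fourier decay implies one step of fine-scale mixing.
-/

set_option autoImplicit false

namespace Pool.Agent.Helper52.Tao

open Pool.Agent.Helper68.Moeller ComplexConjugate

/-- Exponential sums over a residue class. -/
theorem sum_res (q Q : ℕ) (hq : 0 < q) (hQ : 0 < Q) (ξ : ℕ) (hξ : ξ < q * Q) (f : ℤ) :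
    ∑ X ∈ Finset.range (q * Q), (if (q : ℤ) ∣ (X : ℤ) - f then
        ex (-((ξ : ℝ) * X / ((q * Q : ℕ) : ℝ))) else 0) =
      if Q ∣ ξ then (Q : ℂ) * ex (-((ξ : ℝ) * f / ((q * Q : ℕ) : ℝ))) else 0 := by
  have hM : 0 < q * Q := Nat.mul_pos hq hQ
  have hq' : (q : ℝ) ≠ 0 := by exact_mod_cast hq.ne'
  have hQ' : (Q : ℝ) ≠ 0 := by exact_mod_cast hQ.ne'
  have hqc : (q : ℂ) ≠ 0 := by exact_mod_cast hq.ne'
  have h1 : ∀ X ∈ Finset.range (q * Q), (if (q : ℤ) ∣ (X : ℤ) - f then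
      ex (-((ξ : ℝ) * X / ((q * Q : ℕ) : ℝ))) else 0) =
      ∑ η ∈ Finset.range q, (1 / (q : ℂ)) * (ex (-((η : ℝ) * f / q)) *
        ex ((X : ℝ) * (((η : ℤ) * Q - ξ : ℤ) : ℝ) / ((q * Q : ℕ) : ℝ))) := by
    intro X _
    have h2 := sum_ex q hq ((X : ℤ) - f)
    have h3 : ∀ η : ℕ, (1 / (q : ℂ)) * (ex (-((η : ℝ) * f / q)) *
        ex ((X : ℝ) * (((η : ℤ) * Q - ξ : ℤ) : ℝ) / ((q * Q : ℕ) : ℝ))) =
        (1 / (q : ℂ)) * (ex ((η : ℝ) * (((X : ℤ) - f : ℤ) : ℝ) / q)) *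
          ex (-((ξ : ℝ) * X / ((q * Q : ℕ) : ℝ))) := by
      intro η
      rw [← ex_add, mul_assoc, ← ex_add]
      congr 2
      push_cast
      field_simp
      ring
    simp only [h3]
    rw [← Finset.sum_mul, ← Finset.mul_sum, h2]
    split_ifs
    · field_simp
    · simp
  rw [Finset.sum_congr rfl h1, Finset.sum_comm]
  simp only [← Finset.mul_sum]
  have h4 : ∀ η ∈ Finset.range q, ex (-((η : ℝ) * f / q)) *
      ∑ X ∈ Finset.range (q * Q),
        ex ((X : ℝ) * (((η : ℤ) * Q - ξ : ℤ) : ℝ) / ((q * Q : ℕ) : ℝ)) =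
      if η * Q = ξ then ex (-((ξ : ℝ) * f / ((q * Q : ℕ) : ℝ))) * ((q * Q : ℕ) : ℂ) else 0 := by
    intro η hη
    rw [Finset.mem_range] at hη
    rw [sum_ex (q * Q) hM]
    by_cases h5 : η * Q = ξ
    · rw [if_pos h5, if_pos (by rw [← h5]; simp)]
      rw [← h5]
      congr 2
      push_cast
      field_simp
    · rw [if_neg h5, if_neg, mul_zero]
      rintro ⟨c, hc⟩
      apply h5
      have h6 : (η * Q : ℕ) < q * Q := Nat.mul_lt_mul_of_pos_right hη hQ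
      have h7 : |((q * Q : ℕ) : ℤ) * c| < ((q * Q : ℕ) : ℤ) := by
        rw [← hc, abs_lt]
        constructor <;> push_cast <;> push_cast at h6 hξ <;> [skip; skip] <;>
          zify at h6 hξ <;> nlinarith
      have h8 : c = 0 := by
        by_contra hc0
        have h9 : (1 : ℤ) ≤ |c| := Int.one_le_abs hc0
        rw [abs_mul] at h7
        have h10 : (0 : ℤ) < ((q * Q : ℕ) : ℤ) := by exact_mod_cast hM
        rw [abs_of_pos h10] at h7
        nlinarith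
      rw [h8, mul_zero] at hc
      have : ((η * Q : ℕ) : ℤ) = (ξ : ℤ) := by push_cast; linarith
      exact_mod_cast this
  rw [Finset.sum_congr rfl h4]
  by_cases h5 : Q ∣ ξ
  · obtain ⟨c, rfl⟩ := h5
    rw [if_pos (dvd_mul_right _ _)]
    have hc : c < q := by
      rw [mul_comm q Q] at hξ
      exact Nat.lt_of_mul_lt_mul_left hξ
    rw [Finset.sum_eq_single c]
    · rw [if_pos (mul_comm _ _)]
      push_cast
      field_simp
    · intro b _ hb
      rw [if_neg]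
      intro h6
      apply hb
      rw [mul_comm b Q] at h6
      exact Nat.eq_of_mul_eq_mul_left hQ h6
    · intro h6
      exact absurd (Finset.mem_range.mpr hc) h6
  · rw [if_neg h5]
    rw [Finset.sum_eq_zero, mul_zero]
    intro η _
    rw [if_neg]
    rintro rfl
    exact h5 (dvd_mul_left _ _)

open Classical in
/-- The `L¹` distance for a family of integers. -/
noncomputable def oscI {ι : Type*} (s : Finset ι) (φ : ι → ℤ) (q Q : ℕ) : ℝ :=
  ∑ X ∈ Finset.range (q * Q),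
    |((s.filter (fun i => ((q * Q : ℕ) : ℤ) ∣ (X : ℤ) - φ i)).card : ℝ) -
      ((s.filter (fun i => (q : ℤ) ∣ (X : ℤ) - φ i)).card : ℝ) / Q|

open Classical in
theorem sum_card {ι : Type*} (s : Finset ι) (φ : ι → ℤ) {q Q : ℕ} (hq : 0 < q) (hQ : 0 < Q) :
    ∑ X ∈ Finset.range (q * Q), ((s.filter (fun i => (q : ℤ) ∣ (X : ℤ) - φ i)).card : ℝ) =
      Q * s.card := by
  have h0 : 0 < q * Q := Nat.mul_pos hq hQ
  have h1 : ∀ f : ℤ, ∑ X ∈ Finset.range (q * Q), (if (q : ℤ) ∣ (X : ℤ) - f then (1 : ℝ) else 0) =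
      Q := by
    intro f
    have h2 := sum_res q Q hq hQ 0 h0 f
    simp only [Nat.cast_zero, zero_mul, zero_div, neg_zero, ex_zero, dvd_zero, if_true,
      mul_one] at h2
    have h3 : ((∑ X ∈ Finset.range (q * Q), (if (q : ℤ) ∣ (X : ℤ) - f then (1 : ℝ) else 0) : ℝ) :
        ℂ) = ((Q : ℝ) : ℂ) := by
      rw [Complex.ofReal_sum, Complex.ofReal_natCast, ← h2]
      refine Finset.sum_congr rfl fun X _ => ?_
      split_ifs <;> simp
    exact_mod_cast h3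
  simp only [Finset.card_filter]
  push_cast
  rw [Finset.sum_comm]
  rw [Finset.sum_congr rfl (fun i _ => h1 (φ i)), Finset.sum_const, nsmul_eq_mul]
  ring

theorem oscI_le {ι : Type*} (s : Finset ι) (φ : ι → ℤ) {q Q : ℕ} (hq : 0 < q) (hQ : 0 < Q) :
    oscI s φ q Q ≤ 2 * s.card := by
  classical
  have h1 := sum_card s φ (q := q * Q) (Q := 1) (Nat.mul_pos hq hQ) one_pos
  have h2 := sum_card s φ hq hQ
  rw [mul_one] at h1
  have hQ' : (0 : ℝ) < Q := by exact_mod_cast hQ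
  calc oscI s φ q Q ≤ ∑ X ∈ Finset.range (q * Q),
      (((s.filter (fun i => ((q * Q : ℕ) : ℤ) ∣ (X : ℤ) - φ i)).card : ℝ) +
      ((s.filter (fun i => (q : ℤ) ∣ (X : ℤ) - φ i)).card : ℝ) / Q) := by
        refine Finset.sum_le_sum fun X _ => ?_
        refine (abs_sub _ _).trans ?_
        rw [abs_of_nonneg (by positivity), abs_of_nonneg (by positivity)]
    _ = 2 * s.card := by
        rw [Finset.sum_add_distrib, h1, ← Finset.sum_div, h2]
        field_simp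
        push_cast
        ring

theorem oscI_split {ι : Type*} (s : Finset ι) (φ : ι → ℤ) (q Q : ℕ) (P : ι → Prop)
    [DecidablePred P] :
    oscI s φ q Q ≤ oscI (s.filter P) φ q Q + oscI (s.filter (fun i => ¬ P i)) φ q Q := by
  classical
  unfold oscI
  rw [← Finset.sum_add_distrib]
  refine Finset.sum_le_sum fun X _ => ?_
  have key : ∀ (R : ι → Prop) [DecidablePred R], ((s.filter R).card : ℝ) =
      (((s.filter P).filter R).card : ℝ) + (((s.filter (fun i => ¬ P i)).filter R).card : ℝ) := by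
    intro R _
    rw [Finset.filter_comm P R s, Finset.filter_comm (fun i => ¬ P i) R s]
    have := Finset.card_filter_add_card_filter_not (s := s.filter R) P
    rw [← this]
    push_cast
    rfl
  rw [key (fun i => ((q * Q : ℕ) : ℤ) ∣ (X : ℤ) - φ i), key (fun i => (q : ℤ) ∣ (X : ℤ) - φ i)]
  refine le_trans (le_of_eq ?_) (abs_add_le _ _)
  congr 1
  ring

/-- The `L²` bound. -/
theorem oscI_sq_le {ι : Type*} (s : Finset ι) (φ : ι → ℤ) {q Q : ℕ} (hq : 0 < q) (hQ : 0 < Q) :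
    (oscI s φ q Q) ^ 2 ≤ ∑ ξ ∈ Finset.range (q * Q), if Q ∣ ξ then (0 : ℝ) else
      ‖∑ i ∈ s, ex (-((ξ : ℝ) * φ i / ((q * Q : ℕ) : ℝ)))‖ ^ 2 := by
  classical
  have hM : 0 < q * Q := Nat.mul_pos hq hQ
  have hQc : (Q : ℂ) ≠ 0 := by exact_mod_cast hQ.ne'
  refine (sq_l1_le (q * Q) hM (fun X =>
    ((s.filter (fun i => ((q * Q : ℕ) : ℤ) ∣ (X : ℤ) - φ i)).card : ℝ) -
      ((s.filter (fun i => (q : ℤ) ∣ (X : ℤ) - φ i)).card : ℝ) / Q)).trans ?_
  refine Finset.sum_le_sum fun ξ hξ => le_of_eq ?_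
  rw [Finset.mem_range] at hξ
  have h1 : ∀ i : ι, ∑ X ∈ Finset.range (q * Q),
      (if ((q * Q : ℕ) : ℤ) ∣ (X : ℤ) - φ i then
        ex (-((ξ : ℝ) * X / ((q * Q : ℕ) : ℝ))) else 0) =
      ex (-((ξ : ℝ) * φ i / ((q * Q : ℕ) : ℝ))) := by
    intro i
    have := sum_res (q * Q) 1 hM one_pos ξ (by rwa [mul_one]) (φ i)
    simpa using this
  have h2 : ∑ X ∈ Finset.range (q * Q),
      ((((s.filter (fun i => ((q * Q : ℕ) : ℤ) ∣ (X : ℤ) - φ i)).card : ℝ) -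
      ((s.filter (fun i => (q : ℤ) ∣ (X : ℤ) - φ i)).card : ℝ) / Q : ℝ) : ℂ) *
        ex (-((ξ : ℝ) * X / ((q * Q : ℕ) : ℝ))) =
      ∑ i ∈ s, ex (-((ξ : ℝ) * φ i / ((q * Q : ℕ) : ℝ))) -
      (1 / (Q : ℂ)) * ∑ i ∈ s, (if Q ∣ ξ then
        (Q : ℂ) * ex (-((ξ : ℝ) * φ i / ((q * Q : ℕ) : ℝ))) else 0) := by
    rw [← Finset.sum_congr rfl (fun i _ => h1 i),
      ← Finset.sum_congr rfl (fun i _ => sum_res q Q hq hQ ξ hξ (φ i))]
    rw [Finset.sum_comm (s := s), Finset.sum_comm (s := s), Finset.mul_sum,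
      ← Finset.sum_sub_distrib]
    refine Finset.sum_congr rfl fun X _ => ?_
    simp only [Finset.card_filter]
    push_cast
    rw [sub_mul, Finset.sum_mul, Finset.sum_div, Finset.sum_mul, Finset.mul_sum]
    congr 1
    · refine Finset.sum_congr rfl fun i _ => ?_
      split_ifs <;> simp
    · refine Finset.sum_congr rfl fun i _ => ?_
      split_ifs
      · rw [Complex.ofReal_one]
      · simp
  rw [h2]
  split_ifs with h3
  · rw [← Finset.mul_sum, ← mul_assoc, one_div, inv_mul_cancel₀ hQc, one_mul, sub_self, norm_zero]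
    norm_num
  · simp


/-! ### words -/

open Classical in
theorem Osc_eq {d m : ℕ} {r : ℤ → ℤ} {e : ℤ} {t S N k : ℕ} (hk : k ≤ N) :
    Osc d m r e t S N k =
      oscI ((W d t).filter (fun w => sg w = S)) (F m r e) (m ^ k) (m ^ (N - k)) := by
  have h1 : m ^ k * m ^ (N - k) = m ^ N := by rw [← pow_add, Nat.add_sub_cancel' hk]
  unfold Osc oscI cW
  rw [h1]
  refine Finset.sum_congr rfl fun X _ => ?_
  rw [Finset.filter_filter, Finset.filter_filter]
  push_cast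
  congr!

open Classical in
/-- The main estimate. -/
theorem core {d m : ℕ} {r : ℤ → ℤ} {e : ℤ} {j t' S q Q : ℕ} (hq : 0 < q) (hQ : 0 < Q)
    (Ty : List ℕ → Prop) (G : ℝ)
    (hinj : ∀ u ∈ W d j, ∀ u' ∈ W d j, Ty u → Ty u' → sg u = sg u' →
      ((q * Q : ℕ) : ℤ) ∣ F m r e u - F m r e u' → u = u')
    (hdec : ∀ ξ : ℕ, ξ < q * Q → ¬ Q ∣ ξ → ∀ u ∈ W d j, Ty u →
      ‖∑ v ∈ (W d t').filter (fun v => sg u + sg v = S),
        ex (-((ξ : ℝ) * ((m : ℝ) ^ sg u * (e : ℝ) ^ j * F m r e v) / ((q * Q : ℕ) : ℝ)))‖ ≤ G)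
    (s1 : Finset (List ℕ))
    (hs1 : ∀ w, w ∈ s1 ↔ w ∈ W d (j + t') ∧ sg w = S ∧ Ty (w.take j)) :
    (oscI s1 (F m r e) q Q) ^ 2 ≤
      ((j : ℝ) + 1) * ((q * Q : ℕ) : ℝ) * (d : ℝ) ^ j * G ^ 2 := by
  obtain rfl : s1 = (W d (j + t')).filter (fun w => sg w = S ∧ Ty (w.take j)) := by
    ext w
    rw [hs1, Finset.mem_filter]
  have hM : 0 < q * Q := Nat.mul_pos hq hQ
  set M := q * Q with hMdef
  -- the partial sums
  set U : ℕ → Finset (List ℕ) := fun σ => (W d j).filter (fun u => sg u = σ ∧ Ty u) with hU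
  have hUmem : ∀ σ u, u ∈ U σ ↔ u ∈ W d j ∧ sg u = σ ∧ Ty u := by
    intro σ u
    rw [hU, Finset.mem_filter]
  have key : ∀ ξ ∈ Finset.range M, (if Q ∣ ξ then (0 : ℝ) else
      ‖∑ w ∈ (W d (j + t')).filter (fun w => sg w = S ∧ Ty (w.take j)),
        ex (-((ξ : ℝ) * F m r e w / (M : ℝ)))‖ ^ 2) ≤
      ((j : ℝ) + 1) * G ^ 2 * ∑ σ ∈ Finset.range (j + 1),
        ‖∑ u ∈ U σ, ex (-((ξ : ℝ) * F m r e u / (M : ℝ)))‖ ^ 2 := by
    intro ξ hξ
    rw [Finset.mem_range] at hξ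
    by_cases hQξ : Q ∣ ξ
    · rw [if_pos hQξ]
      positivity
    rw [if_neg hQξ]
    -- decompose the sum
    have e1 : ∑ w ∈ (W d (j + t')).filter (fun w => sg w = S ∧ Ty (w.take j)),
        ex (-((ξ : ℝ) * F m r e w / (M : ℝ))) =
        ∑ σ ∈ Finset.range (j + 1), ∑ u ∈ U σ, ex (-((ξ : ℝ) * F m r e u / (M : ℝ))) *
          ∑ v ∈ (W d t').filter (fun v => sg u + sg v = S),
            ex (-((ξ : ℝ) * ((m : ℝ) ^ sg u * (e : ℝ) ^ j * F m r e v) / (M : ℝ))) := by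
      rw [Finset.sum_filter, sum_W_add]
      have e2 : ∀ u ∈ W d j, (∑ v ∈ W d t', if sg (u ++ v) = S ∧ Ty ((u ++ v).take j) then
          ex (-((ξ : ℝ) * F m r e (u ++ v) / (M : ℝ))) else 0) =
          if Ty u then ex (-((ξ : ℝ) * F m r e u / (M : ℝ))) *
          ∑ v ∈ (W d t').filter (fun v => sg u + sg v = S),
            ex (-((ξ : ℝ) * ((m : ℝ) ^ sg u * (e : ℝ) ^ j * F m r e v) / (M : ℝ))) else 0 := by
        intro u hu
        have hlen := length_of_mem_W hu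
        by_cases hTy : Ty u
        · rw [if_pos hTy, Finset.mul_sum, Finset.sum_filter]
          refine Finset.sum_congr rfl fun v _ => ?_
          have htake : (u ++ v).take j = u := by rw [← hlen]; exact List.take_left
          rw [sg_append, htake]
          by_cases hS : sg u + sg v = S
          · rw [if_pos ⟨hS, hTy⟩, if_pos hS, ← ex_add, F_append, hlen]
            congr 1
            push_cast
            ring
          · rw [if_neg (fun h => hS h.1), if_neg hS]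
        · rw [if_neg hTy]
          refine Finset.sum_eq_zero fun v _ => ?_
          have htake : (u ++ v).take j = u := by rw [← hlen]; exact List.take_left
          rw [htake, if_neg (fun h => hTy h.2)]
      rw [Finset.sum_congr rfl e2, ← Finset.sum_filter]
      rw [← Finset.sum_fiberwise_of_maps_to (s := (W d j).filter Ty) (t := Finset.range (j + 1))
        (g := sg)]
      · refine Finset.sum_congr rfl fun σ _ => ?_
        refine Finset.sum_congr ?_ fun _ _ => rfl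
        ext u
        rw [hUmem, Finset.mem_filter, Finset.mem_filter]
        tauto
      · intro u hu
        rw [Finset.mem_filter] at hu
        rw [Finset.mem_range]
        have := sg_le_length u
        rw [length_of_mem_W hu.1] at this
        omega
    have e3 : ‖∑ w ∈ (W d (j + t')).filter (fun w => sg w = S ∧ Ty (w.take j)),
        ex (-((ξ : ℝ) * F m r e w / (M : ℝ)))‖ ≤
        ∑ σ ∈ Finset.range (j + 1),
          G * ‖∑ u ∈ U σ, ex (-((ξ : ℝ) * F m r e u / (M : ℝ)))‖ := by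
      rw [e1]
      refine (norm_sum_le _ _).trans (Finset.sum_le_sum fun σ _ => ?_)
      rcases (U σ).eq_empty_or_nonempty with hemp | ⟨u0, hu0⟩
      · rw [hemp]; simp
      · have e4 : ∑ u ∈ U σ, ex (-((ξ : ℝ) * F m r e u / (M : ℝ))) *
            ∑ v ∈ (W d t').filter (fun v => sg u + sg v = S),
              ex (-((ξ : ℝ) * ((m : ℝ) ^ sg u * (e : ℝ) ^ j * F m r e v) / (M : ℝ))) =
            (∑ u ∈ U σ, ex (-((ξ : ℝ) * F m r e u / (M : ℝ)))) *
            ∑ v ∈ (W d t').filter (fun v => sg u0 + sg v = S),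
              ex (-((ξ : ℝ) * ((m : ℝ) ^ sg u0 * (e : ℝ) ^ j * F m r e v) / (M : ℝ))) := by
          rw [Finset.sum_mul]
          refine Finset.sum_congr rfl fun u hu => ?_
          rw [((hUmem σ u).1 hu).2.1, ((hUmem σ u0).1 hu0).2.1]
        rw [e4, norm_mul, mul_comm]
        refine mul_le_mul_of_nonneg_right ?_ (norm_nonneg _)
        obtain ⟨h1, h2, h3⟩ := (hUmem σ u0).1 hu0
        exact hdec ξ hξ hQξ u0 h1 h3
    have e5 : (∑ σ ∈ Finset.range (j + 1),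
          G * ‖∑ u ∈ U σ, ex (-((ξ : ℝ) * F m r e u / (M : ℝ)))‖) ^ 2 ≤
        ((j : ℝ) + 1) * G ^ 2 * ∑ σ ∈ Finset.range (j + 1),
          ‖∑ u ∈ U σ, ex (-((ξ : ℝ) * F m r e u / (M : ℝ)))‖ ^ 2 := by
      rw [← Finset.mul_sum, mul_pow]
      have := sq_sum_le_card_mul_sum_sq (s := Finset.range (j + 1))
        (f := fun σ => ‖∑ u ∈ U σ, ex (-((ξ : ℝ) * F m r e u / (M : ℝ)))‖)
      rw [Finset.card_range] at this
      push_cast at this
      calc G ^ 2 * _ ≤ G ^ 2 * (((j : ℝ) + 1) * ∑ σ ∈ Finset.range (j + 1),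
          ‖∑ u ∈ U σ, ex (-((ξ : ℝ) * F m r e u / (M : ℝ)))‖ ^ 2) :=
            mul_le_mul_of_nonneg_left this (by positivity)
        _ = _ := by ring
    exact (pow_le_pow_left₀ (norm_nonneg _) e3 2).trans e5
  have hcard : ∑ σ ∈ Finset.range (j + 1), ((U σ).card : ℝ) ≤ (d : ℝ) ^ j := by
    have h1 : ∑ σ ∈ Finset.range (j + 1), (U σ).card ≤ (W d j).card := by
      rw [← Finset.card_biUnion]
      · refine Finset.card_le_card fun u hu => ?_
        rw [Finset.mem_biUnion] at hu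
        obtain ⟨σ, _, hu⟩ := hu
        exact ((hUmem σ u).1 hu).1
      · intro σ _ τ _ hne
        rw [Function.onFun, Finset.disjoint_left]
        intro u hu hu'
        exact hne (((hUmem σ u).1 hu).2.1.symm.trans ((hUmem τ u).1 hu').2.1)
    rw [card_W] at h1
    exact_mod_cast h1
  calc (oscI ((W d (j + t')).filter (fun w => sg w = S ∧ Ty (w.take j))) (F m r e) q Q) ^ 2
      ≤ _ := oscI_sq_le _ _ hq hQ
    _ ≤ ∑ ξ ∈ Finset.range M, ((j : ℝ) + 1) * G ^ 2 * ∑ σ ∈ Finset.range (j + 1),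
        ‖∑ u ∈ U σ, ex (-((ξ : ℝ) * F m r e u / (M : ℝ)))‖ ^ 2 := Finset.sum_le_sum key
    _ = ((j : ℝ) + 1) * G ^ 2 * ∑ σ ∈ Finset.range (j + 1), ∑ ξ ∈ Finset.range M,
        ‖∑ u ∈ U σ, ex (-((ξ : ℝ) * F m r e u / (M : ℝ)))‖ ^ 2 := by
        rw [← Finset.mul_sum, Finset.sum_comm]
    _ ≤ ((j : ℝ) + 1) * G ^ 2 * ∑ σ ∈ Finset.range (j + 1), (M : ℝ) * (U σ).card := by
        refine mul_le_mul_of_nonneg_left (Finset.sum_le_sum fun σ _ => ?_) (by positivity)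
        refine sum_norm_sq_le M hM (U σ) (F m r e) fun u hu u' hu' hdvd => ?_
        obtain ⟨h1, h2, h3⟩ := (hUmem σ u).1 hu
        obtain ⟨h4, h5, h6⟩ := (hUmem σ u').1 hu'
        exact hinj u h1 u' h4 h3 h6 (h2.trans h5.symm) hdvd
    _ = ((j : ℝ) + 1) * G ^ 2 * (M : ℝ) * ∑ σ ∈ Finset.range (j + 1), ((U σ).card : ℝ) := by
        rw [← Finset.mul_sum]; ring
    _ ≤ ((j : ℝ) + 1) * G ^ 2 * (M : ℝ) * (d : ℝ) ^ j :=
        mul_le_mul_of_nonneg_left hcard (by positivity)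
    _ = _ := by ring


/-! ### final assembly -/

theorem MX1_exp_neg_le {c A : ℝ} (hc : 0 < c) :
    ∃ C : ℝ, 0 < C ∧ ∀ N : ℕ, 1 ≤ N → Real.exp (-(c * N)) ≤ C * (N : ℝ) ^ (-A) := by
  obtain ⟨n, hn⟩ := exists_nat_ge A
  refine ⟨(n.factorial : ℝ) / c ^ n, by positivity, fun N hN => ?_⟩
  have hN' : (1 : ℝ) ≤ N := by exact_mod_cast hN
  have hN0 : (0 : ℝ) < N := by linarith
  have h1 := Real.pow_div_factorial_le_exp (c * N) (by positivity) n
  have h2 : (N : ℝ) ^ (-(n : ℝ)) ≤ (N : ℝ) ^ (-A) :=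
    Real.rpow_le_rpow_of_exponent_le hN' (by linarith)
  have h3 : Real.exp (-(c * N)) ≤ (n.factorial : ℝ) / c ^ n * (N : ℝ) ^ (-(n : ℝ)) := by
    rw [Real.exp_neg, Real.rpow_neg hN0.le, Real.rpow_natCast]
    rw [div_le_iff₀ (by positivity)] at h1
    rw [inv_le_iff_one_le_mul₀ (Real.exp_pos _)]
    have h4 : (n.factorial : ℝ) / c ^ n * ((N : ℝ) ^ n)⁻¹ * Real.exp (c * N) =
        (Real.exp (c * N) * n.factorial) / (c * N) ^ n := by
      rw [mul_pow]; field_simp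
    rw [h4, one_le_div (by positivity)]
    exact h1
  exact h3.trans (mul_le_mul_of_nonneg_left h2 (by positivity))

theorem exists_level {d : ℕ} (hd : 2 ≤ d) {L M : ℝ} (hL : 0 < L) (h0 : L < M) :
    ∃ j : ℕ, L * (d : ℝ) ^ j < M ∧ M ≤ L * (d : ℝ) ^ (j + 1) := by
  classical
  have hd' : (1 : ℝ) < d := by
    have : (2 : ℝ) ≤ d := by exact_mod_cast hd
    linarith
  have hex : ∃ n : ℕ, M ≤ L * (d : ℝ) ^ (n + 1) := by
    obtain ⟨n, hn⟩ := pow_unbounded_of_one_lt (M / L) hd'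
    refine ⟨n, ?_⟩
    rw [div_lt_iff₀ hL] at hn
    have h1 : (d : ℝ) ^ n ≤ (d : ℝ) ^ (n + 1) := pow_le_pow_right₀ hd'.le (by omega)
    have h2 := mul_le_mul_of_nonneg_left h1 hL.le
    linarith
  refine ⟨Nat.find hex, ?_, Nat.find_spec hex⟩
  rcases Nat.eq_zero_or_pos (Nat.find hex) with h1 | h1
  · rw [h1, pow_zero, mul_one]; exact h0
  · have h2 := Nat.find_min hex (m := Nat.find hex - 1) (by omega)
    rw [Nat.sub_add_cancel h1] at h2
    exact not_le.1 h2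

theorem exists_B (d : ℕ) (r : ℤ → ℤ) :
    ∃ B : ℕ, 1 ≤ B ∧ ∀ j : ℤ, 0 < j → j < (d : ℤ) → |r j| ≤ B := by
  have h0 : 0 ≤ ∑ j ∈ Finset.Ioo (0 : ℤ) d, |r j| := Finset.sum_nonneg (fun _ _ => abs_nonneg _)
  refine ⟨(1 + ∑ j ∈ Finset.Ioo (0 : ℤ) d, |r j|).toNat, by omega, fun j h1 h2 => ?_⟩
  have := Finset.single_le_sum (f := fun j => |r j|) (fun _ _ => abs_nonneg _)
    (Finset.mem_Ioo.mpr ⟨h1, h2⟩)
  rw [Int.toNat_of_nonneg (by omega)]
  omega

theorem coprime_e {d m : ℕ} {e : ℤ} {N : ℕ} (he : (m : ℤ) ^ N ∣ (d : ℤ) * e - 1) :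
    IsCoprime ((m : ℤ) ^ N) e := by
  obtain ⟨c, hc⟩ := he
  exact ⟨-c, d, by linear_combination hc⟩

/-- One typical word: the inner sum is small. -/
theorem inner_bound {d m : ℕ} (hm1 : 2 ≤ m) {r : ℤ → ℤ} {C1 A' : ℝ}
    (hC1 : 0 < C1) (hA' : 0 ≤ A')
    (hfd : ∀ N : ℕ, 1 ≤ N → ∀ e : ℤ, (m : ℤ) ^ N ∣ (d : ℤ) * e - 1 →
      ∀ ζ : ℤ, ¬ (m : ℤ) ∣ ζ → ∀ t S : ℕ, N ≤ S →
      ‖Gs d m r e t 0 S ((ζ : ℝ) / (m : ℝ) ^ N)‖ ≤ C1 * (d : ℝ) ^ t * (N : ℝ) ^ (-A'))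
    {N k : ℕ} (hN : 1 ≤ N) (hk : k ≤ N) {c : ℝ} (hc : 0 < c) (hkc : (1 - c) * N ≤ k)
    {e : ℤ} (he : (m : ℤ) ^ N ∣ (d : ℤ) * e - 1) {t' S : ℕ} (hS : N ≤ S) {j σ : ℕ}
    (hσ : (σ : ℝ) ≤ (1 - 4 * c) * N) {ξ : ℕ} (hξ : ¬ m ^ (N - k) ∣ ξ) :
    ‖∑ v ∈ (W d t').filter (fun v => σ + sg v = S),
        ex (-((ξ : ℝ) * ((m : ℝ) ^ σ * (e : ℝ) ^ j * F m r e v) / (m : ℝ) ^ N))‖ ≤
      C1 * (d : ℝ) ^ t' * (3 * c * N) ^ (-A') := by
  have hm0 : (0 : ℝ) < m := by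
    have : 0 < m := by omega
    exact_mod_cast this
  have hN' : (1 : ℝ) ≤ N := by exact_mod_cast hN
  have hξ0 : ξ ≠ 0 := by
    rintro rfl
    exact hξ (dvd_zero _)
  obtain ⟨e0, ξ0, hnd, hξe⟩ := Nat.exists_eq_pow_mul_and_not_dvd hξ0 m (by omega)
  have he0 : e0 < N - k := by
    by_contra hcon
    push Not at hcon
    exact hξ (hξe ▸ Dvd.dvd.mul_right (pow_dvd_pow m hcon) _)
  have he0' : (e0 : ℝ) ≤ c * N := by
    have h1 : (e0 : ℝ) + k < N := by
      have : e0 + k < N := by omega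
      exact_mod_cast this
    linarith
  have hsum : ((σ + e0 : ℕ) : ℝ) ≤ (1 - 3 * c) * N := by
    push_cast; linarith
  have hlt : σ + e0 < N := by
    have h0 : 0 < 3 * c * N := by positivity
    have : ((σ + e0 : ℕ) : ℝ) < N := by linarith
    exact_mod_cast this
  obtain ⟨N', hN'eq⟩ : ∃ N', N = N' + (e0 + σ) := ⟨N - (e0 + σ), by omega⟩
  have hN'1 : 1 ≤ N' := by omega
  have hN'c : 3 * c * N ≤ (N' : ℝ) := by
    have h1 : (N : ℝ) = N' + ((σ + e0 : ℕ) : ℝ) := by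
      rw [hN'eq]; push_cast; ring
    linarith
  have hdvd : (m : ℤ) ^ N' ∣ (d : ℤ) * e - 1 :=
    (pow_dvd_pow (m : ℤ) (by omega : N' ≤ N)).trans he
  have hζ : ¬ (m : ℤ) ∣ (ξ0 : ℤ) * e ^ j := by
    intro h1
    have h2 : IsCoprime (m : ℤ) (e ^ j) := by
      have h3 : IsCoprime ((m : ℤ) ^ N) e := coprime_e he
      exact ((IsCoprime.pow_left_iff (by omega)).1 h3).pow_right
    have h3 := h2.dvd_of_dvd_mul_right h1
    exact hnd (by exact_mod_cast h3)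
  have h4 := hfd N' hN'1 e hdvd ((ξ0 : ℤ) * e ^ j) hζ t' (S - σ) (by omega)
  have h5 : ∑ v ∈ (W d t').filter (fun v => σ + sg v = S),
        ex (-((ξ : ℝ) * ((m : ℝ) ^ σ * (e : ℝ) ^ j * F m r e v) / (m : ℝ) ^ N)) =
      Gs d m r e t' 0 (S - σ) ((((ξ0 : ℤ) * e ^ j : ℤ) : ℝ) / (m : ℝ) ^ N') := by
    unfold Gs
    refine Finset.sum_congr ?_ fun v _ => ?_
    · refine Finset.filter_congr fun v _ => ?_
      omega
    · congr 2
      rw [hN'eq, hξe]
      push_cast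
      rw [pow_add, pow_add]
      field_simp
  rw [h5]
  refine h4.trans (mul_le_mul_of_nonneg_left ?_ (by positivity))
  exact Real.rpow_le_rpow_of_nonpos (by positivity) hN'c (by linarith)

theorem mixing_step {d m : ℕ} (hd : 2 ≤ d) (hdm : d < m) (hco : Nat.Coprime m d)
    (hm : (m : ℝ) ≤ (d : ℝ) ^ ((d : ℝ) / ((d : ℝ) - 1))) {r : ℤ → ℤ} (hr : Admissible d m r)
    (h1 : FourierDecay d m r) : MixStep d m r := by
  classical
  intro A0
  have hld := log_d_pos hd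
  have hlm := log_m_gt hd hdm
  have hlt := log_m_lt hd hdm hco hm
  have hd' : (2 : ℝ) ≤ d := by exact_mod_cast hd
  have hd0 : (0 : ℝ) < d := by linarith
  have hm2 : 2 ≤ m := by omega
  have hm0 : (0 : ℝ) < m := by
    have : 0 < m := by omega
    exact_mod_cast this
  have hm1 : (1 : ℝ) < m := by
    have : 1 < m := by omega
    exact_mod_cast this
  set A : ℝ := max A0 0 with hA
  have hA0 : 0 ≤ A := le_max_right _ _
  set θ : ℝ := Real.log m / Real.log d with hθ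
  have hθ0 : 0 < θ := div_pos (hld.trans hlm) hld
  set b : ℝ := (1 - 1 / (d : ℝ)) * θ with hb
  have hb1 : b < 1 := by
    have e1 : b = ((d : ℝ) - 1) * Real.log m / (d * Real.log d) := by
      rw [hb, hθ]; field_simp
    rw [e1, div_lt_one (by positivity)]
    exact hlt
  have hb0 : 0 < b := by
    refine mul_pos ?_ hθ0
    have : 1 / (d : ℝ) ≤ 1 / 2 := one_div_le_one_div_of_le (by norm_num) hd'
    linarith
  set c : ℝ := (1 - b) / 8 with hc
  have hc0 : 0 < c := by rw [hc]; linarith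
  have hc1 : c < 1 := by rw [hc]; linarith
  obtain ⟨B, hB1, hB⟩ := exists_B d r
  have hB1' : (1 : ℝ) ≤ B := by exact_mod_cast hB1
  obtain ⟨κ, C2, hκ, hC2, hoff⟩ := off_tail hd hdm hco hm hB1 hB
  obtain ⟨c1, hc1', hch1⟩ := chernoff hd hθ0 (a := 1) hb1
  obtain ⟨c2, hc2', hch2⟩ := chernoff hd hθ0 (a := 1 - 4 * c) (by rw [← hb, hc]; linarith)
  set A' : ℝ := (1 + A / κ + 2 * A) / 2 with hA'
  have hAk : 0 ≤ A / κ := div_nonneg hA0 hκ.le
  have hA'0 : 0 ≤ A' := by rw [hA']; positivity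
  obtain ⟨C1, hC1, hfd⟩ := h1 A'
  obtain ⟨E1, hE1, hexp1⟩ := MX1_exp_neg_le (A := A) hc1'
  obtain ⟨E2, hE2, hexp2⟩ := MX1_exp_neg_le (A := A) hc2'
  obtain ⟨E3, hE3, hexp3⟩ := MX1_exp_neg_le (A := A / κ + 1) (hld.trans hlm)
  obtain ⟨N₀, hN₀⟩ := exists_nat_gt (2 * B * E3)
  set K2 : ℝ := (θ + 1) * (2 * B) * d * C1 ^ 2 * (3 * c) ^ (-(2 * A')) with hK2
  have hK20 : 0 < K2 := by positivity
  refine ⟨2 * ((N₀ : ℝ) + 1) ^ A + 2 * E1 + 2 * C2 + 2 * E2 + Real.sqrt K2, c, by positivity, hc0,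
    hc1, ?_⟩
  intro N k hN hk1 hk2 e he t S hS
  have hN' : (1 : ℝ) ≤ N := by exact_mod_cast hN
  have hN0 : (0 : ℝ) < N := by linarith
  have hq : 0 < m ^ k := pow_pos (by omega) k
  have hQ : 0 < m ^ (N - k) := pow_pos (by omega) _
  have hqQ : m ^ k * m ^ (N - k) = m ^ N := by rw [← pow_add, Nat.add_sub_cancel' hk2]
  have hdt : (0 : ℝ) < (d : ℝ) ^ t := by positivity
  have hNA : (0 : ℝ) < (N : ℝ) ^ (-A) := Real.rpow_pos_of_pos hN0 _
  -- reduce the exponent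
  suffices hmain : Osc d m r e t S N k ≤ (2 * ((N₀ : ℝ) + 1) ^ A + 2 * E1 + 2 * C2 + 2 * E2 +
      Real.sqrt K2) * (d : ℝ) ^ t * (N : ℝ) ^ (-A) by
    refine hmain.trans (mul_le_mul_of_nonneg_left ?_ (by positivity))
    exact Real.rpow_le_rpow_of_exponent_le hN' (by have := le_max_left A0 0; linarith)
  have hexpand : (2 * ((N₀ : ℝ) + 1) ^ A + 2 * E1 + 2 * C2 + 2 * E2 +
      Real.sqrt K2) * (d : ℝ) ^ t * (N : ℝ) ^ (-A) =
      2 * ((N₀ : ℝ) + 1) ^ A * ((d : ℝ) ^ t * (N : ℝ) ^ (-A)) +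
      2 * E1 * ((d : ℝ) ^ t * (N : ℝ) ^ (-A)) + 2 * C2 * ((d : ℝ) ^ t * (N : ℝ) ^ (-A)) +
      2 * E2 * ((d : ℝ) ^ t * (N : ℝ) ^ (-A)) +
      Real.sqrt K2 * ((d : ℝ) ^ t * (N : ℝ) ^ (-A)) := by ring
  have hp : (0 : ℝ) < (d : ℝ) ^ t * (N : ℝ) ^ (-A) := by positivity
  have hp1 : 0 ≤ 2 * ((N₀ : ℝ) + 1) ^ A * ((d : ℝ) ^ t * (N : ℝ) ^ (-A)) := by positivity
  have hp2 : 0 ≤ 2 * E1 * ((d : ℝ) ^ t * (N : ℝ) ^ (-A)) := by positivity
  have hp3 : 0 ≤ 2 * C2 * ((d : ℝ) ^ t * (N : ℝ) ^ (-A)) := by positivity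
  have hp4 : 0 ≤ 2 * E2 * ((d : ℝ) ^ t * (N : ℝ) ^ (-A)) := by positivity
  have hp5 : 0 ≤ Real.sqrt K2 * ((d : ℝ) ^ t * (N : ℝ) ^ (-A)) := by positivity
  rw [Osc_eq hk2, hexpand]
  set s : Finset (List ℕ) := (W d t).filter (fun w => sg w = S) with hs
  have hcW : ∀ (P : List ℕ → Prop) [DecidablePred P], (((W d t).filter P).card : ℝ) =
      cW d t P := by
    intro P _
    unfold cW
    congr!
  have htriv := oscI_le s (F m r e) hq hQ
  have hscard : (s.card : ℝ) ≤ (d : ℝ) ^ t := by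
    rw [hs, hcW]
    exact cW_le_pow d t _
  by_cases hsmall : N ≤ N₀
  · -- small N
    have h2 : (1 : ℝ) ≤ ((N₀ : ℝ) + 1) ^ A * (N : ℝ) ^ (-A) := by
      rw [Real.rpow_neg hN0.le, ← div_eq_mul_inv, one_le_div (by positivity)]
      refine Real.rpow_le_rpow hN0.le ?_ hA0
      have : (N : ℝ) ≤ N₀ := by exact_mod_cast hsmall
      linarith
    have h3 : (d : ℝ) ^ t ≤ (d : ℝ) ^ t * (((N₀ : ℝ) + 1) ^ A * (N : ℝ) ^ (-A)) :=
      le_mul_of_one_le_right hdt.le h2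
    have h4 : 2 * ((N₀ : ℝ) + 1) ^ A * ((d : ℝ) ^ t * (N : ℝ) ^ (-A)) =
        2 * ((d : ℝ) ^ t * (((N₀ : ℝ) + 1) ^ A * (N : ℝ) ^ (-A))) := by ring
    linarith
  push Not at hsmall
  -- the scale
  set Λ : ℝ := (N : ℝ) ^ (A / κ) with hΛ
  have hΛ1 : 1 ≤ Λ := Real.one_le_rpow hN' hAk
  have hΛ0 : 0 < Λ := by linarith
  have hL1 : 1 ≤ 2 * B * Λ := by
    have h2 : 1 ≤ (B : ℝ) * Λ := one_le_mul_of_one_le_of_one_le hB1' hΛ1
    linarith
  have hmN : (m : ℝ) ^ N = Real.exp (Real.log m * N) := by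
    rw [← Real.rpow_natCast, Real.rpow_def_of_pos hm0]
  have hLM : 2 * B * Λ < (m : ℝ) ^ N := by
    have h2 := hexp3 N hN
    have h3 : (N : ℝ) ^ (-(A / κ + 1)) = (Λ * N)⁻¹ := by
      rw [Real.rpow_neg hN0.le, Real.rpow_add hN0, Real.rpow_one]
    rw [h3, Real.exp_neg, ← hmN, ← div_eq_mul_inv, inv_eq_one_div,
      div_le_div_iff₀ (by positivity) (by positivity)] at h2
    -- Λ * N ≤ E3 * m ^ N
    have h4 : 2 * B * E3 < N := by
      have : (N₀ : ℝ) < N := by exact_mod_cast hsmall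
      linarith
    have h5 : (0 : ℝ) < (m : ℝ) ^ N := by positivity
    by_contra hcon
    push Not at hcon
    have h6 : 2 * B * E3 * (m : ℝ) ^ N < N * (m : ℝ) ^ N := mul_lt_mul_of_pos_right h4 h5
    have h7 : 2 * B * (Λ * N) ≤ 2 * B * (E3 * (m : ℝ) ^ N) :=
      mul_le_mul_of_nonneg_left (by linarith) (by positivity)
    have h8 : (m : ℝ) ^ N * N ≤ 2 * B * Λ * N := mul_le_mul_of_nonneg_right hcon hN0.le
    linarith
  obtain ⟨j, hj1, hj2⟩ := exists_level hd (by linarith : 0 < 2 * (B : ℝ) * Λ) hLM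
  have hjθ : (j : ℝ) ≤ θ * N := by
    have h2 : (d : ℝ) ^ j < (m : ℝ) ^ N := by
      have h3 : (0 : ℝ) < (d : ℝ) ^ j := by positivity
      exact (le_mul_of_one_le_left h3.le hL1).trans_lt hj1
    have h3 := Real.log_lt_log (by positivity) h2
    rw [Real.log_pow, Real.log_pow] at h3
    rw [hθ, div_mul_eq_mul_div, le_div_iff₀ hld]
    linarith
  rcases le_or_gt t j with htj | htj
  · -- few digits
    have h2 : (s.card : ℝ) ≤ cW d t (fun w => 1 * (N : ℝ) ≤ (sg w : ℝ)) := by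
      rw [hs, hcW]
      refine cW_mono fun w _ hw => ?_
      rw [hw, one_mul]
      exact_mod_cast hS
    have h3 := hch1 N t (by
      have : (t : ℝ) ≤ j := by exact_mod_cast htj
      linarith)
    have h4 := mul_le_mul_of_nonneg_left (hexp1 N hN) hdt.le
    have h5 : 2 * E1 * ((d : ℝ) ^ t * (N : ℝ) ^ (-A)) =
      2 * ((d : ℝ) ^ t * (E1 * (N : ℝ) ^ (-A))) := by ring
    linarith
  -- many digits
  obtain ⟨t', rfl⟩ : ∃ t', t = j + t' := ⟨t - j, by omega⟩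
  set Ty : List ℕ → Prop := fun u => |(Off d m r u : ℝ)| ≤ B * Λ * (d : ℝ) ^ j ∧
    (sg u : ℝ) ≤ (1 - 4 * c) * N with hTy
  have hsplit := oscI_split s (F m r e) (m ^ k) (m ^ (N - k)) (fun w => Ty (w.take j))
  -- atypical words
  have hatyp : oscI (s.filter (fun w => ¬ Ty (w.take j))) (F m r e) (m ^ k) (m ^ (N - k)) ≤
      2 * C2 * ((d : ℝ) ^ (j + t') * (N : ℝ) ^ (-A)) +
        2 * E2 * ((d : ℝ) ^ (j + t') * (N : ℝ) ^ (-A)) := by
    refine (oscI_le _ _ hq hQ).trans ?_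
    have h2 : ((s.filter (fun w => ¬ Ty (w.take j))).card : ℝ) ≤
        cW d (j + t') (fun w => ¬ Ty (w.take j)) := by
      rw [← hcW, hs, Finset.filter_filter]
      exact_mod_cast Finset.card_le_card (fun w hw => by
        rw [Finset.mem_filter] at hw ⊢
        exact ⟨hw.1, hw.2.2⟩)
    have h3 := cW_take d j t' (fun u => ¬ Ty u)
    have h4 : cW d j (fun u => ¬ Ty u) ≤
        cW d j (fun u => B * Λ * (d : ℝ) ^ j < |(Off d m r u : ℝ)|) +
          cW d j (fun u => (1 - 4 * c) * (N : ℝ) ≤ (sg u : ℝ)) := by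
      refine (cW_mono fun u _ hu => ?_).trans (cW_or_le d j _ _)
      by_contra hcon
      push Not at hcon
      exact hu ⟨hcon.1, hcon.2.le⟩
    have h5 := hoff j Λ hΛ1
    have h6 : Λ ^ (-κ) = (N : ℝ) ^ (-A) := by
      rw [hΛ, ← Real.rpow_mul hN0.le]
      congr 1
      field_simp
    have h7 := hch2 N j hjθ
    have h8 := mul_le_mul_of_nonneg_left (hexp2 N hN) (by positivity : (0 : ℝ) ≤ (d : ℝ) ^ j)
    rw [h6] at h5
    have h9 : cW d j (fun u => ¬ Ty u) * (d : ℝ) ^ t' ≤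
        (C2 * (d : ℝ) ^ j * (N : ℝ) ^ (-A) + (d : ℝ) ^ j * (E2 * (N : ℝ) ^ (-A))) *
          (d : ℝ) ^ t' := mul_le_mul_of_nonneg_right (by linarith) (by positivity)
    rw [← h3] at h9
    have h10 : (C2 * (d : ℝ) ^ j * (N : ℝ) ^ (-A) + (d : ℝ) ^ j * (E2 * (N : ℝ) ^ (-A))) *
        (d : ℝ) ^ t' = C2 * ((d : ℝ) ^ (j + t') * (N : ℝ) ^ (-A)) +
        E2 * ((d : ℝ) ^ (j + t') * (N : ℝ) ^ (-A)) := by rw [pow_add]; ring
    linarith
  -- typical words
  have htyp : oscI (s.filter (fun w => Ty (w.take j))) (F m r e) (m ^ k) (m ^ (N - k)) ≤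
      Real.sqrt K2 * ((d : ℝ) ^ (j + t') * (N : ℝ) ^ (-A)) := by
    have hcore := core (d := d) (m := m) (r := r) (e := e) (j := j) (t' := t') (S := S) hq hQ Ty
      (C1 * (d : ℝ) ^ t' * (3 * c * N) ^ (-A')) ?_ ?_ (s.filter (fun w => Ty (w.take j)))
      (fun w => by rw [Finset.mem_filter, hs, Finset.mem_filter, and_assoc])
    · have h2 : 0 ≤ Real.sqrt K2 * ((d : ℝ) ^ (j + t') * (N : ℝ) ^ (-A)) := by positivity
      refine (sq_le_sq₀ (Finset.sum_nonneg fun _ _ => abs_nonneg _) h2).1 (hcore.trans ?_)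
      have h3 : ((m ^ k * m ^ (N - k) : ℕ) : ℝ) = (m : ℝ) ^ N := by rw [hqQ]; push_cast; rfl
      rw [h3, mul_pow (Real.sqrt K2), Real.sq_sqrt hK20.le]
      have h4 : (j : ℝ) + 1 ≤ (θ + 1) * N := by
        have h40 : (θ + 1) * (N : ℝ) = θ * N + N := by ring
        linarith
      have h5 : ((3 * c * (N : ℝ)) ^ (-A')) ^ 2 =
          (3 * c) ^ (-(2 * A')) * (N : ℝ) ^ (-(2 * A')) := by
        rw [← Real.mul_rpow (by positivity) hN0.le, ← Real.rpow_natCast, ← Real.rpow_mul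
          (by positivity)]
        congr 1
        push_cast; ring
      have h6 : (N : ℝ) * Λ * (N : ℝ) ^ (-(2 * A')) = ((N : ℝ) ^ (-A)) ^ 2 := by
        rw [hΛ, ← Real.rpow_natCast, ← Real.rpow_mul hN0.le]
        nth_rewrite 1 [← Real.rpow_one (N : ℝ)]
        rw [← Real.rpow_add hN0, ← Real.rpow_add hN0]
        congr 1
        rw [hA']
        push_cast
        ring
      calc ((j : ℝ) + 1) * (m : ℝ) ^ N * (d : ℝ) ^ j *
            (C1 * (d : ℝ) ^ t' * (3 * c * (N : ℝ)) ^ (-A')) ^ 2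
          ≤ ((θ + 1) * N) * (2 * B * Λ * (d : ℝ) ^ (j + 1)) * (d : ℝ) ^ j *
            (C1 * (d : ℝ) ^ t' * (3 * c * (N : ℝ)) ^ (-A')) ^ 2 := by
            gcongr
        _ = ((θ + 1) * (2 * B) * d * C1 ^ 2) * (((d : ℝ) ^ j) ^ 2 * ((d : ℝ) ^ t') ^ 2) *
            ((N : ℝ) * Λ * ((3 * c * (N : ℝ)) ^ (-A')) ^ 2) := by ring
        _ = ((θ + 1) * (2 * B) * d * C1 ^ 2 * (3 * c) ^ (-(2 * A'))) *
            (((d : ℝ) ^ j) ^ 2 * ((d : ℝ) ^ t') ^ 2) *
            ((N : ℝ) * Λ * (N : ℝ) ^ (-(2 * A'))) := by rw [h5]; ring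
        _ = K2 * ((d : ℝ) ^ (j + t') * (N : ℝ) ^ (-A)) ^ 2 := by
            rw [h6, ← hK2, pow_add]; ring
    · -- injectivity
      intro u hu u' hu' hTu hTu' hsg hdvd
      have h3 : ((m ^ k * m ^ (N - k) : ℕ) : ℤ) = (m : ℤ) ^ N := by rw [hqQ]; push_cast; rfl
      rw [h3] at hdvd
      have h4 := F_modEq (m := m) (r := r) he u
      have h5 := F_modEq (m := m) (r := r) he u'
      rw [length_of_mem_W hu] at h4
      rw [length_of_mem_W hu'] at h5
      have h6 : (m : ℤ) ^ N ∣ e ^ j * (Off d m r u - Off d m r u') := by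
        have h7 := dvd_sub (dvd_sub h4 h5) hdvd
        have h8 : (F m r e u + e ^ j * Off d m r u - (F m r e u' + e ^ j * Off d m r u')) -
          (F m r e u - F m r e u') = e ^ j * (Off d m r u - Off d m r u') := by ring
        rwa [h8] at h7
      have h7 : (m : ℤ) ^ N ∣ Off d m r u - Off d m r u' :=
        ((coprime_e he).pow_right).dvd_of_dvd_mul_left h6
      have h8 : |Off d m r u - Off d m r u'| < (m : ℤ) ^ N := by
        have h9 : (|Off d m r u - Off d m r u'| : ℝ) < (m : ℝ) ^ N := by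
          refine (abs_sub _ _).trans_lt ?_
          have := hTu.1
          have := hTu'.1
          linarith
        exact_mod_cast h9
      have h9 := Int.eq_zero_of_abs_lt_dvd h7 h8
      exact Off_inj hd hco hr hu hu' hsg (by linarith)
    · -- decay
      intro ξ _ hξ u _ hTu
      have h3 : ((m ^ k * m ^ (N - k) : ℕ) : ℝ) = (m : ℝ) ^ N := by rw [hqQ]; push_cast; rfl
      rw [h3]
      exact inner_bound hm2 hC1 hA'0 hfd hN hk2 hc0 hk1 he hS hTu.2 hξ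
  linarith

end Pool.Agent.Helper52.Tao
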