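import Pool.Agent.Helper52.Tao.Props

/-!
Block MX2: iteration of the fine-scale mixing step.
-/

set_option autoImplicit false

namespace Pool.Agent.Helper52.Tao

open Pool.Agent.Helper68.Moeller

namespace MX2

theorem sum_periodic {M : ℕ} (f : ℕ → ℝ) (hf : ∀ X, f (X + M) = f X) (L : ℕ) :
    ∑ X ∈ Finset.range (M * L), f X = L * ∑ X ∈ Finset.range M, f X := by
  induction L with
  | zero => simp
  | succ L ih =>
    rw [Nat.mul_succ, Finset.sum_range_add, ih]
    have h : ∀ X, f (M * L + X) = f X := by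
      intro X
      clear ih
      induction L with
      | zero => simp
      | succ L ih => rw [Nat.mul_succ, show M * L + M + X = (M * L + X) + M by ring, hf, ih]
    simp only [h]
    push_cast
    ring

/-- the counting function -/
noncomputable def p (d m : ℕ) (r : ℤ → ℤ) (e : ℤ) (t S j X : ℕ) : ℝ :=
  cW d t (fun w => sg w = S ∧ (m : ℤ) ^ j ∣ (X : ℤ) - F m r e w)

variable {d m : ℕ} {r : ℤ → ℤ} {e : ℤ} {t S : ℕ}

theorem p_nonneg (j X : ℕ) : 0 ≤ p d m r e t S j X := cW_nonneg _ _ _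

theorem p_add_pow {i j : ℕ} (hij : i ≤ j) (X : ℕ) :
    p d m r e t S i (X + m ^ j) = p d m r e t S i X := by
  unfold p
  refine cW_congr fun w _ => ?_
  have h : (m : ℤ) ^ i ∣ (m : ℤ) ^ j := pow_dvd_pow _ hij
  have h2 : ((X + m ^ j : ℕ) : ℤ) - F m r e w = ((X : ℤ) - F m r e w) + (m : ℤ) ^ j := by
    push_cast; ring
  rw [h2, dvd_add_left h]

theorem sum_p_le (_hm : 0 < m) (j : ℕ) :
    ∑ X ∈ Finset.range (m ^ j), p d m r e t S j X ≤ (d : ℝ) ^ t := by
  classical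
  have h1 : ∑ X ∈ Finset.range (m ^ j), p d m r e t S j X =
      ∑ w ∈ W d t, ∑ X ∈ Finset.range (m ^ j),
        if sg w = S ∧ (m : ℤ) ^ j ∣ (X : ℤ) - F m r e w then (1 : ℝ) else 0 := by
    rw [Finset.sum_comm]
    refine Finset.sum_congr rfl fun X _ => ?_
    rw [p, cW_eq_sum]
  rw [h1]
  have h2 : ∀ w ∈ W d t, ∑ X ∈ Finset.range (m ^ j),
      (if sg w = S ∧ (m : ℤ) ^ j ∣ (X : ℤ) - F m r e w then (1 : ℝ) else 0) ≤ 1 := by
    intro w _
    rw [Finset.sum_boole]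
    have h3 : ((Finset.range (m ^ j)).filter
        (fun X : ℕ => sg w = S ∧ (m : ℤ) ^ j ∣ (X : ℤ) - F m r e w)).card ≤ 1 := by
      rw [Finset.card_le_one]
      intro X hX Y hY
      rw [Finset.mem_filter, Finset.mem_range] at hX hY
      have h4 : (m : ℤ) ^ j ∣ (X : ℤ) - Y := by
        have := dvd_sub hX.2.2 hY.2.2
        have h5 : (X : ℤ) - F m r e w - ((Y : ℤ) - F m r e w) = (X : ℤ) - Y := by ring
        rwa [h5] at this
      have hX1 : (X : ℤ) < (m : ℤ) ^ j := by exact_mod_cast hX.1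
      have hY1 : (Y : ℤ) < (m : ℤ) ^ j := by exact_mod_cast hY.1
      have h6 : (X : ℤ) - Y = 0 := by
        apply Int.eq_zero_of_abs_lt_dvd h4
        rw [abs_lt]
        constructor <;> omega
      omega
    exact_mod_cast h3
  refine (Finset.sum_le_card_nsmul _ _ 1 h2).trans ?_
  rw [card_W, nsmul_eq_mul, mul_one]
  push_cast
  exact le_rfl

theorem sum_p_lift (hm : 0 < m) {k N : ℕ} (hk : k ≤ N) (f : ℕ → ℝ)
    (hf : ∀ X, f (X + m ^ k) = f X) :
    ∑ X ∈ Finset.range (m ^ N), f X / (m : ℝ) ^ (N - k) = ∑ X ∈ Finset.range (m ^ k), f X := by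
  have h1 : m ^ N = m ^ k * m ^ (N - k) := by
    rw [← pow_add]; congr 1; omega
  rw [h1, ← Finset.sum_div, sum_periodic f hf]
  have h2 : ((m ^ (N - k) : ℕ) : ℝ) ≠ 0 := by positivity
  have h3 : (m : ℝ) ^ (N - k) = ((m ^ (N - k) : ℕ) : ℝ) := by push_cast; rfl
  rw [h3]
  field_simp

theorem Osc_eq (N k : ℕ) : Osc d m r e t S N k = ∑ X ∈ Finset.range (m ^ N),
    |p d m r e t S N X - p d m r e t S k X / (m : ℝ) ^ (N - k)| := rfl

theorem Osc_le_two (hm : 0 < m) {k N : ℕ} (hk : k ≤ N) :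
    Osc d m r e t S N k ≤ 2 * (d : ℝ) ^ t := by
  have h1 : Osc d m r e t S N k ≤ ∑ X ∈ Finset.range (m ^ N),
      (p d m r e t S N X + p d m r e t S k X / (m : ℝ) ^ (N - k)) := by
    rw [Osc_eq]
    refine Finset.sum_le_sum fun X _ => ?_
    have h2 := p_nonneg (d := d) (m := m) (r := r) (e := e) (t := t) (S := S) N X
    have h3 : 0 ≤ p d m r e t S k X / (m : ℝ) ^ (N - k) := div_nonneg (p_nonneg k X) (by positivity)
    rw [abs_le]
    constructor <;> linarith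
  rw [Finset.sum_add_distrib, sum_p_lift hm hk _ (p_add_pow le_rfl)] at h1
  have h2 := sum_p_le (d := d) (r := r) (e := e) (t := t) (S := S) hm N
  have h3 := sum_p_le (d := d) (r := r) (e := e) (t := t) (S := S) hm k
  linarith

theorem Osc_triangle (hm : 0 < m) {k N' N : ℕ} (hk : k ≤ N') (hN : N' ≤ N) :
    Osc d m r e t S N k ≤ Osc d m r e t S N N' + Osc d m r e t S N' k := by
  have h1 : Osc d m r e t S N' k = ∑ X ∈ Finset.range (m ^ N),
      |p d m r e t S N' X - p d m r e t S k X / (m : ℝ) ^ (N' - k)| / (m : ℝ) ^ (N - N') := by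
    rw [sum_p_lift hm hN (fun X => |p d m r e t S N' X - p d m r e t S k X / (m : ℝ) ^ (N' - k)|)]
    · rfl
    · intro X
      rw [p_add_pow le_rfl, p_add_pow hk]
  rw [h1, Osc_eq, Osc_eq, ← Finset.sum_add_distrib]
  refine Finset.sum_le_sum fun X _ => ?_
  have hm0 : (0 : ℝ) < (m : ℝ) ^ (N - N') := by positivity
  have h2 : |p d m r e t S N' X - p d m r e t S k X / (m : ℝ) ^ (N' - k)| / (m : ℝ) ^ (N - N') =
      |p d m r e t S N' X / (m : ℝ) ^ (N - N') - p d m r e t S k X / (m : ℝ) ^ (N - k)| := by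
    have h3 : (m : ℝ) ^ (N - k) = (m : ℝ) ^ (N' - k) * (m : ℝ) ^ (N - N') := by
      rw [← pow_add]; congr 1; omega
    rw [h3, ← div_div, ← sub_div, abs_div, abs_of_pos hm0]
  rw [h2]
  exact abs_sub_le _ _ _

end MX2

open MX2 in
theorem mixing {d m : ℕ} (_hd : 2 ≤ d) (hdm : d < m) (_hco : Nat.Coprime m d) {r : ℤ → ℤ}
    (h1 : MixStep d m r) : Mixing d m r := by
  have hm : 0 < m := by omega
  intro A0
  set A : ℝ := max A0 1 with hA
  have hA1 : 1 ≤ A := le_max_right _ _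
  obtain ⟨C0, c, hC0, hc0, hc1, hstep⟩ := h1 A
  -- the gain
  set δ : ℝ := (1 - c / 2) ^ (-A) - 1 with hδ
  have hb0 : 0 < 1 - c / 2 := by linarith
  have hδ0 : 0 < δ := by
    have : 1 < (1 - c / 2) ^ (-A) :=
      Real.one_lt_rpow_of_pos_of_lt_one_of_neg hb0 (by linarith) (by linarith)
    rw [hδ]; linarith
  obtain ⟨N0, hN0⟩ : ∃ N0 : ℕ, 2 / c ≤ N0 := exists_nat_ge _
  set C' : ℝ := C0 + C0 / δ + 2 * ((N0 : ℝ) + 1) ^ A with hC'
  have hpos : 0 < ((N0 : ℝ) + 1) ^ A := Real.rpow_pos_of_pos (by positivity) _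
  have hq : 0 < C0 / δ := by positivity
  have hC'0 : 0 < C' := by positivity
  have key : ∀ N k : ℕ, 1 ≤ k → k ≤ N → ∀ e : ℤ, (m : ℤ) ^ N ∣ (d : ℤ) * e - 1 →
      ∀ t S : ℕ, N ≤ S → Osc d m r e t S N k ≤
        C' * (d : ℝ) ^ t * (2 * (k : ℝ) ^ (-A) - (N : ℝ) ^ (-A)) := by
    intro N
    induction N using Nat.strong_induction_on with
    | _ N ih =>
    intro k hk hkN e he t S hNS
    have hk0 : (0 : ℝ) < k := by exact_mod_cast hk
    have hN1 : 1 ≤ N := by omega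
    have hNr : (0 : ℝ) < N := by exact_mod_cast hN1
    have hmono : (N : ℝ) ^ (-A) ≤ (k : ℝ) ^ (-A) :=
      Real.rpow_le_rpow_of_nonpos hk0 (by exact_mod_cast hkN) (by linarith)
    have hNpos : 0 < (N : ℝ) ^ (-A) := Real.rpow_pos_of_pos hNr _
    have hge : (N : ℝ) ^ (-A) ≤ 2 * (k : ℝ) ^ (-A) - (N : ℝ) ^ (-A) := by linarith
    have hdt : (0 : ℝ) ≤ (d : ℝ) ^ t := by positivity
    by_cases hsmall : N < N0
    · -- trivial bound
      refine (Osc_le_two hm hkN).trans ?_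
      have h2 : (1 : ℝ) ≤ ((N0 : ℝ) + 1) ^ A * (N : ℝ) ^ (-A) := by
        have h3 : (N : ℝ) ^ A ≤ ((N0 : ℝ) + 1) ^ A := by
          apply Real.rpow_le_rpow hNr.le _ (by linarith)
          have : (N : ℝ) < N0 := by exact_mod_cast hsmall
          linarith
        have h4 : (N : ℝ) ^ A * (N : ℝ) ^ (-A) = 1 := by
          rw [← Real.rpow_add hNr]; simp
        calc (1 : ℝ) = (N : ℝ) ^ A * (N : ℝ) ^ (-A) := h4.symm
          _ ≤ _ := mul_le_mul_of_nonneg_right h3 hNpos.le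
      calc 2 * (d : ℝ) ^ t = (d : ℝ) ^ t * 2 * 1 := by ring
        _ ≤ (d : ℝ) ^ t * 2 * (((N0 : ℝ) + 1) ^ A * (N : ℝ) ^ (-A)) :=
          mul_le_mul_of_nonneg_left h2 (by positivity)
        _ = (2 * ((N0 : ℝ) + 1) ^ A) * (d : ℝ) ^ t * (N : ℝ) ^ (-A) := by ring
        _ ≤ C' * (d : ℝ) ^ t * (N : ℝ) ^ (-A) := by
          apply mul_le_mul_of_nonneg_right _ hNpos.le
          apply mul_le_mul_of_nonneg_right _ hdt
          rw [hC']; linarith
        _ ≤ _ := mul_le_mul_of_nonneg_left hge (by positivity)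
    push Not at hsmall
    by_cases hbig : (1 - c) * N ≤ k
    · refine (hstep N k hN1 hbig hkN e he t S hNS).trans ?_
      calc C0 * (d : ℝ) ^ t * (N : ℝ) ^ (-A) ≤ C' * (d : ℝ) ^ t * (N : ℝ) ^ (-A) := by
            apply mul_le_mul_of_nonneg_right _ hNpos.le
            apply mul_le_mul_of_nonneg_right _ hdt
            rw [hC']; linarith
        _ ≤ _ := mul_le_mul_of_nonneg_left hge (by positivity)
    push Not at hbig
    -- the intermediate scale
    set N' : ℕ := ⌈(1 - c) * N⌉₊ with hN'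
    have h5 : (1 - c) * N ≤ N' := Nat.le_ceil _
    have h6 : (N' : ℝ) < (1 - c) * N + 1 := by
      apply Nat.ceil_lt_add_one
      apply mul_nonneg (by linarith) hNr.le
    have h7 : (N' : ℝ) ≤ (1 - c / 2) * N := by
      have h8 : 2 / c ≤ (N : ℝ) := hN0.trans (by exact_mod_cast hsmall)
      rw [div_le_iff₀ hc0] at h8
      nlinarith
    have h9 : N' < N := by
      have : (N' : ℝ) < N := by
        have : (1 - c / 2) * (N : ℝ) < N := by nlinarith
        linarith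
      exact_mod_cast this
    have h10 : k ≤ N' := by
      have : (k : ℝ) < N' := by linarith
      exact (by exact_mod_cast this : k < N').le
    have hN'0 : (0 : ℝ) < N' := by
      have : 1 ≤ N' := by omega
      exact_mod_cast this
    have h11 := hstep N N' hN1 h5 h9.le e he t S hNS
    have h12 := ih N' h9 k hk h10 e ((pow_dvd_pow _ h9.le).trans he) t S (by omega)
    have h13 : (1 + δ) * (N : ℝ) ^ (-A) ≤ (N' : ℝ) ^ (-A) := by
      have h14 : ((1 - c / 2) * (N : ℝ)) ^ (-A) ≤ (N' : ℝ) ^ (-A) :=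
        Real.rpow_le_rpow_of_nonpos hN'0 h7 (by linarith)
      rw [Real.mul_rpow hb0.le hNr.le] at h14
      have h15 : 1 + δ = (1 - c / 2) ^ (-A) := by rw [hδ]; ring
      rw [h15]; exact h14
    refine (Osc_triangle hm h10 h9.le).trans ?_
    have h16 : C0 * (N : ℝ) ^ (-A) ≤ C' * ((N' : ℝ) ^ (-A) - (N : ℝ) ^ (-A)) := by
      have h17 : C0 ≤ C' * δ := by
        have h18 : C0 / δ ≤ C' := by rw [hC']; linarith
        rwa [div_le_iff₀ hδ0] at h18
      calc C0 * (N : ℝ) ^ (-A) ≤ (C' * δ) * (N : ℝ) ^ (-A) :=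
            mul_le_mul_of_nonneg_right h17 hNpos.le
        _ = C' * (δ * (N : ℝ) ^ (-A)) := by ring
        _ ≤ _ := mul_le_mul_of_nonneg_left (by linarith) hC'0.le
    have h19 := mul_le_mul_of_nonneg_left h16 hdt
    calc Osc d m r e t S N N' + Osc d m r e t S N' k
        ≤ C0 * (d : ℝ) ^ t * (N : ℝ) ^ (-A) +
          C' * (d : ℝ) ^ t * (2 * (k : ℝ) ^ (-A) - (N' : ℝ) ^ (-A)) := add_le_add h11 h12
      _ = (d : ℝ) ^ t * (C0 * (N : ℝ) ^ (-A)) +
          C' * (d : ℝ) ^ t * (2 * (k : ℝ) ^ (-A) - (N' : ℝ) ^ (-A)) := by ring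
      _ ≤ (d : ℝ) ^ t * (C' * ((N' : ℝ) ^ (-A) - (N : ℝ) ^ (-A))) +
          C' * (d : ℝ) ^ t * (2 * (k : ℝ) ^ (-A) - (N' : ℝ) ^ (-A)) := by linarith
      _ = _ := by ring
  refine ⟨2 * C', by positivity, ?_⟩
  intro N k hk hkN e he t S hNS
  refine (key N k hk hkN e he t S hNS).trans ?_
  have hk0 : (0 : ℝ) < k := by exact_mod_cast hk
  have hk1 : (1 : ℝ) ≤ k := by exact_mod_cast hk
  have hN1 : 1 ≤ N := by omega
  have hNr : (0 : ℝ) < N := by exact_mod_cast hN1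
  have hNpos : 0 < (N : ℝ) ^ (-A) := Real.rpow_pos_of_pos hNr _
  have h2 : (k : ℝ) ^ (-A) ≤ (k : ℝ) ^ (-A0) :=
    Real.rpow_le_rpow_of_exponent_le hk1 (by have := le_max_left A0 1; linarith)
  calc C' * (d : ℝ) ^ t * (2 * (k : ℝ) ^ (-A) - (N : ℝ) ^ (-A))
      ≤ C' * (d : ℝ) ^ t * (2 * (k : ℝ) ^ (-A0)) :=
        mul_le_mul_of_nonneg_left (by linarith) (by positivity)
    _ = _ := by ring

end Pool.Agent.Helper52.Tao
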