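import Pool.Agent.Helper52.Tao.Defs

/-!
Block A3: the local bound for the number of non-zero digits.
-/

set_option autoImplicit false

namespace Pool.Agent.Helper52.Tao

open Polynomial

theorem sum_X_nz (c : ℕ) :
    ∑ a ∈ Finset.range (c + 2), (X : ℕ[X]) ^ nz a = (1 + X) + C c * X := by
  rw [Finset.sum_range_succ']
  have h : ∀ a ∈ Finset.range (c + 1), (X : ℕ[X]) ^ nz (a + 1) = X := by
    intro a _
    rw [nz_of_ne (Nat.succ_ne_zero a), pow_one]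
  rw [Finset.sum_congr rfl h, Finset.sum_const, Finset.card_range, nz_zero, pow_zero,
    nsmul_eq_mul, show (C c : ℕ[X]) = (c : ℕ[X]) from (C_eq_natCast c)]
  push_cast
  ring

theorem sum_X_sg (c t : ℕ) :
    ∑ w ∈ W (c + 2) t, (X : ℕ[X]) ^ sg w = ((1 + X) + C c * X) ^ t := by
  induction t with
  | zero => rw [sum_W_zero]; simp
  | succ t ih =>
    rw [sum_W_succ, pow_succ', ← ih, ← sum_X_nz, Finset.sum_mul_sum]
    refine Finset.sum_congr rfl fun a _ => Finset.sum_congr rfl fun w _ => ?_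
    rw [sg_cons, pow_add]

theorem card_sg_eq (c t s : ℕ) :
    ((W (c + 2) t).filter (fun w => sg w = s)).card = (((1 + X) + C c * X : ℕ[X]) ^ t).coeff s := by
  rw [← sum_X_sg, finsetSum_coeff, Finset.card_filter]
  refine Finset.sum_congr rfl fun w _ => ?_
  rw [coeff_X_pow]
  simp [eq_comm]

theorem coeff_le (c t s : ℕ) :
    (((1 + X) + C c * X : ℕ[X]) ^ t).coeff s ≤
      ∑ i ∈ Finset.range (t + 1), t.choose i * c ^ (t - i) * i.choose (i / 2) := by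
  rw [add_pow, finsetSum_coeff]
  refine Finset.sum_le_sum fun i _ => ?_
  have h1 : ((1 + X : ℕ[X]) ^ i * (C c * X) ^ (t - i) * ((t.choose i : ℕ) : ℕ[X])) =
      C (t.choose i * c ^ (t - i)) * ((1 + X) ^ i * X ^ (t - i)) := by
    rw [mul_pow, C_mul, C_pow, show (C (t.choose i) : ℕ[X]) = ((t.choose i : ℕ) : ℕ[X]) from
      C_eq_natCast _]
    ring
  rw [h1, coeff_C_mul, coeff_mul_X_pow']
  refine Nat.mul_le_mul_left _ ?_
  split_ifs with h
  · rw [coeff_one_add_X_pow]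
    exact Nat.choose_le_middle _ _
  · exact Nat.zero_le _

theorem central_sq (n : ℕ) : ((n.centralBinom : ℝ)) ^ 2 * (2 * n + 1) ≤ (4 ^ n) ^ 2 := by
  induction n with
  | zero => simp
  | succ n ih =>
    have h := Nat.succ_mul_centralBinom_succ n
    have h' : ((n : ℝ) + 1) * ((n + 1).centralBinom : ℝ) = 2 * (2 * n + 1) * n.centralBinom := by
      exact_mod_cast h
    have hn : (0 : ℝ) < (n : ℝ) + 1 := by positivity
    have h2 : (((n : ℝ) + 1) * ((n + 1).centralBinom : ℝ)) ^ 2 * (2 * ((n + 1 : ℕ) : ℝ) + 1) ≤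
        ((n : ℝ) + 1) ^ 2 * (4 ^ (n + 1)) ^ 2 := by
      rw [h']
      push_cast
      have e1 : (2 * (2 * (n : ℝ) + 1) * (n.centralBinom : ℝ)) ^ 2 * (2 * ((n : ℝ) + 1) + 1) =
          4 * (2 * n + 1) * (2 * n + 3) * ((n.centralBinom : ℝ) ^ 2 * (2 * n + 1)) := by ring
      rw [e1]
      have e2 : ((n : ℝ) + 1) ^ 2 * (4 ^ (n + 1)) ^ 2 =
          (16 * ((n : ℝ) + 1) ^ 2) * (4 ^ n) ^ 2 := by ring
      rw [e2]
      have h3 : 4 * (2 * (n : ℝ) + 1) * (2 * n + 3) ≤ 16 * ((n : ℝ) + 1) ^ 2 := by nlinarith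
      exact mul_le_mul h3 ih (by positivity) (by positivity)
    have h4 : ((n : ℝ) + 1) ^ 2 * (((n + 1).centralBinom : ℝ) ^ 2 * (2 * ((n + 1 : ℕ) : ℝ) + 1)) ≤
        ((n : ℝ) + 1) ^ 2 * (4 ^ (n + 1)) ^ 2 := by
      calc _ = (((n : ℝ) + 1) * ((n + 1).centralBinom : ℝ)) ^ 2 * (2 * ((n + 1 : ℕ) : ℝ) + 1) := by
            ring
        _ ≤ _ := h2
    exact le_of_mul_le_mul_left h4 (by positivity)

theorem middle_sq (i : ℕ) : ((i.choose (i / 2) : ℕ) : ℝ) ^ 2 * (i + 1) ≤ (2 ^ i) ^ 2 := by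
  obtain ⟨n, hn⟩ := Nat.even_or_odd' i
  rcases hn with rfl | rfl
  · have h := central_sq n
    have h1 : 2 * n / 2 = n := by omega
    rw [h1]
    have h2 : (2 * n).choose n = n.centralBinom := (Nat.centralBinom_eq_two_mul_choose n).symm
    rw [h2]
    push_cast
    calc _ ≤ ((4 : ℝ) ^ n) ^ 2 := h
      _ = _ := by rw [pow_mul]; norm_num
  · have h := central_sq (n + 1)
    have h1 : (2 * n + 1) / 2 = n := by omega
    rw [h1]
    have h2 : (n + 1).centralBinom = 2 * (2 * n + 1).choose n := by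
      rw [Nat.centralBinom_eq_two_mul_choose, show 2 * (n + 1) = (2 * n + 1) + 1 by ring,
        Nat.choose_succ_succ, Nat.choose_symm_half]
      ring
    rw [h2] at h
    push_cast at h ⊢
    have h3 : ((4 : ℝ) ^ (n + 1)) ^ 2 = 4 * (2 ^ (2 * n + 1)) ^ 2 := by
      rw [show (4 : ℝ) = 2 ^ 2 by norm_num, ← pow_mul, ← pow_mul, ← pow_mul, ← pow_add]
      congr 1
      ring
    rw [h3] at h
    have h4 : (0 : ℝ) ≤ ((2 * n + 1).choose n : ℝ) ^ 2 := by positivity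
    nlinarith

theorem middle_le (i : ℕ) : ((i.choose (i / 2) : ℕ) : ℝ) ≤ 2 ^ i / Real.sqrt (i + 1) := by
  have h := middle_sq i
  have h0 : (0 : ℝ) < (i : ℝ) + 1 := by positivity
  rw [le_div_iff₀ (Real.sqrt_pos.2 h0)]
  refine le_of_sq_le_sq ?_ (by positivity)
  rw [mul_pow, Real.sq_sqrt h0.le]
  exact h
where
  le_of_sq_le_sq {a b : ℝ} (h : a ^ 2 ≤ b ^ 2) (hb : 0 ≤ b) : a ≤ b :=
    le_of_abs_le_abs' (sq_le_sq.1 h) hb
  le_of_abs_le_abs' {a b : ℝ} (h : |a| ≤ |b|) (hb : 0 ≤ b) : a ≤ b := by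
    rw [abs_of_nonneg hb] at h
    exact (le_abs_self a).trans h

/-- The local bound. -/
theorem local_bound {d : ℕ} (hd : 2 ≤ d) :
    ∃ C : ℝ, 0 < C ∧ ∀ t s : ℕ, 1 ≤ t →
      cW d t (fun w => sg w = s) ≤ C * (d : ℝ) ^ t / Real.sqrt t := by
  obtain ⟨c, rfl⟩ := Nat.exists_eq_add_of_le' hd
  refine ⟨Real.sqrt ((c + 2 : ℕ) : ℝ), Real.sqrt_pos.2 (by positivity), fun t s ht => ?_⟩
  have hcard : cW (c + 2) t (fun w => sg w = s) =
      (((((1 + X) + C c * X : ℕ[X]) ^ t).coeff s : ℕ) : ℝ) := by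
    rw [← card_sg_eq]
    unfold cW
    congr 2
    ext w
    simp
  rw [hcard]
  have h1 : (((((1 + X) + C c * X : ℕ[X]) ^ t).coeff s : ℕ) : ℝ) ≤
      ∑ i ∈ Finset.range (t + 1), ((t.choose i : ℕ) : ℝ) * (c : ℝ) ^ (t - i) *
        (2 ^ i / Real.sqrt (i + 1)) := by
    have h := coeff_le c t s
    have h' : (((((1 + X) + C c * X : ℕ[X]) ^ t).coeff s : ℕ) : ℝ) ≤
        ∑ i ∈ Finset.range (t + 1), ((t.choose i : ℕ) : ℝ) * (c : ℝ) ^ (t - i) *
          ((i.choose (i / 2) : ℕ) : ℝ) := by exact_mod_cast h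
    refine h'.trans (Finset.sum_le_sum fun i _ => ?_)
    exact mul_le_mul_of_nonneg_left (middle_le i) (by positivity)
  refine h1.trans ?_
  -- Cauchy-Schwarz
  set g : ℕ → ℝ := fun i => ((t.choose i : ℕ) : ℝ) * (c : ℝ) ^ (t - i) * 2 ^ i with hg
  have hg0 : ∀ i, 0 ≤ g i := fun i => by rw [hg]; positivity
  have h2 : ∑ i ∈ Finset.range (t + 1), ((t.choose i : ℕ) : ℝ) * (c : ℝ) ^ (t - i) *
        (2 ^ i / Real.sqrt (i + 1)) =
      ∑ i ∈ Finset.range (t + 1), Real.sqrt (g i) * Real.sqrt (g i / (i + 1)) := by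
    refine Finset.sum_congr rfl fun i _ => ?_
    have e0 : Real.sqrt (g i) * Real.sqrt (g i / (i + 1)) = g i / Real.sqrt (i + 1) := by
      rw [Real.sqrt_div (hg0 i), ← mul_div_assoc, Real.mul_self_sqrt (hg0 i)]
    rw [e0, hg]
    ring
  have h3 : ∑ i ∈ Finset.range (t + 1), g i = ((c + 2 : ℕ) : ℝ) ^ t := by
    have := add_pow (2 : ℝ) (c : ℝ) t
    push_cast
    rw [add_comm (c : ℝ) 2, this]
    refine Finset.sum_congr rfl fun i _ => ?_
    rw [hg]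
    ring
  have h4 : ∑ i ∈ Finset.range (t + 1), g i / (i + 1) ≤
      ((c + 2 : ℕ) : ℝ) ^ (t + 1) / (t + 1) := by
    have e : ∀ i ∈ Finset.range (t + 1), g i / (i + 1) =
        (((t + 1).choose (i + 1) : ℕ) : ℝ) * (c : ℝ) ^ (t + 1 - (i + 1)) * 2 ^ (i + 1) /
          (2 * (t + 1)) := by
      intro i _
      have e1 : ((t + 1 : ℕ) : ℝ) * ((t.choose i : ℕ) : ℝ) =
          (((t + 1).choose (i + 1) : ℕ) : ℝ) * ((i + 1 : ℕ) : ℝ) := by
        exact_mod_cast Nat.add_one_mul_choose_eq t i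
      push_cast at e1
      have hi : (0 : ℝ) < (i : ℝ) + 1 := by positivity
      have ht' : (0 : ℝ) < (t : ℝ) + 1 := by positivity
      rw [Nat.add_sub_add_right, hg, div_eq_div_iff hi.ne' (by positivity)]
      calc _ = 2 * (c : ℝ) ^ (t - i) * 2 ^ i * (((t : ℝ) + 1) * ((t.choose i : ℕ) : ℝ)) := by ring
        _ = _ := by rw [e1]; ring
    rw [Finset.sum_congr rfl e, ← Finset.sum_div]
    have hbin := add_pow (2 : ℝ) (c : ℝ) (t + 1)
    rw [Finset.sum_range_succ'] at hbin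
    have e2 : ∑ i ∈ Finset.range (t + 1), (((t + 1).choose (i + 1) : ℕ) : ℝ) *
        (c : ℝ) ^ (t + 1 - (i + 1)) * 2 ^ (i + 1) ≤ ((c + 2 : ℕ) : ℝ) ^ (t + 1) := by
      have e4 : ((c + 2 : ℕ) : ℝ) = 2 + (c : ℝ) := by push_cast; ring
      rw [e4, hbin]
      have e3 : ∑ i ∈ Finset.range (t + 1), (((t + 1).choose (i + 1) : ℕ) : ℝ) *
          (c : ℝ) ^ (t + 1 - (i + 1)) * 2 ^ (i + 1) =
          ∑ i ∈ Finset.range (t + 1), (2 : ℝ) ^ (i + 1) * (c : ℝ) ^ (t + 1 - (i + 1)) *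
            (((t + 1).choose (i + 1) : ℕ) : ℝ) :=
        Finset.sum_congr rfl fun i _ => by ring
      rw [e3]
      have : 0 ≤ (2 : ℝ) ^ 0 * (c : ℝ) ^ (t + 1 - 0) * (((t + 1).choose 0 : ℕ) : ℝ) := by
        positivity
      linarith
    have ht' : (0 : ℝ) < (t : ℝ) + 1 := by positivity
    have hnn : (0 : ℝ) ≤ ((c + 2 : ℕ) : ℝ) ^ (t + 1) := by positivity
    calc _ ≤ ((c + 2 : ℕ) : ℝ) ^ (t + 1) / (2 * (t + 1)) :=
          div_le_div_of_nonneg_right e2 (by positivity)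
      _ ≤ _ := by
          apply div_le_div_of_nonneg_left hnn ht'
          linarith
  rw [h2]
  have h5 := Real.sum_mul_le_sqrt_mul_sqrt (Finset.range (t + 1))
    (fun i => Real.sqrt (g i)) (fun i => Real.sqrt (g i / (i + 1)))
  refine h5.trans ?_
  have h6 : ∑ i ∈ Finset.range (t + 1), Real.sqrt (g i) ^ 2 = ((c + 2 : ℕ) : ℝ) ^ t := by
    rw [← h3]
    exact Finset.sum_congr rfl fun i _ => Real.sq_sqrt (hg0 i)
  have h7 : ∑ i ∈ Finset.range (t + 1), Real.sqrt (g i / (i + 1)) ^ 2 ≤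
      ((c + 2 : ℕ) : ℝ) ^ (t + 1) / (t + 1) := by
    refine le_trans (le_of_eq (Finset.sum_congr rfl fun i _ => Real.sq_sqrt ?_)) h4
    have := hg0 i
    positivity
  rw [h6]
  have ht0 : (0 : ℝ) < (t : ℝ) := by exact_mod_cast ht
  have hD : (0 : ℝ) < ((c + 2 : ℕ) : ℝ) := by positivity
  calc Real.sqrt (((c + 2 : ℕ) : ℝ) ^ t) *
        Real.sqrt (∑ i ∈ Finset.range (t + 1), Real.sqrt (g i / (i + 1)) ^ 2)
      ≤ Real.sqrt (((c + 2 : ℕ) : ℝ) ^ t) * Real.sqrt (((c + 2 : ℕ) : ℝ) ^ (t + 1) / t) := by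
        refine mul_le_mul_of_nonneg_left (Real.sqrt_le_sqrt (h7.trans ?_)) (Real.sqrt_nonneg _)
        apply div_le_div_of_nonneg_left (by positivity) ht0
        linarith
    _ = Real.sqrt ((((c + 2 : ℕ) : ℝ) ^ t) ^ 2 * ((c + 2 : ℕ) : ℝ) / t) := by
        rw [← Real.sqrt_mul (by positivity)]
        congr 1
        rw [pow_succ]
        ring
    _ = Real.sqrt ((c + 2 : ℕ) : ℝ) * ((c + 2 : ℕ) : ℝ) ^ t / Real.sqrt t := by
        rw [Real.sqrt_div (by positivity), Real.sqrt_mul (by positivity),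
          Real.sqrt_sq (by positivity)]
        ring

end Pool.Agent.Helper52.Tao
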