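import Mathlib

/-!
# Block CC: counting points which are, at most scales, in a sparse union of clusters
-/

set_option autoImplicit false

namespace Pool.Agent.Helper52.Tao

namespace CC

open Finset

/-- Sums over long intervals. -/
theorem sum_long (f : ℕ → ℕ) (q V : ℕ) (hV : ∀ b, ∑ s ∈ Ico b (b + q), f s ≤ V) (a k : ℕ) :
    ∑ s ∈ Ico a (a + q * k), f s ≤ k * V := by
  induction k with
  | zero => simp
  | succ k ih =>
    rw [← Finset.sum_Ico_consecutive f (show a ≤ a + q * k by omega)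
      (show a + q * k ≤ a + q * (k + 1) by rw [Nat.mul_succ]; omega)]
    have h1 := hV (a + q * k)
    rw [show a + q * (k + 1) = a + q * k + q by ring, Nat.succ_mul]
    omega

open Classical in
/-- Sums over one cluster. -/
theorem sum_cluster (f : ℕ → ℕ) (q V : ℕ) (hq : 0 < q)
    (hV : ∀ b, ∑ s ∈ Ico b (b + q), f s ≤ V) (J : ℕ → Prop)
    (hJ : ∀ s s', J s → J s' → s ≤ s' → s' - s ≤ 5 * q ∨ 574 * q ≤ s' - s) (b : ℕ) :
    ∑ s ∈ (Ico b (b + 288 * q)).filter J, f s ≤ 6 * V := by
  rcases ((Ico b (b + 288 * q)).filter J).eq_empty_or_nonempty with h | h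
  · rw [h]; simp
  · set s0 := ((Ico b (b + 288 * q)).filter J).min' h with hs0
    have hm := Finset.min'_mem _ h
    rw [← hs0, mem_filter, mem_Ico] at hm
    refine le_trans ?_ (sum_long f q V hV s0 6)
    apply Finset.sum_le_sum_of_subset
    intro s hs
    have hle := Finset.min'_le _ s hs
    rw [← hs0] at hle
    rw [mem_filter, mem_Ico] at hs
    rw [mem_Ico]
    rcases hJ s0 s hm.2 hs.2 hle with h1 | h1 <;> omega

open Classical in
/-- The weights. -/
noncomputable def wt (J : ℕ → ℕ → Prop) (l s : ℕ) : ℕ := ∏ i ∈ range l, if J i s then 48 else 1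

open Classical in
theorem wt_sum (I : ℕ) (J : ℕ → ℕ → Prop)
    (hJ : ∀ l < I, ∀ s s', J l s → J l s' → s ≤ s' →
      s' - s ≤ 5 * 331776 ^ l ∨ 574 * 331776 ^ l ≤ s' - s) :
    ∀ l ≤ I, ∀ a, ∑ s ∈ Ico a (a + 331776 ^ l), wt J l s ≤ (2 * 331776) ^ l := by
  intro l
  induction l with
  | zero =>
    intro _ a
    simp [wt]
  | succ l ih =>
    intro hl a
    have ih' := ih (by omega)
    set q := 331776 ^ l with hqdef
    set V := (2 * 331776) ^ l with hVdef
    have hq : 0 < q := by positivity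
    have e : ∀ s, wt J (l + 1) s = wt J l s * if J l s then 48 else 1 := fun s =>
      Finset.prod_range_succ _ _
    have h1 : ∑ s ∈ Ico a (a + 331776 ^ (l + 1)), wt J (l + 1) s ≤
        ∑ s ∈ Ico a (a + 331776 ^ (l + 1)), wt J l s +
          48 * ∑ s ∈ (Ico a (a + 331776 ^ (l + 1))).filter (J l), wt J l s := by
      rw [Finset.sum_filter, Finset.mul_sum, ← Finset.sum_add_distrib]
      apply Finset.sum_le_sum
      intro s _
      rw [e]
      split_ifs <;> omega
    have h2 : ∑ s ∈ Ico a (a + 331776 ^ (l + 1)), wt J l s ≤ 331776 * V := by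
      have := sum_long (wt J l) q V ih' a 331776
      rwa [show q * 331776 = 331776 ^ (l + 1) by rw [pow_succ]] at this
    have h3 : ∑ s ∈ (Ico a (a + 331776 ^ (l + 1))).filter (J l), wt J l s ≤ 1152 * (6 * V) := by
      rw [Finset.sum_filter]
      have h4 : ∀ b, ∑ s ∈ Ico b (b + 288 * q), (if J l s then wt J l s else 0) ≤ 6 * V := by
        intro b
        rw [← Finset.sum_filter]
        exact sum_cluster (wt J l) q V hq ih' (J l) (hJ l (by omega)) b
      have := sum_long (fun s => if J l s then wt J l s else 0) (288 * q) (6 * V) h4 a 1152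
      rwa [show 288 * q * 1152 = 331776 ^ (l + 1) by rw [hqdef, pow_succ]; ring] at this
    calc ∑ s ∈ Ico a (a + 331776 ^ (l + 1)), wt J (l + 1) s
        ≤ 331776 * V + 48 * (1152 * (6 * V)) := h1.trans (Nat.add_le_add h2
          (Nat.mul_le_mul_left _ h3))
      _ = (2 * 331776) ^ (l + 1) := by rw [pow_succ, ← hVdef]; ring

end CC

open CC

open Classical in
/-- Counting points which are, at most scales, in a sparse union of clusters. -/
theorem cluster_count (I w₀ a R : ℕ) (J : ℕ → ℕ → Prop)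
    (hJ : ∀ l < I, ∀ s s', J l s → J l s' → s ≤ s' →
      s' - s ≤ 5 * 331776 ^ l ∨ 574 * 331776 ^ l ≤ s' - s) :
    (((Finset.Ico a (a + R)).filter
      (fun s => ((Finset.range I).filter (fun l => ¬ J l s)).card < w₀)).card : ℝ) ≤
      ((R : ℝ) + 331776 ^ I) * 48 ^ w₀ / 24 ^ I := by
  set A := (Finset.Ico a (a + R)).filter
      (fun s => ((Finset.range I).filter (fun l => ¬ J l s)).card < w₀) with hA
  have hwt : ∀ s ∈ A, 48 ^ I ≤ 48 ^ w₀ * wt J I s := by
    intro s hs
    rw [hA, Finset.mem_filter] at hs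
    have e1 : wt J I s = 48 ^ ((Finset.range I).filter (fun l => J l s)).card := by
      unfold wt
      rw [Finset.prod_ite, Finset.prod_const, Finset.prod_const_one, mul_one]
    have e2 : ((Finset.range I).filter (fun l => J l s)).card +
        ((Finset.range I).filter (fun l => ¬ J l s)).card = I := by
      have := Finset.card_filter_add_card_filter_not (s := Finset.range I) (fun l => J l s)
      rwa [Finset.card_range] at this
    rw [e1, ← pow_add]
    apply Nat.pow_le_pow_right (by norm_num)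
    have := hs.2
    omega
  -- the number of intervals
  set k := R / 331776 ^ I + 1 with hk
  have hq : 0 < 331776 ^ I := by positivity
  have hk1 : R ≤ 331776 ^ I * k := by
    rw [hk, Nat.mul_succ]
    have h1 := Nat.div_add_mod R (331776 ^ I)
    have h2 := Nat.mod_lt R hq
    omega
  have hk2 : 331776 ^ I * k ≤ R + 331776 ^ I := by
    rw [hk, Nat.mul_succ]
    have h1 := Nat.div_add_mod R (331776 ^ I)
    omega
  have h1 : ∑ s ∈ A, wt J I s ≤ k * (2 * 331776) ^ I := by
    refine le_trans ?_ (sum_long (wt J I) (331776 ^ I) _ (wt_sum I J hJ I le_rfl) a k)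
    apply Finset.sum_le_sum_of_subset
    intro s hs
    rw [hA, Finset.mem_filter, Finset.mem_Ico] at hs
    rw [Finset.mem_Ico]
    omega
  have h2 : A.card * 48 ^ I ≤ 48 ^ w₀ * (k * (2 * 331776) ^ I) := by
    calc A.card * 48 ^ I = ∑ s ∈ A, 48 ^ I := by rw [Finset.sum_const, smul_eq_mul]
      _ ≤ ∑ s ∈ A, 48 ^ w₀ * wt J I s := Finset.sum_le_sum hwt
      _ = 48 ^ w₀ * ∑ s ∈ A, wt J I s := by rw [Finset.mul_sum]
      _ ≤ _ := Nat.mul_le_mul_left _ h1
  have h3 : A.card * 48 ^ I ≤ 48 ^ w₀ * (2 ^ I * (R + 331776 ^ I)) := by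
    refine h2.trans (Nat.mul_le_mul_left _ ?_)
    calc k * (2 * 331776) ^ I = 2 ^ I * (331776 ^ I * k) := by rw [mul_pow]; ring
      _ ≤ 2 ^ I * (R + 331776 ^ I) := Nat.mul_le_mul_left _ hk2
  have h4 : (A.card : ℝ) * 48 ^ I ≤ 48 ^ w₀ * (2 ^ I * ((R : ℝ) + 331776 ^ I)) := by
    exact_mod_cast h3
  rw [le_div_iff₀ (by positivity)]
  have h5 : (0 : ℝ) < 2 ^ I := by positivity
  have e48 : (48 : ℝ) ^ I = 24 ^ I * 2 ^ I := by rw [← mul_pow]; norm_num
  rw [e48] at h4
  refine le_of_mul_le_mul_right ?_ h5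
  calc (A.card : ℝ) * 24 ^ I * 2 ^ I = (A.card : ℝ) * (24 ^ I * 2 ^ I) := by ring
    _ ≤ 48 ^ w₀ * (2 ^ I * ((R : ℝ) + 331776 ^ I)) := h4
    _ = ((R : ℝ) + 331776 ^ I) * 48 ^ w₀ * 2 ^ I := by ring

end Pool.Agent.Helper52.Tao
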