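import Pool.Agent.Helper68.Moeller.Residues

/-!
Definitions for the log-free theorem on Möller maps (MP_fd8838_nt): words of digits, the maps
`F`, `Off`, exponential sums, the black and white points.
-/

set_option autoImplicit false

namespace Pool.Agent.Helper52.Tao

open Pool.Agent.Helper68.Moeller

/-- `0` for the digit `0`, `1` for the other digits. -/
def nz (a : ℕ) : ℕ := if a = 0 then 0 else 1

/-- The number of non-zero digits of a word. -/
def sg (w : List ℕ) : ℕ := (w.map nz).sum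

/-- The words of length `t` over the digits `0, …, d - 1`. The head of the list is the digit which
is applied last (the one closest to the end point of the orbit). -/
def W (d : ℕ) : ℕ → Finset (List ℕ)
  | 0 => {[]}
  | t + 1 => (Finset.range d ×ˢ W d t).image (fun p => p.1 :: p.2)

/-- `r` extended by `0` at the digit `0`. -/
def rr (r : ℤ → ℤ) (a : ℕ) : ℤ := if a = 0 then 0 else r a

/-- The residue of the end point: if `e` is an inverse of `d` modulo `m ^ N`, the end point of an
orbit segment with word `w` is congruent to `F w` modulo `m ^ (min N (sg w))`. -/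
def F (m : ℕ) (r : ℤ → ℤ) (e : ℤ) : List ℕ → ℤ
  | [] => 0
  | a :: w => e * ((m : ℤ) ^ nz a * F m r e w - rr r a)

/-- The offset: `d ^ t * T^[t] n = m ^ sg w * n - Off w` for the word `w` of `n`. -/
def Off (d m : ℕ) (r : ℤ → ℤ) : List ℕ → ℤ
  | [] => 0
  | a :: w => (m : ℤ) ^ nz a * Off d m r w + (d : ℤ) ^ w.length * rr r a

/-- The word of length `t` of `n`; its head is the digit of `T^[t-1] n`. -/
def wd (d m : ℕ) (r : ℤ → ℤ) : ℕ → ℤ → List ℕ
  | 0, _ => []
  | t + 1, n => ((T d m r)^[t] n % (d : ℤ)).toNat :: wd d m r t n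

@[simp] theorem nz_zero : nz 0 = 0 := rfl

theorem nz_of_ne {a : ℕ} (h : a ≠ 0) : nz a = 1 := if_neg h

theorem nz_le (a : ℕ) : nz a ≤ 1 := by unfold nz; split_ifs <;> omega

@[simp] theorem sg_nil : sg [] = 0 := rfl

@[simp] theorem sg_cons (a : ℕ) (w : List ℕ) : sg (a :: w) = nz a + sg w := by
  simp [sg]

@[simp] theorem sg_append (u v : List ℕ) : sg (u ++ v) = sg u + sg v := by
  simp [sg]

theorem sg_le_length (w : List ℕ) : sg w ≤ w.length := by
  induction w with
  | nil => simp
  | cons a w ih => rw [sg_cons, List.length_cons]; have := nz_le a; omega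

@[simp] theorem rr_zero (r : ℤ → ℤ) : rr r 0 = 0 := rfl

theorem rr_of_ne {r : ℤ → ℤ} {a : ℕ} (h : a ≠ 0) : rr r a = r a := if_neg h

theorem abs_rr_le {d : ℕ} {r : ℤ → ℤ} {B : ℕ} (hB : ∀ j : ℤ, 0 < j → j < (d : ℤ) → |r j| ≤ B)
    {a : ℕ} (ha : a < d) : |rr r a| ≤ B := by
  unfold rr
  split_ifs with h
  · simp
  · exact hB a (by omega) (by exact_mod_cast ha)

theorem sum_W_succ {M : Type*} [AddCommMonoid M] (d t : ℕ) (f : List ℕ → M) :
    ∑ w ∈ W d (t + 1), f w = ∑ a ∈ Finset.range d, ∑ w ∈ W d t, f (a :: w) := by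
  rw [W, Finset.sum_image, Finset.sum_product]
  rintro ⟨a, u⟩ _ ⟨b, v⟩ _ h
  simp only [List.cons.injEq] at h
  rw [h.1, h.2]

theorem sum_W_zero {M : Type*} [AddCommMonoid M] (d : ℕ) (f : List ℕ → M) :
    ∑ w ∈ W d 0, f w = f [] := by
  rw [W, Finset.sum_singleton]

theorem sum_W_add {M : Type*} [AddCommMonoid M] (d i j : ℕ) (f : List ℕ → M) :
    ∑ w ∈ W d (i + j), f w = ∑ u ∈ W d i, ∑ v ∈ W d j, f (u ++ v) := by
  induction i generalizing f with
  | zero => rw [sum_W_zero, Nat.zero_add]; rfl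
  | succ i ih =>
    rw [Nat.add_right_comm, sum_W_succ, sum_W_succ]
    refine Finset.sum_congr rfl fun a _ => ?_
    rw [ih]
    rfl

theorem mem_W {d t : ℕ} {w : List ℕ} : w ∈ W d t ↔ w.length = t ∧ ∀ a ∈ w, a < d := by
  induction t generalizing w with
  | zero =>
    rw [W, Finset.mem_singleton, List.length_eq_zero_iff]
    constructor
    · rintro rfl; simp
    · exact fun h => h.1
  | succ t ih =>
    rw [W, Finset.mem_image]
    constructor
    · rintro ⟨⟨a, u⟩, hau, rfl⟩
      rw [Finset.mem_product, Finset.mem_range] at hau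
      obtain ⟨h1, h2⟩ := hau
      obtain ⟨h3, h4⟩ := ih.1 h2
      have h3' : u.length = t := h3
      refine ⟨by rw [List.length_cons]; exact congrArg (· + 1) h3', ?_⟩
      intro b hb
      rcases List.mem_cons.1 hb with rfl | hb
      · exact h1
      · exact h4 b hb
    · rintro ⟨h1, h2⟩
      rcases w with _ | ⟨a, u⟩
      · simp at h1
      · refine ⟨(a, u), ?_, rfl⟩
        rw [Finset.mem_product, Finset.mem_range]
        refine ⟨h2 a (by simp), ih.2 ⟨by simpa using h1, fun b hb => h2 b (by simp [hb])⟩⟩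

theorem length_of_mem_W {d t : ℕ} {w : List ℕ} (hw : w ∈ W d t) : w.length = t := (mem_W.1 hw).1

theorem card_W (d t : ℕ) : (W d t).card = d ^ t := by
  induction t with
  | zero => simp [W]
  | succ t ih =>
    have h := sum_W_succ d t (fun _ => 1)
    simp only [Finset.sum_const, smul_eq_mul, mul_one, Finset.card_range] at h
    rw [h, ih, pow_succ']

/-- Appending words. -/
theorem F_append (m : ℕ) (r : ℤ → ℤ) (e : ℤ) (u v : List ℕ) :
    F m r e (u ++ v) = F m r e u + (m : ℤ) ^ sg u * e ^ u.length * F m r e v := by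
  induction u with
  | nil => simp [F]
  | cons a u ih =>
    rw [List.cons_append, F, F, ih, sg_cons, List.length_cons]
    ring

theorem Off_append (d m : ℕ) (r : ℤ → ℤ) (u v : List ℕ) :
    Off d m r (u ++ v) = (m : ℤ) ^ sg u * Off d m r v + (d : ℤ) ^ v.length * Off d m r u := by
  induction u with
  | nil => simp [Off]
  | cons a u ih =>
    rw [List.cons_append, Off, Off, ih, sg_cons, List.length_append]
    ring

/-- `F` and `Off`: `F w ≡ - e ^ |w| Off w` modulo every `M` with `d e ≡ 1`. -/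
theorem F_modEq {d m : ℕ} {r : ℤ → ℤ} {e M : ℤ} (he : M ∣ (d : ℤ) * e - 1) (w : List ℕ) :
    M ∣ F m r e w + e ^ w.length * Off d m r w := by
  induction w with
  | nil => simp [F, Off]
  | cons a w ih =>
    rw [F, Off, List.length_cons]
    have h1 : M ∣ (d : ℤ) ^ w.length * e ^ w.length - 1 := by
      rw [← mul_pow]
      exact he.trans (sub_one_dvd_pow_sub_one _ _)
    have h2 : e * ((m : ℤ) ^ nz a * F m r e w - rr r a) +
        e ^ (w.length + 1) * ((m : ℤ) ^ nz a * Off d m r w + (d : ℤ) ^ w.length * rr r a) =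
        e * (m : ℤ) ^ nz a * (F m r e w + e ^ w.length * Off d m r w) +
          e * rr r a * ((d : ℤ) ^ w.length * e ^ w.length - 1) := by ring
    rw [h2]
    exact dvd_add (Dvd.dvd.mul_left ih _) (Dvd.dvd.mul_left h1 _)
where
  sub_one_dvd_pow_sub_one (x : ℤ) (n : ℕ) : x - 1 ∣ x ^ n - 1 := by
    simpa using sub_dvd_pow_sub_pow x 1 n

/-- The exponential `exp (2 π i x)`. -/
noncomputable def ex (x : ℝ) : ℂ := Complex.exp (2 * Real.pi * x * Complex.I)

theorem ex_add (x y : ℝ) : ex (x + y) = ex x * ex y := by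
  unfold ex
  rw [← Complex.exp_add]
  congr 1
  push_cast
  ring

@[simp] theorem ex_zero : ex 0 = 1 := by simp [ex]

@[simp] theorem ex_int (k : ℤ) : ex k = 1 := by
  unfold ex
  rw [Complex.exp_eq_one_iff]
  refine ⟨k, ?_⟩
  push_cast
  ring

@[simp] theorem norm_ex (x : ℝ) : ‖ex x‖ = 1 := by
  unfold ex
  rw [show (2 * (Real.pi : ℂ) * x * Complex.I) = ((2 * Real.pi * x : ℝ) : ℂ) * Complex.I by
    push_cast; ring]
  exact Complex.norm_exp_ofReal_mul_I _

theorem ex_add_int (x : ℝ) (k : ℤ) : ex (x + k) = ex x := by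
  rw [ex_add, ex_int, mul_one]

/-- `ex` of fractions with congruent numerators. -/
theorem ex_congr {M : ℕ} (hM : 0 < M) {a b : ℤ} (h : (M : ℤ) ∣ a - b) :
    ex ((a : ℝ) / M) = ex ((b : ℝ) / M) := by
  obtain ⟨c, hc⟩ := h
  have hM' : (M : ℝ) ≠ 0 := by positivity
  have h1 : (a : ℝ) / M = (b : ℝ) / M + (c : ℤ) := by
    have : (a : ℝ) - b = M * c := by exact_mod_cast hc
    field_simp
    linarith
  rw [h1, ex_add_int]

/-- The exponential sum over the words `w` of length `t` with `s + sg w = S`. -/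
noncomputable def Gs (d m : ℕ) (r : ℤ → ℤ) (e : ℤ) (t s S : ℕ) (x : ℝ) : ℂ :=
  ∑ w ∈ (W d t).filter (fun w => s + sg w = S), ex (-(x * F m r e w))

/-- `y` shows that the point `(s, k)` is black of depth `h`. -/
def DW (D m N K₀ : ℕ) (g : ℤ) (h s k : ℕ) (y : ℤ) : Prop :=
  (m : ℤ) ^ (N - s) ∣ (D : ℤ) ^ (k + 1 + h) * y - g ∧ (K₀ : ℤ) * (D : ℤ) ^ h * |y| ≤ (m : ℤ) ^ (N - s)

/-- The point `(s, k)` is black of depth `h`. -/
def Deep (D m N K₀ : ℕ) (g : ℤ) (h s k : ℕ) : Prop := ∃ y : ℤ, DW D m N K₀ g h s k y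

/-- White points. -/
def White (D m N K₀ : ℕ) (g : ℤ) (s k : ℕ) : Prop := ¬ Deep D m N K₀ g 0 s k

open Classical in
/-- The number of words of length `t` with the property `P` (as a real number). -/
noncomputable def cW (d t : ℕ) (P : List ℕ → Prop) : ℝ := (((W d t).filter P).card : ℝ)

theorem cW_eq_sum (d t : ℕ) (P : List ℕ → Prop) [DecidablePred P] :
    cW d t P = ∑ w ∈ W d t, if P w then (1 : ℝ) else 0 := by
  unfold cW
  rw [Finset.card_filter]
  push_cast
  refine Finset.sum_congr rfl fun w _ => ?_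
  by_cases h : P w <;> simp [h]

theorem cW_nonneg (d t : ℕ) (P : List ℕ → Prop) : 0 ≤ cW d t P := by unfold cW; positivity

theorem cW_mono {d t : ℕ} {P Q : List ℕ → Prop} (h : ∀ w ∈ W d t, P w → Q w) :
    cW d t P ≤ cW d t Q := by
  classical
  rw [cW_eq_sum, cW_eq_sum]
  refine Finset.sum_le_sum fun w hw => ?_
  by_cases h1 : P w
  · simp [h1, h w hw h1]
  · simp only [h1, if_false]
    split_ifs <;> norm_num

theorem cW_congr {d t : ℕ} {P Q : List ℕ → Prop} (h : ∀ w ∈ W d t, (P w ↔ Q w)) :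
    cW d t P = cW d t Q :=
  le_antisymm (cW_mono fun w hw => (h w hw).1) (cW_mono fun w hw => (h w hw).2)

theorem cW_le_pow (d t : ℕ) (P : List ℕ → Prop) : cW d t P ≤ (d : ℝ) ^ t := by
  classical
  rw [cW_eq_sum]
  refine (Finset.sum_le_card_nsmul _ _ 1 fun w _ => by split_ifs <;> norm_num).trans ?_
  rw [card_W, nsmul_eq_mul, mul_one]
  push_cast; rfl

theorem cW_true (d t : ℕ) : cW d t (fun _ => True) = (d : ℝ) ^ t := by
  rw [cW_eq_sum]
  simp only [if_true, Finset.sum_const, nsmul_eq_mul, mul_one]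
  rw [card_W]
  push_cast; rfl

theorem cW_or_le (d t : ℕ) (P Q : List ℕ → Prop) :
    cW d t (fun w => P w ∨ Q w) ≤ cW d t P + cW d t Q := by
  classical
  rw [cW_eq_sum, cW_eq_sum, cW_eq_sum, ← Finset.sum_add_distrib]
  refine Finset.sum_le_sum fun w _ => ?_
  by_cases h1 : P w <;> by_cases h2 : Q w <;> simp [h1, h2]

theorem cW_exists_le (d t : ℕ) {ι : Type*} (s : Finset ι) (P : ι → List ℕ → Prop) :
    cW d t (fun w => ∃ i ∈ s, P i w) ≤ ∑ i ∈ s, cW d t (P i) := by
  classical
  induction s using Finset.induction_on with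
  | empty => simp [cW]
  | insert a s ha ih =>
    rw [Finset.sum_insert ha]
    refine le_trans (le_of_eq ?_) ((cW_or_le d t (P a) (fun w => ∃ i ∈ s, P i w)).trans
      (add_le_add le_rfl ih))
    refine cW_congr fun w _ => ?_
    simp

/-- Splitting words. -/
theorem cW_add (d i j : ℕ) (P : List ℕ → Prop) :
    cW d (i + j) P = ∑ u ∈ W d i, cW d j (fun v => P (u ++ v)) := by
  classical
  rw [cW_eq_sum, sum_W_add]
  refine Finset.sum_congr rfl fun u _ => ?_
  rw [cW_eq_sum]

theorem cW_take (d i j : ℕ) (P : List ℕ → Prop) :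
    cW d (i + j) (fun w => P (w.take i)) = cW d i P * (d : ℝ) ^ j := by
  classical
  rw [cW_add, cW_eq_sum, Finset.sum_mul]
  refine Finset.sum_congr rfl fun u hu => ?_
  have h1 : ∀ v : List ℕ, (u ++ v).take i = u := by
    intro v
    rw [← length_of_mem_W hu]
    exact List.take_left
  simp only [h1]
  by_cases h : P u
  · simp only [h, if_true, one_mul]
    rw [cW_true]
  · simp [h, cW]

open Classical in
/-- The number of white points on the path of `w` (two digits per step) which starts at `(s, k)`. -/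
noncomputable def nwh (Wh : ℕ → ℕ → Prop) (L : ℕ) (w : List ℕ) (s k : ℕ) : ℕ :=
  ((Finset.range L).filter (fun i => Wh (s + sg (w.take (2 * i))) (k + i))).card

open Classical in
/-- Weighted number of paths of `L` steps (two digits per step) from `(s, k)`: at a white point the
weight of the steps with one non-zero digit is diminished by `ε`; the end point has weight `f`. -/
noncomputable def Mj (d : ℕ) (Wh : ℕ → ℕ → Prop) (ε : ℝ) (f : ℕ → ℝ) : ℕ → ℕ → ℕ → ℝ
  | 0, s, _ => f s
  | L + 1, s, k => Mj d Wh ε f L s (k + 1) +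
      (2 * ((d : ℝ) - 1) - if Wh s k then ε else 0) * Mj d Wh ε f L (s + 1) (k + 1) +
      ((d : ℝ) - 1) ^ 2 * Mj d Wh ε f L (s + 2) (k + 1)

end Pool.Agent.Helper52.Tao
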