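import Pool.Agent.Helper52.Tao.Defs

/-!
Block G1: the geometry of black points (integer divisibility and size arguments).
Written by helper78.
-/

set_option autoImplicit false

namespace Pool.Agent.Helper52.Tao

open Pool.Agent.Helper68.Moeller

/-- Cancelling a power of `D` in a divisibility by a power of `m`. -/
theorem dvd_of_dvd_pow_mul {D m : ℕ} (hco : Nat.Coprime m D) {a b : ℕ} {x : ℤ}
    (h : (m : ℤ) ^ a ∣ (D : ℤ) ^ b * x) : (m : ℤ) ^ a ∣ x := by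
  have h1 : IsCoprime ((m : ℤ) ^ a) ((D : ℤ) ^ b) :=
    IsCoprime.pow (Nat.isCoprime_iff_coprime.2 hco)
  exact h1.dvd_of_dvd_mul_left h

/-- Powers of `m` with a smaller exponent. -/
theorem pow_sub_eq {m N s s' : ℕ} (h1 : s ≤ s') (h2 : s' ≤ N) :
    (m : ℤ) ^ (N - s) = (m : ℤ) ^ (s' - s) * (m : ℤ) ^ (N - s') := by
  rw [← pow_add]
  congr 1
  omega

theorem deep_run {D m N K₀ : ℕ} {g : ℤ} (hm : 2 ≤ m) (hD : 2 ≤ D) (hco : Nat.Coprime m D)
    (hK : m ^ 2 + D < K₀) {p : ℕ → ℕ} (hp : ∀ i, p i ≤ p (i + 1) ∧ p (i + 1) ≤ p i + 2) {h k : ℕ}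
    (hN : p (k + h) ≤ N) (hb : ∀ i ≤ h, Deep D m N K₀ g 0 (p (k + i)) (k + i)) :
    Deep D m N K₀ g h (p k) k := by
  have hmono : Monotone p := monotone_nat_of_le_succ fun i => (hp i).1
  induction h generalizing k with
  | zero => simpa using hb 0 le_rfl
  | succ h ih =>
    obtain ⟨y, hy1, hy2⟩ : Deep D m N K₀ g h (p (k + 1)) (k + 1) := by
      refine ih (k := k + 1) ?_ ?_
      · have : k + 1 + h = k + (h + 1) := by omega
        rw [this]; exact hN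
      · intro i hi
        have h1 := hb (i + 1) (by omega)
        have : k + 1 + i = k + (i + 1) := by omega
        rw [this]; exact h1
    obtain ⟨z, hz1, hz2⟩ := hb 0 (by omega)
    simp only [add_zero, pow_zero, mul_one] at hz1 hz2
    have hN1 : p (k + 1) ≤ N := (hmono (by omega)).trans hN
    have hle := (hp k).1
    have hle2 := (hp k).2
    have hMM := pow_sub_eq (m := m) (N := N) hle hN1
    have hMpos : 0 < (m : ℤ) ^ (N - p (k + 1)) := by positivity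
    set M' : ℤ := (m : ℤ) ^ (N - p (k + 1)) with hM'
    have hq : (m : ℤ) ^ (p (k + 1) - p k) ≤ (m : ℤ) ^ 2 := by
      have : p (k + 1) - p k ≤ 2 := by omega
      exact pow_le_pow_right₀ (by exact_mod_cast (by omega : 1 ≤ m)) this
    have hM2 : (m : ℤ) ^ (N - p k) ≤ (m : ℤ) ^ 2 * M' := by
      rw [hMM]; exact mul_le_mul_of_nonneg_right hq hMpos.le
    -- the key equality
    have hzy : z = (D : ℤ) ^ (h + 1) * y := by
      have h1 : M' ∣ (D : ℤ) ^ (k + 1) * z - g := by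
        refine dvd_trans ?_ hz1
        rw [hMM]; exact dvd_mul_left _ _
      have h2 : M' ∣ (D : ℤ) ^ (k + 1) * (z - (D : ℤ) ^ (h + 1) * y) := by
        have := dvd_sub h1 hy1
        refine (dvd_of_eq_of_dvd' ?_ this)
        ring
      have h3 : M' ∣ z - (D : ℤ) ^ (h + 1) * y := dvd_of_dvd_pow_mul hco h2
      have hK0 : (0 : ℤ) < K₀ := by
        have : 0 < K₀ := by omega
        exact_mod_cast this
      have h4 : (K₀ : ℤ) * |z - (D : ℤ) ^ (h + 1) * y| < (K₀ : ℤ) * M' := by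
        calc (K₀ : ℤ) * |z - (D : ℤ) ^ (h + 1) * y|
            ≤ (K₀ : ℤ) * (|z| + |(D : ℤ) ^ (h + 1) * y|) :=
              mul_le_mul_of_nonneg_left (abs_sub _ _) hK0.le
          _ = (K₀ : ℤ) * |z| + D * ((K₀ : ℤ) * (D : ℤ) ^ h * |y|) := by
              rw [abs_mul, abs_pow, abs_of_nonneg (by positivity : (0 : ℤ) ≤ (D : ℤ))]
              ring
          _ ≤ (m : ℤ) ^ 2 * M' + D * M' := by
              refine add_le_add (hz2.trans hM2) ?_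
              exact mul_le_mul_of_nonneg_left hy2 (by positivity)
          _ = ((m : ℤ) ^ 2 + D) * M' := by ring
          _ < (K₀ : ℤ) * M' := by
              refine mul_lt_mul_of_pos_right ?_ hMpos
              exact_mod_cast hK
      have h5 : |z - (D : ℤ) ^ (h + 1) * y| < M' := lt_of_mul_lt_mul_left h4 hK0.le
      have h6 := Int.eq_zero_of_abs_lt_dvd h3 h5
      omega
    refine ⟨y, ?_, ?_⟩
    · rw [hzy] at hz1
      refine (dvd_of_eq_of_dvd' ?_ hz1)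
      ring
    · rw [hzy, abs_mul, abs_pow, abs_of_nonneg (by positivity : (0 : ℤ) ≤ (D : ℤ))] at hz2
      calc (K₀ : ℤ) * (D : ℤ) ^ (h + 1) * |y| = (K₀ : ℤ) * ((D : ℤ) ^ (h + 1) * |y|) := by ring
        _ ≤ _ := hz2
where
  dvd_of_eq_of_dvd' {a b c : ℤ} (h : b = c) (h' : a ∣ b) : a ∣ c := h ▸ h'

theorem DW_unique {D m N K₀ : ℕ} {g : ℤ} (hm : 2 ≤ m) (hco : Nat.Coprime m D) {h s s' k : ℕ}
    (hss : s ≤ s') (hs' : s' ≤ N) (h1 : m ^ (s' - s) + 1 < K₀ * D ^ h) {y y' : ℤ}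
    (hy : DW D m N K₀ g h s k y) (hy' : DW D m N K₀ g h s' k y') : y = y' := by
  obtain ⟨hy1, hy2⟩ := hy
  obtain ⟨hy1', hy2'⟩ := hy'
  have hMM := pow_sub_eq (m := m) (N := N) hss hs'
  have hMpos : 0 < (m : ℤ) ^ (N - s') := by positivity
  set M' : ℤ := (m : ℤ) ^ (N - s') with hM'
  have h2 : M' ∣ (D : ℤ) ^ (k + 1 + h) * y - g := by
    refine dvd_trans ?_ hy1
    rw [hMM]; exact dvd_mul_left _ _
  have h3 : M' ∣ y - y' := by
    refine dvd_of_dvd_pow_mul (b := k + 1 + h) hco ?_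
    have := dvd_sub h2 hy1'
    have e : (D : ℤ) ^ (k + 1 + h) * y - g - ((D : ℤ) ^ (k + 1 + h) * y' - g) =
      (D : ℤ) ^ (k + 1 + h) * (y - y') := by ring
    rwa [e] at this
  have hKD : (0 : ℤ) < (K₀ : ℤ) * (D : ℤ) ^ h := by
    have : 0 < K₀ * D ^ h := by omega
    exact_mod_cast this
  have h4 : (K₀ : ℤ) * (D : ℤ) ^ h * |y - y'| < (K₀ : ℤ) * (D : ℤ) ^ h * M' := by
    calc (K₀ : ℤ) * (D : ℤ) ^ h * |y - y'| ≤ (K₀ : ℤ) * (D : ℤ) ^ h * (|y| + |y'|) :=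
          mul_le_mul_of_nonneg_left (abs_sub _ _) hKD.le
      _ = (K₀ : ℤ) * (D : ℤ) ^ h * |y| + (K₀ : ℤ) * (D : ℤ) ^ h * |y'| := by ring
      _ ≤ (m : ℤ) ^ (s' - s) * M' + M' := by
          refine add_le_add ?_ hy2'
          rw [← hMM]; exact hy2
      _ = ((m : ℤ) ^ (s' - s) + 1) * M' := by ring
      _ < (K₀ : ℤ) * (D : ℤ) ^ h * M' := by
          refine mul_lt_mul_of_pos_right ?_ hMpos
          exact_mod_cast h1
  have h5 : |y - y'| < M' := lt_of_mul_lt_mul_left h4 hKD.le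
  have h6 := Int.eq_zero_of_abs_lt_dvd h3 h5
  omega

theorem deep_cluster {D m N K₀ : ℕ} {g : ℤ} (hm : 2 ≤ m) (hD : 2 ≤ D) (hco : Nat.Coprime m D)
    (hmD : m ≤ D) (hDm : D < m ^ 2) (hK : 2 ≤ K₀) {b s₀ S₁ : ℕ} {z : ℤ} (hz : ¬ (D : ℤ) ∣ z)
    (hS : S₁ ≤ N) (hz1 : (m : ℤ) ^ (N - s₀) ∣ (D : ℤ) ^ (b + 1) * z - g)
    (hz2 : 2 * |z| ≤ (m : ℤ) ^ (N - S₁)) {f h s s' : ℕ} (hh : 1 ≤ h) (h0 : s₀ ≤ s) (hss : s ≤ s')
    (h1 : s' ≤ S₁) (hs : Deep D m N K₀ g h s (b + 1 + f)) (hs' : Deep D m N K₀ g h s' (b + 1 + f)) :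
    s' - s ≤ 2 * f + 1 ∨ h ≤ s' - s := by
  obtain ⟨y, hy⟩ := hs
  obtain ⟨y', hy'⟩ := hs'
  by_cases hlt : h ≤ s' - s
  · exact Or.inr hlt
  left
  push Not at hlt
  -- the two witnesses agree
  have hyy : y = y' := by
    refine DW_unique hm hco hss (h1.trans hS) ?_ hy hy'
    have a1 : m ^ (s' - s) ≤ D ^ (h - 1) := by
      calc m ^ (s' - s) ≤ m ^ (h - 1) := Nat.pow_le_pow_right (by omega) (by omega)
        _ ≤ D ^ (h - 1) := Nat.pow_le_pow_left hmD _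
    have a2 : D ^ h = D * D ^ (h - 1) := by
      rw [← pow_succ']; congr 1; omega
    have a3 : 1 ≤ D ^ (h - 1) := Nat.one_le_pow _ _ (by omega)
    calc m ^ (s' - s) + 1 ≤ D ^ (h - 1) + D ^ (h - 1) := add_le_add a1 a3
      _ < 2 * (2 * D ^ (h - 1)) := by omega
      _ ≤ K₀ * (D * D ^ (h - 1)) := Nat.mul_le_mul hK (Nat.mul_le_mul hD le_rfl)
      _ = K₀ * D ^ h := by rw [a2]
  subst hyy
  obtain ⟨hy1, hy2⟩ := hy
  obtain ⟨hy1', hy2'⟩ := hy'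
  have hsN : s ≤ N := hss.trans (h1.trans hS)
  -- size of the witness
  have hMs : 0 < (m : ℤ) ^ (N - s) := by positivity
  have hdvd : (m : ℤ) ^ (N - s) ∣ z - (D : ℤ) ^ (f + 1 + h) * y := by
    refine dvd_of_dvd_pow_mul (b := b + 1) hco ?_
    have e1 : (m : ℤ) ^ (N - s) ∣ (D : ℤ) ^ (b + 1) * z - g := by
      refine dvd_trans ?_ hz1
      exact pow_dvd_pow _ (by omega)
    have := dvd_sub e1 hy1
    have e : (D : ℤ) ^ (b + 1) * z - g - ((D : ℤ) ^ (b + 1 + f + 1 + h) * y - g) =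
      (D : ℤ) ^ (b + 1) * (z - (D : ℤ) ^ (f + 1 + h) * y) := by ring
    rwa [e] at this
  have hne : z - (D : ℤ) ^ (f + 1 + h) * y ≠ 0 := by
    intro h0'
    apply hz
    have : z = (D : ℤ) ^ (f + 1 + h) * y := by omega
    rw [this, show f + 1 + h = (f + h) + 1 by omega, pow_succ']
    exact ⟨(D : ℤ) ^ (f + h) * y, by ring⟩
  have hle : (m : ℤ) ^ (N - s) ≤ |z - (D : ℤ) ^ (f + 1 + h) * y| :=
    Int.le_of_dvd (abs_pos.2 hne) ((dvd_abs _ _).2 hdvd)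
  have hle2 : (m : ℤ) ^ (N - s) ≤ |z| + (D : ℤ) ^ (f + 1 + h) * |y| := by
    refine hle.trans ((abs_sub _ _).trans (le_of_eq ?_))
    rw [abs_mul, abs_pow, abs_of_nonneg (by positivity : (0 : ℤ) ≤ (D : ℤ))]
  have hz3 : 2 * |z| ≤ (m : ℤ) ^ (N - s) :=
    hz2.trans (pow_le_pow_right₀ (by exact_mod_cast (by omega : 1 ≤ m)) (by omega))
  have hle3 : (m : ℤ) ^ (N - s) ≤ 2 * ((D : ℤ) ^ (f + 1 + h) * |y|) := by linarith
  have hMM := pow_sub_eq (m := m) (N := N) hss (h1.trans hS)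
  have hMpos : 0 < (m : ℤ) ^ (N - s') := by positivity
  set M' : ℤ := (m : ℤ) ^ (N - s') with hM'
  have hK0 : (0 : ℤ) ≤ K₀ := by positivity
  have h5 : 2 * (m : ℤ) ^ (s' - s) * M' ≤ 2 * (D : ℤ) ^ (f + 1) * M' := by
    calc 2 * (m : ℤ) ^ (s' - s) * M' = 2 * (m : ℤ) ^ (N - s) := by rw [hMM]; ring
      _ ≤ K₀ * (m : ℤ) ^ (N - s) := mul_le_mul_of_nonneg_right (by exact_mod_cast hK) hMs.le
      _ ≤ K₀ * (2 * ((D : ℤ) ^ (f + 1 + h) * |y|)) := mul_le_mul_of_nonneg_left hle3 hK0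
      _ = 2 * (D : ℤ) ^ (f + 1) * (K₀ * (D : ℤ) ^ h * |y|) := by ring
      _ ≤ 2 * (D : ℤ) ^ (f + 1) * M' := mul_le_mul_of_nonneg_left hy2' (by positivity)
  have h6 : 2 * (m : ℤ) ^ (s' - s) ≤ 2 * (D : ℤ) ^ (f + 1) := le_of_mul_le_mul_right h5 hMpos
  have h7 : m ^ (s' - s) ≤ D ^ (f + 1) := by
    have : (m : ℤ) ^ (s' - s) ≤ (D : ℤ) ^ (f + 1) := by linarith
    exact_mod_cast this
  have h8 : m ^ (s' - s) < m ^ (2 * (f + 1)) := by
    calc m ^ (s' - s) ≤ D ^ (f + 1) := h7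
      _ < (m ^ 2) ^ (f + 1) := Nat.pow_lt_pow_left hDm (by omega)
      _ = m ^ (2 * (f + 1)) := by rw [← pow_mul]
  have h9 := (Nat.pow_lt_pow_iff_right (by omega : 1 < m)).1 h8
  omega

end Pool.Agent.Helper52.Tao
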