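import Pool.Agent.Helper52.Tao.G1

/-!
Block G2 (helper76): few white points, pigeonhole.
-/

set_option autoImplicit false

namespace Pool.Agent.Helper52.Tao

open Pool.Agent.Helper68.Moeller

open Classical in
/-- Pigeonhole: if every `i` in `T` comes with an element `x` of `S` such that `i` is determined
by `x`, then `T` is not larger than `S`. -/
theorem G2_card_le_of_disj (T S : Finset ℕ) (R : ℕ → ℕ → Prop)
    (h1 : ∀ i ∈ T, ∃ x ∈ S, R i x) (h2 : ∀ i j x, R i x → R j x → i = j) : T.card ≤ S.card := by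
  choose! g hg using h1
  exact Finset.card_le_card_of_injOn g (fun i hi => (hg i hi).1)
    (fun i hi j hj hij => h2 i j (g i) (hg i hi).2 (by
      have := (hg j hj).2
      rwa [← hij] at this))

open Classical in
/-- Few white points: a window without white points. -/
theorem exists_deep_window {D m N K₀ : ℕ} {g : ℤ} (hm : 2 ≤ m) (hD : 2 ≤ D)
    (hco : Nat.Coprime m D) (hK : m ^ 2 + D < K₀) {p : ℕ → ℕ}
    (hp : ∀ i, p i ≤ p (i + 1) ∧ p (i + 1) ≤ p i + 2) {L w₀ δ lam : ℕ} (hlam : 1 ≤ lam)
    (hL : δ + w₀ * lam ≤ L) (hN : p L ≤ N)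
    (hw : ((Finset.range L).filter (fun i => White D m N K₀ g (p i) i)).card < w₀) :
    ∃ i < w₀, Deep D m N K₀ g (lam - 1) (p (δ + i * lam)) (δ + i * lam) := by
  have hmono : Monotone p := monotone_nat_of_le_succ fun i => (hp i).1
  by_contra hcon
  push Not at hcon
  have h3 : (Finset.range w₀).card ≤
      ((Finset.range L).filter (fun i => White D m N K₀ g (p i) i)).card := by
    refine G2_card_le_of_disj _ _ (fun i x => δ + i * lam ≤ x ∧ x < δ + (i + 1) * lam) ?_ ?_
    · intro i hi
      rw [Finset.mem_range] at hi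
      by_contra hno
      push Not at hno
      have hle : δ + (i + 1) * lam ≤ L := by
        have : (i + 1) * lam ≤ w₀ * lam := Nat.mul_le_mul_right lam hi
        omega
      have hexp : (i + 1) * lam = i * lam + lam := by ring
      refine hcon i hi (deep_run hm hD hco hK hp
        ((hmono (by omega : δ + i * lam + (lam - 1) ≤ L)).trans hN) fun j hj => ?_)
      by_contra hdeep
      have hmem : δ + i * lam + j ∈
          (Finset.range L).filter (fun i => White D m N K₀ g (p i) i) := by
        rw [Finset.mem_filter, Finset.mem_range]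
        exact ⟨by omega, hdeep⟩
      have h4 := hno _ hmem (by omega)
      omega
    · rintro i j x ⟨h5, h6⟩ ⟨h7, h8⟩
      rcases lt_trichotomy i j with hij | hij | hij
      · have : (i + 1) * lam ≤ j * lam := Nat.mul_le_mul_right lam hij
        omega
      · exact hij
      · have : (j + 1) * lam ≤ i * lam := Nat.mul_le_mul_right lam hij
        omega
  rw [Finset.card_range] at h3
  omega

open Classical in
/-- Few white points: most scales see a deep point. -/
theorem few_white_scales {D m N K₀ : ℕ} {g : ℤ} (hm : 2 ≤ m) (hD : 2 ≤ D)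
    (hco : Nat.Coprime m D) (hK : m ^ 2 + D < K₀) {p : ℕ → ℕ}
    (hp : ∀ i, p i ≤ p (i + 1) ∧ p (i + 1) ≤ p i + 2) {L w₀ b I Q K : ℕ} (hKQ : K + 1 < Q)
    (hQ : 1 ≤ K) (hL : b + 1 + Q ^ I ≤ L) (hN : p L ≤ N)
    (hw : ((Finset.range L).filter (fun i => White D m N K₀ g (p i) i)).card < w₀) :
    ((Finset.range I).filter (fun l => ¬ ∃ s, p (b + 1) ≤ s ∧ s ≤ p (b + 1) + 2 * Q ^ l ∧
      Deep D m N K₀ g (K * Q ^ l) s (b + 1 + Q ^ l))).card < w₀ := by
  have hmono : Monotone p := monotone_nat_of_le_succ fun i => (hp i).1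
  have hQ0 : 0 < Q := by omega
  have hpow : ∀ l, (K + 1) * Q ^ l < Q ^ (l + 1) := by
    intro l
    rw [pow_succ, mul_comm (Q ^ l) Q]
    exact Nat.mul_lt_mul_of_pos_right hKQ (pow_pos hQ0 l)
  have hgrow : ∀ n, p (b + 1 + n) ≤ p (b + 1) + 2 * n := by
    intro n
    induction n with
    | zero => simp
    | succ n ih =>
      have := (hp (b + 1 + n)).2
      rw [show b + 1 + (n + 1) = b + 1 + n + 1 by ring]
      omega
  refine lt_of_le_of_lt (G2_card_le_of_disj _ _
    (fun l x => b + 1 + Q ^ l ≤ x ∧ x < b + 1 + Q ^ (l + 1)) ?_ ?_) hw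
  · intro l hl
    rw [Finset.mem_filter, Finset.mem_range] at hl
    obtain ⟨hlI, hno⟩ := hl
    by_contra hno2
    push Not at hno2
    have hle : Q ^ (l + 1) ≤ Q ^ I := Nat.pow_le_pow_right hQ0 hlI
    have hpl := hpow l
    have hexp : (K + 1) * Q ^ l = K * Q ^ l + Q ^ l := by ring
    refine hno ⟨p (b + 1 + Q ^ l), hmono (by omega), hgrow _, deep_run hm hD hco hK hp
      ((hmono (by omega : b + 1 + Q ^ l + K * Q ^ l ≤ L)).trans hN) fun j hj => ?_⟩
    by_contra hdeep
    have hmem : b + 1 + Q ^ l + j ∈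
        (Finset.range L).filter (fun i => White D m N K₀ g (p i) i) := by
      rw [Finset.mem_filter, Finset.mem_range]
      exact ⟨by omega, hdeep⟩
    have h4 := hno2 _ hmem (by omega)
    omega
  · rintro i j x ⟨h5, h6⟩ ⟨h7, h8⟩
    rcases lt_trichotomy i j with hij | hij | hij
    · have : Q ^ (i + 1) ≤ Q ^ j := Nat.pow_le_pow_right hQ0 hij
      omega
    · exact hij
    · have : Q ^ (j + 1) ≤ Q ^ i := Nat.pow_le_pow_right hQ0 hij
      omega

end Pool.Agent.Helper52.Tao
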