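import Pool.Agent.Helper52.Tao.A1
import Pool.Agent.Helper52.Tao.G2
import Pool.Agent.Helper52.Tao.CC

/-!
The union bound for one window.
-/

set_option autoImplicit false

namespace Pool.Agent.Helper52.Tao

open Pool.Agent.Helper68.Moeller

/-- The position of the path of `w` after `i` steps. -/
def pos (w : List ℕ) (i : ℕ) : ℕ := sg (w.take (2 * i))

theorem pos_step (w : List ℕ) (i : ℕ) : pos w i ≤ pos w (i + 1) ∧ pos w (i + 1) ≤ pos w i + 2 := by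
  have h1 : w.take (2 * (i + 1)) = w.take (2 * i) ++ (w.drop (2 * i)).take 2 := by
    rw [show 2 * (i + 1) = 2 * i + 2 by ring, List.take_add]
  have h2 : sg ((w.drop (2 * i)).take 2) ≤ 2 :=
    (sg_le_length _).trans (by rw [List.length_take]; exact min_le_left _ _)
  unfold pos
  rw [h1, sg_append]
  omega

theorem pos_mono (w : List ℕ) : Monotone (pos w) := monotone_nat_of_le_succ fun i => (pos_step w i).1

theorem pos_le_add (w : List ℕ) (i j : ℕ) : pos w (i + j) ≤ pos w i + 2 * j := by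
  induction j with
  | zero => simp
  | succ j ih =>
    have := (pos_step w (i + j)).2
    rw [← Nat.add_assoc]; omega

theorem pos_eq_sg {d L : ℕ} {w : List ℕ} (hw : w ∈ W d (2 * L)) : pos w L = sg w := by
  unfold pos
  rw [← length_of_mem_W hw, List.take_length]

theorem nwh_eq (Wh : ℕ → ℕ → Prop) [∀ s k, Decidable (Wh s k)] (L : ℕ) (w : List ℕ) :
    nwh Wh L w 0 0 = ((Finset.range L).filter (fun i => Wh (pos w i) i)).card := by
  unfold nwh pos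
  simp only [zero_add]

theorem cheb_pos {d : ℕ} (hd : 2 ≤ d) {L i : ℕ} (hi : i ≤ L) {R : ℝ} (hR : 0 < R) :
    cW d (2 * L) (fun w => R < |(pos w i : ℝ) - (1 - 1 / (d : ℝ)) * (2 * i)|) ≤
      (d : ℝ) ^ (2 * L) * (2 * L / R ^ 2) := by
  have h1 := chebyshev hd (2 * i) hR
  have h2 := cW_take d (2 * i) (2 * L - 2 * i)
    (fun w => R < |(sg w : ℝ) - (1 - 1 / (d : ℝ)) * (2 * i : ℕ)|)
  rw [show 2 * i + (2 * L - 2 * i) = 2 * L by omega] at h2
  push_cast at h1 h2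
  unfold pos
  rw [h2]
  have hd0 : (0 : ℝ) < d := by positivity
  have hiL : (i : ℝ) ≤ L := by exact_mod_cast hi
  calc _ ≤ ((d : ℝ) ^ (2 * i) * (2 * i / R ^ 2)) * (d : ℝ) ^ (2 * L - 2 * i) := by gcongr
    _ = (d : ℝ) ^ (2 * i + (2 * L - 2 * i)) * (2 * i / R ^ 2) := by rw [pow_add]; ring
    _ = (d : ℝ) ^ (2 * L) * (2 * i / R ^ 2) := by
        rw [show 2 * i + (2 * L - 2 * i) = 2 * L by omega]
    _ ≤ _ := by gcongr

theorem count_pos {d : ℕ} (hd : 2 ≤ d) {C₁ : ℝ} (hloc : ∀ t s : ℕ, 1 ≤ t →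
      cW d t (fun w => sg w = s) ≤ C₁ * (d : ℝ) ^ t / Real.sqrt t) {L i : ℕ} (hi : i ≤ L)
    (hi1 : 1 ≤ i) (S : Finset ℕ) :
    cW d (2 * L) (fun w => pos w i ∈ S) ≤
      S.card * (C₁ * (d : ℝ) ^ (2 * L) / Real.sqrt (2 * i)) := by
  have h0 : cW d (2 * L) (fun w => pos w i ∈ S) = cW d (2 * L) (fun w => ∃ s ∈ S, pos w i = s) :=
    cW_congr fun w _ => by simp
  rw [h0]
  refine (cW_exists_le d (2 * L) S (fun s w => pos w i = s)).trans ?_
  rw [← nsmul_eq_mul]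
  refine Finset.sum_le_card_nsmul _ _ _ fun s _ => ?_
  have h1 := hloc (2 * i) s (by omega)
  have h2 := cW_take d (2 * i) (2 * L - 2 * i) (fun w => sg w = s)
  rw [show 2 * i + (2 * L - 2 * i) = 2 * L by omega] at h2
  unfold pos
  rw [h2]
  have hd0 : (0 : ℝ) < d := by positivity
  push_cast at h1
  calc _ ≤ (C₁ * (d : ℝ) ^ (2 * i) / Real.sqrt (2 * i)) * (d : ℝ) ^ (2 * L - 2 * i) := by gcongr
    _ = C₁ * (d : ℝ) ^ (2 * i + (2 * L - 2 * i)) / Real.sqrt (2 * i) := by rw [pow_add]; ring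
    _ = _ := by rw [show 2 * i + (2 * L - 2 * i) = 2 * L by omega]

/-- **One window.** The number of words with few white points whose path is deep at the time `g₁`. -/
theorem index_bound {d m : ℕ} (hd : 2 ≤ d) (hdm : d < m) (hmD : m ≤ d ^ 2) (hco : Nat.Coprime m d)
    {C₁ : ℝ} (hC₁ : 0 < C₁) (hloc : ∀ t s : ℕ, 1 ≤ t →
      cW d t (fun w => sg w = s) ≤ C₁ * (d : ℝ) ^ t / Real.sqrt t)
    {N K₀ n₀ : ℕ} {g : ℤ} (hg : ¬ (m : ℤ) ^ n₀ ∣ g) (hK : m ^ 2 + d ^ 2 < K₀)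
    {L w₀ I g₁ h : ℕ} {R : ℝ} (hR : 0 < R) (hg₁ : 1 ≤ g₁)
    (H1 : ∀ v : ℕ, h ≤ v → (2 * (1 - 1 / (d : ℝ)) * (v + 1) + 2 * R + 2 * 331776 ^ I + 1) *
      Real.log m ≤ v * (2 * Real.log d))
    (H2 : ∀ v : ℕ, (v : ℝ) * (2 * Real.log d) ≤ N * Real.log m → g₁ + v + 1 + 331776 ^ I ≤ L)
    (H3 : 2 * (1 - 1 / (d : ℝ)) * L + R + 2 * 331776 ^ I + 1 ≤ N) :
    cW d (2 * L) (fun w => nwh (White (d ^ 2) m N K₀ g) L w 0 0 < w₀ ∧ sg w + n₀ ≤ N ∧
        Deep (d ^ 2) m N K₀ g h (pos w g₁) g₁) ≤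
      (d : ℝ) ^ (2 * L) * (2 * (2 * L / R ^ 2) + C₁ * (2 * R + 3 + 331776 ^ I) * 48 ^ w₀ / 24 ^ I /
        Real.sqrt (2 * g₁)) := by
  classical
  set p : ℝ := 1 - 1 / (d : ℝ) with hp
  have hd' : (2 : ℝ) ≤ d := by exact_mod_cast hd
  have hd0 : (0 : ℝ) < d := by linarith
  have hp0 : 0 ≤ p := by
    rw [hp, sub_nonneg, div_le_one hd0]; linarith
  have hm2 : 2 ≤ m := by omega
  have hD2 : 2 ≤ d ^ 2 := hd.trans (Nat.le_self_pow two_ne_zero d)
  have hcoD : Nat.Coprime m (d ^ 2) := Nat.Coprime.pow_right 2 hco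
  have hDm : d ^ 2 < m ^ 2 := Nat.pow_lt_pow_left hdm (by norm_num)
  have hlogd : 0 < Real.log d := Real.log_pos (by linarith)
  have hlogm : 0 < Real.log m := Real.log_pos (by exact_mod_cast (by omega : 1 < m))
  have hg₁L : g₁ + 0 + 1 + 331776 ^ I ≤ L := H2 0 (by simp; positivity)
  have hQI : 1 ≤ 331776 ^ I := Nat.one_le_pow _ _ (by norm_num)
  have hbd0 : 0 ≤ (d : ℝ) ^ (2 * L) := by positivity
  set E : List ℕ → Prop := fun w => nwh (White (d ^ 2) m N K₀ g) L w 0 0 < w₀ ∧ sg w + n₀ ≤ N ∧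
        Deep (d ^ 2) m N K₀ g h (pos w g₁) g₁ with hE
  set P : ℕ → Prop := fun s => |(s : ℝ) - p * (2 * g₁)| ≤ R ∧ s + n₀ ≤ N ∧
    Deep (d ^ 2) m N K₀ g h s g₁ with hP
  have hposN : ∀ w ∈ W d (2 * L), sg w + n₀ ≤ N → ∀ i ≤ L, pos w i + n₀ ≤ N := by
    intro w hw h1 i hi
    have := pos_mono w hi
    rw [pos_eq_sg hw] at this
    omega
  have hlast : 0 ≤ C₁ * (2 * R + 3 + 331776 ^ I) * 48 ^ w₀ / 24 ^ I / Real.sqrt (2 * g₁) := by
    positivity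
  by_cases hex : ∃ s, P s
  swap
  · have h1 : cW d (2 * L) E ≤ cW d (2 * L) (fun w => R < |(pos w g₁ : ℝ) - p * (2 * g₁)|) := by
      refine cW_mono fun w hw hw' => ?_
      by_contra hcon
      exact hex ⟨pos w g₁, not_lt.1 hcon, hposN w hw hw'.2.1 g₁ (by omega), hw'.2.2⟩
    refine h1.trans ((cheb_pos hd (by omega) hR).trans ?_)
    refine mul_le_mul_of_nonneg_left ?_ hbd0
    have : 0 ≤ 2 * L / R ^ 2 := by positivity
    linarith
  -- the leftmost deep point of the corridor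
  set s₀ := Nat.find hex with hs₀
  obtain ⟨hs1, hs2, y, hy1, hy2⟩ := Nat.find_spec hex
  have hmin : ∀ s, P s → s₀ ≤ s := fun s hs => Nat.find_min' hex hs
  -- `y ≠ 0`
  have hy0 : y ≠ 0 := by
    rintro rfl
    rw [mul_zero, zero_sub, dvd_neg] at hy1
    exact hg ((pow_dvd_pow (m : ℤ) (show n₀ ≤ N - s₀ by omega)).trans hy1)
  have hfin : FiniteMultiplicity ((d ^ 2 : ℕ) : ℤ) y := by
    rw [Int.finiteMultiplicity_iff]
    refine ⟨?_, hy0⟩
    rw [Int.natAbs_natCast]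
    omega
  obtain ⟨z, hz1, hz2⟩ := hfin.exists_eq_pow_mul_and_not_dvd
  set μ := multiplicity ((d ^ 2 : ℕ) : ℤ) y with hμ
  set v := h + μ with hv
  set b := g₁ + v with hb
  have hz0 : z ≠ 0 := by
    rintro rfl
    exact hy0 (by rw [hz1, mul_zero])
  have habsz : 1 ≤ |z| := Int.one_le_abs hz0
  -- divisibility at the row `b`
  have hdiv : (m : ℤ) ^ (N - s₀) ∣ ((d ^ 2 : ℕ) : ℤ) ^ (b + 1) * z - g := by
    have : ((d ^ 2 : ℕ) : ℤ) ^ (g₁ + 1 + h) * y = ((d ^ 2 : ℕ) : ℤ) ^ (b + 1) * z := by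
      rw [hz1, ← mul_assoc, ← pow_add]
      congr 2
      omega
    rw [← this]; exact hy1
  -- size
  have hsize : (K₀ : ℤ) * ((d ^ 2 : ℕ) : ℤ) ^ v * |z| ≤ (m : ℤ) ^ (N - s₀) := by
    have : (K₀ : ℤ) * ((d ^ 2 : ℕ) : ℤ) ^ h * |y| = (K₀ : ℤ) * ((d ^ 2 : ℕ) : ℤ) ^ v * |z| := by
      rw [hz1, abs_mul, abs_of_nonneg (by positivity : (0 : ℤ) ≤ ((d ^ 2 : ℕ) : ℤ) ^ μ), hv, pow_add]
      ring
    rw [← this]; exact hy2
  have hK2 : 2 ≤ K₀ := hD2.trans ((Nat.le_add_left _ _).trans hK.le)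
  -- bound for `v`
  have hvL : g₁ + v + 1 + 331776 ^ I ≤ L := by
    apply H2
    have h1 : ((d ^ 2 : ℕ) : ℤ) ^ v ≤ (m : ℤ) ^ N := by
      have h2 : ((d ^ 2 : ℕ) : ℤ) ^ v * 1 ≤ (K₀ : ℤ) * ((d ^ 2 : ℕ) : ℤ) ^ v * |z| := by
        have h3 : (0 : ℤ) ≤ ((d ^ 2 : ℕ) : ℤ) ^ v := by positivity
        have h4 : (1 : ℤ) ≤ K₀ := by exact_mod_cast (by omega : 1 ≤ K₀)
        calc ((d ^ 2 : ℕ) : ℤ) ^ v * 1 ≤ ((d ^ 2 : ℕ) : ℤ) ^ v * |z| := by gcongr
          _ = 1 * (((d ^ 2 : ℕ) : ℤ) ^ v * |z|) := by ring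
          _ ≤ K₀ * (((d ^ 2 : ℕ) : ℤ) ^ v * |z|) := by
              have : (0 : ℤ) ≤ |z| := abs_nonneg z
              gcongr
          _ = _ := by ring
      have h3 : (m : ℤ) ^ (N - s₀) ≤ (m : ℤ) ^ N :=
        pow_le_pow_right₀ (by exact_mod_cast (by omega : 1 ≤ m)) (Nat.sub_le _ _)
      linarith
    have h2 : ((d : ℝ) ^ 2) ^ v ≤ (m : ℝ) ^ N := by exact_mod_cast h1
    have h3 := Real.log_le_log (by positivity) h2
    rw [Real.log_pow, Real.log_pow, Real.log_pow] at h3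
    push_cast at h3
    linarith
  have hbL : b + 1 ≤ L := by omega
  -- the right end of the region
  set hi : ℝ := p * (2 * (b + 1 : ℕ)) + R with hhi
  set S₁ : ℕ := ⌊hi⌋₊ + 2 * 331776 ^ I with hS₁
  have hhi0 : 0 ≤ hi := by positivity
  have hS₁real : (S₁ : ℝ) ≤ hi + 2 * 331776 ^ I := by
    rw [hS₁]; push_cast
    linarith [Nat.floor_le hhi0]
  have hS₁N : S₁ ≤ N := by
    have h1 : (S₁ : ℝ) ≤ N := by
      refine hS₁real.trans ?_
      have h2 : ((b + 1 : ℕ) : ℝ) ≤ L := by exact_mod_cast hbL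
      have h3 : p * (2 * ((b + 1 : ℕ) : ℝ)) ≤ p * (2 * L) := by gcongr
      rw [hhi]
      linarith
    exact_mod_cast h1
  -- `2 |z| ≤ m ^ (N - S₁)`
  have hzS : 2 * |z| ≤ (m : ℤ) ^ (N - S₁) := by
    rcases le_or_gt S₁ s₀ with hle | hlt
    · have h1 : (m : ℤ) ^ (N - s₀) ≤ (m : ℤ) ^ (N - S₁) :=
        pow_le_pow_right₀ (by exact_mod_cast (by omega : 1 ≤ m)) (by omega)
      have h2 : 2 * |z| ≤ (K₀ : ℤ) * ((d ^ 2 : ℕ) : ℤ) ^ v * |z| := by
        have h3 : (1 : ℤ) ≤ ((d ^ 2 : ℕ) : ℤ) ^ v := one_le_pow₀ (by exact_mod_cast (by omega))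
        have h4 : (2 : ℤ) ≤ K₀ := by exact_mod_cast hK2
        have h5 : (0 : ℤ) ≤ |z| := abs_nonneg z
        have h6 : (2 : ℤ) * 1 ≤ K₀ * ((d ^ 2 : ℕ) : ℤ) ^ v :=
          mul_le_mul h4 h3 zero_le_one (le_trans zero_le_two h4)
        rw [mul_one] at h6
        exact mul_le_mul_of_nonneg_right h6 h5
      linarith
    · have hpow : (m : ℤ) ^ (S₁ - s₀) ≤ ((d ^ 2 : ℕ) : ℤ) ^ v := by
        have h1 : (m : ℝ) ^ (S₁ - s₀) ≤ ((d : ℝ) ^ 2) ^ v := by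
          have hm0 : (0 : ℝ) < m := by exact_mod_cast (by omega : 0 < m)
          rw [← Real.log_le_log_iff (by positivity) (by positivity), Real.log_pow, Real.log_pow,
            Real.log_pow]
          have h2 := H1 v (by omega)
          have h3 : ((S₁ - s₀ : ℕ) : ℝ) ≤ 2 * p * (v + 1) + 2 * R + 2 * 331776 ^ I + 1 := by
            rw [Nat.cast_sub hlt.le]
            have h4 : p * (2 * g₁) - R ≤ s₀ := by
              have := (abs_le.1 hs1).1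
              linarith
            have h5 : hi = p * (2 * (g₁ + v + 1)) + R := by
              rw [hhi, hb]; push_cast; ring
            rw [h5] at hS₁real
            linarith
          have h4 := mul_le_mul_of_nonneg_right h3 hlogm.le
          push_cast
          linarith
        exact_mod_cast h1
      have h2 : (m : ℤ) ^ (N - s₀) = (m : ℤ) ^ (N - S₁) * (m : ℤ) ^ (S₁ - s₀) := by
        rw [← pow_add]; congr 1; omega
      have h3 : (0 : ℤ) < (m : ℤ) ^ (S₁ - s₀) := by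
        have : (0 : ℤ) < m := by exact_mod_cast (by omega : 0 < m)
        positivity
      have h4 : 2 * |z| * (m : ℤ) ^ (S₁ - s₀) ≤ (K₀ : ℤ) * ((d ^ 2 : ℕ) : ℤ) ^ v * |z| := by
        have h5 : (2 : ℤ) ≤ K₀ := by exact_mod_cast hK2
        have h6 : (0 : ℤ) ≤ |z| := abs_nonneg z
        calc 2 * |z| * (m : ℤ) ^ (S₁ - s₀) ≤ 2 * |z| * ((d ^ 2 : ℕ) : ℤ) ^ v := by gcongr
          _ ≤ (K₀ : ℤ) * |z| * ((d ^ 2 : ℕ) : ℤ) ^ v := by gcongr
          _ = _ := by ring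
      have h5 : 2 * |z| * (m : ℤ) ^ (S₁ - s₀) ≤ (m : ℤ) ^ (N - S₁) * (m : ℤ) ^ (S₁ - s₀) := by
        rw [← h2]; exact h4.trans hsize
      exact le_of_mul_le_mul_right h5 h3
  -- the bad set
  set lo : ℝ := p * (2 * (b + 1 : ℕ)) - R with hlo
  set J : ℕ → ℕ → Prop := fun l s => s₀ ≤ s ∧ (s : ℝ) ≤ hi ∧ ∃ s', s ≤ s' ∧ s' ≤ s + 2 * 331776 ^ l ∧
    Deep (d ^ 2) m N K₀ g (576 * 331776 ^ l) s' (b + 1 + 331776 ^ l) with hJ
  set a : ℕ := ⌈lo⌉₊ with ha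
  set Rn : ℕ := ⌊2 * R⌋₊ + 2 with hRn
  set Bad : Finset ℕ := (Finset.Ico a (a + Rn)).filter
    (fun s => ((Finset.range I).filter (fun l => ¬ J l s)).card < w₀) with hBad
  have hBadcard : (Bad.card : ℝ) ≤ (2 * R + 3 + 331776 ^ I) * 48 ^ w₀ / 24 ^ I := by
    have h1 := cluster_count I w₀ a Rn J (by
      intro l hl s s' hs hs' hss
      obtain ⟨a1, a2, u, a3, a4, a5⟩ := hs
      obtain ⟨b1, b2, u', b3, b4, b5⟩ := hs'
      have hQl : 1 ≤ 331776 ^ l := Nat.one_le_pow _ _ (by norm_num)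
      have hQlI : 331776 ^ l ≤ 331776 ^ I := Nat.pow_le_pow_right (by norm_num) hl.le
      have hu : u ≤ S₁ := by
        have : s ≤ ⌊hi⌋₊ := Nat.le_floor a2
        omega
      have hu' : u' ≤ S₁ := by
        have : s' ≤ ⌊hi⌋₊ := Nat.le_floor b2
        omega
      rcases le_total u u' with huu | huu
      · rcases deep_cluster hm2 hD2 hcoD hmD hDm hK2 hz2 hS₁N hdiv hzS (by omega) (by omega) huu
          hu' a5 b5 with hc | hc
        · left; omega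
        · right; omega
      · rcases deep_cluster hm2 hD2 hcoD hmD hDm hK2 hz2 hS₁N hdiv hzS (by omega) (by omega) huu
          hu b5 a5 with hc | hc
        · left; omega
        · left; omega)
    have h1' : (Bad.card : ℝ) ≤ ((Rn : ℝ) + 331776 ^ I) * 48 ^ w₀ / 24 ^ I := by
      convert h1
    refine h1'.trans ?_
    have h2 : (Rn : ℝ) ≤ 2 * R + 3 := by
      rw [hRn]; push_cast
      linarith [Nat.floor_le (show 0 ≤ 2 * R by positivity)]
    have h3 : (Rn : ℝ) + 331776 ^ I ≤ 2 * R + 3 + 331776 ^ I := by linarith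
    gcongr
  -- the event is contained in two exceptional events and the bad positions
  have hsub : cW d (2 * L) E ≤ cW d (2 * L) (fun w => (R < |(pos w g₁ : ℝ) - p * (2 * g₁)| ∨
      R < |(pos w (b + 1) : ℝ) - p * (2 * (b + 1 : ℕ))|) ∨ pos w (b + 1) ∈ Bad) := by
    refine cW_mono fun w hw hw' => ?_
    obtain ⟨e1, e2, e3⟩ := hw'
    by_contra hcon
    rw [not_or, not_or, not_lt, not_lt] at hcon
    obtain ⟨⟨c1, c2⟩, c3⟩ := hcon
    have hposg : s₀ ≤ pos w g₁ := hmin _ ⟨c1, hposN w hw e2 g₁ (by omega), e3⟩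
    have hposb : s₀ ≤ pos w (b + 1) := hposg.trans (pos_mono w (by omega))
    rw [abs_le] at c2
    apply c3
    rw [hBad, Finset.mem_filter, Finset.mem_Ico]
    have hposhi : (pos w (b + 1) : ℝ) ≤ hi := by rw [hhi]; linarith [c2.2]
    refine ⟨⟨?_, ?_⟩, ?_⟩
    · rw [ha]
      exact Nat.ceil_le.2 (by rw [hlo]; linarith [c2.1])
    · have h1 : (pos w (b + 1) : ℝ) < a + Rn := by
        have h2 : lo ≤ a := Nat.le_ceil _
        have h3 : 2 * R < ⌊2 * R⌋₊ + 1 := Nat.lt_floor_add_one _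
        rw [hRn]; push_cast
        rw [hhi] at hposhi
        rw [hlo] at h2
        linarith
      exact_mod_cast h1
    · rw [nwh_eq] at e1
      have h1 := few_white_scales hm2 hD2 hcoD hK (pos_step w) (L := L) (w₀ := w₀) (b := b) (I := I)
        (Q := 331776) (K := 576) (by norm_num) (by norm_num) (by omega)
        (by have := hposN w hw e2 L le_rfl; omega) e1
      refine lt_of_le_of_lt (Finset.card_le_card ?_) h1
      intro l hl
      rw [Finset.mem_filter] at hl ⊢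
      refine ⟨hl.1, fun hcon => hl.2 ?_⟩
      obtain ⟨s', q1, q2, q3⟩ := hcon
      exact ⟨hposb, hposhi, s', q1, q2, q3⟩
  refine hsub.trans ((cW_or_le _ _ _ _).trans ?_)
  have hA := cW_or_le d (2 * L) (fun w => R < |(pos w g₁ : ℝ) - p * (2 * g₁)|)
    (fun w => R < |(pos w (b + 1) : ℝ) - p * (2 * (b + 1 : ℕ))|)
  have hA1 := cheb_pos hd (show g₁ ≤ L by omega) hR
  have hA2 := cheb_pos hd hbL hR
  have hA3 := count_pos hd hloc hbL (by omega) Bad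
  have hsq : Real.sqrt (2 * g₁) ≤ Real.sqrt (2 * (b + 1 : ℕ)) := by
    apply Real.sqrt_le_sqrt
    have : (g₁ : ℝ) ≤ (b + 1 : ℕ) := by exact_mod_cast (by omega : g₁ ≤ b + 1)
    linarith
  have hsq0 : 0 < Real.sqrt (2 * g₁) := by
    apply Real.sqrt_pos.2
    have : (1 : ℝ) ≤ g₁ := by exact_mod_cast hg₁
    linarith
  have hA4 : (Bad.card : ℝ) * (C₁ * (d : ℝ) ^ (2 * L) / Real.sqrt (2 * (b + 1 : ℕ))) ≤
      (d : ℝ) ^ (2 * L) * (C₁ * (2 * R + 3 + 331776 ^ I) * 48 ^ w₀ / 24 ^ I / Real.sqrt (2 * g₁)) := by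
    calc (Bad.card : ℝ) * (C₁ * (d : ℝ) ^ (2 * L) / Real.sqrt (2 * (b + 1 : ℕ)))
        ≤ ((2 * R + 3 + 331776 ^ I) * 48 ^ w₀ / 24 ^ I) *
          (C₁ * (d : ℝ) ^ (2 * L) / Real.sqrt (2 * g₁)) := by
          gcongr
      _ = _ := by ring
  have hA5 : (d : ℝ) ^ (2 * L) * (2 * (2 * L / R ^ 2) +
      C₁ * (2 * R + 3 + 331776 ^ I) * 48 ^ w₀ / 24 ^ I / Real.sqrt (2 * g₁)) =
      (d : ℝ) ^ (2 * L) * (2 * L / R ^ 2) + (d : ℝ) ^ (2 * L) * (2 * L / R ^ 2) +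
      (d : ℝ) ^ (2 * L) * (C₁ * (2 * R + 3 + 331776 ^ I) * 48 ^ w₀ / 24 ^ I / Real.sqrt (2 * g₁)) := by
    ring
  rw [hA5]
  push_cast at hA hA2 hA3 hA4 ⊢
  linarith

end Pool.Agent.Helper52.Tao
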