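import Pool.Agent.Helper52.Tao.A3
import Pool.Agent.Helper52.Tao.U1
import Pool.Agent.Helper52.Tao.R2
import Pool.Agent.Helper52.Tao.U2a

/-!
The bound of the number of words with few white points.
-/

set_option autoImplicit false

namespace Pool.Agent.Helper52.Tao

open Pool.Agent.Helper68.Moeller

/-- All windows together. -/
theorem few_white_bound {d m : ℕ} (hd : 2 ≤ d) (hdm : d < m) (hmD : m ≤ d ^ 2)
    (hco : Nat.Coprime m d) {C₁ : ℝ} (hC₁ : 0 < C₁) (hloc : ∀ t s : ℕ, 1 ≤ t →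
      cW d t (fun w => sg w = s) ≤ C₁ * (d : ℝ) ^ t / Real.sqrt t)
    {N K₀ n₀ : ℕ} {g : ℤ} (hg : ¬ (m : ℤ) ^ n₀ ∣ g) (hK : m ^ 2 + d ^ 2 < K₀)
    {L w₀ I δ lam : ℕ} {R : ℝ} (hR : 0 < R) (hδ : 1 ≤ δ) (hlam : 1 ≤ lam) (hδL : w₀ * lam ≤ δ)
    (H1 : ∀ v : ℕ, lam - 1 ≤ v → (2 * (1 - 1 / (d : ℝ)) * (v + 1) + 2 * R + 2 * 331776 ^ I + 1) *
      Real.log m ≤ v * (2 * Real.log d))
    (H2 : ∀ v : ℕ, (v : ℝ) * (2 * Real.log d) ≤ N * Real.log m → 2 * δ + v + 1 + 331776 ^ I ≤ L)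
    (H3 : 2 * (1 - 1 / (d : ℝ)) * L + R + 2 * 331776 ^ I + 1 ≤ N) :
    cW d (2 * L) (fun w => nwh (White (d ^ 2) m N K₀ g) L w 0 0 < w₀) ≤
      cW d (2 * L) (fun w => N < sg w + n₀) +
      w₀ * ((d : ℝ) ^ (2 * L) * (2 * (2 * L / R ^ 2) +
        C₁ * (2 * R + 3 + 331776 ^ I) * 48 ^ w₀ / 24 ^ I / Real.sqrt (2 * δ))) := by
  classical
  have hm2 : 2 ≤ m := by omega
  have hD2 : 2 ≤ d ^ 2 := hd.trans (Nat.le_self_pow two_ne_zero d)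
  have hcoD : Nat.Coprime m (d ^ 2) := Nat.Coprime.pow_right 2 hco
  have hL0 : 2 * δ + 0 + 1 + 331776 ^ I ≤ L := H2 0 (by
    simp only [Nat.cast_zero, zero_mul]
    have : 0 ≤ Real.log m := Real.log_nonneg (by exact_mod_cast (by omega : 1 ≤ m))
    positivity)
  have hQI : 1 ≤ 331776 ^ I := Nat.one_le_pow _ _ (by norm_num)
  have hsub : cW d (2 * L) (fun w => nwh (White (d ^ 2) m N K₀ g) L w 0 0 < w₀) ≤
      cW d (2 * L) (fun w => N < sg w + n₀ ∨ ∃ i ∈ Finset.range w₀,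
        (nwh (White (d ^ 2) m N K₀ g) L w 0 0 < w₀ ∧ sg w + n₀ ≤ N ∧
        Deep (d ^ 2) m N K₀ g (lam - 1) (pos w (δ + i * lam)) (δ + i * lam))) := by
    refine cW_mono fun w hw hw' => ?_
    by_cases h1 : N < sg w + n₀
    · exact Or.inl h1
    · right
      have h2 := hw'
      rw [nwh_eq] at h2
      obtain ⟨i, hi, hi2⟩ := exists_deep_window hm2 hD2 hcoD hK (pos_step w) (L := L) (δ := δ)
        hlam (by omega) (by rw [pos_eq_sg hw]; omega) h2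
      exact ⟨i, Finset.mem_range.2 hi, hw', by omega, hi2⟩
  refine hsub.trans ((cW_or_le _ _ _ _).trans (add_le_add le_rfl ?_))
  refine (cW_exists_le d (2 * L) (Finset.range w₀) _).trans ?_
  rw [← nsmul_eq_mul, ← Finset.card_range w₀, Finset.card_range]
  have h3 : ∀ i ∈ Finset.range w₀, cW d (2 * L) (fun w =>
      (nwh (White (d ^ 2) m N K₀ g) L w 0 0 < w₀ ∧ sg w + n₀ ≤ N ∧
        Deep (d ^ 2) m N K₀ g (lam - 1) (pos w (δ + i * lam)) (δ + i * lam))) ≤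
      (d : ℝ) ^ (2 * L) * (2 * (2 * L / R ^ 2) +
        C₁ * (2 * R + 3 + 331776 ^ I) * 48 ^ w₀ / 24 ^ I / Real.sqrt (2 * δ)) := by
    intro i hi
    rw [Finset.mem_range] at hi
    have hgi : δ + i * lam ≤ 2 * δ := by
      have : i * lam ≤ w₀ * lam := Nat.mul_le_mul_right _ hi.le
      omega
    refine (index_bound hd hdm hmD hco hC₁ hloc hg hK hR (by omega) H1 (fun v hv => ?_) H3).trans ?_
    · have := H2 v hv; omega
    · have hδ' : (1 : ℝ) ≤ δ := by exact_mod_cast hδ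
      have hsq : Real.sqrt (2 * δ) ≤ Real.sqrt (2 * (δ + i * lam : ℕ)) := by
        apply Real.sqrt_le_sqrt
        have : (δ : ℝ) ≤ (δ + i * lam : ℕ) := by exact_mod_cast (by omega)
        linarith
      have hsq0 : 0 < Real.sqrt (2 * δ) := Real.sqrt_pos.2 (by linarith)
      gcongr
  refine (Finset.sum_le_card_nsmul _ _ _ h3).trans ?_
  rw [Finset.card_range]



/-- **Few white points are rare.** -/
theorem few_white_large {d m : ℕ} (hd : 2 ≤ d) (hdm : d < m) (hco : Nat.Coprime m d)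
    (hm : (m : ℝ) ≤ (d : ℝ) ^ ((d : ℝ) / ((d : ℝ) - 1))) {K₀ n₀ : ℕ} (hK : m ^ 2 + d ^ 2 < K₀)
    {θ : ℝ} (hθ1 : Real.log m / (2 * Real.log d) < θ) (hθ2 : 2 * (1 - 1 / (d : ℝ)) * θ < 1) :
    ∃ (J₀ : ℕ) (C : ℝ), 0 < C ∧ ∀ J N : ℕ, J₀ ≤ J → ((24 : ℝ) ^ J) ^ 64 ≤ N → ∀ g : ℤ,
      ¬ (m : ℤ) ^ n₀ ∣ g →
      cW d (2 * ⌊θ * N⌋₊) (fun w => nwh (White (d ^ 2) m N K₀ g) ⌊θ * N⌋₊ w 0 0 < J) ≤
        C * (d : ℝ) ^ (2 * ⌊θ * N⌋₊) * ((24 : ℝ) ^ J)⁻¹ ^ 3 :=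
  few_white_large_of hd hdm hco hm hK hθ1 hθ2 (local_bound hd)
    fun hmD {_} hC₁ hloc {_ _ _} {_} hg hK' {_ _ _ _ _} {_} hR hδ hlam hδL H1 H2 H3 =>
      few_white_bound hd hdm hmD hco hC₁ hloc hg hK' hR hδ hlam hδL H1 H2 H3

end Pool.Agent.Helper52.Tao
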